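import Pool.Agent.Lib.MP_c80ac4_an.Riesz

/-! # Sidon inequality on arcs -/

namespace Forcing

open Complex Metric Set MeasureTheory Filter Topology

/-- **Module ARC.** Sidon inequality on arcs, uniform in the arc. -/
theorem sidonIneq_arc (q l : ℝ) (hq : 1 < q) (hl : 0 < l) :
    ∃ (N : ℕ) (C : ℝ), ∀ α β : ℝ, l ≤ β - α →
      SidonIneq q N C {z : ℂ | ∃ t ∈ Set.Icc α β, z = Complex.exp (t * Complex.I)} := by
  obtain ⟨N, C, h⟩ := sidonIneq_of_decay q (2 / l) 1 hq one_pos
  refine ⟨N, C, fun α β hαβ => ?_⟩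
  have hL : 0 < β - α := lt_of_lt_of_le hl hαβ
  have hab : α ≤ β := by linarith
  set c : ENNReal := (ENNReal.ofReal (β - α))⁻¹ with hc
  set ν : Measure ℝ := c • (volume : Measure ℝ).restrict (Set.Icc α β) with hν
  have hνprob : IsProbabilityMeasure ν := by
    constructor
    rw [hν, Measure.smul_apply, Measure.restrict_apply MeasurableSet.univ, Set.univ_inter,
      Real.volume_Icc, hc, smul_eq_mul]
    exact ENNReal.inv_mul_cancel (by simpa using hL) ENNReal.ofReal_ne_top
  have hfc : Continuous fun t : ℝ => Complex.exp (t * Complex.I) := by fun_prop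
  have hfm : Measurable fun t : ℝ => Complex.exp (t * Complex.I) := hfc.measurable
  set μ : Measure ℂ := ν.map fun t : ℝ => Complex.exp (t * Complex.I) with hμ
  have hμprob : IsProbabilityMeasure μ := Measure.isProbabilityMeasure_map hfm.aemeasurable
  refine h μ _ ?_ ?_ ?_
  · rw [hμ, ae_map_iff hfm.aemeasurable (measurableSet_eq_fun measurable_norm measurable_const)]
    exact Eventually.of_forall fun t => Complex.norm_exp_ofReal_mul_I t
  · have hclosed : IsClosed {z : ℂ | ∃ t ∈ Set.Icc α β, z = Complex.exp (t * Complex.I)} := by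
      have : {z : ℂ | ∃ t ∈ Set.Icc α β, z = Complex.exp (t * Complex.I)} =
          (fun t : ℝ => Complex.exp (t * Complex.I)) '' Set.Icc α β := by
        ext z
        constructor
        · rintro ⟨t, ht, rfl⟩
          exact ⟨t, ht, rfl⟩
        · rintro ⟨t, ht, rfl⟩
          exact ⟨t, ht, rfl⟩
      rw [this]
      exact (isCompact_Icc.image hfc).isClosed
    refine (ae_map_iff hfm.aemeasurable hclosed.measurableSet).2 ?_
    have hae : ∀ᵐ t ∂((volume : Measure ℝ).restrict (Set.Icc α β)), t ∈ Set.Icc α β :=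
      ae_restrict_mem measurableSet_Icc
    have hae2 : ∀ᵐ t ∂ν, t ∈ Set.Icc α β := by
      rw [hν]
      exact Measure.ae_smul_measure hae c
    filter_upwards [hae2] with t ht
    exact ⟨t, ht, rfl⟩
  · intro n hn
    have hn0 : (0 : ℝ) < n := by exact_mod_cast hn
    have hnc : (n : ℂ) ≠ 0 := by exact_mod_cast (by omega : n ≠ 0)
    rw [hμ, integral_map hfm.aemeasurable (by
      exact (continuous_pow n).aestronglyMeasurable)]
    have hpow : ∀ t : ℝ, Complex.exp (t * Complex.I) ^ n =
        Complex.exp (((n : ℂ) * Complex.I) * t) := by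
      intro t
      rw [← Complex.exp_nat_mul]
      congr 1
      ring
    simp_rw [hpow]
    rw [hν, integral_smul_measure, MeasureTheory.integral_Icc_eq_integral_Ioc,
      ← intervalIntegral.integral_of_le hab]
    have hnI : ((n : ℂ) * Complex.I) ≠ 0 := mul_ne_zero hnc I_ne_zero
    rw [integral_exp_mul_complex hnI]
    have hctr : c.toReal = (β - α)⁻¹ := by
      rw [hc, ENNReal.toReal_inv, ENNReal.toReal_ofReal hL.le]
    rw [hctr, norm_smul, norm_div, norm_mul, Complex.norm_natCast, Complex.norm_I, mul_one,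
      Real.norm_eq_abs, abs_of_pos (inv_pos.2 hL)]
    have hnum : ‖Complex.exp ((n : ℂ) * Complex.I * (β : ℂ)) -
        Complex.exp ((n : ℂ) * Complex.I * (α : ℂ))‖ ≤ 2 := by
      have h1 : ∀ x : ℝ, ‖Complex.exp ((n : ℂ) * Complex.I * (x : ℂ))‖ = 1 := by
        intro x
        have : (n : ℂ) * Complex.I * (x : ℂ) = ((n * x : ℝ) : ℂ) * Complex.I := by
          push_cast
          ring
        rw [this]
        exact Complex.norm_exp_ofReal_mul_I _
      calc _ ≤ ‖Complex.exp ((n : ℂ) * Complex.I * (β : ℂ))‖ +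
            ‖Complex.exp ((n : ℂ) * Complex.I * (α : ℂ))‖ := norm_sub_le _ _
        _ = 2 := by rw [h1, h1]; norm_num
    calc (β - α)⁻¹ * (‖Complex.exp ((n : ℂ) * Complex.I * (β : ℂ)) -
        Complex.exp ((n : ℂ) * Complex.I * (α : ℂ))‖ / (n : ℝ))
        ≤ l⁻¹ * (2 / n) := by gcongr
      _ = 2 / l * (n : ℝ) ^ (-1 : ℝ) := by
          rw [Real.rpow_neg_one]
          ring

theorem sidonOn_sphere : SidonOn (sphere (0 : ℂ) 1) := by
  intro q hq
  obtain ⟨N, C, h⟩ := sidonIneq_arc q 1 hq one_pos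
  refine ⟨N, C, (h 0 1 (by norm_num)).mono ?_⟩
  rintro z ⟨t, _, rfl⟩
  simp [Complex.norm_exp_ofReal_mul_I]

end Forcing
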