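import Pool.Agent.Lib.MP_c80ac4_an.Defs

/-! # A Sidon set has powers of uniformly positive Minkowski dimension -/

namespace Forcing

open Complex Metric Set MeasureTheory Filter Topology

/-- The sign of a boolean. -/
def boxSg (b : Bool) : ℝ := if b then 1 else -1

theorem boxSg_abs (b : Bool) : |boxSg b| = 1 := by
  cases b <;> simp [boxSg]

theorem box_chernoff (K : ℕ) (hK : 0 < K) (a : Fin K → ℝ) (ha : ∀ k, |a k| ≤ 1) (t : ℝ)
    (ht : 0 < t) :
    ((Finset.univ.filter fun ε : Fin K → Bool => t ≤ ∑ k, boxSg (ε k) * a k).card : ℝ) ≤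
      2 ^ K * Real.exp (-(t ^ 2 / (2 * K))) := by
  classical
  have hKr : (0 : ℝ) < K := by exact_mod_cast hK
  set l : ℝ := t / K with hl
  have hl0 : 0 < l := by positivity
  have hsum : ∑ ε : Fin K → Bool, Real.exp (l * ∑ k, boxSg (ε k) * a k) =
      ∏ k, ∑ b : Bool, Real.exp (l * (boxSg b * a k)) := by
    rw [Finset.prod_univ_sum, Fintype.piFinset_univ]
    refine Finset.sum_congr rfl fun ε _ => ?_
    rw [Finset.mul_sum, Real.exp_sum]
  have hprod : ∏ k, ∑ b : Bool, Real.exp (l * (boxSg b * a k)) ≤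
      ∏ _k : Fin K, (2 * Real.exp (l ^ 2 / 2)) := by
    refine Finset.prod_le_prod (fun k _ => Finset.sum_nonneg fun b _ => (Real.exp_pos _).le)
      fun k _ => ?_
    have h1 : ∑ b : Bool, Real.exp (l * (boxSg b * a k)) = 2 * Real.cosh (l * a k) := by
      rw [Fintype.sum_bool, Real.cosh_eq]
      simp only [boxSg, if_true, Bool.false_eq_true, if_false]
      have e1 : l * (1 * a k) = l * a k := by ring
      have e2 : l * (-1 * a k) = -(l * a k) := by ring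
      rw [e1, e2]
      ring
    rw [h1]
    have h2 : Real.cosh (l * a k) ≤ Real.exp ((l * a k) ^ 2 / 2) := Real.cosh_le_exp_half_sq _
    have h3 : (l * a k) ^ 2 ≤ l ^ 2 := by
      rw [mul_pow]
      have : (a k) ^ 2 ≤ 1 := by
        rw [← sq_abs]
        have := ha k
        have h0 := abs_nonneg (a k)
        nlinarith
      nlinarith [sq_nonneg l]
    have h4 : Real.exp ((l * a k) ^ 2 / 2) ≤ Real.exp (l ^ 2 / 2) :=
      Real.exp_le_exp.2 (by linarith)
    linarith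
  have hprod2 : ∏ _k : Fin K, (2 * Real.exp (l ^ 2 / 2)) = 2 ^ K * Real.exp (K * (l ^ 2 / 2)) := by
    rw [Finset.prod_const, Finset.card_univ, Fintype.card_fin, mul_pow, ← Real.exp_nat_mul]
  have hlow : ((Finset.univ.filter fun ε : Fin K → Bool =>
      t ≤ ∑ k, boxSg (ε k) * a k).card : ℝ) * Real.exp (l * t) ≤
      ∑ ε : Fin K → Bool, Real.exp (l * ∑ k, boxSg (ε k) * a k) := by
    rw [← nsmul_eq_mul, ← Finset.sum_const]
    calc ∑ _ε ∈ Finset.univ.filter (fun ε : Fin K → Bool => t ≤ ∑ k, boxSg (ε k) * a k),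
          Real.exp (l * t)
        ≤ ∑ ε ∈ Finset.univ.filter (fun ε : Fin K → Bool => t ≤ ∑ k, boxSg (ε k) * a k),
          Real.exp (l * ∑ k, boxSg (ε k) * a k) := by
          refine Finset.sum_le_sum fun ε hε => ?_
          apply Real.exp_le_exp.2
          exact mul_le_mul_of_nonneg_left (Finset.mem_filter.1 hε).2 hl0.le
      _ ≤ ∑ ε : Fin K → Bool, Real.exp (l * ∑ k, boxSg (ε k) * a k) :=
          Finset.sum_le_sum_of_subset_of_nonneg (Finset.filter_subset _ _)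
            fun ε _ _ => (Real.exp_pos _).le
  have hmain : ((Finset.univ.filter fun ε : Fin K → Bool =>
      t ≤ ∑ k, boxSg (ε k) * a k).card : ℝ) * Real.exp (l * t) ≤
      2 ^ K * Real.exp (K * (l ^ 2 / 2)) := by
    refine hlow.trans ?_
    rw [hsum, ← hprod2]
    exact hprod
  have hlt : l * t = t ^ 2 / K := by
    rw [hl]
    ring
  have hll : (K : ℝ) * (l ^ 2 / 2) = t ^ 2 / (2 * K) := by
    rw [hl]
    field_simp
  have hexp : Real.exp (K * (l ^ 2 / 2)) = Real.exp (-(t ^ 2 / (2 * K))) * Real.exp (l * t) := by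
    rw [← Real.exp_add, hlt, hll]
    congr 1
    field_simp
    ring
  rw [hexp, ← mul_assoc] at hmain
  exact le_of_mul_le_mul_right hmain (Real.exp_pos _)

theorem box_count (K : ℕ) (hK : 0 < K) (u : Fin K → ℂ) (hu : ∀ k, ‖u k‖ ≤ 1) (c : ℝ)
    (hc : 0 < c) :
    ((Finset.univ.filter fun ε : Fin K → Bool =>
      c ≤ ‖∑ k, ((1 / (K : ℝ) * boxSg (ε k) : ℝ) : ℂ) * u k‖).card : ℝ) ≤
      4 * (2 ^ K * Real.exp (-(c ^ 2 * K / 8))) := by
  classical
  have hKr : (0 : ℝ) < K := by exact_mod_cast hK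
  have ht : 0 < c * K / 2 := by positivity
  let A : (Fin K → ℝ) → Finset (Fin K → Bool) := fun a =>
    Finset.univ.filter fun ε : Fin K → Bool => c * K / 2 ≤ ∑ k, boxSg (ε k) * a k
  have hA : ∀ a : Fin K → ℝ, (∀ k, |a k| ≤ 1) →
      ((A a).card : ℝ) ≤ 2 ^ K * Real.exp (-(c ^ 2 * K / 8)) := by
    intro a ha
    refine (box_chernoff K hK a ha _ ht).trans (le_of_eq ?_)
    congr 2
    field_simp
    ring
  have hre : ∀ k, |(u k).re| ≤ 1 := fun k => (Complex.abs_re_le_norm _).trans (hu k)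
  have him : ∀ k, |(u k).im| ≤ 1 := fun k => (Complex.abs_im_le_norm _).trans (hu k)
  have hsub : (Finset.univ.filter fun ε : Fin K → Bool =>
      c ≤ ‖∑ k, ((1 / (K : ℝ) * boxSg (ε k) : ℝ) : ℂ) * u k‖) ⊆
      (A (fun k => (u k).re) ∪ A (fun k => -(u k).re)) ∪
        (A (fun k => (u k).im) ∪ A (fun k => -(u k).im)) := by
    intro ε hε
    have hε2 := (Finset.mem_filter.1 hε).2
    set S : ℂ := ∑ k, ((1 / (K : ℝ) * boxSg (ε k) : ℝ) : ℂ) * u k with hS
    have hSre : S.re = (1 / K) * ∑ k, boxSg (ε k) * (u k).re := by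
      rw [hS, Complex.re_sum, Finset.mul_sum]
      refine Finset.sum_congr rfl fun k _ => ?_
      rw [Complex.re_ofReal_mul]
      ring
    have hSim : S.im = (1 / K) * ∑ k, boxSg (ε k) * (u k).im := by
      rw [hS, Complex.im_sum, Finset.mul_sum]
      refine Finset.sum_congr rfl fun k _ => ?_
      rw [Complex.im_ofReal_mul]
      ring
    have hnorm : ‖S‖ ≤ |S.re| + |S.im| := Complex.norm_le_abs_re_add_abs_im S
    have hcase : c / 2 ≤ |S.re| ∨ c / 2 ≤ |S.im| := by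
      by_contra hcon
      push Not at hcon
      linarith [hcon.1, hcon.2]
    have hmul : ∀ x : ℝ, c / 2 ≤ (1 / K) * x → c * K / 2 ≤ x := by
      intro x hx
      rw [one_div, inv_mul_eq_div, le_div_iff₀ hKr] at hx
      linarith
    have hneg : ∀ a : Fin K → ℝ, ∑ k, boxSg (ε k) * -(a k) = -∑ k, boxSg (ε k) * a k := by
      intro a
      rw [← Finset.sum_neg_distrib]
      exact Finset.sum_congr rfl fun k _ => by ring
    simp only [Finset.mem_union, A, Finset.mem_filter, Finset.mem_univ, true_and]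
    rcases hcase with h | h
    · left
      rcases le_abs.1 h with h | h
      · left
        rw [hSre] at h
        exact hmul _ h
      · right
        rw [hneg]
        rw [hSre] at h
        apply hmul
        linarith
    · right
      rcases le_abs.1 h with h | h
      · left
        rw [hSim] at h
        exact hmul _ h
      · right
        rw [hneg]
        rw [hSim] at h
        apply hmul
        linarith
  have hcard := Finset.card_le_card hsub
  have h1 := Finset.card_union_le (A (fun k => (u k).re) ∪ A (fun k => -(u k).re))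
    (A (fun k => (u k).im) ∪ A (fun k => -(u k).im))
  have h2 := Finset.card_union_le (A (fun k => (u k).re)) (A (fun k => -(u k).re))
  have h3 := Finset.card_union_le (A (fun k => (u k).im)) (A (fun k => -(u k).im))
  have h4 := hA (fun k => (u k).re) hre
  have h5 := hA (fun k => -(u k).re) (fun k => by rw [abs_neg]; exact hre k)
  have h6 := hA (fun k => (u k).im) him
  have h7 := hA (fun k => -(u k).im) (fun k => by rw [abs_neg]; exact him k)
  have h8 : ((Finset.univ.filter fun ε : Fin K → Bool =>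
      c ≤ ‖∑ k, ((1 / (K : ℝ) * boxSg (ε k) : ℝ) : ℂ) * u k‖).card : ℝ) ≤
      ((A (fun k => (u k).re)).card + (A (fun k => -(u k).re)).card +
        ((A (fun k => (u k).im)).card + (A (fun k => -(u k).im)).card) : ℝ) := by
    exact_mod_cast hcard.trans (h1.trans (Nat.add_le_add h2 h3))
  linarith

theorem box_pow_sub (a b : ℂ) (ha : ‖a‖ ≤ 1) (hb : ‖b‖ ≤ 1) (n : ℕ) :
    ‖a ^ n - b ^ n‖ ≤ n * ‖a - b‖ := by
  induction n with
  | zero => simp
  | succ n ih =>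
    have h1 : a ^ (n + 1) - b ^ (n + 1) = a ^ n * (a - b) + (a ^ n - b ^ n) * b := by ring
    have h2 : ‖a ^ n‖ ≤ 1 := by
      rw [norm_pow]
      exact pow_le_one₀ (norm_nonneg _) ha
    calc ‖a ^ (n + 1) - b ^ (n + 1)‖ = ‖a ^ n * (a - b) + (a ^ n - b ^ n) * b‖ := by rw [h1]
      _ ≤ ‖a ^ n * (a - b)‖ + ‖(a ^ n - b ^ n) * b‖ := norm_add_le _ _
      _ = ‖a ^ n‖ * ‖a - b‖ + ‖a ^ n - b ^ n‖ * ‖b‖ := by rw [norm_mul, norm_mul]
      _ ≤ 1 * ‖a - b‖ + n * ‖a - b‖ * 1 := by gcongr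
      _ = ((n + 1 : ℕ) : ℝ) * ‖a - b‖ := by
          push_cast
          ring

/-- The test for one sign pattern. -/
theorem box_test {E : Set ℂ} (hE : E ⊆ sphere 0 1) {N : ℕ} {C : ℝ} (hS : SidonIneq 2 N C E)
    (hC : 1 ≤ C) (k0 : ℕ) (hk0 : N ≤ 2 ^ k0) (m : ℕ) (hm : 1 ≤ m) (K : ℕ) (hK : 0 < K) (ρ : ℝ)
    (hρ : 0 ≤ ρ) (herr : 2 * ρ * 2 ^ (k0 + K) ≤ 1 / (4 * C)) (T : Finset ℂ) (r : ℂ → ℂ)
    (hr : ∀ z ∈ E, ∃ w ∈ T, r w ∈ E ∧ ‖z ^ m - (r w) ^ m‖ ≤ 2 * ρ) (ε : Fin K → Bool) :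
    ∃ w ∈ T, r w ∈ E ∧ 1 / (2 * C) ≤
      ‖∑ k : Fin K, ((1 / (K : ℝ) * boxSg (ε k) : ℝ) : ℂ) * ((r w) ^ m) ^ (2 ^ (k0 + (k : ℕ)))‖ := by
  classical
  by_contra hcon
  push Not at hcon
  have hKr : (0 : ℝ) < K := by exact_mod_cast hK
  have hC0 : 0 < C := by linarith
  let fr : Fin K → ℕ := fun k => m * 2 ^ (k0 + (k : ℕ))
  have hinj : Function.Injective fr := by
    intro a b hab
    have h1 : 2 ^ (k0 + (a : ℕ)) = 2 ^ (k0 + (b : ℕ)) := Nat.eq_of_mul_eq_mul_left (by omega) hab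
    have h2 := Nat.pow_right_injective le_rfl h1
    have h3 : (a : ℕ) = b := by
      have h4 : k0 + (a : ℕ) = k0 + (b : ℕ) := h2
      omega
    exact Fin.ext h3
  let s : Finset ℕ := Finset.univ.image fr
  let c : ℕ → ℂ := fun n => ∑ k : Fin K, if n = fr k then ((1 / (K : ℝ) * boxSg (ε k) : ℝ) : ℂ)
    else 0
  have hcfr : ∀ k, c (fr k) = ((1 / (K : ℝ) * boxSg (ε k) : ℝ) : ℂ) := by
    intro k
    simp only [c]
    rw [Finset.sum_eq_single k]
    · simp
    · intro j _ hj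
      rw [if_neg]
      intro h
      exact hj (hinj h).symm
    · intro h
      exact absurd (Finset.mem_univ _) h
  have hlac : LacSet 2 N (s : Set ℕ) := by
    constructor
    · intro n hn
      obtain ⟨k, _, rfl⟩ := Finset.mem_image.1 (Finset.mem_coe.1 hn)
      refine ⟨by positivity, hk0.trans ?_⟩
      calc 2 ^ k0 ≤ 2 ^ (k0 + (k : ℕ)) := Nat.pow_le_pow_right (by norm_num) (by omega)
        _ = 1 * 2 ^ (k0 + (k : ℕ)) := (one_mul _).symm
        _ ≤ m * 2 ^ (k0 + (k : ℕ)) := Nat.mul_le_mul_right _ hm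
    · intro a ha b hb hab
      obtain ⟨k, _, rfl⟩ := Finset.mem_image.1 (Finset.mem_coe.1 ha)
      obtain ⟨j, _, rfl⟩ := Finset.mem_image.1 (Finset.mem_coe.1 hb)
      have h1 : 2 ^ (k0 + (k : ℕ)) < 2 ^ (k0 + (j : ℕ)) := lt_of_mul_lt_mul_left' hab
      have h2 : k0 + (k : ℕ) < k0 + (j : ℕ) := (Nat.pow_lt_pow_iff_right (by norm_num)).1 h1
      have h3 : 2 * (m * 2 ^ (k0 + (k : ℕ))) ≤ m * 2 ^ (k0 + (j : ℕ)) := by
        calc 2 * (m * 2 ^ (k0 + (k : ℕ))) = m * 2 ^ (k0 + (k : ℕ) + 1) := by ring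
          _ ≤ m * 2 ^ (k0 + (j : ℕ)) :=
            Nat.mul_le_mul_left _ (Nat.pow_le_pow_right (by norm_num) h2)
      exact_mod_cast h3
  have hpoly : ∀ z : ℂ, ∑ n ∈ s, c n * z ^ n =
      ∑ k : Fin K, ((1 / (K : ℝ) * boxSg (ε k) : ℝ) : ℂ) * (z ^ m) ^ (2 ^ (k0 + (k : ℕ))) := by
    intro z
    simp only [s]
    rw [Finset.sum_image (fun a _ b _ h => hinj h)]
    refine Finset.sum_congr rfl fun k _ => ?_
    rw [hcfr, ← pow_mul]
  have hcoef : ∑ n ∈ s, ‖c n‖ = 1 := by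
    simp only [s]
    rw [Finset.sum_image (fun a _ b _ h => hinj h)]
    have : ∀ k : Fin K, ‖c (fr k)‖ = 1 / K := by
      intro k
      rw [hcfr, Complex.norm_real, Real.norm_eq_abs, abs_mul, boxSg_abs, mul_one, abs_of_pos]
      positivity
    simp only [this, Finset.sum_const, Finset.card_univ, Fintype.card_fin, nsmul_eq_mul]
    field_simp
  have hsphere : ∀ z ∈ E, ‖z‖ = 1 := fun z hz => by
    have := hE hz
    simpa using this
  have hb : ∀ z ∈ E, ‖∑ n ∈ s, c n * z ^ n‖ ≤ 3 / (4 * C) := by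
    intro z hz
    obtain ⟨w, hw, hwE, hzw⟩ := hr z hz
    have h1 := hcon w hw hwE
    rw [hpoly]
    set A : ℂ := ∑ k : Fin K, ((1 / (K : ℝ) * boxSg (ε k) : ℝ) : ℂ) *
      (z ^ m) ^ (2 ^ (k0 + (k : ℕ))) with hA
    set B : ℂ := ∑ k : Fin K, ((1 / (K : ℝ) * boxSg (ε k) : ℝ) : ℂ) *
      ((r w) ^ m) ^ (2 ^ (k0 + (k : ℕ))) with hB
    have hz1 : ‖z ^ m‖ ≤ 1 := by rw [norm_pow, hsphere z hz, one_pow]
    have hw1 : ‖(r w) ^ m‖ ≤ 1 := by rw [norm_pow, hsphere _ hwE, one_pow]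
    have hdiff : ‖A - B‖ ≤ 2 * ρ * 2 ^ (k0 + K) := by
      rw [hA, hB, ← Finset.sum_sub_distrib]
      calc ‖∑ k : Fin K, (((1 / (K : ℝ) * boxSg (ε k) : ℝ) : ℂ) *
            (z ^ m) ^ (2 ^ (k0 + (k : ℕ))) - ((1 / (K : ℝ) * boxSg (ε k) : ℝ) : ℂ) *
            ((r w) ^ m) ^ (2 ^ (k0 + (k : ℕ))))‖
          ≤ ∑ k : Fin K, ‖((1 / (K : ℝ) * boxSg (ε k) : ℝ) : ℂ) *
            (z ^ m) ^ (2 ^ (k0 + (k : ℕ))) - ((1 / (K : ℝ) * boxSg (ε k) : ℝ) : ℂ) *
            ((r w) ^ m) ^ (2 ^ (k0 + (k : ℕ)))‖ := norm_sum_le _ _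
        _ ≤ ∑ _k : Fin K, (1 / K) * (2 ^ (k0 + K) * (2 * ρ)) := by
            refine Finset.sum_le_sum fun k _ => ?_
            rw [← mul_sub, norm_mul, Complex.norm_real, Real.norm_eq_abs, abs_mul, boxSg_abs,
              mul_one, abs_of_pos (by positivity : (0 : ℝ) < 1 / K)]
            refine mul_le_mul_of_nonneg_left ?_ (by positivity)
            refine (box_pow_sub _ _ hz1 hw1 _).trans ?_
            have hpw : ((2 ^ (k0 + (k : ℕ)) : ℕ) : ℝ) ≤ 2 ^ (k0 + K) := by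
              push_cast
              exact pow_le_pow_right₀ (by norm_num) (by have := k.2; omega)
            exact mul_le_mul hpw hzw (norm_nonneg _) (by positivity)
        _ = 2 * ρ * 2 ^ (k0 + K) := by
            rw [Finset.sum_const, Finset.card_univ, Fintype.card_fin, nsmul_eq_mul]
            field_simp
    have h2 : ‖A‖ ≤ ‖B‖ + ‖A - B‖ := by
      have := norm_add_le B (A - B)
      simpa using this
    have h3 : (3 : ℝ) / (4 * C) = 1 / (2 * C) + 1 / (4 * C) := by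
      field_simp
      ring
    rw [h3]
    linarith [h1.le]
  have hfin := hS s c (3 / (4 * C)) hlac (by positivity) hb
  rw [hcoef] at hfin
  have h5 : C * (3 / (4 * C)) = 3 / 4 := by
    field_simp
  rw [h5] at hfin
  norm_num at hfin

/-- **Module BOX.** If `E` satisfies the Sidon inequalities then there are `τ, ρ₀ > 0` such that for
every `m ≥ 1` and every `0 < ρ < ρ₀` the set `{z ^ m : z ∈ E}` is not covered by fewer than
`ρ ^ (-τ)` discs of radius `ρ`. -/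
theorem box_necessary {E : Set ℂ} (hE : E ⊆ sphere 0 1) (h : SidonOn E) :
    ∃ τ : ℝ, 0 < τ ∧ ∃ ρ₀ : ℝ, 0 < ρ₀ ∧ ∀ m : ℕ, 1 ≤ m → ∀ ρ : ℝ, 0 < ρ → ρ < ρ₀ →
      ∀ T : Finset ℂ, (∀ z ∈ E, ∃ w ∈ T, ‖z ^ m - w‖ ≤ ρ) → ρ ^ (-τ) ≤ (T.card : ℝ) := by
  classical
  obtain ⟨N, C, hS⟩ := h 2 (by norm_num)
  obtain ⟨k0, hk0⟩ : ∃ k0 : ℕ, N ≤ 2 ^ k0 := ⟨N, Nat.lt_two_pow_self.le⟩
  have hC : 1 ≤ C := by
    have hlac : LacSet 2 N (({2 ^ k0} : Finset ℕ) : Set ℕ) := by
      constructor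
      · intro n hn
        rw [Finset.coe_singleton, Set.mem_singleton_iff] at hn
        subst hn
        exact ⟨by positivity, hk0⟩
      · intro a ha b hb hab
        rw [Finset.coe_singleton, Set.mem_singleton_iff] at ha hb
        subst ha
        subst hb
        exact absurd hab (lt_irrefl _)
    have h1 := hS {2 ^ k0} (fun _ => 1) 1 hlac zero_le_one (fun z hz => by
      have hz1 : ‖z‖ = 1 := by
        have := hE hz
        simpa using this
      rw [Finset.sum_singleton, one_mul, norm_pow, hz1, one_pow])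
    simpa using h1
  have hC0 : 0 < C := by linarith
  have hlog2 : 0 < Real.log 2 := Real.log_pos (by norm_num)
  set τ : ℝ := 1 / (256 * C ^ 2 * Real.log 2) with hτ
  have hτ0 : 0 < τ := by positivity
  set b1 : ℝ := 1 / (4 * C * 2 ^ (k0 + 1)) with hb1
  have hb10 : 0 < b1 := by positivity
  refine ⟨τ, hτ0, min (1 / 16) (min (b1 ^ 2) ((4 : ℝ) ^ (-(1 / τ)))), by positivity, ?_⟩
  intro m hm ρ hρ hρ0 T hT
  have hρ1 : ρ < 1 / 16 := lt_of_lt_of_le hρ0 (min_le_left _ _)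
  have hρ2 : ρ < b1 ^ 2 := lt_of_lt_of_le hρ0 ((min_le_right _ _).trans (min_le_left _ _))
  have hρ3 : ρ < (4 : ℝ) ^ (-(1 / τ)) :=
    lt_of_lt_of_le hρ0 ((min_le_right _ _).trans (min_le_right _ _))
  set x : ℝ := -Real.log ρ with hx
  have hx4 : 4 * Real.log 2 ≤ x := by
    have h1 : Real.log ρ ≤ Real.log (1 / 16) := Real.log_le_log hρ hρ1.le
    have h2 : Real.log (1 / 16) = -(4 * Real.log 2) := by
      rw [one_div, Real.log_inv]
      have : (16 : ℝ) = 2 ^ 4 := by norm_num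
      rw [this, Real.log_pow]
      push_cast
      ring
    rw [hx]
    linarith
  set y : ℝ := x / Real.log 2 with hy
  have hy4 : 4 ≤ y := by
    rw [hy, le_div_iff₀ hlog2]
    exact hx4
  set K : ℕ := ⌊y / 2⌋₊ with hKdef
  have hKle : (K : ℝ) ≤ y / 2 := Nat.floor_le (by linarith)
  have hKge : y / 4 ≤ K := by
    have := Nat.lt_floor_add_one (y / 2)
    rw [← hKdef] at this
    linarith
  have hK0 : 0 < K := by
    have : (0 : ℝ) < K := by linarith
    exact_mod_cast this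
  have hρexp : ρ = Real.exp (-x) := by
    rw [hx, neg_neg, Real.exp_log hρ]
  have h4K : ((2 : ℝ) ^ K) ^ 2 * ρ ≤ 1 := by
    have h1 : ((2 : ℝ) ^ K) = Real.exp (K * Real.log 2) := by
      rw [Real.exp_nat_mul, Real.exp_log (by norm_num)]
    rw [h1, hρexp, ← Real.exp_nat_mul, ← Real.exp_add]
    apply Real.exp_le_one_iff.2
    have h2 : (K : ℝ) * Real.log 2 ≤ x / 2 := by
      have : (K : ℝ) * Real.log 2 ≤ (y / 2) * Real.log 2 :=
        mul_le_mul_of_nonneg_right hKle hlog2.le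
      have hyx : y * Real.log 2 = x := by
        rw [hy]
        field_simp
      nlinarith
    push_cast
    linarith
  have h2Kρ : (2 : ℝ) ^ K * ρ ≤ Real.sqrt ρ := by
    have hs : Real.sqrt ρ * Real.sqrt ρ = ρ := Real.mul_self_sqrt hρ.le
    have hs0 : 0 < Real.sqrt ρ := Real.sqrt_pos.2 hρ
    have h1 : ((2 : ℝ) ^ K * Real.sqrt ρ) ^ 2 ≤ 1 ^ 2 := by
      rw [mul_pow, Real.sq_sqrt hρ.le, one_pow]
      exact h4K
    have h2 : (2 : ℝ) ^ K * Real.sqrt ρ ≤ 1 := le_of_sq_le_sq h1 zero_le_one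
    calc (2 : ℝ) ^ K * ρ = ((2 : ℝ) ^ K * Real.sqrt ρ) * Real.sqrt ρ := by rw [mul_assoc, hs]
      _ ≤ 1 * Real.sqrt ρ := mul_le_mul_of_nonneg_right h2 hs0.le
      _ = Real.sqrt ρ := one_mul _
  have hsq : Real.sqrt ρ ≤ b1 := by
    rw [← Real.sqrt_sq hb10.le]
    exact Real.sqrt_le_sqrt hρ2.le
  have herr : 2 * ρ * 2 ^ (k0 + K) ≤ 1 / (4 * C) := by
    have h1 : 2 * ρ * 2 ^ (k0 + K) = 2 ^ (k0 + 1) * ((2 : ℝ) ^ K * ρ) := by
      rw [pow_add, pow_add]
      ring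
    rw [h1]
    calc (2 : ℝ) ^ (k0 + 1) * ((2 : ℝ) ^ K * ρ) ≤ 2 ^ (k0 + 1) * b1 := by
          refine mul_le_mul_of_nonneg_left (h2Kρ.trans hsq) (by positivity)
      _ = 1 / (4 * C) := by
          rw [hb1]
          field_simp
  -- representatives
  have hrex : ∀ w : ℂ, ∃ z : ℂ, (∃ z' ∈ E, ‖z' ^ m - w‖ ≤ ρ) → z ∈ E ∧ ‖z ^ m - w‖ ≤ ρ := by
    intro w
    by_cases hw : ∃ z' ∈ E, ‖z' ^ m - w‖ ≤ ρ
    · obtain ⟨z', hz', hzw⟩ := hw
      exact ⟨z', fun _ => ⟨hz', hzw⟩⟩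
    · exact ⟨0, fun h => absurd h hw⟩
  choose r hr using hrex
  have hr2 : ∀ z ∈ E, ∃ w ∈ T, r w ∈ E ∧ ‖z ^ m - (r w) ^ m‖ ≤ 2 * ρ := by
    intro z hz
    obtain ⟨w, hw, hzw⟩ := hT z hz
    have h1 := hr w ⟨z, hz, hzw⟩
    refine ⟨w, hw, h1.1, ?_⟩
    calc ‖z ^ m - (r w) ^ m‖ = ‖(z ^ m - w) - ((r w) ^ m - w)‖ := by ring_nf
      _ ≤ ‖z ^ m - w‖ + ‖(r w) ^ m - w‖ := norm_sub_le _ _
      _ ≤ 2 * ρ := by linarith [h1.2]
  have htest := box_test hE hS hC k0 hk0 m hm K hK0 ρ hρ.le herr T r hr2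
  -- counting
  let Bad : ℂ → Finset (Fin K → Bool) := fun w => Finset.univ.filter fun ε : Fin K → Bool =>
    1 / (2 * C) ≤ ‖∑ k : Fin K, ((1 / (K : ℝ) * boxSg (ε k) : ℝ) : ℂ) *
      ((r w) ^ m) ^ (2 ^ (k0 + (k : ℕ)))‖
  have hcover : (Finset.univ : Finset (Fin K → Bool)) ⊆
      (T.filter fun w => r w ∈ E).biUnion Bad := by
    intro ε _
    obtain ⟨w, hw, hwE, hval⟩ := htest ε
    exact Finset.mem_biUnion.2 ⟨w, Finset.mem_filter.2 ⟨hw, hwE⟩,
      Finset.mem_filter.2 ⟨Finset.mem_univ _, hval⟩⟩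
  have hBad : ∀ w ∈ T.filter (fun w => r w ∈ E), ((Bad w).card : ℝ) ≤
      4 * (2 ^ K * Real.exp (-((1 / (2 * C)) ^ 2 * K / 8))) := by
    intro w hw
    refine box_count K hK0 _ (fun k => ?_) _ (by positivity)
    have hwE := (Finset.mem_filter.1 hw).2
    have h1 : ‖r w‖ = 1 := by
      have := hE hwE
      simpa using this
    rw [norm_pow, norm_pow, h1, one_pow, one_pow]
  have hcount : (2 : ℝ) ^ K ≤ (T.card : ℝ) *
      (4 * (2 ^ K * Real.exp (-((1 / (2 * C)) ^ 2 * K / 8)))) := by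
    have h1 := (Finset.card_le_card hcover).trans Finset.card_biUnion_le
    have h2 : ((Finset.univ : Finset (Fin K → Bool)).card : ℝ) = 2 ^ K := by
      rw [Finset.card_univ, Fintype.card_fun, Fintype.card_fin, Fintype.card_bool]
      push_cast
      rfl
    have h3 : ((Finset.univ : Finset (Fin K → Bool)).card : ℝ) ≤
        ∑ w ∈ T.filter (fun w => r w ∈ E), ((Bad w).card : ℝ) := by
      exact_mod_cast h1
    rw [h2] at h3
    refine h3.trans ((Finset.sum_le_sum hBad).trans ?_)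
    rw [Finset.sum_const, nsmul_eq_mul]
    refine mul_le_mul_of_nonneg_right ?_ (by positivity)
    exact_mod_cast Finset.card_filter_le _ _
  have hexp1 : Real.exp ((1 / (2 * C)) ^ 2 * K / 8) ≤ 4 * T.card := by
    have h2K : (0 : ℝ) < 2 ^ K := by positivity
    have he : Real.exp (-((1 / (2 * C)) ^ 2 * K / 8)) * Real.exp ((1 / (2 * C)) ^ 2 * K / 8) = 1 := by
      rw [← Real.exp_add, neg_add_cancel, Real.exp_zero]
    have h1 : (2 : ℝ) ^ K * Real.exp ((1 / (2 * C)) ^ 2 * K / 8) ≤ 2 ^ K * (4 * T.card) := by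
      calc (2 : ℝ) ^ K * Real.exp ((1 / (2 * C)) ^ 2 * K / 8)
          ≤ ((T.card : ℝ) * (4 * (2 ^ K * Real.exp (-((1 / (2 * C)) ^ 2 * K / 8))))) *
            Real.exp ((1 / (2 * C)) ^ 2 * K / 8) :=
            mul_le_mul_of_nonneg_right hcount (Real.exp_pos _).le
        _ = 2 ^ K * (4 * T.card) * (Real.exp (-((1 / (2 * C)) ^ 2 * K / 8)) *
            Real.exp ((1 / (2 * C)) ^ 2 * K / 8)) := by ring
        _ = 2 ^ K * (4 * T.card) := by rw [he, mul_one]
    exact le_of_mul_le_mul_left h1 h2K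
  have hrpow : ∀ a : ℝ, ρ ^ (-a) = Real.exp (a * x) := by
    intro a
    rw [Real.rpow_def_of_pos hρ, hx]
    congr 1
    ring
  have hexp2 : Real.exp (τ * x) * Real.exp (τ * x) ≤ 4 * T.card := by
    rw [← Real.exp_add]
    refine le_trans (Real.exp_le_exp.2 ?_) hexp1
    have h1 : (1 / (2 * C)) ^ 2 * (y / 4) / 8 ≤ (1 / (2 * C)) ^ 2 * K / 8 := by gcongr
    refine le_trans (le_of_eq ?_) h1
    rw [hτ, hy]
    field_simp
    ring
  have hbig : 4 ≤ Real.exp (τ * x) := by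
    have h1 : Real.log ρ ≤ Real.log ((4 : ℝ) ^ (-(1 / τ))) := Real.log_le_log hρ hρ3.le
    rw [Real.log_rpow (by norm_num)] at h1
    have h2 : Real.log 4 ≤ τ * x := by
      rw [hx]
      have h3 : τ * Real.log ρ ≤ τ * (-(1 / τ) * Real.log 4) :=
        mul_le_mul_of_nonneg_left h1 hτ0.le
      have h4 : τ * (-(1 / τ) * Real.log 4) = -Real.log 4 := by
        field_simp
      linarith
    calc (4 : ℝ) = Real.exp (Real.log 4) := (Real.exp_log (by norm_num)).symm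
      _ ≤ Real.exp (τ * x) := Real.exp_le_exp.2 h2
  rw [hrpow]
  have hpos := Real.exp_pos (τ * x)
  nlinarith

end Forcing
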