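import Pool.Agent.Lib.MP_c80ac4_an.Glue

/-! # The uniform criterion and the boundary criterion -/

namespace Forcing

open Complex Metric Set MeasureTheory Filter Topology

/-- Scaling of a uniform bound. -/
theorem UnifBound.scaled {q : ℝ} {N : ℕ} {C : ℝ} {S : Set ℂ} (h : UnifBound q N C S)
    {c : ℕ → ℂ} (hL : Lac q c) (hc : Conv c) (hN : ∀ n < N, c n = 0) {M : ℝ} (hM : 0 < M)
    (hb : ∀ z ∈ S, ‖ps c z‖ ≤ M) (s : Finset ℕ) : ∑ n ∈ s, ‖c n‖ ≤ C * M := by
  have hM' : (M : ℂ) ≠ 0 := by exact_mod_cast hM.ne'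
  have key := h (fun n => c n / M) ⟨by simp [hL.1], fun m n hmn hm hn => hL.2 m n hmn
      (fun h0 => hm (by simp [h0])) (fun h0 => hn (by simp [h0]))⟩
    (fun z hz => ((hc z hz).div_const (M : ℂ)).congr fun n => by ring)
    (fun n hn => by simp [hN n hn]) (fun z hz => ?_) s
  · have h1 : ∀ n ∈ s, ‖c n / (M : ℂ)‖ = ‖c n‖ / M := fun n _ => by
      rw [norm_div, Complex.norm_real, Real.norm_of_nonneg hM.le]
    rw [Finset.sum_congr rfl h1, ← Finset.sum_div, div_le_iff₀ hM] at key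
    exact key
  · have h2 : ps (fun n => c n / (M : ℂ)) z = ps c z / M := by
      unfold ps
      rw [← tsum_div_const]
      exact tsum_congr fun n => by ring
    rw [h2, norm_div, Complex.norm_real, Real.norm_of_nonneg hM.le, div_le_one hM]
    exact hb z hz

/-- **Uniform criterion.** -/
theorem isForcing_iff_unif {S : Set ℂ} (hS : S ⊆ ball 0 1) :
    IsForcing S ↔ ∀ q : ℝ, 1 < q → ∃ (N : ℕ) (C : ℝ), 0 < C ∧ UnifBound q N C S := by
  classical
  constructor
  · intro hF q hq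
    by_contra hno
    push Not at hno
    refine not_forcing_of_small hS hq (fun N η hη => ?_) hF
    have h1 := hno N (2 / η) (by positivity)
    unfold UnifBound at h1
    push Not at h1
    obtain ⟨c, hL, hc, hN, hb, s, hs⟩ := h1
    obtain ⟨T, hT⟩ := sum_bdd_of_bdd hq hL hc (hF c ⟨q, hq, hL⟩ hc ⟨1, hb⟩)
    have hsummable : Summable fun n => ‖c n‖ :=
      summable_of_sum_le (fun n => norm_nonneg _) hT
    set A := ∑' n, ‖c n‖ with hA
    have hAs : 2 / η < A := hs.trans_le (hsummable.sum_le_tsum s fun n _ => norm_nonneg _)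
    have hA0 : 0 < A := (by positivity : (0:ℝ) < 2 / η).trans hAs
    have hη2 : 2 / A < η := by
      rw [div_lt_iff₀ hA0]
      rw [div_lt_iff₀ hη] at hAs
      linarith
    -- truncation
    obtain ⟨K, hK⟩ : ∃ K : ℕ, A - ∑ n ∈ Finset.range K, ‖c n‖ ≤ min 1 (A / 2) := by
      have h2 := (hsummable.hasSum.tendsto_sum_nat.const_sub A).eventually
        (ge_mem_nhds (show A - A < min 1 (A / 2) by rw [sub_self]; exact lt_min one_pos (by linarith)))
      exact h2.exists
    set s' := (Finset.range K).filter fun n => c n ≠ 0 with hs'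
    have hsum' : ∑ n ∈ s', ‖c n‖ = ∑ n ∈ Finset.range K, ‖c n‖ := by
      rw [hs', Finset.sum_filter]
      refine Finset.sum_congr rfl fun n _ => ?_
      split_ifs with h
      · rfl
      · have : c n = 0 := by simpa using h
        rw [this, norm_zero]
    have hle : ∑ n ∈ Finset.range K, ‖c n‖ ≤ A :=
      hsummable.sum_le_tsum _ fun n _ => norm_nonneg _
    have hnd : ∀ n ∈ s', ‖c n / (A : ℂ)‖ = ‖c n‖ / A := fun n _ => by
      rw [norm_div, Complex.norm_real, Real.norm_of_nonneg hA0.le]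
    refine ⟨s', fun n => c n / A, ⟨fun m hm => ?_, fun m hm n hn hmn => ?_⟩, ?_, ?_, 0,
      zero_lt_one, fun z hz _ => ?_⟩
    · rw [hs', Finset.coe_filter] at hm
      refine ⟨Nat.pos_of_ne_zero fun h0 => hm.2 (h0 ▸ hL.1), ?_⟩
      by_contra hlt
      exact hm.2 (hN m (not_le.1 hlt))
    · rw [hs', Finset.coe_filter] at hm hn
      exact hL.2 m n hmn hm.2 hn.2
    · rw [Finset.sum_congr rfl hnd, ← Finset.sum_div, hsum', div_le_one hA0]
      exact hle
    · rw [Finset.sum_congr rfl hnd, ← Finset.sum_div, hsum', le_div_iff₀ hA0]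
      linarith [min_le_right 1 (A / 2)]
    · have hz1 : ‖z‖ < 1 := mem_ball_zero_iff.1 (hS hz)
      have e1 : pol s' (fun n => c n / A) z = (∑ n ∈ Finset.range K, c n * z ^ n) / A := by
        rw [pol, hs', Finset.sum_filter, Finset.sum_div]
        refine Finset.sum_congr rfl fun n _ => ?_
        split_ifs with h
        · ring
        · have : c n = 0 := by simpa using h
          simp [this]
      have e2 : ∑ n ∈ Finset.range K, c n * z ^ n = ps c z - ∑' n, c (n + K) * z ^ (n + K) := by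
        rw [ps, ← (hc z hz1).sum_add_tsum_nat_add K, add_sub_cancel_right]
      have e3 : ‖∑' n, c (n + K) * z ^ (n + K)‖ ≤ 1 := by
        have e4 : ∑' n, ‖c (n + K)‖ = A - ∑ n ∈ Finset.range K, ‖c n‖ := by
          rw [hA, ← hsummable.sum_add_tsum_nat_add K]; ring
        refine le_trans ?_ ((le_of_eq e4).trans (hK.trans (min_le_left _ _)))
        refine tsum_of_norm_bounded ((summable_nat_add_iff K).2 hsummable).hasSum fun n => ?_
        rw [norm_mul, norm_pow]
        have : ‖z‖ ^ (n + K) ≤ 1 := pow_le_one₀ (norm_nonneg _) hz1.le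
        nlinarith [norm_nonneg (c (n + K))]
      rw [e1, e2, norm_div, Complex.norm_real, Real.norm_of_nonneg hA0.le]
      refine le_trans ?_ hη2.le
      gcongr
      refine (norm_sub_le _ _).trans ?_
      linarith [hb z hz]
  · intro h c hq hc hb
    obtain ⟨q, hq, hL⟩ := hq
    obtain ⟨N, C, hC, hU⟩ := h q hq
    obtain ⟨M, hM⟩ := hb
    set B := ∑ n ∈ Finset.range N, ‖c n‖ with hB
    have hB0 : 0 ≤ B := Finset.sum_nonneg fun n _ => norm_nonneg _
    set c' : ℕ → ℂ := fun n => if n < N then 0 else c n with hc'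
    have hc'n : ∀ n, c' n ≠ 0 → c n ≠ 0 := by
      intro n hn h0
      apply hn
      rw [hc']
      simp [h0]
    have hL' : Lac q c' := ⟨by
        by_contra h0
        exact hc'n 0 h0 hL.1, fun m n hmn hm hn => hL.2 m n hmn (hc'n m hm) (hc'n n hn)⟩
    have hsplit : ∀ z : ℂ, ‖z‖ < 1 → HasSum (fun n => c' n * z ^ n)
        (ps c z - ∑ n ∈ Finset.range N, c n * z ^ n) := by
      intro z hz
      have h1 := (hc z hz).hasSum
      have h2 : HasSum (fun n => if n ∈ Finset.range N then c n * z ^ n else 0)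
          (∑ n ∈ Finset.range N, c n * z ^ n) := by
        have h3 : HasSum (fun n => if n ∈ Finset.range N then c n * z ^ n else 0)
            (∑ n ∈ Finset.range N, if n ∈ Finset.range N then c n * z ^ n else 0) :=
          hasSum_sum_of_ne_finset_zero fun n hn => if_neg hn
        rwa [Finset.sum_congr rfl fun n hn => if_pos hn] at h3
      have h4 := h1.sub h2
      have h5 : (fun n => c' n * z ^ n) = fun n => c n * z ^ n -
          (if n ∈ Finset.range N then c n * z ^ n else 0) := by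
        funext n
        rw [hc']
        simp only [Finset.mem_range]
        split_ifs <;> simp
      rw [h5]
      exact h4
    have hconv' : Conv c' := fun z hz => (hsplit z hz).summable
    have hps : ∀ z : ℂ, ‖z‖ < 1 → ps c' z = ps c z - ∑ n ∈ Finset.range N, c n * z ^ n :=
      fun z hz => (hsplit z hz).tsum_eq
    have hlow : ∀ z : ℂ, ‖z‖ < 1 → ‖∑ n ∈ Finset.range N, c n * z ^ n‖ ≤ B := by
      intro z hz
      refine (norm_sum_le _ _).trans (Finset.sum_le_sum fun n _ => ?_)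
      rw [norm_mul, norm_pow]
      have : ‖z‖ ^ n ≤ 1 := pow_le_one₀ (norm_nonneg _) hz.le
      nlinarith [norm_nonneg (c n)]
    have hM' : 0 < max M 0 + B + 1 := by linarith [le_max_right M 0]
    have key := hU.scaled hL' hconv' (fun n hn => by rw [hc']; simp [hn]) hM' fun z hz => by
      have hz1 : ‖z‖ < 1 := mem_ball_zero_iff.1 (hS hz)
      rw [hps z hz1]
      refine (norm_sub_le _ _).trans ?_
      linarith [hM z hz, hlow z hz1, le_max_left M 0]
    refine ⟨C * (max M 0 + B + 1) + B, fun z hz => ?_⟩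
    rw [mem_ball_zero_iff] at hz
    have h1 := ps_norm_le_of_sum hconv' key hz
    rw [hps z hz] at h1
    have h2 := hlow z hz
    have h3 : ps c z = (ps c z - ∑ n ∈ Finset.range N, c n * z ^ n) +
      ∑ n ∈ Finset.range N, c n * z ^ n := by ring
    rw [h3]
    exact (norm_add_le _ _).trans (add_le_add h1 h2)

/-- **Necessity on the boundary.** -/
theorem sidonOn_of_forcing {S : Set ℂ} (hS : S ⊆ ball 0 1) (hF : IsForcing S) :
    SidonOn (closure S ∩ sphere 0 1) := by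
  intro q hq
  by_contra hno
  push Not at hno
  refine not_forcing_of_small hS hq (fun N η hη => ?_) hF
  have h1 := hno N (2 / η)
  unfold SidonIneq at h1
  push Not at h1
  obtain ⟨s, c, M, hs, hM, hb, hlt⟩ := h1
  set A := ∑ n ∈ s, ‖c n‖ with hA
  have hA0 : 0 < A := lt_of_le_of_lt (by positivity) hlt
  have hnd : ∀ n ∈ s, ‖c n / (A : ℂ)‖ = ‖c n‖ / A := fun n _ => by
    rw [norm_div, Complex.norm_real, Real.norm_of_nonneg hA0.le]
  have hsumA : ∑ n ∈ s, ‖c n / (A : ℂ)‖ = 1 := by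
    rw [Finset.sum_congr rfl hnd, ← Finset.sum_div, ← hA, div_self hA0.ne']
  have hpol : ∀ z, pol s (fun n => c n / A) z = (∑ n ∈ s, c n * z ^ n) / A := by
    intro z
    rw [pol, Finset.sum_div]
    exact Finset.sum_congr rfl fun n _ => by ring
  have hcont : Continuous fun z => pol s (fun n => c n / A) z := by
    unfold pol
    fun_prop
  have hsmall : ∀ z ∈ closure S ∩ sphere (0 : ℂ) 1, ‖pol s (fun n => c n / A) z‖ ≤ η / 2 := by
    intro z hz
    rw [hpol, norm_div, Complex.norm_real, Real.norm_of_nonneg hA0.le, div_le_iff₀ hA0]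
    refine (hb z hz).trans ?_
    have : 2 * M < η * A := by
      have := hlt
      rw [div_mul_eq_mul_div, div_lt_iff₀ hη] at this
      linarith
    linarith
  refine ⟨s, fun n => c n / A, hs, hsumA.le, by rw [hsumA]; norm_num, ?_⟩
  by_contra hρ
  push Not at hρ
  -- a sequence of points of S tending to the circle where the polynomial is large
  have h2 : ∀ k : ℕ, ∃ z ∈ S, 1 - 1 / ((k : ℝ) + 1) < ‖z‖ ∧ η < ‖pol s (fun n => c n / A) z‖ := by
    intro k
    obtain ⟨z, hz1, hz2, hz3⟩ := hρ (1 - 1 / ((k : ℝ) + 1)) (by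
      have : (0 : ℝ) < 1 / ((k : ℝ) + 1) := by positivity
      linarith)
    exact ⟨z, hz1, hz2, hz3⟩
  choose u hu1 hu2 hu3 using h2
  have hcpt : IsCompact (closedBall (0 : ℂ) 1) := isCompact_closedBall 0 1
  obtain ⟨ζ, -, φ, hφ, hlim⟩ := hcpt.tendsto_subseq (x := u) fun k =>
    mem_closedBall_zero_iff.2 (mem_ball_zero_iff.1 (hS (hu1 k))).le
  have hζ1 : ζ ∈ closure S := mem_closure_of_tendsto hlim (Eventually.of_forall fun k => hu1 _)
  have hζ2 : ‖ζ‖ = 1 := by
    refine le_antisymm ?_ ?_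
    · exact le_of_tendsto hlim.norm (Eventually.of_forall fun k =>
        (mem_ball_zero_iff.1 (hS (hu1 _))).le)
    · have h3 : Tendsto (fun k : ℕ => 1 - 1 / (((φ k : ℕ) : ℝ) + 1)) atTop (𝓝 (1 - 0)) :=
        (tendsto_one_div_add_atTop_nhds_zero_nat.comp hφ.tendsto_atTop).const_sub 1
      rw [sub_zero] at h3
      exact le_of_tendsto_of_tendsto h3 hlim.norm (Eventually.of_forall fun k => (hu2 _).le)
  have h4 := hsmall ζ ⟨hζ1, mem_sphere_zero_iff_norm.2 hζ2⟩
  have h5 : η ≤ ‖pol s (fun n => c n / A) ζ‖ :=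
    ge_of_tendsto ((hcont.tendsto ζ).comp hlim).norm (Eventually.of_forall fun k => (hu3 _).le)
  linarith

/-- Rotation invariance of the Sidon inequality. -/
theorem SidonIneq.rotate {q : ℝ} {N : ℕ} {C : ℝ} {E : Set ℂ} (h : SidonIneq q N C E) {u : ℂ}
    (hu : ‖u‖ = 1) : SidonIneq q N C ((fun z => u * z) '' E) := by
  intro s c M hs hM hb
  have h1 := h s (fun n => c n * u ^ n) M hs hM fun z hz => by
    have := hb (u * z) ⟨z, hz, rfl⟩
    refine le_trans (le_of_eq ?_) this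
    congr 1
    exact Finset.sum_congr rfl fun n _ => by rw [mul_pow]; ring
  refine le_trans (le_of_eq (Finset.sum_congr rfl fun n _ => ?_)) h1
  rw [norm_mul, norm_pow, hu, one_pow, mul_one]

/-- **Sufficiency on circles**, uniform version: for every `q` there are constants such that on
circles of radius arbitrarily close to one the (rotated) slices of the closure of `S` satisfy the
Sidon inequality. -/
theorem forcing_of_slices {S : Set ℂ}
    (h : ∀ q : ℝ, 1 < q → ∃ (N : ℕ) (C : ℝ), ∀ ρ : ℝ, ρ < 1 → ∃ w : ℂ, ρ < ‖w‖ ∧ ‖w‖ < 1 ∧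
      ∃ E : Set ℂ, E ⊆ sphere 0 1 ∧ (∀ z ∈ E, w * z ∈ closure S) ∧ SidonIneq q N C E) :
    IsForcing S := by
  intro c hq hc hb
  obtain ⟨q, hq, hL⟩ := hq
  obtain ⟨N, C, hC⟩ := h q hq
  obtain ⟨M, hM⟩ := hb
  refine bdd_of_sum_bdd hc (sum_le_of_dilates (N := N) (C := C) (M := max M 0) hL hc
    (le_max_right _ _) fun ρ hρ => ?_)
  obtain ⟨w, hw1, hw2, E, hE, hwE, hS⟩ := hC (max ρ 0) (max_lt hρ one_pos)
  have hw0 : 0 < ‖w‖ := (le_max_right ρ 0).trans_lt hw1
  have hwne : (‖w‖ : ℂ) ≠ 0 := by exact_mod_cast hw0.ne'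
  have hu : ‖w / (‖w‖ : ℂ)‖ = 1 := by
    rw [norm_div, Complex.norm_real, Real.norm_of_nonneg hw0.le, div_self hw0.ne']
  refine ⟨‖w‖, (le_max_left _ _).trans_lt hw1, hw2, (fun z => w / (‖w‖ : ℂ) * z) '' E, ?_,
    hS.rotate hu, ?_⟩
  · rintro _ ⟨z, hz, rfl⟩
    simp only [norm_mul, hu, mem_sphere_zero_iff_norm.1 (hE hz), mul_one, le_refl]
  · rintro _ ⟨z, hz, rfl⟩
    have h1 : (‖w‖ : ℂ) * (w / (‖w‖ : ℂ) * z) = w * z := by
      field_simp
    simp only [h1]
    refine (ps_norm_le_closure hc (M := M) hM (hwE z hz) ?_).trans (le_max_left _ _)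
    rw [norm_mul, mem_sphere_zero_iff_norm.1 (hE hz), mul_one]
    exact hw2

/-- **Sufficiency on the boundary.** -/
theorem forcing_of_sidonOn {S E : Set ℂ} (hE : E ⊆ sphere 0 1)
    (hrad : ∀ ρ : ℝ, ρ < 1 → ∃ w : ℂ, ρ < ‖w‖ ∧ ‖w‖ < 1 ∧ ∀ z ∈ E, w * z ∈ closure S)
    (h : SidonOn E) : IsForcing S := by
  refine forcing_of_slices fun q hq => ?_
  obtain ⟨N, C, hC⟩ := h q hq
  refine ⟨N, C, fun ρ hρ => ?_⟩
  obtain ⟨w, h1, h2, h3⟩ := hrad ρ hρ
  exact ⟨w, h1, h2, E, hE, h3, hC⟩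

/-- Forcing passes to larger subsets of the disc. -/
theorem IsForcing.mono {S S' : Set ℂ} (h : IsForcing S) (hS : S ⊆ S') : IsForcing S' :=
  fun c hq hc hb => h c hq hc (by
    obtain ⟨M, hM⟩ := hb
    exact ⟨M, fun z hz => hM z (hS hz)⟩)

/-- **Fourier decay on slices.** -/
theorem forcing_of_decay {S : Set ℂ} {C₀ δ : ℝ} (hδ : 0 < δ)
    (h : ∀ ρ : ℝ, ρ < 1 → ∃ w : ℂ, ρ < ‖w‖ ∧ ‖w‖ < 1 ∧ ∃ μ : Measure ℂ, IsProbabilityMeasure μ ∧
      (∀ᵐ z ∂μ, ‖z‖ = 1 ∧ w * z ∈ closure S) ∧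
      ∀ n : ℕ, 1 ≤ n → ‖∫ z, z ^ n ∂μ‖ ≤ C₀ * (n : ℝ) ^ (-δ)) : IsForcing S := by
  refine forcing_of_slices fun q hq => ?_
  obtain ⟨N, C, hC⟩ := sidonIneq_of_decay q C₀ δ hq hδ
  refine ⟨N, C, fun ρ hρ => ?_⟩
  obtain ⟨w, h1, h2, μ, hμ, h3, h4⟩ := h ρ hρ
  refine ⟨w, h1, h2, {z | ‖z‖ = 1 ∧ w * z ∈ closure S}, fun z hz => ?_, fun z hz => hz.2, ?_⟩
  · exact mem_sphere_zero_iff_norm.2 hz.1
  · exact hC μ _ (h3.mono fun z hz => hz.1) h3 h4

/-- **Fourier decay gives the Sidon inequalities.** -/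
theorem sidonOn_of_decay {E : Set ℂ} {C₀ δ : ℝ} (hδ : 0 < δ) (μ : Measure ℂ)
    [IsProbabilityMeasure μ] (h1 : ∀ᵐ z ∂μ, ‖z‖ = 1) (h2 : ∀ᵐ z ∂μ, z ∈ E)
    (h3 : ∀ n : ℕ, 1 ≤ n → ‖∫ z, z ^ n ∂μ‖ ≤ C₀ * (n : ℝ) ^ (-δ)) : SidonOn E := by
  intro q hq
  obtain ⟨N, C, hC⟩ := sidonIneq_of_decay q C₀ δ hq hδ
  exact ⟨N, C, hC μ E h1 h2 h3⟩

end Forcing
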