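import Pool.Agent.Lib.MP_c80ac4_an.Defs

/-!
# Countable sets are negligible for the Sidon inequalities

PROOF. Suppose that `E` satisfies a Sidon inequality and `K` does not. There are polynomials `P_j`
with far apart lacunary spectra, sum of the coefficients `1` and `|P_j| ≤ 1 / (j + 1)` on `K`. A
subsequence converges pointwise on the countable set `E \ K`, so the half differences `Q_j` of
consecutive terms tend to `0` pointwise on `E`. By the theorem of Mazur (proved here from the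
geometric form of the theorem of Hahn-Banach: the separating functional is positive, so it is a
measure by the theorem of Riesz, Markov and Kakutani, and dominated convergence applies) some convex
combination of the `Q_j` is uniformly small on `E`; its coefficients still have sum `1`.
-/

set_option autoImplicit false

namespace Forcing

open Complex Metric Set MeasureTheory Filter Topology

open scoped CompactlySupported

/-- A bounded sequence of continuous functions on a compact space that converges pointwise to `0`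
has convex combinations that are uniformly small from above. -/
theorem exists_convex_lt {X : Type*} [TopologicalSpace X] [CompactSpace X] [T2Space X]
    (F : ℕ → C(X, ℝ)) (hb : ∀ j x, |F j x| ≤ 1)
    (h0 : ∀ x, Tendsto (fun j => F j x) atTop (𝓝 0)) {η : ℝ} (hη : 0 < η) :
    ∃ w : ℕ →₀ ℝ, (∀ j, 0 ≤ w j) ∧ (w.sum fun _ a => a) = 1 ∧
      ∀ x, (w.sum fun j a => a * F j x) < η := by
  classical
  let _ : MeasurableSpace X := borel X
  have _ : BorelSpace X := ⟨rfl⟩
  by_contra hcon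
  push Not at hcon
  -- the convex set of combinations
  let W : Set (ℕ →₀ ℝ) := {w | (∀ j, 0 ≤ w j) ∧ (w.sum fun _ a => a) = 1}
  let L : (ℕ →₀ ℝ) →ₗ[ℝ] C(X, ℝ) := Finsupp.linearCombination ℝ F
  let ℓ : (ℕ →₀ ℝ) →ₗ[ℝ] ℝ := Finsupp.linearCombination ℝ (fun _ => (1 : ℝ))
  have hℓ : ∀ w : ℕ →₀ ℝ, ℓ w = w.sum fun _ a => a := by
    intro w
    simp [ℓ, Finsupp.linearCombination_apply]
  have hL : ∀ (w : ℕ →₀ ℝ) (x : X), L w x = w.sum fun j a => a * F j x := by
    intro w x
    simp only [L, Finsupp.linearCombination_apply, Finsupp.sum]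
    rw [ContinuousMap.coe_sum]
    simp [Finset.sum_apply]
  have hW : Convex ℝ W := by
    intro w hw w' hw' a b ha hb' hab
    refine ⟨fun j => ?_, ?_⟩
    · simp only [Finsupp.coe_add, Finsupp.coe_smul, Pi.add_apply, Pi.smul_apply, smul_eq_mul]
      exact add_nonneg (mul_nonneg ha (hw.1 j)) (mul_nonneg hb' (hw'.1 j))
    · rw [← hℓ, map_add, map_smul, map_smul, hℓ, hℓ, hw.2, hw'.2]
      simpa using hab
  have ht : Convex ℝ (L '' W) := hW.is_linear_image L.isLinear
  -- the open convex set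
  let U : Set C(X, ℝ) := {f | ∀ x, f x < η}
  have hUo : IsOpen U := by
    have : U = {f : C(X, ℝ) | MapsTo f univ (Iio η)} := by
      ext f
      simp [U, MapsTo]
    rw [this]
    exact ContinuousMap.isOpen_setOfPred_mapsTo isCompact_univ isOpen_Iio
  have hUc : Convex ℝ U := by
    intro f hf g hg a b ha hb' hab x
    simp only [ContinuousMap.coe_add, ContinuousMap.coe_smul, Pi.add_apply, Pi.smul_apply,
      smul_eq_mul]
    have h1 := hf x
    have h2 := hg x
    rcases ha.lt_or_eq with h | h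
    · nlinarith
    · have hb1 : b = 1 := by linarith
      rw [← h, hb1]
      linarith
  have hdisj : Disjoint U (L '' W) := by
    rw [Set.disjoint_left]
    rintro f hf ⟨w, hw, rfl⟩
    obtain ⟨x, hx⟩ := hcon w hw.1 hw.2
    have := hf x
    rw [hL] at this
    linarith
  obtain ⟨φ, u, hφ1, hφ2⟩ := geometric_hahn_banach_open hUc hUo ht hdisj
  have hu : 0 < u := by
    have h1 : (0 : C(X, ℝ)) ∈ U := fun x => by simpa using hη
    have := hφ1 0 h1
    simpa using this
  -- positivity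
  have hpos : ∀ f : C(X, ℝ), 0 ≤ f → 0 ≤ φ f := by
    intro f hf
    by_contra hneg
    push Not at hneg
    have h1 : ∀ t : ℝ, 0 ≤ t → -(t * φ f) < u := by
      intro t ht0
      have h2 : (-(t • f) : C(X, ℝ)) ∈ U := by
        intro x
        simp only [ContinuousMap.coe_neg, ContinuousMap.coe_smul, Pi.neg_apply, Pi.smul_apply,
          smul_eq_mul]
        have h4 : 0 ≤ f x := hf x
        have := mul_nonneg ht0 h4
        linarith
      have h3 := hφ1 _ h2
      rw [map_neg, map_smul, smul_eq_mul] at h3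
      exact h3
    have h2 := h1 (u / -φ f) (by positivity [show 0 < -φ f by linarith])
    have h3 : -(u / -φ f * φ f) = u := by
      have : φ f ≠ 0 := hneg.ne
      field_simp
    linarith
  -- the measure
  let Λ0 : C_c(X, ℝ) →ₗ[ℝ] ℝ :=
    { toFun := fun f => φ (f : C(X, ℝ))
      map_add' := fun f g => by
        have : ((f + g : C_c(X, ℝ)) : C(X, ℝ)) = (f : C(X, ℝ)) + (g : C(X, ℝ)) := by
          ext x
          simp
        rw [this, map_add]
      map_smul' := fun a f => by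
        have : ((a • f : C_c(X, ℝ)) : C(X, ℝ)) = a • (f : C(X, ℝ)) := by
          ext x
          simp
        rw [this, map_smul]
        rfl }
  let Λ : C_c(X, ℝ) →ₚ[ℝ] ℝ := PositiveLinearMap.mk₀ Λ0 fun f hf => hpos _ fun x => hf x
  let μ := RealRMK.rieszMeasure Λ
  have hint : ∀ f : C(X, ℝ), ∫ x, f x ∂μ = φ f := by
    intro f
    have h := RealRMK.integral_rieszMeasure Λ
      (CompactlySupportedContinuousMap.continuousMapEquiv f)
    exact h
  have hlim : Tendsto (fun j => ∫ x, F j x ∂μ) atTop (𝓝 (∫ _x, (0 : ℝ) ∂μ)) := by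
    apply tendsto_integral_of_dominated_convergence (fun _ => (1 : ℝ))
    · intro j
      exact (F j).continuous.aestronglyMeasurable
    · exact integrable_const 1
    · intro j
      exact Eventually.of_forall fun x => by
        rw [Real.norm_eq_abs]
        exact hb j x
    · exact Eventually.of_forall h0
  rw [integral_zero] at hlim
  have hge : ∀ j, u ≤ ∫ x, F j x ∂μ := by
    intro j
    rw [hint]
    apply hφ2
    refine ⟨Finsupp.single j 1, ⟨fun i => ?_, ?_⟩, ?_⟩
    · rw [Finsupp.single_apply]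
      split_ifs <;> norm_num
    · rw [Finsupp.sum_single_index rfl]
    · simp [L]
  have := ge_of_tendsto' hlim hge
  linarith

/-- The polynomial with frequencies `s` and coefficients `c`. -/
private noncomputable def pol (s : Finset ℕ) (c : ℕ → ℂ) (z : ℂ) : ℂ := ∑ n ∈ s, c n * z ^ n

private theorem pol_le {s : Finset ℕ} {c : ℕ → ℂ} (h : ∑ n ∈ s, ‖c n‖ = 1) {z : ℂ}
    (hz : z ∈ sphere (0 : ℂ) 1) : ‖pol s c z‖ ≤ 1 := by
  unfold pol
  rw [← h]
  refine (norm_sum_le _ _).trans (Finset.sum_le_sum fun n _ => ?_)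
  rw [norm_mul, norm_pow]
  have h1 : ‖z‖ = 1 := by simpa using hz
  rw [h1, one_pow, mul_one]

private theorem exists_small {q : ℝ} {K : Set ℂ} (hK : ∀ N C, ¬ SidonIneq q N C K) (N j : ℕ) :
    ∃ (s : Finset ℕ) (c : ℕ → ℂ), LacSet q N (s : Set ℕ) ∧ ∑ n ∈ s, ‖c n‖ = 1 ∧
      ∀ z ∈ K, ‖pol s c z‖ ≤ 1 / ((j : ℝ) + 1) := by
  have h := hK N ((j : ℝ) + 1)
  unfold SidonIneq at h
  push Not at h
  obtain ⟨s, c, M, hs, hM, hb, hlt⟩ := h
  have hj : (0 : ℝ) < (j : ℝ) + 1 := by positivity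
  set T : ℝ := ∑ n ∈ s, ‖c n‖ with hT
  have hT0 : 0 < T := lt_of_le_of_lt (mul_nonneg hj.le hM) hlt
  refine ⟨s, fun n => ((T : ℂ)⁻¹) * c n, hs, ?_, ?_⟩
  · simp_rw [norm_mul]
    rw [← Finset.mul_sum, ← hT, norm_inv, Complex.norm_real, Real.norm_of_nonneg hT0.le]
    field_simp
  · intro z hz
    have e : pol s (fun n => ((T : ℂ)⁻¹) * c n) z = ((T : ℂ)⁻¹) * ∑ n ∈ s, c n * z ^ n := by
      unfold pol
      rw [Finset.mul_sum]
      exact Finset.sum_congr rfl fun n _ => by ring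
    rw [e, norm_mul, norm_inv, Complex.norm_real, Real.norm_of_nonneg hT0.le]
    have h1 := hb z hz
    rw [inv_mul_le_iff₀ hT0]
    calc _ ≤ M := h1
      _ ≤ T * (1 / ((j : ℝ) + 1)) := by
        rw [mul_one_div, le_div_iff₀ hj]
        linarith

/-- A sequence of polynomials with far apart spectra. -/
private theorem exists_seq {q : ℝ} (hq : 1 < q) {K : Set ℂ} (hK : ∀ N C, ¬ SidonIneq q N C K)
    (N : ℕ) : ∃ (s : ℕ → Finset ℕ) (c : ℕ → ℕ → ℂ), (∀ j, LacSet q N (s j : Set ℕ)) ∧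
      (∀ j, ∑ n ∈ s j, ‖c j n‖ = 1) ∧ (∀ j, ∀ z ∈ K, ‖pol (s j) (c j) z‖ ≤ 1 / ((j : ℝ) + 1)) ∧
      ∀ i j, i < j → ∀ m ∈ s i, ∀ n ∈ s j, m < n ∧ q * m ≤ n := by
  classical
  choose S c h1 h2 h3 using exists_small hK
  let nx : ℕ → ℕ → ℕ := fun N j => N + (S N j).sup id + ⌈q * ((S N j).sup id : ℕ)⌉₊ + 1
  let Ns : ℕ → ℕ := fun j => Nat.rec N (fun j M => nx M j) j
  have hNs : ∀ j, Ns (j + 1) = nx (Ns j) j := fun j => rfl
  have hmono : ∀ j, Ns j ≤ Ns (j + 1) := by
    intro j
    rw [hNs]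
    simp only [nx]
    omega
  have hmono' : Monotone Ns := monotone_nat_of_le_succ hmono
  have hN0 : ∀ j, N ≤ Ns j := fun j => hmono' (Nat.zero_le j)
  refine ⟨fun j => S (Ns j) j, fun j => c (Ns j) j, fun j => (h1 _ _).mono (hN0 j) le_rfl,
    fun j => h2 _ _, fun j => h3 _ _, ?_⟩
  intro i j hij m hm n hn
  have e1 : m ≤ (S (Ns i) i).sup id := Finset.le_sup (f := id) hm
  have e2 : Ns (i + 1) ≤ n := (hmono' hij).trans ((h1 (Ns j) j).1 n hn).2
  rw [hNs] at e2
  simp only [nx] at e2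
  refine ⟨by omega, ?_⟩
  have e3 : q * (m : ℝ) ≤ q * ((S (Ns i) i).sup id : ℕ) :=
    mul_le_mul_of_nonneg_left (by exact_mod_cast e1) (by linarith)
  have e4 : q * (((S (Ns i) i).sup id : ℕ) : ℝ) ≤ (⌈q * ((S (Ns i) i).sup id : ℕ)⌉₊ : ℝ) :=
    Nat.le_ceil _
  have e5 : ((⌈q * ((S (Ns i) i).sup id : ℕ)⌉₊ : ℕ) : ℝ) ≤ n := by
    exact_mod_cast (by omega : ⌈q * ((S (Ns i) i).sup id : ℕ)⌉₊ ≤ n)
  linarith

/-- Combinations of polynomials with far apart spectra. -/
private theorem exists_comb {q : ℝ} {N : ℕ} {s : ℕ → Finset ℕ} {c : ℕ → ℕ → ℂ}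
    (h1 : ∀ j, LacSet q N (s j : Set ℕ)) (h2 : ∀ j, ∑ n ∈ s j, ‖c j n‖ = 1)
    (h4 : ∀ i j, i < j → ∀ m ∈ s i, ∀ n ∈ s j, m < n ∧ q * m ≤ n) (v : ℕ → ℂ) (J : ℕ) :
    ∃ (t : Finset ℕ) (a : ℕ → ℂ), LacSet q N (t : Set ℕ) ∧
      ∑ n ∈ t, ‖a n‖ = ∑ k ∈ Finset.range J, ‖v k‖ ∧
      ∀ z, pol t a z = ∑ k ∈ Finset.range J, v k * pol (s k) (c k) z := by
  classical
  have hdisj : ∀ i j, i ≠ j → Disjoint (s i) (s j) := by
    intro i j hij
    rw [Finset.disjoint_left]
    intro n hi hj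
    rcases lt_or_gt_of_ne hij with h | h
    · exact lt_irrefl _ (h4 i j h n hi n hj).1
    · exact lt_irrefl _ (h4 j i h n hj n hi).1
  have hpd : ((Finset.range J : Finset ℕ) : Set ℕ).PairwiseDisjoint s :=
    fun i _ j _ hij => hdisj i j hij
  let a : ℕ → ℂ := fun n => ∑ k ∈ Finset.range J, if n ∈ s k then v k * c k n else 0
  have ha : ∀ k ∈ Finset.range J, ∀ n ∈ s k, a n = v k * c k n := by
    intro k hk n hn
    simp only [a]
    rw [Finset.sum_eq_single k]
    · rw [if_pos hn]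
    · intro i _ hik
      rw [if_neg]
      intro hi
      exact Finset.disjoint_left.1 (hdisj i k hik) hi hn
    · exact fun h => absurd hk h
  refine ⟨(Finset.range J).biUnion s, a, ⟨?_, ?_⟩, ?_, ?_⟩
  · intro m hm
    obtain ⟨k, _, hk⟩ := Finset.mem_biUnion.1 (Finset.mem_coe.1 hm)
    exact (h1 k).1 m hk
  · intro m hm n hn hmn
    obtain ⟨i, _, hi⟩ := Finset.mem_biUnion.1 (Finset.mem_coe.1 hm)
    obtain ⟨j, _, hj⟩ := Finset.mem_biUnion.1 (Finset.mem_coe.1 hn)
    rcases lt_trichotomy i j with h | h | h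
    · exact (h4 i j h m hi n hj).2
    · subst h
      exact (h1 i).2 m hi n hj hmn
    · have := (h4 j i h n hj m hi).1
      omega
  · rw [Finset.sum_biUnion hpd]
    apply Finset.sum_congr rfl
    intro k hk
    have e : ∀ n ∈ s k, ‖a n‖ = ‖v k‖ * ‖c k n‖ := by
      intro n hn
      rw [ha k hk n hn, norm_mul]
    rw [Finset.sum_congr rfl e, ← Finset.mul_sum, h2, mul_one]
  · intro z
    unfold pol
    rw [Finset.sum_biUnion hpd]
    apply Finset.sum_congr rfl
    intro k hk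
    rw [Finset.mul_sum]
    apply Finset.sum_congr rfl
    intro n hn
    rw [ha k hk n hn]
    ring

private theorem sum_two_mul {M : Type*} [AddCommMonoid M] (g : ℕ → M) (m : ℕ) :
    ∑ k ∈ Finset.range (2 * m), g k = ∑ j ∈ Finset.range m, (g (2 * j) + g (2 * j + 1)) := by
  induction m with
  | zero => simp
  | succ m ih =>
    rw [Nat.mul_succ, Finset.sum_range_succ, Finset.sum_range_succ, Finset.sum_range_succ, ih,
      add_assoc]

/-- **Module CTBL.** Removing a countable set keeps the Sidon inequalities. -/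
theorem sidonIneq_of_diff_countable {K E : Set ℂ} (hK : IsClosed K) (hE : IsClosed E)
    (hE1 : E ⊆ sphere 0 1) (hKE : K ⊆ E) (hc : (E \ K).Countable) {q : ℝ} (hq : 1 < q)
    (h : ∃ (N : ℕ) (C : ℝ), SidonIneq q N C E) : ∃ (N : ℕ) (C : ℝ), SidonIneq q N C K := by
  classical
  obtain ⟨N, C, hS⟩ := h
  by_contra hno
  push Not at hno
  obtain ⟨s0, c0, g1, g2, g3, g4⟩ := exists_seq hq hno N
  have hEc : IsCompact E := (isCompact_sphere (0 : ℂ) 1).of_isClosed_subset hE hE1
  -- a subsequence converging on the countable part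
  have hcD : Countable ↥(E \ K) := hc.to_subtype
  have hcomp : IsCompact (Set.univ.pi fun _ : ↥(E \ K) => closedBall (0 : ℂ) 1) :=
    isCompact_univ_pi fun _ => isCompact_closedBall _ _
  obtain ⟨l, _, φ, hφ, hl⟩ := hcomp.tendsto_subseq
    (x := fun j (x : ↥(E \ K)) => pol (s0 j) (c0 j) (x : ℂ)) (fun j x _ => by
      rw [mem_closedBall_zero_iff]
      exact pol_le (g2 j) (hE1 x.2.1))
  -- the new sequence
  let s : ℕ → Finset ℕ := fun k => s0 (φ k)
  let c : ℕ → ℕ → ℂ := fun k => c0 (φ k)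
  have h1 : ∀ j, LacSet q N (s j : Set ℕ) := fun j => g1 _
  have h2 : ∀ j, ∑ n ∈ s j, ‖c j n‖ = 1 := fun j => g2 _
  have h4 : ∀ i j, i < j → ∀ m ∈ s i, ∀ n ∈ s j, m < n ∧ q * m ≤ n :=
    fun i j hij => g4 _ _ (hφ hij)
  have h3 : ∀ z ∈ K, Tendsto (fun j => pol (s j) (c j) z) atTop (𝓝 0) := by
    intro z hz
    have e1 : Tendsto (fun j : ℕ => 1 / ((j : ℝ) + 1)) atTop (𝓝 0) :=
      tendsto_one_div_add_atTop_nhds_zero_nat
    have e2 := e1.comp hφ.tendsto_atTop
    exact squeeze_zero_norm (fun j => g3 (φ j) z hz) e2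
  have h5 : ∀ z ∈ E, ∃ b : ℂ, Tendsto (fun j => pol (s j) (c j) z) atTop (𝓝 b) := by
    intro z hz
    by_cases hzK : z ∈ K
    · exact ⟨0, h3 z hzK⟩
    · rw [tendsto_pi_nhds] at hl
      exact ⟨l ⟨z, hz, hzK⟩, hl ⟨z, hz, hzK⟩⟩
  -- the half differences
  let Q : ℕ → ℂ → ℂ := fun j z =>
    (pol (s (2 * j)) (c (2 * j)) z - pol (s (2 * j + 1)) (c (2 * j + 1)) z) / 2
  have hQ0 : ∀ z ∈ E, Tendsto (fun j => Q j z) atTop (𝓝 0) := by
    intro z hz
    obtain ⟨b, hb⟩ := h5 z hz
    have t1 : Tendsto (fun j : ℕ => 2 * j) atTop atTop :=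
      tendsto_atTop_mono (fun j => by simp only [id]; omega) tendsto_id
    have t2 : Tendsto (fun j : ℕ => 2 * j + 1) atTop atTop :=
      tendsto_atTop_mono (fun j => by simp only [id]; omega) tendsto_id
    have := ((hb.comp t1).sub (hb.comp t2)).div_const 2
    rw [sub_self, zero_div] at this
    exact this
  have hQ1 : ∀ j, ∀ z ∈ E, ‖Q j z‖ ≤ 1 := by
    intro j z hz
    have e1 := pol_le (h2 (2 * j)) (hE1 hz)
    have e2 := pol_le (h2 (2 * j + 1)) (hE1 hz)
    have e3 := norm_sub_le (pol (s (2 * j)) (c (2 * j)) z) (pol (s (2 * j + 1)) (c (2 * j + 1)) z)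
    simp only [Q]
    rw [norm_div]
    simp only [Complex.norm_ofNat]
    linarith
  have hQc : ∀ j, Continuous (Q j) := by
    intro j
    simp only [Q, pol]
    fun_prop
  have _ : CompactSpace ↥E := isCompact_iff_compactSpace.1 hEc
  let F : ℕ → C(↥E × ↥(sphere (0 : ℂ) 1), ℝ) := fun j =>
    ⟨fun p => ((p.2 : ℂ) * Q j p.1).re, by
      have := hQc j
      fun_prop⟩
  have hF1 : ∀ j p, |F j p| ≤ 1 := by
    intro j p
    have e1 : ‖(p.2 : ℂ)‖ = 1 := mem_sphere_zero_iff_norm.1 p.2.2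
    calc |F j p| ≤ ‖(p.2 : ℂ) * Q j p.1‖ := Complex.abs_re_le_norm _
      _ = ‖Q j p.1‖ := by rw [norm_mul, e1, one_mul]
      _ ≤ 1 := hQ1 j _ p.1.2
  have hF0 : ∀ p, Tendsto (fun j => F j p) atTop (𝓝 0) := by
    intro p
    have e1 : Tendsto (fun j => (p.2 : ℂ) * Q j p.1) atTop (𝓝 ((p.2 : ℂ) * 0)) :=
      (hQ0 _ p.1.2).const_mul _
    rw [mul_zero] at e1
    have e2 := (Complex.continuous_re.tendsto 0).comp e1
    rw [Complex.zero_re] at e2
    exact e2
  set η : ℝ := 1 / (|C| + 1) with hη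
  have hη0 : 0 < η := by positivity
  obtain ⟨w, hw0, hw1, hw2⟩ := exists_convex_lt F hF1 hF0 hη0
  obtain ⟨M, hM⟩ : ∃ M, w.support ⊆ Finset.range M :=
    ⟨w.support.sup id + 1, fun j hj => by
      rw [Finset.mem_range]
      have : j ≤ w.support.sup id := Finset.le_sup (f := id) hj
      omega⟩
  have hw1' : ∑ j ∈ Finset.range M, w j = 1 := by
    rw [← hw1, Finsupp.sum_of_support_subset w hM _ (fun _ _ => rfl)]
  -- the weights
  let v : ℕ → ℂ := fun k => ((-1 : ℂ) ^ k * (w (k / 2) : ℂ)) / 2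
  have hv0 : ∀ j, v (2 * j) = (w j : ℂ) / 2 := by
    intro j
    simp only [v]
    rw [pow_mul]
    have : 2 * j / 2 = j := by omega
    rw [this]
    norm_num
  have hv1 : ∀ j, v (2 * j + 1) = -(w j : ℂ) / 2 := by
    intro j
    simp only [v]
    rw [pow_succ, pow_mul]
    have : (2 * j + 1) / 2 = j := by omega
    rw [this]
    norm_num
  obtain ⟨t, a, ht1, ht2, ht3⟩ := exists_comb h1 h2 h4 v (2 * M)
  have hsum : ∑ n ∈ t, ‖a n‖ = 1 := by
    rw [ht2, sum_two_mul, ← hw1']
    apply Finset.sum_congr rfl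
    intro j _
    rw [hv0, hv1, norm_div, norm_div, norm_neg, Complex.norm_real, Real.norm_of_nonneg (hw0 j)]
    simp only [Complex.norm_ofNat]
    ring
  have hpol : ∀ z, pol t a z = ∑ j ∈ Finset.range M, (w j : ℂ) * Q j z := by
    intro z
    rw [ht3, sum_two_mul]
    apply Finset.sum_congr rfl
    intro j _
    rw [hv0, hv1]
    simp only [Q]
    ring
  have hle : ∀ z ∈ E, ‖pol t a z‖ ≤ η := by
    intro z hz
    by_contra hlt
    push Not at hlt
    set y := pol t a z with hy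
    have hy0 : 0 < ‖y‖ := hη0.trans hlt
    let u : ℂ := (starRingEnd ℂ y) / ‖y‖
    have hu : u ∈ sphere (0 : ℂ) 1 := by
      rw [mem_sphere_zero_iff_norm]
      simp only [u]
      rw [norm_div, RCLike.norm_conj, Complex.norm_real, norm_norm, div_self hy0.ne']
    have huy : (u * y).re = ‖y‖ := by
      simp only [u]
      rw [div_mul_eq_mul_div, mul_comm, Complex.mul_conj, Complex.normSq_eq_norm_sq]
      rw [← Complex.ofReal_div, Complex.ofReal_re]
      field_simp
    have h6 := hw2 (⟨z, hz⟩, ⟨u, hu⟩)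
    rw [Finsupp.sum_of_support_subset w hM _ (fun _ _ => by rw [zero_mul])] at h6
    have h7 : ∑ j ∈ Finset.range M, w j * F j (⟨z, hz⟩, ⟨u, hu⟩) = (u * y).re := by
      rw [hy, hpol, Finset.mul_sum, Complex.re_sum]
      apply Finset.sum_congr rfl
      intro j _
      have e : u * ((w j : ℂ) * Q j z) = (w j : ℂ) * (u * Q j z) := by ring
      rw [e, Complex.re_ofReal_mul]
      rfl
    rw [h7, huy] at h6
    linarith
  have hfin := hS t a η ht1 hη0.le hle
  rw [hsum] at hfin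
  have h8 : C * η ≤ |C| * η := mul_le_mul_of_nonneg_right (le_abs_self C) hη0.le
  have h9 : |C| * η < 1 := by
    rw [hη, mul_one_div, div_lt_one (by positivity)]
    linarith
  linarith

end Forcing
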