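import Pool.Agent.Lib.MP_c80ac4_an.Thick
import Pool.Agent.Lib.MP_c80ac4_an.CN.Final

/-! # Coarse invariance of forcing -/

namespace Forcing

open Complex Metric Set MeasureTheory Filter Topology

/-- The pseudohyperbolic neighbourhood of radius `ρ` of `S` in the unit disc. -/
def nbhd (ρ : ℝ) (S : Set ℂ) : Set ℂ :=
  {v | ‖v‖ < 1 ∧ ∃ z ∈ S, ‖z - v‖ ≤ ρ * ‖1 - (starRingEnd ℂ) z * v‖}

/-- A telescoping estimate for finite sets with gaps. -/
theorem gap_sum_phi {q : ℝ} (hq : 1 < q) {h : ℝ} (hh : 0 < h) (A : Finset ℕ)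
    (hA0 : ∀ m ∈ A, 0 < m) (hA : ∀ m ∈ A, ∀ n ∈ A, m < n → q * m ≤ n) :
    ∀ x : ℝ, 0 ≤ x → (∀ m ∈ A, q * m ≤ x) →
      ∑ m ∈ A, (m * h) / ((1 + q * (m * h)) * (1 + m * h)) ≤ (x * h) / (1 + x * h) / (q - 1) := by
  induction A using Finset.induction_on_max with
  | empty =>
    intro x hx _
    rw [Finset.sum_empty]
    exact div_nonneg (by positivity) (by linarith)
  | insert b B hb ih =>
    intro x hx hB
    have hbB : b ∉ B := fun h => lt_irrefl _ (hb b h)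
    rw [Finset.sum_insert hbB]
    have h1 := ih (fun m hm => hA0 m (Finset.mem_insert_of_mem hm))
      (fun m hm n hn => hA m (Finset.mem_insert_of_mem hm) n (Finset.mem_insert_of_mem hn)) b
      (Nat.cast_nonneg b)
      (fun m hm => hA m (Finset.mem_insert_of_mem hm) b (Finset.mem_insert_self _ _) (hb m hm))
    have h2 := hB b (Finset.mem_insert_self _ _)
    have hb0 : (0 : ℝ) < b := by exact_mod_cast hA0 b (Finset.mem_insert_self _ _)
    have hq1 : 0 < q - 1 := by linarith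
    have hbh : 0 < (b : ℝ) * h := by positivity
    have e1 : ((b : ℝ) * h) / ((1 + q * (b * h)) * (1 + b * h)) =
        (q * (b * h) / (1 + q * (b * h)) - b * h / (1 + b * h)) / (q - 1) := by
      have : 0 < q * ((b : ℝ) * h) := by positivity
      field_simp
      ring
    have e2 : q * (b * h) / (1 + q * (b * h)) ≤ (x * h) / (1 + x * h) := by
      have h3 : 0 < q * ((b : ℝ) * h) := by positivity
      have h4 : q * ((b : ℝ) * h) ≤ x * h := by nlinarith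
      rw [div_le_div_iff₀ (by positivity) (by positivity)]
      nlinarith
    calc ((b : ℝ) * h) / ((1 + q * (b * h)) * (1 + b * h)) +
          ∑ m ∈ B, (m * h) / ((1 + q * (m * h)) * (1 + m * h))
        ≤ (q * (b * h) / (1 + q * (b * h)) - b * h / (1 + b * h)) / (q - 1) +
          (b * h) / (1 + b * h) / (q - 1) := by rw [e1]; gcongr
      _ = q * (b * h) / (1 + q * (b * h)) / (q - 1) := by ring
      _ ≤ (x * h) / (1 + x * h) / (q - 1) := by gcongr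

/-- `∑ n h e^{- n h} ≤ 2 q / (q - 1)` over a finite set with gaps. -/
theorem gap_sum_exp {q : ℝ} (hq : 1 < q) {h : ℝ} (hh : 0 < h) (A : Finset ℕ)
    (hA0 : ∀ m ∈ A, 0 < m) (hA : ∀ m ∈ A, ∀ n ∈ A, m < n → q * m ≤ n) :
    ∑ m ∈ A, (m * h) * Real.exp (-(m * h)) ≤ 2 * q / (q - 1) := by
  have hq1 : 0 < q - 1 := by linarith
  set x : ℝ := q * (A.sup id : ℕ) with hx
  have hx0 : 0 ≤ x := by positivity
  have h1 := gap_sum_phi hq hh A hA0 hA x hx0 fun m hm => by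
    rw [hx]
    have : m ≤ A.sup id := Finset.le_sup (f := id) hm
    gcongr
  have h2 : (x * h) / (1 + x * h) ≤ 1 := by
    rw [div_le_one (by positivity)]
    linarith
  calc ∑ m ∈ A, (m * h) * Real.exp (-(m * h))
      ≤ ∑ m ∈ A, 2 * q * ((m * h) / ((1 + q * (m * h)) * (1 + m * h))) := by
        refine Finset.sum_le_sum fun m hm => GapForcing.exp_aux hq ?_
        have : (0 : ℝ) < m := by exact_mod_cast hA0 m hm
        positivity
    _ = 2 * q * ∑ m ∈ A, ((m * h) / ((1 + q * (m * h)) * (1 + m * h))) := by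
        rw [Finset.mul_sum]
    _ ≤ 2 * q * (1 / (q - 1)) := by
        apply mul_le_mul_of_nonneg_left _ (by linarith)
        exact h1.trans (by gcongr)
    _ = 2 * q / (q - 1) := by ring

/-- Difference of powers. -/
theorem coarse_pow_sub_le (z v : ℂ) {t : ℝ} (hz : ‖z‖ ≤ t) (hv : ‖v‖ ≤ t) (n : ℕ) :
    ‖z ^ (n + 1) - v ^ (n + 1)‖ ≤ (n + 1) * t ^ n * ‖z - v‖ := by
  have ht : 0 ≤ t := (norm_nonneg z).trans hz
  induction n with
  | zero => simp
  | succ n ih =>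
    have e : z ^ (n + 1 + 1) - v ^ (n + 1 + 1) = z * (z ^ (n + 1) - v ^ (n + 1)) +
        (z - v) * v ^ (n + 1) := by ring
    rw [e]
    refine (norm_add_le _ _).trans ?_
    rw [norm_mul, norm_mul, norm_pow]
    have h1 : ‖z‖ * ‖z ^ (n + 1) - v ^ (n + 1)‖ ≤ t * ((n + 1) * t ^ n * ‖z - v‖) := by gcongr
    have h2 : ‖z - v‖ * ‖v‖ ^ (n + 1) ≤ ‖z - v‖ * t ^ (n + 1) := by gcongr
    calc _ ≤ t * ((n + 1) * t ^ n * ‖z - v‖) + ‖z - v‖ * t ^ (n + 1) := add_le_add h1 h2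
      _ = _ := by push_cast; ring

/-- **Bloch estimate** in the disc. -/
theorem bloch_sub_le {q : ℝ} (hq : 1 < q) {A R : ℝ} (hR : 1 ≤ R) {c : ℕ → ℂ} (hL : Lac q c)
    (hc : Conv c) (hA : ∀ n, ‖c n‖ ≤ A) {z v : ℂ} (hz : ‖z‖ < 1) (hv : ‖v‖ < 1)
    (h1 : ‖z - v‖ ≤ R * (1 - ‖v‖)) (h2 : 1 - ‖v‖ ≤ R * (1 - ‖z‖)) :
    ‖ps c z - ps c v‖ ≤ A * Real.exp 1 * R ^ 2 * (2 * q / (q - 1)) := by
  classical
  have hA0 : 0 ≤ A := (norm_nonneg _).trans (hA 0)
  set t : ℝ := max ‖z‖ ‖v‖ with ht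
  have ht0 : 0 ≤ t := (norm_nonneg z).trans (le_max_left _ _)
  have ht1 : t < 1 := max_lt hz hv
  set h : ℝ := 1 - t with hh
  have hh0 : 0 < h := by rw [hh]; linarith
  have hvh : 1 - ‖v‖ ≤ R * h := by
    rcases max_cases ‖z‖ ‖v‖ with ⟨h3, _⟩ | ⟨h3, _⟩
    · rw [hh, ht, h3]; exact h2
    · rw [hh, ht, h3]
      nlinarith
  have hzv : ‖z - v‖ ≤ R ^ 2 * h := by
    calc ‖z - v‖ ≤ R * (1 - ‖v‖) := h1
      _ ≤ R * (R * h) := by gcongr
      _ = R ^ 2 * h := by ring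
  have hs : HasSum (fun n => c n * z ^ n - c n * v ^ n) (ps c z - ps c v) :=
    (hc z hz).hasSum.sub (hc v hv).hasSum
  refine le_of_tendsto hs.norm (Eventually.of_forall fun s => ?_)
  set s' : Finset ℕ := s.filter fun n => c n ≠ 0 with hs'
  have hsum : ∑ n ∈ s, (c n * z ^ n - c n * v ^ n) = ∑ n ∈ s', (c n * z ^ n - c n * v ^ n) := by
    rw [hs', Finset.sum_filter]
    refine Finset.sum_congr rfl fun n _ => ?_
    split_ifs with h
    · rfl
    · have : c n = 0 := by simpa using h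
      rw [this]; ring
  have hmem : ∀ n ∈ s', c n ≠ 0 := fun n hn => (Finset.mem_filter.1 hn).2
  have hpos : ∀ n ∈ s', 0 < n := fun n hn => Nat.pos_of_ne_zero fun h0 => hmem n hn (h0 ▸ hL.1)
  have hterm : ∀ n ∈ s', ‖c n * z ^ n - c n * v ^ n‖ ≤
      A * Real.exp 1 * R ^ 2 * ((n * h) * Real.exp (-(n * h))) := by
    intro n hn
    obtain ⟨m, rfl⟩ : ∃ m, n = m + 1 := ⟨n - 1, by have := hpos n hn; omega⟩
    have h3 : t ^ m ≤ Real.exp 1 * Real.exp (-(((m + 1 : ℕ) : ℝ) * h)) := by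
      have h4 : t ≤ Real.exp (-h) := by
        have := Real.add_one_le_exp (-h)
        rw [hh] at this ⊢
        linarith
      calc t ^ m ≤ Real.exp (-h) ^ m := pow_le_pow_left₀ ht0 h4 m
        _ = Real.exp (-(m * h)) := by rw [← Real.exp_nat_mul]; congr 1; ring
        _ ≤ Real.exp (1 + -(((m + 1 : ℕ) : ℝ) * h)) := by
          apply Real.exp_le_exp.2
          push_cast
          have : h ≤ 1 := by rw [hh]; linarith
          linarith
        _ = _ := Real.exp_add _ _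
    rw [← mul_sub, norm_mul]
    have h5 := coarse_pow_sub_le z v (le_max_left ‖z‖ ‖v‖) (le_max_right ‖z‖ ‖v‖) m
    calc ‖c (m + 1)‖ * ‖z ^ (m + 1) - v ^ (m + 1)‖
        ≤ A * ((m + 1) * t ^ m * ‖z - v‖) := by
          gcongr
          exact hA _
      _ ≤ A * ((m + 1) * (Real.exp 1 * Real.exp (-(((m + 1 : ℕ) : ℝ) * h))) * (R ^ 2 * h)) := by
          gcongr
      _ = _ := by push_cast; ring
  rw [hsum]
  refine (norm_sum_le _ _).trans ((Finset.sum_le_sum hterm).trans ?_)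
  rw [← Finset.mul_sum]
  apply mul_le_mul_of_nonneg_left _ (by positivity)
  exact gap_sum_exp hq hh0 s' hpos fun m hm n hn hmn => hL.2 m n hmn (hmem m hm) (hmem n hn)

/-- Pseudohyperbolic closeness in Euclidean terms. -/
theorem nbhd_close {ρ : ℝ} (h0 : 0 ≤ ρ) (h1 : ρ < 1) {z v : ℂ} (hz : ‖z‖ < 1) (hv : ‖v‖ < 1)
    (h : ‖z - v‖ ≤ ρ * ‖1 - (starRingEnd ℂ) z * v‖) :
    ‖z - v‖ ≤ 4 / (1 - ρ ^ 2) * (1 - ‖v‖) ∧ 1 - ‖v‖ ≤ 4 / (1 - ρ ^ 2) * (1 - ‖z‖) := by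
  set P : ℝ := ‖1 - (starRingEnd ℂ) z * v‖ with hP
  have hP0 : 0 ≤ P := norm_nonneg _
  have hρ : 0 < 1 - ρ ^ 2 := by nlinarith
  have hid : P ^ 2 - ‖z - v‖ ^ 2 = (1 - ‖z‖ ^ 2) * (1 - ‖v‖ ^ 2) := by
    rw [hP, ← Complex.normSq_eq_norm_sq, ← Complex.normSq_eq_norm_sq, ← Complex.normSq_eq_norm_sq,
      ← Complex.normSq_eq_norm_sq]
    simp only [Complex.normSq_apply, Complex.sub_re, Complex.sub_im, Complex.mul_re,
      Complex.mul_im, Complex.one_re, Complex.one_im, Complex.conj_re, Complex.conj_im]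
    ring
  have hPv : 1 - ‖z‖ * ‖v‖ ≤ P := by
    have h2 : ‖(1 : ℂ)‖ - ‖(starRingEnd ℂ) z * v‖ ≤ P := norm_sub_norm_le _ _
    rw [norm_one, norm_mul, RCLike.norm_conj] at h2
    exact h2
  have hz0 := norm_nonneg z
  have hv0 := norm_nonneg v
  have a1 : 1 - ‖v‖ ≤ P := by nlinarith
  have a2 : 1 - ‖z‖ ≤ P := by nlinarith
  set K : ℝ := 4 / (1 - ρ ^ 2) with hK
  have hK0 : 0 < K := by positivity
  have hsq : ‖z - v‖ ^ 2 ≤ ρ ^ 2 * P ^ 2 := by
    rw [← mul_pow]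
    exact pow_le_pow_left₀ (norm_nonneg _) h 2
  have hP2 : P ^ 2 ≤ K * ((1 - ‖z‖) * (1 - ‖v‖)) := by
    have h3 : (1 - ρ ^ 2) * P ^ 2 ≤ 4 * ((1 - ‖z‖) * (1 - ‖v‖)) := by
      have h4 : (1 - ‖z‖ ^ 2) * (1 - ‖v‖ ^ 2) ≤ 4 * ((1 - ‖z‖) * (1 - ‖v‖)) := by
        have h5 : (1 + ‖z‖) * (1 + ‖v‖) ≤ 4 := by nlinarith
        have h6 : 0 ≤ (1 - ‖z‖) * (1 - ‖v‖) := mul_nonneg (by linarith) (by linarith)
        nlinarith
      nlinarith
    rw [hK, div_mul_eq_mul_div, le_div_iff₀ hρ]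
    linarith
  have b1 : 1 - ‖v‖ ≤ K * (1 - ‖z‖) := by
    have h3 : (1 - ‖v‖) ^ 2 ≤ P ^ 2 := pow_le_pow_left₀ (by linarith) a1 2
    have h4 : (1 - ‖v‖) * (1 - ‖v‖) ≤ (1 - ‖v‖) * (K * (1 - ‖z‖)) := by nlinarith
    exact le_of_mul_le_mul_left h4 (by linarith)
  have b2 : 1 - ‖z‖ ≤ K * (1 - ‖v‖) := by
    have h3 : (1 - ‖z‖) ^ 2 ≤ P ^ 2 := pow_le_pow_left₀ (by linarith) a2 2
    have h4 : (1 - ‖z‖) * (1 - ‖z‖) ≤ (1 - ‖z‖) * (K * (1 - ‖v‖)) := by nlinarith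
    exact le_of_mul_le_mul_left h4 (by linarith)
  refine ⟨?_, b1⟩
  have h5 : ‖z - v‖ ≤ P := h.trans (by nlinarith)
  have h6 : P ^ 2 ≤ (K * (1 - ‖v‖)) ^ 2 := by
    calc P ^ 2 ≤ K * ((1 - ‖z‖) * (1 - ‖v‖)) := hP2
      _ ≤ K * ((K * (1 - ‖v‖)) * (1 - ‖v‖)) := by
        gcongr
      _ = (K * (1 - ‖v‖)) ^ 2 := by ring
  exact h5.trans (abs_le_of_sq_le_sq' h6 (mul_nonneg hK0.le (by linarith))).2

theorem subset_nbhd {S : Set ℂ} (hS : S ⊆ ball 0 1) {ρ : ℝ} (h0 : 0 ≤ ρ) : S ⊆ nbhd ρ S := by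
  intro z hz
  refine ⟨mem_ball_zero_iff.1 (hS hz), z, hz, ?_⟩
  rw [sub_self, norm_zero]
  positivity

theorem nbhd_subset (ρ : ℝ) (S : Set ℂ) : nbhd ρ S ⊆ ball 0 1 := fun _ hv =>
  mem_ball_zero_iff.2 hv.1

/-- Every function with Hadamard gaps that is bounded on `S` has bounded coefficients. -/
def CoeffForcing (S : Set ℂ) : Prop :=
  ∀ c : ℕ → ℂ, (∃ q : ℝ, 1 < q ∧ Lac q c) → Conv c → BddOnSet c S → ∃ A : ℝ, ∀ n, ‖c n‖ ≤ A

theorem coeffForcing_of_forcing {S : Set ℂ} (h : IsForcing S) : CoeffForcing S := by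
  rintro c ⟨q, hq, hL⟩ hc hb
  obtain ⟨K, hK⟩ := sum_bdd_of_bdd hq hL hc (h c ⟨q, hq, hL⟩ hc hb)
  exact ⟨K, fun n => by simpa using hK {n}⟩

theorem coeffForcing_of_thick {S : Set ℂ} (hS : S ⊆ ball 0 1) (hT : Thick S) :
    CoeffForcing S := by
  rintro c ⟨q, hq, hL⟩ hc hb
  exact coeff_bdd_of_thick hS hT hq hL hc hb

/-- **Coarse invariance.** -/
theorem forcing_iff_nbhd {S : Set ℂ} (hS : S ⊆ ball 0 1) {ρ : ℝ} (h0 : 0 ≤ ρ)
    (h1 : ρ < 1) : IsForcing S ↔ CoeffForcing S ∧ IsForcing (nbhd ρ S) := by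
  refine ⟨fun h => ⟨coeffForcing_of_forcing h, h.mono (subset_nbhd hS h0)⟩,
    fun h c hq hc hb => ?_⟩
  obtain ⟨A, hA⟩ := h.1 c hq hc hb
  obtain ⟨q, hq, hL⟩ := hq
  obtain ⟨M, hM⟩ := hb
  refine h.2 c ⟨q, hq, hL⟩ hc
    ⟨M + A * Real.exp 1 * (4 / (1 - ρ ^ 2)) ^ 2 * (2 * q / (q - 1)), ?_⟩
  rintro v ⟨hv, z, hz, hzv⟩
  have hz1 : ‖z‖ < 1 := mem_ball_zero_iff.1 (hS hz)
  obtain ⟨h2, h3⟩ := nbhd_close h0 h1 hz1 hv hzv
  have hρ : 0 < 1 - ρ ^ 2 := by nlinarith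
  have h4 : (1 : ℝ) ≤ 4 / (1 - ρ ^ 2) := by
    rw [one_le_div hρ]
    nlinarith [sq_nonneg ρ]
  have h5 := bloch_sub_le hq h4 hL hc hA hz1 hv h2 h3
  have h6 : ‖ps c v‖ ≤ ‖ps c z‖ + ‖ps c z - ps c v‖ := by
    have : ps c v = ps c z - (ps c z - ps c v) := by ring
    nth_rewrite 1 [this]
    exact norm_sub_le _ _
  linarith [hM z hz]

theorem closure_nbhd {S : Set ℂ} (hS : S ⊆ ball 0 1) {ρ : ℝ} (h0 : 0 ≤ ρ) (h1 : ρ < 1) :
    closure (nbhd ρ S) ∩ sphere 0 1 = closure S ∩ sphere 0 1 := by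
  apply Subset.antisymm
  · rintro ζ ⟨h2, h3⟩
    refine ⟨?_, h3⟩
    obtain ⟨v, hv, hlim⟩ := mem_closure_iff_seq_limit.1 h2
    have h4 : ∀ n, ∃ z ∈ S, ‖z - v n‖ ≤ 4 / (1 - ρ ^ 2) * (1 - ‖v n‖) := by
      intro n
      obtain ⟨h5, z, hz, h6⟩ := hv n
      exact ⟨z, hz, (nbhd_close h0 h1 (mem_ball_zero_iff.1 (hS hz)) h5 h6).1⟩
    choose z hz hzv using h4
    refine mem_closure_of_tendsto (f := z) (b := atTop) ?_ (Eventually.of_forall hz)
    have h7 : Tendsto (fun n => 4 / (1 - ρ ^ 2) * (1 - ‖v n‖)) atTop (𝓝 0) := by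
      have h8 : Tendsto (fun n => ‖v n‖) atTop (𝓝 1) := by
        have := hlim.norm
        rwa [mem_sphere_zero_iff_norm.1 h3] at this
      have h9 := (h8.const_sub 1).const_mul (4 / (1 - ρ ^ 2))
      rwa [sub_self, mul_zero] at h9
    have h10 : Tendsto (fun n => z n - v n) atTop (𝓝 0) := squeeze_zero_norm hzv h7
    have h11 := h10.add hlim
    rw [zero_add] at h11
    simpa using h11
  · exact inter_subset_inter_left _ (closure_mono (subset_nbhd hS h0))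

/-- A power series with bounded Hadamard coefficients is close to its partial sum of order
`1 / (1 - |z|)` at `z / |z|`. -/
theorem partial_close {q : ℝ} (hq : 1 < q) {A : ℝ} {c : ℕ → ℂ} (hL : Lac q c) (hc : Conv c)
    (hA : ∀ n, ‖c n‖ ≤ A) {z : ℂ} (hz : ‖z‖ < 1) :
    ‖ps c z - ∑ n ∈ Finset.range (⌊1 / (1 - ‖z‖)⌋₊ + 1), c n * (z / (‖z‖ : ℂ)) ^ n‖ ≤
      A * Real.exp 1 * (2 * q / (q - 1)) := by
  classical
  have hA0 : 0 ≤ A := (norm_nonneg _).trans (hA 0)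
  have hq1 : 0 < q - 1 := by linarith
  have hB0 : 0 ≤ A * Real.exp 1 * (2 * q / (q - 1)) := by positivity
  rcases eq_or_ne z 0 with h0 | h0
  · subst h0
    have e1 : ps c 0 = 0 := by
      unfold ps
      refine (tsum_congr fun n => ?_).trans tsum_zero
      rcases Nat.eq_zero_or_pos n with h | h
      · rw [h, hL.1, zero_mul]
      · rw [zero_pow h.ne', mul_zero]
    rw [e1, zero_sub, norm_neg, Finset.sum_eq_zero, norm_zero]
    · exact hB0
    · intro n _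
      rcases Nat.eq_zero_or_pos n with h | h
      · rw [h, hL.1, zero_mul]
      · rw [zero_div, zero_pow h.ne', mul_zero]
  set h : ℝ := 1 - ‖z‖ with hh
  have hh0 : 0 < h := by rw [hh]; linarith
  have hzn : 0 < ‖z‖ := norm_pos_iff.2 h0
  set ζ : ℂ := z / (‖z‖ : ℂ) with hζ
  have hζ1 : ‖ζ‖ = 1 := by
    rw [hζ, norm_div, Complex.norm_real, norm_norm, div_self hzn.ne']
  have hzζ : z = (‖z‖ : ℂ) * ζ := by
    rw [hζ, mul_div_cancel₀]
    exact_mod_cast hzn.ne'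
  set K : ℕ := ⌊1 / h⌋₊ + 1 with hK
  let d : ℕ → ℂ := fun n => if n < K then c n * ζ ^ n else 0
  have hs2 : HasSum d (∑ n ∈ Finset.range K, c n * ζ ^ n) := by
    have h3 : HasSum d (∑ n ∈ Finset.range K, d n) :=
      hasSum_sum_of_ne_finset_zero fun n hn => if_neg (by simpa using hn)
    rwa [Finset.sum_congr rfl fun n hn => if_pos (Finset.mem_range.1 hn)] at h3
  have hs : HasSum (fun n => c n * z ^ n - d n) (ps c z - ∑ n ∈ Finset.range K, c n * ζ ^ n) :=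
    (hc z hz).hasSum.sub hs2
  refine le_of_tendsto hs.norm (Eventually.of_forall fun s => ?_)
  set s' : Finset ℕ := s.filter fun n => c n ≠ 0 with hs'
  have hsum : ∑ n ∈ s, (c n * z ^ n - d n) = ∑ n ∈ s', (c n * z ^ n - d n) := by
    rw [hs', Finset.sum_filter]
    refine Finset.sum_congr rfl fun n _ => ?_
    split_ifs with h
    · rfl
    · have : c n = 0 := by simpa using h
      simp [d, this]
  have hmem : ∀ n ∈ s', c n ≠ 0 := fun n hn => (Finset.mem_filter.1 hn).2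
  have hpos : ∀ n ∈ s', 0 < n := fun n hn => Nat.pos_of_ne_zero fun h0 => hmem n hn (h0 ▸ hL.1)
  have hzexp : ∀ n : ℕ, ‖z‖ ^ n ≤ Real.exp (-(n * h)) := by
    intro n
    have h4 : ‖z‖ ≤ Real.exp (-h) := by
      have := Real.add_one_le_exp (-h)
      rw [hh] at this ⊢
      linarith
    calc ‖z‖ ^ n ≤ Real.exp (-h) ^ n := pow_le_pow_left₀ (norm_nonneg z) h4 n
      _ = Real.exp (-(n * h)) := by rw [← Real.exp_nat_mul]; congr 1; ring
  have he1 : 1 ≤ Real.exp 1 := Real.one_le_exp zero_le_one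
  have hterm : ∀ n ∈ s', ‖c n * z ^ n - d n‖ ≤
      A * Real.exp 1 * ((n * h) * Real.exp (-(n * h))) := by
    intro n hn
    have hn0 : (0 : ℝ) < n := by exact_mod_cast hpos n hn
    by_cases hnK : n < K
    · have e1 : c n * z ^ n - d n = c n * (((‖z‖ ^ n - 1 : ℝ) : ℂ) * ζ ^ n) := by
        simp only [d, if_pos hnK]
        nth_rewrite 1 [hzζ]
        push_cast
        ring
      have hnh : n * h ≤ 1 := by
        have : n ≤ ⌊1 / h⌋₊ := by omega
        have h5 : (n : ℝ) ≤ 1 / h := by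
          calc (n : ℝ) ≤ (⌊1 / h⌋₊ : ℝ) := by exact_mod_cast this
            _ ≤ 1 / h := Nat.floor_le (by positivity)
        rwa [le_div_iff₀ hh0] at h5
      have h6 : 1 - ‖z‖ ^ n ≤ n * h := by
        have := one_add_mul_le_pow (a := -h) (by rw [hh]; linarith) n
        have e2 : 1 + -h = ‖z‖ := by rw [hh]; ring
        rw [e2] at this
        linarith
      have h7 : ‖z‖ ^ n ≤ 1 := pow_le_one₀ (norm_nonneg z) hz.le
      rw [e1, norm_mul, norm_mul, norm_pow, hζ1, one_pow, mul_one, Complex.norm_real,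
        Real.norm_eq_abs, abs_sub_comm, abs_of_nonneg (by linarith)]
      have h8 : 1 ≤ Real.exp 1 * Real.exp (-(n * h)) := by
        rw [← Real.exp_add]
        exact Real.one_le_exp (by linarith)
      calc ‖c n‖ * (1 - ‖z‖ ^ n) ≤ A * (n * h) := by
            gcongr
            exact hA n
        _ ≤ A * (n * h) * (Real.exp 1 * Real.exp (-(n * h))) :=
            le_mul_of_one_le_right (by positivity) h8
        _ = _ := by ring
    · have e1 : c n * z ^ n - d n = c n * z ^ n := by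
        simp only [d, if_neg hnK, sub_zero]
      have hnh : 1 ≤ n * h := by
        have h5 : 1 / h < n := by
          calc 1 / h < (⌊1 / h⌋₊ : ℝ) + 1 := Nat.lt_floor_add_one _
            _ ≤ n := by
              have : ⌊1 / h⌋₊ + 1 ≤ n := by omega
              exact_mod_cast this
        rw [div_lt_iff₀ hh0] at h5
        exact h5.le
      rw [e1, norm_mul, norm_pow]
      calc ‖c n‖ * ‖z‖ ^ n ≤ A * Real.exp (-(n * h)) := by
            gcongr
            · exact hA n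
            · exact hzexp n
        _ ≤ A * (Real.exp 1 * (n * h)) * Real.exp (-(n * h)) := by
            gcongr
            have : 1 ≤ Real.exp 1 * (n * h) := by nlinarith
            exact le_mul_of_one_le_right hA0 this
        _ = _ := by ring
  rw [hsum]
  refine (norm_sum_le _ _).trans ((Finset.sum_le_sum hterm).trans ?_)
  rw [← Finset.mul_sum]
  apply mul_le_mul_of_nonneg_left _ (by positivity)
  exact gap_sum_exp hq hh0 s' hpos fun m hm n hn hmn => hL.2 m n hmn (hmem m hm) (hmem n hn)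

/-- Every bounded Hadamard sequence of coefficients whose partial sums of order `1 / (1 - |z|)` at
`z / |z|`, `z ∈ S`, are bounded is summable. -/
def SumForcing (S : Set ℂ) : Prop :=
  ∀ c : ℕ → ℂ, (∃ q : ℝ, 1 < q ∧ Lac q c) → (∃ A : ℝ, ∀ n, ‖c n‖ ≤ A) →
    (∃ M : ℝ, ∀ z ∈ S, ‖∑ n ∈ Finset.range (⌊1 / (1 - ‖z‖)⌋₊ + 1),
      c n * (z / (‖z‖ : ℂ)) ^ n‖ ≤ M) → Summable fun n => ‖c n‖

theorem conv_of_bdd' {c : ℕ → ℂ} {A : ℝ} (h : ∀ n, ‖c n‖ ≤ A) : Conv c := by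
  intro z hz
  refine Summable.of_norm_bounded ((summable_geometric_of_lt_one (norm_nonneg z) hz).mul_left A)
    fun n => ?_
  rw [norm_mul, norm_pow]
  exact mul_le_mul_of_nonneg_right (h n) (by positivity)

/-- **Forcing = bounded coefficients + partial sums.** -/
theorem forcing_iff_sum {S : Set ℂ} (hS : S ⊆ ball 0 1) :
    IsForcing S ↔ CoeffForcing S ∧ SumForcing S := by
  constructor
  · intro h
    refine ⟨coeffForcing_of_forcing h, ?_⟩
    rintro c ⟨q, hq, hL⟩ ⟨A, hA⟩ ⟨M, hM⟩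
    have hc := conv_of_bdd' hA
    have hb : BddOnSet c S := ⟨M + A * Real.exp 1 * (2 * q / (q - 1)), fun z hz => by
      have h1 := partial_close hq hL hc hA (mem_ball_zero_iff.1 (hS hz))
      have h2 := hM z hz
      set P := ∑ n ∈ Finset.range (⌊1 / (1 - ‖z‖)⌋₊ + 1), c n * (z / (‖z‖ : ℂ)) ^ n
      have e : ps c z = P + (ps c z - P) := by ring
      rw [e]
      exact (norm_add_le _ _).trans (add_le_add h2 h1)⟩
    obtain ⟨K, hK⟩ := sum_bdd_of_bdd hq hL hc (h c ⟨q, hq, hL⟩ hc hb)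
    exact summable_of_sum_le (fun n => norm_nonneg _) hK
  · rintro ⟨h1, h2⟩ c ⟨q, hq, hL⟩ hc hb
    obtain ⟨A, hA⟩ := h1 c ⟨q, hq, hL⟩ hc hb
    obtain ⟨M, hM⟩ := hb
    have hs := h2 c ⟨q, hq, hL⟩ ⟨A, hA⟩ ⟨M + A * Real.exp 1 * (2 * q / (q - 1)), fun z hz => by
      have h3 := partial_close hq hL hc hA (mem_ball_zero_iff.1 (hS hz))
      have h4 := hM z hz
      set P := ∑ n ∈ Finset.range (⌊1 / (1 - ‖z‖)⌋₊ + 1), c n * (z / (‖z‖ : ℂ)) ^ n
      have e : P = ps c z - (ps c z - P) := by ring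
      rw [e]
      exact (norm_sub_le _ _).trans (add_le_add h4 h3)⟩
    exact bdd_of_sum_bdd hc fun s => hs.sum_le_tsum s fun n _ => norm_nonneg _

/-- **Coarsely connected sets.** -/
theorem coarse_connected_iff {S : Set ℂ} (hS : S ⊆ ball 0 1) {ρ r : ℝ} (h0 : 0 ≤ ρ)
    (h1 : ρ < 1) (hr : r < 1) (hconn : IsPreconnected (nbhd ρ S ∪ closedBall 0 r)) :
    IsForcing S ↔ CoeffForcing S ∧ SidonOn (closure S ∩ sphere 0 1) := by
  rw [forcing_iff_nbhd hS h0 h1, connected_forcing_iff (nbhd_subset ρ S) hr hconn,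
    closure_nbhd hS h0 h1]

/-- **Nets of dilates.** -/
theorem net_iff {S : Set ℂ} (hS : S ⊆ ball 0 1) {ρ : ℝ} (h0 : 0 ≤ ρ)
    (h1 : ρ < 1) (h : ∀ t : ℝ, t < 1 → ∃ w : ℂ, t < ‖w‖ ∧ ‖w‖ < 1 ∧
      ∀ ζ ∈ closure S ∩ sphere 0 1, w * ζ ∈ closure (nbhd ρ S)) :
    IsForcing S ↔ CoeffForcing S ∧ SidonOn (closure S ∩ sphere 0 1) := by
  refine ⟨fun h => ⟨coeffForcing_of_forcing h, sidonOn_of_forcing hS h⟩, fun hE => ?_⟩
  rw [forcing_iff_nbhd hS h0 h1]
  exact ⟨hE.1, forcing_of_sidonOn inter_subset_right h hE.2⟩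

end Forcing
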