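import Pool.Agent.Lib.MP_c80ac4_an.Defs

/-! # Duality: uniform bounds and interpolation by finitely supported measures -/

namespace Forcing

open Complex Metric Set MeasureTheory Filter Topology

/-- Uniform bound: every function analytic in the disc with `q`-lacunary frequencies `≥ N` which is
bounded by one on `S` has absolute coefficient sum at most `C`. -/
def UnifBound (q : ℝ) (N : ℕ) (C : ℝ) (S : Set ℂ) : Prop :=
  ∀ c : ℕ → ℂ, Lac q c → Conv c → (∀ n < N, c n = 0) → (∀ z ∈ S, ‖ps c z‖ ≤ 1) →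
    ∀ s : Finset ℕ, ∑ n ∈ s, ‖c n‖ ≤ C

/-- Interpolation: for every `q`-lacunary set `L` of frequencies `≥ N`, every weight `ρ` of
subexponential growth, every finite `F ⊆ L`, all data `ε` of modulus at most one and every `δ > 0`
there is a finitely supported complex measure on `S` of total variation at most `C` whose moments
of order `n ∈ L` are `ε n` for `n ∈ F` and `0` otherwise, up to a `ρ`-weighted `ℓ¹` error `δ`. -/
def DualInterp (q : ℝ) (N : ℕ) (C : ℝ) (S : Set ℂ) : Prop :=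
  ∀ L : Set ℕ, LacSet q N L → ∀ ρ : ℕ → ℝ, (∀ n, 0 < ρ n) →
    (∀ r : ℝ, 0 ≤ r → r < 1 → Summable fun n => ρ n * r ^ n) →
    ∀ (F : Finset ℕ) (ε : ℕ → ℂ), (F : Set ℕ) ⊆ L → (∀ n, ‖ε n‖ ≤ 1) → ∀ δ : ℝ, 0 < δ →
    ∃ (T : Finset ℂ) (w : ℂ → ℂ), (T : Set ℂ) ⊆ S ∧ ∑ z ∈ T, ‖w z‖ ≤ C ∧
      ∀ G : Finset ℕ, (G : Set ℕ) ⊆ L →
        ∑ n ∈ G, ρ n * ‖(∑ z ∈ T, w z * z ^ n) - (if n ∈ F then ε n else 0)‖ ≤ δ

/-- the phase -/
theorem dual_phase (z : ℂ) : ∃ u : ℂ, ‖u‖ ≤ 1 ∧ u * z = (‖z‖ : ℂ) := by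
  by_cases hz : z = 0
  · exact ⟨0, by simp, by simp [hz]⟩
  · refine ⟨(starRingEnd ℂ) z / (‖z‖ : ℂ), ?_, ?_⟩
    · rw [norm_div, RCLike.norm_conj, Complex.norm_real, norm_norm, div_self (norm_ne_zero_iff.2 hz)]
    · have h1 : (‖z‖ : ℂ) ≠ 0 := by
        exact_mod_cast norm_ne_zero_iff.2 hz
      rw [div_mul_eq_mul_div, div_eq_iff h1, mul_comm, Complex.mul_conj, Complex.normSq_eq_norm_sq]
      push_cast
      ring

section hard

variable (L : Set ℕ) (ρ : ℕ → ℝ)

/-- the sequence `ρ n z ^ n` on `L` -/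
noncomputable def dvec (z : ℂ) (n : ℕ) : ℂ := by
  classical
  exact if n ∈ L then (ρ n : ℂ) * z ^ n else 0

theorem dvec_mem {L : Set ℕ} {ρ : ℕ → ℝ} (hρ : ∀ n, 0 < ρ n)
    (hs : ∀ r : ℝ, 0 ≤ r → r < 1 → Summable fun n => ρ n * r ^ n) {z : ℂ} (hz : ‖z‖ < 1) :
    Memℓp (dvec L ρ z) 1 := by
  classical
  apply memℓp_gen
  have h1 := hs ‖z‖ (norm_nonneg z) hz
  refine Summable.of_nonneg_of_le (fun n => ?_) (fun n => ?_) h1
  · positivity
  · rw [ENNReal.toReal_one, Real.rpow_one]
    unfold dvec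
    split_ifs with h
    · rw [norm_mul, norm_pow, Complex.norm_real, Real.norm_of_nonneg (hρ n).le]
    · rw [norm_zero]
      have := hρ n
      positivity

end hard

/-- **Module DUAL (hard direction).** -/
theorem dual_of_unif {q : ℝ} {N : ℕ} {C : ℝ} {S : Set ℂ} (hq : 1 < q) (hC : 0 < C)
    (hS : S ⊆ ball 0 1) (h : UnifBound q N C S) : DualInterp q N C S := by
  classical
  intro L hL ρ hρ hsum F ε hF hε δ hδ
  have hnorm : ∀ z ∈ S, ‖z‖ < 1 := fun z hz => by simpa using hS hz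
  -- the vectors
  let E := lp (fun _ : ℕ => ℂ) 1
  let X : ℂ → E := fun z => if hz : ‖z‖ < 1 then ⟨dvec L ρ z, dvec_mem hρ hsum hz⟩ else 0
  have hX : ∀ z ∈ S, ∀ n, (X z : ℕ → ℂ) n = dvec L ρ z n := by
    intro z hz n
    have h1 : X z = ⟨dvec L ρ z, dvec_mem hρ hsum (hnorm z hz)⟩ := dif_pos (hnorm z hz)
    rw [h1]
  let Y : E := ∑ n ∈ F, lp.single 1 n ((ρ n : ℂ) * ε n)
  have hY : ∀ n, (Y : ℕ → ℂ) n = if n ∈ F then (ρ n : ℂ) * ε n else 0 := by
    intro n
    show (((∑ k ∈ F, lp.single 1 k ((ρ k : ℂ) * ε k) : lp (fun _ : ℕ => ℂ) 1)) : ℕ → ℂ) n = _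
    rw [lp.coeFn_sum, Finset.sum_apply]
    simp only [lp.single_apply]
    rw [Finset.sum_pi_single]
  let K : Set E := {v | ∃ (T : Finset ℂ) (w : ℂ → ℂ), (T : Set ℂ) ⊆ S ∧ ∑ z ∈ T, ‖w z‖ ≤ C ∧
    v = ∑ z ∈ T, w z • X z}
  have hKconv : Convex ℝ K := by
    rintro v1 ⟨T1, w1, hT1, hw1, rfl⟩ v2 ⟨T2, w2, hT2, hw2, rfl⟩ a b ha hb hab
    refine ⟨T1 ∪ T2, fun z => (a : ℂ) * (if z ∈ T1 then w1 z else 0) +
      (b : ℂ) * (if z ∈ T2 then w2 z else 0), ?_, ?_, ?_⟩
    · rw [Finset.coe_union]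
      exact Set.union_subset hT1 hT2
    · have h1 : ∀ z ∈ T1 ∪ T2, ‖(a : ℂ) * (if z ∈ T1 then w1 z else 0) +
          (b : ℂ) * (if z ∈ T2 then w2 z else 0)‖ ≤
          a * (if z ∈ T1 then ‖w1 z‖ else 0) + b * (if z ∈ T2 then ‖w2 z‖ else 0) := by
        intro z _
        refine (norm_add_le _ _).trans ?_
        rw [norm_mul, norm_mul, Complex.norm_real, Complex.norm_real, Real.norm_of_nonneg ha,
          Real.norm_of_nonneg hb]
        apply le_of_eq
        congr 2
        · split_ifs <;> simp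
        · split_ifs <;> simp
      refine (Finset.sum_le_sum h1).trans ?_
      rw [Finset.sum_add_distrib, ← Finset.mul_sum, ← Finset.mul_sum, Finset.sum_ite_mem,
        Finset.sum_ite_mem, Finset.union_inter_cancel_left, Finset.union_inter_cancel_right]
      calc a * ∑ z ∈ T1, ‖w1 z‖ + b * ∑ z ∈ T2, ‖w2 z‖ ≤ a * C + b * C := by gcongr
        _ = C := by rw [← add_mul, hab, one_mul]
    · have h2 : ∀ z ∈ T1 ∪ T2, ((a : ℂ) * (if z ∈ T1 then w1 z else 0) +
          (b : ℂ) * (if z ∈ T2 then w2 z else 0)) • X z =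
          (a : ℂ) • (if z ∈ T1 then w1 z • X z else 0) +
            (b : ℂ) • (if z ∈ T2 then w2 z • X z else 0) := by
        intro z _
        rw [add_smul, mul_smul, mul_smul]
        congr 2
        · split_ifs <;> simp
        · split_ifs <;> simp
      rw [Finset.sum_congr rfl h2, Finset.sum_add_distrib, ← Finset.smul_sum, ← Finset.smul_sum,
        Finset.sum_ite_mem, Finset.sum_ite_mem, Finset.union_inter_cancel_left,
        Finset.union_inter_cancel_right]
      rfl
  have hmem : Y ∈ closure K := by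
    by_contra hY'
    obtain ⟨f, u, hf1, hf2⟩ := RCLike.geometric_hahn_banach_closed_point (𝕜 := ℂ)
      hKconv.closure isClosed_closure hY'
    have hf3 : ∀ v ∈ K, (f v).re < u := fun v hv => hf1 v (subset_closure hv)
    have hu : 0 < u := by
      have h0 : (0 : E) ∈ K := ⟨∅, 0, by simp, by simp [hC.le], by simp⟩
      have := hf3 0 h0
      rw [map_zero] at this
      exact this
    -- values on X z
    have hfX : ∀ z ∈ S, C * ‖f (X z)‖ ≤ u := by
      intro z hz
      obtain ⟨t, ht1, ht2⟩ := dual_phase (f (X z))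
      have h1 : ((C : ℂ) * t) • X z ∈ K := by
        refine ⟨{z}, fun _ => (C : ℂ) * t, by simpa using hz, ?_, by simp⟩
        rw [Finset.sum_singleton, norm_mul, Complex.norm_real, Real.norm_of_nonneg hC.le]
        nlinarith
      have h2 := hf3 _ h1
      rw [map_smul, smul_eq_mul, mul_assoc, ht2] at h2
      rw [← Complex.ofReal_mul, Complex.ofReal_re] at h2
      exact h2.le
    -- the coefficients
    let a : ℕ → ℂ := fun n => if n ∈ L then (ρ n : ℂ) * f (lp.single 1 n 1) else 0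
    have hsingle : ∀ n (c : ℂ), f (lp.single 1 n c) = c * f (lp.single 1 n 1) := by
      intro n c
      have h1 : (lp.single 1 n c : E) = c • (lp.single 1 n 1 : E) := by
        rw [← lp.single_smul, smul_eq_mul, mul_one]
      rw [h1, map_smul, smul_eq_mul]
    have hbound : ∀ n, ‖a n‖ ≤ ‖f‖ * ρ n := by
      intro n
      show ‖(if n ∈ L then (ρ n : ℂ) * f (lp.single 1 n 1) else 0 : ℂ)‖ ≤ _
      split_ifs with hn
      · rw [norm_mul, Complex.norm_real, Real.norm_of_nonneg (hρ n).le, mul_comm]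
        have h1 : ‖f (lp.single 1 n 1)‖ ≤ ‖f‖ * 1 := by
          refine (f.le_opNorm _).trans ?_
          rw [lp.norm_single (by norm_num : (0 : ENNReal) < 1), norm_one]
        rw [mul_one] at h1
        exact mul_le_mul_of_nonneg_right h1 (hρ n).le
      · rw [norm_zero]
        exact mul_nonneg (norm_nonneg _) (hρ n).le
    have hps : ∀ z ∈ S, HasSum (fun n => a n * z ^ n) (f (X z)) := by
      intro z hz
      have h1 := f.hasSum (lp.hasSum_single ENNReal.one_ne_top (X z))
      have h2 : (fun n => a n * z ^ n) = fun n => f (lp.single 1 n ((X z : ℕ → ℂ) n)) := by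
        funext n
        rw [hX z hz, hsingle]
        show (if n ∈ L then (ρ n : ℂ) * f (lp.single 1 n 1) else 0 : ℂ) * z ^ n = _
        unfold dvec
        split_ifs <;> ring
      rw [h2]
      exact h1
    have hlac : ∀ t : ℂ, Lac q (fun n => t * a n) := by
      intro t
      have h0 : ∀ n, t * a n ≠ 0 → n ∈ L := by
        intro n hn
        by_contra hnL
        apply hn
        show t * (if n ∈ L then (ρ n : ℂ) * f (lp.single 1 n 1) else 0 : ℂ) = 0
        rw [if_neg hnL, mul_zero]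
      refine ⟨?_, fun m n hmn hm hn => hL.2 m (h0 m hm) n (h0 n hn) hmn⟩
      by_contra hc
      exact absurd (hL.1 0 (h0 0 hc)).1 (lt_irrefl 0)
    have hconv : ∀ t : ℂ, Conv (fun n => t * a n) := by
      intro t z hz
      apply Summable.of_norm_bounded (g := fun n => (‖t‖ * ‖f‖) * (ρ n * ‖z‖ ^ n))
        ((hsum ‖z‖ (norm_nonneg z) hz).mul_left _)
      intro n
      rw [norm_mul, norm_mul, norm_pow]
      have h1 := hbound n
      calc ‖t‖ * ‖a n‖ * ‖z‖ ^ n ≤ ‖t‖ * (‖f‖ * ρ n) * ‖z‖ ^ n := by gcongr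
        _ = ‖t‖ * ‖f‖ * (ρ n * ‖z‖ ^ n) := by ring
    have hfin : ∑ n ∈ F, ‖a n‖ ≤ u := by
      have h1 := h (fun n => ((C / u : ℝ) : ℂ) * a n) (hlac _) (hconv _) ?_ ?_ F
      · have h2 : ∀ n, ‖((C / u : ℝ) : ℂ) * a n‖ = C / u * ‖a n‖ := by
          intro n
          rw [norm_mul, Complex.norm_real, Real.norm_of_nonneg (by positivity)]
        simp only [h2] at h1
        rw [← Finset.mul_sum, div_mul_eq_mul_div, div_le_iff₀ hu] at h1
        exact le_of_mul_le_mul_left h1 hC
      · intro n hn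
        show _ * (if n ∈ L then (ρ n : ℂ) * f (lp.single 1 n 1) else 0 : ℂ) = 0
        rw [if_neg, mul_zero]
        intro hnL
        exact absurd (hL.1 n hnL).2 (not_le.2 hn)
      · intro z hz
        have h2 : ps (fun n => ((C / u : ℝ) : ℂ) * a n) z = ((C / u : ℝ) : ℂ) * f (X z) := by
          have h3 := (hps z hz).mul_left ((C / u : ℝ) : ℂ)
          unfold ps
          rw [← h3.tsum_eq]
          congr 1
          funext n
          ring
        rw [h2, norm_mul, Complex.norm_real, Real.norm_of_nonneg (by positivity),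
          div_mul_eq_mul_div, div_le_one hu]
        exact hfX z hz
    have hfY : (f Y).re ≤ u := by
      have h1 : f Y = ∑ n ∈ F, ε n * a n := by
        show f (∑ n ∈ F, lp.single 1 n ((ρ n : ℂ) * ε n)) = _
        rw [map_sum]
        apply Finset.sum_congr rfl
        intro n hn
        rw [hsingle]
        show _ = ε n * (if n ∈ L then (ρ n : ℂ) * f (lp.single 1 n 1) else 0 : ℂ)
        rw [if_pos (hF hn)]
        ring
      refine (Complex.re_le_norm _).trans ?_
      rw [h1]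
      refine (norm_sum_le _ _).trans (le_trans (Finset.sum_le_sum fun n _ => ?_) hfin)
      rw [norm_mul]
      have := hε n
      have h3 := norm_nonneg (a n)
      nlinarith
    exact absurd hf2 (not_lt.2 hfY)
  obtain ⟨v, ⟨T, w, hT, hw, rfl⟩, hv⟩ := Metric.mem_closure_iff.1 hmem δ hδ
  refine ⟨T, w, hT, hw, ?_⟩
  intro G hG
  have h1 := lp.sum_rpow_le_norm_rpow (E := fun _ : ℕ => ℂ) (p := 1) (by norm_num)
    (Y - ∑ z ∈ T, w z • X z) G
  simp only [ENNReal.toReal_one, Real.rpow_one] at h1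
  rw [dist_eq_norm] at hv
  refine le_trans ?_ (h1.trans hv.le)
  apply le_of_eq
  apply Finset.sum_congr rfl
  intro n hn
  have h2 : ((Y - ∑ z ∈ T, w z • X z : E) : ℕ → ℂ) n =
      (ρ n : ℂ) * ((if n ∈ F then ε n else 0) - ∑ z ∈ T, w z * z ^ n) := by
    rw [lp.coeFn_sub, Pi.sub_apply, hY, lp.coeFn_sum, Finset.sum_apply, mul_sub]
    congr 1
    · split_ifs <;> simp
    · rw [Finset.mul_sum]
      apply Finset.sum_congr rfl
      intro z hz
      rw [lp.coeFn_smul, Pi.smul_apply, hX z (hT hz), smul_eq_mul]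
      unfold dvec
      rw [if_pos (hG hn)]
      ring
  rw [h2, norm_mul, Complex.norm_real, Real.norm_of_nonneg (hρ n).le, norm_sub_rev]

/-- **Module DUAL (easy direction).** -/
theorem unif_of_dual {q : ℝ} {N : ℕ} {C : ℝ} {S : Set ℂ} (hq : 1 < q)
    (hS : S ⊆ ball 0 1) (h : DualInterp q N C S) : UnifBound q N C S := by
  classical
  intro c hlac hconv hN hb s
  apply le_of_forall_pos_le_add
  intro δ hδ
  set L : Set ℕ := {n | c n ≠ 0} with hL
  have hLs : LacSet q N L := by
    refine ⟨fun m hm => ⟨?_, ?_⟩, fun m hm n hn hmn => hlac.2 m n hmn hm hn⟩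
    · rcases Nat.eq_zero_or_pos m with h0 | h0
      · exact absurd (by rw [h0]; exact hlac.1) hm
      · exact h0
    · by_contra hmN
      exact hm (hN m (not_le.1 hmN))
  choose t ht1 ht2 using fun n => dual_phase (c n)
  have hρs : ∀ r : ℝ, 0 ≤ r → r < 1 → Summable fun n => (1 + ‖c n‖) * r ^ n := by
    intro r hr0 hr1
    have h1 : Summable fun n => ‖c n * ((r : ℝ) : ℂ) ^ n‖ := by
      apply Summable.norm
      apply hconv
      rw [Complex.norm_real, Real.norm_of_nonneg hr0]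
      exact hr1
    have h2 := (summable_geometric_of_lt_one hr0 hr1).add h1
    refine h2.congr ?_
    intro n
    rw [norm_mul, norm_pow, Complex.norm_real, Real.norm_of_nonneg hr0]
    ring
  obtain ⟨T, w, hT, hw, hG⟩ := h L hLs (fun n => 1 + ‖c n‖) (fun n => by positivity) hρs
    (s.filter fun n => c n ≠ 0) t (fun n hn => (Finset.mem_filter.1 (Finset.mem_coe.1 hn)).2) ht1 δ hδ
  -- limits
  have hlim : Tendsto (fun K : ℕ => ∑ z ∈ T, w z * ∑ n ∈ Finset.range K, c n * z ^ n) atTop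
      (𝓝 (∑ z ∈ T, w z * ps c z)) := by
    apply tendsto_finsetSum
    intro z hz
    apply Tendsto.const_mul
    have h1 : ‖z‖ < 1 := by simpa using hS (hT hz)
    exact (hconv z h1).hasSum.tendsto_sum_nat
  have hle : ‖∑ z ∈ T, w z * ps c z‖ ≤ C := by
    refine (norm_sum_le _ _).trans (le_trans (Finset.sum_le_sum fun z hz => ?_) hw)
    rw [norm_mul]
    have h1 := hb z (hT hz)
    have h2 := norm_nonneg (w z)
    nlinarith
  have hkey : ∀ K : ℕ, (∀ n ∈ s, n < K) →
      ∑ n ∈ s, ‖c n‖ ≤ ‖∑ z ∈ T, w z * ∑ n ∈ Finset.range K, c n * z ^ n‖ + δ := by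
    intro K hK
    have h1 : ∑ z ∈ T, w z * ∑ n ∈ Finset.range K, c n * z ^ n =
        ∑ n ∈ Finset.range K, c n * ∑ z ∈ T, w z * z ^ n := by
      simp only [Finset.mul_sum]
      rw [Finset.sum_comm]
      apply Finset.sum_congr rfl
      intro n _
      apply Finset.sum_congr rfl
      intro z _
      ring
    have h2 : ∑ n ∈ Finset.range K, c n * ∑ z ∈ T, w z * z ^ n =
        (∑ n ∈ Finset.range K, c n * (if n ∈ s.filter (fun n => c n ≠ 0) then t n else 0)) +
        ∑ n ∈ Finset.range K, c n * ((∑ z ∈ T, w z * z ^ n) -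
          (if n ∈ s.filter (fun n => c n ≠ 0) then t n else 0)) := by
      rw [← Finset.sum_add_distrib]
      apply Finset.sum_congr rfl
      intro n _
      ring
    have h3 : ∑ n ∈ Finset.range K, c n * (if n ∈ s.filter (fun n => c n ≠ 0) then t n else 0) =
        ((∑ n ∈ s, ‖c n‖ : ℝ) : ℂ) := by
      push_cast
      have h4 : ∀ n ∈ Finset.range K,
          c n * (if n ∈ s.filter (fun n => c n ≠ 0) then t n else 0) =
            if n ∈ s then (‖c n‖ : ℂ) else 0 := by
        intro n _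
        by_cases hn : n ∈ s
        · by_cases hc : c n = 0
          · simp [hc]
          · rw [if_pos (Finset.mem_filter.2 ⟨hn, hc⟩), if_pos hn, mul_comm, ht2]
        · rw [if_neg (fun h' => hn (Finset.mem_filter.1 h').1), if_neg hn, mul_zero]
      rw [Finset.sum_congr rfl h4, Finset.sum_ite_mem]
      congr 1
      rw [Finset.inter_eq_right]
      intro n hn
      exact Finset.mem_range.2 (hK n hn)
    have h5 : ‖∑ n ∈ Finset.range K, c n * ((∑ z ∈ T, w z * z ^ n) -
          (if n ∈ s.filter (fun n => c n ≠ 0) then t n else 0))‖ ≤ δ := by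
      have h6 := hG ((Finset.range K).filter fun n => c n ≠ 0)
        (fun n hn => (Finset.mem_filter.1 (Finset.mem_coe.1 hn)).2)
      refine (norm_sum_le _ _).trans (le_trans ?_ h6)
      rw [Finset.sum_filter]
      apply Finset.sum_le_sum
      intro n _
      by_cases hc : c n ≠ 0
      · rw [if_pos hc, norm_mul]
        apply mul_le_mul_of_nonneg_right _ (norm_nonneg _)
        linarith
      · rw [if_neg hc]
        rw [not_not] at hc
        rw [hc, zero_mul, norm_zero]
    have h7 : ((∑ n ∈ s, ‖c n‖ : ℝ) : ℂ) = ∑ z ∈ T, w z * ∑ n ∈ Finset.range K, c n * z ^ n -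
        ∑ n ∈ Finset.range K, c n * ((∑ z ∈ T, w z * z ^ n) -
          (if n ∈ s.filter (fun n => c n ≠ 0) then t n else 0)) := by
      rw [h1, h2, h3]
      ring
    have h8 : ∑ n ∈ s, ‖c n‖ = ‖((∑ n ∈ s, ‖c n‖ : ℝ) : ℂ)‖ := by
      rw [Complex.norm_real, Real.norm_of_nonneg (Finset.sum_nonneg fun n _ => norm_nonneg _)]
    rw [h8, h7]
    refine (norm_sub_le _ _).trans ?_
    linarith
  have hev : ∀ᶠ K : ℕ in atTop, ∑ n ∈ s, ‖c n‖ ≤
      ‖∑ z ∈ T, w z * ∑ n ∈ Finset.range K, c n * z ^ n‖ + δ := by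
    filter_upwards [eventually_gt_atTop (s.sup id)] with K hK
    apply hkey K
    intro n hn
    exact lt_of_le_of_lt (Finset.le_sup (f := id) hn) hK
  have h9 := ge_of_tendsto (hlim.norm.add_const δ) hev
  linarith

end Forcing
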