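import Pool.Agent.Lib.MP_c80ac4_an.Arc
import Pool.Agent.Lib.MP_c80ac4_an.Dual

/-! # Core: power series with Hadamard gaps, gluing, and the boundary criterion -/

namespace Forcing

open Complex Metric Set MeasureTheory Filter Topology

theorem Conv.summable_norm {c : ℕ → ℂ} (hc : Conv c) {r : ℝ} (hr : 0 ≤ r) (hr1 : r < 1) :
    Summable fun n => ‖c n‖ * r ^ n := by
  have h := (hc (r : ℂ) (by rw [Complex.norm_real, Real.norm_of_nonneg hr]; exact hr1)).norm
  refine h.congr fun n => ?_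
  rw [norm_mul, norm_pow, Complex.norm_real, Real.norm_of_nonneg hr]

theorem conv_of_bdd {c : ℕ → ℂ} (h : ∀ n, ‖c n‖ ≤ 1) : Conv c := by
  intro z hz
  refine Summable.of_norm_bounded (summable_geometric_of_lt_one (norm_nonneg z) hz) fun n => ?_
  rw [norm_mul, norm_pow]
  have : 0 ≤ ‖z‖ ^ n := by positivity
  nlinarith [h n, norm_nonneg (c n)]

theorem ps_norm_le_of_sum {c : ℕ → ℂ} {K : ℝ} (hc : Conv c)
    (h : ∀ s : Finset ℕ, ∑ n ∈ s, ‖c n‖ ≤ K) {z : ℂ} (hz : ‖z‖ < 1) : ‖ps c z‖ ≤ K := by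
  have hs := (hc z hz).hasSum
  refine le_of_tendsto hs.norm (Eventually.of_forall fun s => ?_)
  refine (norm_sum_le _ _).trans ((Finset.sum_le_sum fun n _ => ?_).trans (h s))
  rw [norm_mul, norm_pow]
  have h1 : ‖z‖ ^ n ≤ 1 := pow_le_one₀ (norm_nonneg z) hz.le
  nlinarith [norm_nonneg (c n)]

/-- The sum of the power series is analytic in the unit disc. -/
theorem ps_differentiableOn {c : ℕ → ℂ} (hc : Conv c) : DifferentiableOn ℂ (ps c) (ball 0 1) := by
  intro z hz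
  rw [mem_ball_zero_iff] at hz
  obtain ⟨r, hr1, hr2⟩ := exists_between hz
  have hr0 : 0 ≤ r := (norm_nonneg z).trans hr1.le
  have h : DifferentiableOn ℂ (ps c) (ball 0 r) := by
    refine differentiableOn_tsum_of_summable_norm (u := fun n => ‖c n‖ * r ^ n)
      (hc.summable_norm hr0 hr2) (fun n => ?_) isOpen_ball fun n w hw => ?_
    · exact ((differentiable_id.pow n).const_mul (c n)).differentiableOn
    · rw [mem_ball_zero_iff] at hw
      rw [norm_mul, norm_pow]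
      gcongr
  exact (h.differentiableAt (isOpen_ball.mem_nhds (mem_ball_zero_iff.2 hr1))).differentiableWithinAt

theorem ps_norm_le_closure {c : ℕ → ℂ} (hc : Conv c) {S : Set ℂ} {M : ℝ}
    (h : ∀ z ∈ S, ‖ps c z‖ ≤ M) {z : ℂ} (hz : z ∈ closure S) (hz1 : ‖z‖ < 1) : ‖ps c z‖ ≤ M := by
  have hcont : ContinuousAt (ps c) z :=
    ((ps_differentiableOn hc).differentiableAt
      (isOpen_ball.mem_nhds (mem_ball_zero_iff.2 hz1))).continuousAt
  obtain ⟨u, hu, hlim⟩ := mem_closure_iff_seq_limit.1 hz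
  exact le_of_tendsto (hcont.tendsto.comp hlim).norm (Eventually.of_forall fun n => h _ (hu n))

/-- **Key estimate.** From a Sidon inequality on a set `A` of the closed disc and a bound of `f` on
`r A` one gets a bound of the absolute coefficient sum of `f (r ·)`. -/
theorem series_bound {q : ℝ} {N : ℕ} {C : ℝ} {A : Set ℂ} {c : ℕ → ℂ} {r M : ℝ}
    (hL : Lac q c) (hc : Conv c) (hr : 0 ≤ r) (hr1 : r < 1) (hA : ∀ z ∈ A, ‖z‖ ≤ 1)
    (hS : SidonIneq q N C A) (hM0 : 0 ≤ M) (hM : ∀ z ∈ A, ‖ps c (r * z)‖ ≤ M)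
    (s : Finset ℕ) (hs : ∀ n ∈ s, N ≤ n) :
    ∑ n ∈ s, ‖c n‖ * r ^ n ≤ C * (M + ∑ n ∈ Finset.range N, ‖c n‖) := by
  classical
  set B := ∑ n ∈ Finset.range N, ‖c n‖ with hB
  have hB0 : 0 ≤ B := Finset.sum_nonneg fun n _ => norm_nonneg _
  have hsum := hc.summable_norm hr hr1
  set T := ∑' n, ‖c n‖ * r ^ n with hT
  have hpos : ∀ n, 0 ≤ ‖c n‖ * r ^ n := fun n => by positivity
  have key : ∀ K : ℕ, s.sup id < K → N ≤ K → ∑ n ∈ s, ‖c n‖ * r ^ n ≤
      C * (M + B + (T - ∑ n ∈ Finset.range K, ‖c n‖ * r ^ n)) := by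
    intro K hK hNK
    set s' := (Finset.range K).filter fun n => N ≤ n ∧ c n ≠ 0 with hs'
    have htail0 : 0 ≤ T - ∑ n ∈ Finset.range K, ‖c n‖ * r ^ n :=
      sub_nonneg.2 (hsum.sum_le_tsum _ fun n _ => hpos n)
    have h1 := hS s' (fun n => c n * r ^ n) (M + B + (T - ∑ n ∈ Finset.range K, ‖c n‖ * r ^ n))
      ⟨fun m hm => ?_, fun m hm n hn hmn => ?_⟩ (by positivity) fun z hz => ?_
    · refine le_trans ?_ h1
      have h2 : ∑ n ∈ s', ‖c n * (r : ℂ) ^ n‖ = ∑ n ∈ s', ‖c n‖ * r ^ n :=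
        Finset.sum_congr rfl fun n _ => by
          rw [norm_mul, norm_pow, Complex.norm_real, Real.norm_of_nonneg hr]
      rw [h2]
      have h3 : ∑ n ∈ s, ‖c n‖ * r ^ n = ∑ n ∈ s.filter (fun n => c n ≠ 0), ‖c n‖ * r ^ n := by
        rw [Finset.sum_filter]
        refine Finset.sum_congr rfl fun n _ => ?_
        split_ifs with hn
        · rfl
        · have : c n = 0 := by simpa using hn
          simp [this]
      rw [h3]
      refine Finset.sum_le_sum_of_subset_of_nonneg (fun n hn => ?_) fun n _ _ => hpos n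
      rw [Finset.mem_filter] at hn
      rw [hs', Finset.mem_filter, Finset.mem_range]
      exact ⟨lt_of_le_of_lt (Finset.le_sup (f := id) hn.1) hK, hs n hn.1, hn.2⟩
    · rw [hs', Finset.coe_filter] at hm
      have hm0 : m ≠ 0 := fun h0 => hm.2.2 (h0 ▸ hL.1)
      exact ⟨Nat.pos_of_ne_zero hm0, hm.2.1⟩
    · rw [hs', Finset.coe_filter] at hm hn
      exact hL.2 m n hmn hm.2.2 hn.2.2
    · have hz1 := hA z hz
      have hrz : ‖(r : ℂ) * z‖ < 1 := by
        rw [norm_mul, Complex.norm_real, Real.norm_of_nonneg hr]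
        nlinarith [norm_nonneg z]
      have hsz := hc _ hrz
      have e1 : ∑ n ∈ s', c n * (r : ℂ) ^ n * z ^ n =
          ∑ n ∈ Finset.range K, c n * ((r : ℂ) * z) ^ n -
            ∑ n ∈ Finset.range N, c n * ((r : ℂ) * z) ^ n := by
        have e2 : ∑ n ∈ Finset.range K, c n * ((r : ℂ) * z) ^ n =
            ∑ n ∈ (Finset.range K).filter (fun n => N ≤ n), c n * ((r : ℂ) * z) ^ n +
              ∑ n ∈ (Finset.range K).filter (fun n => ¬ N ≤ n), c n * ((r : ℂ) * z) ^ n :=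
          (Finset.sum_filter_add_sum_filter_not _ _ _).symm
        have e3 : (Finset.range K).filter (fun n => ¬ N ≤ n) = Finset.range N := by
          ext n
          simp only [Finset.mem_filter, Finset.mem_range, not_le]
          exact ⟨fun h => h.2, fun h => ⟨h.trans_le hNK, h⟩⟩
        rw [e2, e3, add_sub_cancel_right, hs', ← Finset.filter_filter, Finset.sum_filter]
        refine Finset.sum_congr rfl fun n _ => ?_
        split_ifs with hn
        · rw [mul_pow, mul_assoc]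
        · have : c n = 0 := by simpa using hn
          simp [this]
      have e4 : ps c ((r : ℂ) * z) = ∑ n ∈ Finset.range K, c n * ((r : ℂ) * z) ^ n +
          ∑' n, c (n + K) * ((r : ℂ) * z) ^ (n + K) := (hsz.sum_add_tsum_nat_add K).symm
      have e5 : ‖∑' n, c (n + K) * ((r : ℂ) * z) ^ (n + K)‖ ≤
          T - ∑ n ∈ Finset.range K, ‖c n‖ * r ^ n := by
        have e6 : T - ∑ n ∈ Finset.range K, ‖c n‖ * r ^ n = ∑' n, ‖c (n + K)‖ * r ^ (n + K) := by
          rw [hT, ← hsum.sum_add_tsum_nat_add K]; ring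
        rw [e6]
        refine tsum_of_norm_bounded ((summable_nat_add_iff K).2 hsum).hasSum fun n => ?_
        rw [norm_mul, norm_pow, norm_mul, Complex.norm_real, Real.norm_of_nonneg hr]
        have : (r * ‖z‖) ^ (n + K) ≤ r ^ (n + K) := by
          apply pow_le_pow_left₀ (by positivity)
          nlinarith [norm_nonneg z]
        nlinarith [norm_nonneg (c (n + K))]
      have e7 : ‖∑ n ∈ Finset.range N, c n * ((r : ℂ) * z) ^ n‖ ≤ B := by
        refine (norm_sum_le _ _).trans (Finset.sum_le_sum fun n _ => ?_)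
        rw [norm_mul, norm_pow]
        have : ‖(r : ℂ) * z‖ ^ n ≤ 1 := pow_le_one₀ (norm_nonneg _) hrz.le
        nlinarith [norm_nonneg (c n)]
      rw [e1]
      have e8 : ∑ n ∈ Finset.range K, c n * ((r : ℂ) * z) ^ n -
            ∑ n ∈ Finset.range N, c n * ((r : ℂ) * z) ^ n =
          ps c ((r : ℂ) * z) - ∑ n ∈ Finset.range N, c n * ((r : ℂ) * z) ^ n -
            ∑' n, c (n + K) * ((r : ℂ) * z) ^ (n + K) := by rw [e4]; ring
      rw [e8]
      calc _ ≤ ‖ps c ((r : ℂ) * z) - ∑ n ∈ Finset.range N, c n * ((r : ℂ) * z) ^ n‖ +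
            ‖∑' n, c (n + K) * ((r : ℂ) * z) ^ (n + K)‖ := norm_sub_le _ _
        _ ≤ ‖ps c ((r : ℂ) * z)‖ + ‖∑ n ∈ Finset.range N, c n * ((r : ℂ) * z) ^ n‖ +
            ‖∑' n, c (n + K) * ((r : ℂ) * z) ^ (n + K)‖ := by gcongr; exact norm_sub_le _ _
        _ ≤ _ := by
          have := hM z hz
          linarith
  have hlim : Tendsto (fun K => C * (M + B + (T - ∑ n ∈ Finset.range K, ‖c n‖ * r ^ n))) atTop
      (𝓝 (C * (M + B + (T - T)))) :=
    ((tendsto_const_nhds.sub hsum.hasSum.tendsto_sum_nat).const_add (M + B)).const_mul C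
  rw [sub_self, add_zero] at hlim
  refine ge_of_tendsto hlim ?_
  filter_upwards [eventually_gt_atTop (s.sup id), eventually_ge_atTop N] with K h1 h2
  exact key K h1 h2

/-- Bounds for radii arbitrarily close to one give a bound at radius one. -/
theorem sum_le_of_frequently {c : ℕ → ℂ} {K : ℝ} (s : Finset ℕ)
    (h : ∀ ρ : ℝ, ρ < 1 → ∃ r : ℝ, ρ < r ∧ r < 1 ∧ ∑ n ∈ s, ‖c n‖ * r ^ n ≤ K) :
    ∑ n ∈ s, ‖c n‖ ≤ K := by
  by_contra hlt
  rw [not_le] at hlt
  have hcont : Continuous fun r : ℝ => ∑ n ∈ s, ‖c n‖ * r ^ n := by fun_prop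
  have h1 : ∀ᶠ r in 𝓝 (1 : ℝ), K < ∑ n ∈ s, ‖c n‖ * r ^ n := by
    have := hcont.tendsto 1
    simp only [one_pow, mul_one] at this
    exact this.eventually (lt_mem_nhds hlt)
  obtain ⟨ε, hε, h2⟩ := Metric.eventually_nhds_iff.1 h1
  obtain ⟨r, hr1, hr2, hr3⟩ := h (1 - ε) (by linarith)
  have := h2 (y := r) (by rw [Real.dist_eq, abs_lt]; constructor <;> linarith)
  linarith

/-- Coefficient sums of a function with gaps which is bounded on dilates `r A`, `r` close to one. -/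
theorem sum_le_of_dilates {q : ℝ} {N : ℕ} {C : ℝ} {c : ℕ → ℂ} {M : ℝ}
    (hL : Lac q c) (hc : Conv c) (hM0 : 0 ≤ M)
    (h : ∀ ρ : ℝ, ρ < 1 → ∃ r : ℝ, ρ < r ∧ r < 1 ∧ ∃ A : Set ℂ, (∀ z ∈ A, ‖z‖ ≤ 1) ∧
      SidonIneq q N C A ∧ ∀ z ∈ A, ‖ps c (r * z)‖ ≤ M) (s : Finset ℕ) :
    ∑ n ∈ s, ‖c n‖ ≤ C * (M + ∑ n ∈ Finset.range N, ‖c n‖) + ∑ n ∈ Finset.range N, ‖c n‖ := by
  classical
  have h1 : ∑ n ∈ s.filter (fun n => N ≤ n), ‖c n‖ ≤
      C * (M + ∑ n ∈ Finset.range N, ‖c n‖) := by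
    refine sum_le_of_frequently _ fun ρ hρ => ?_
    obtain ⟨r, hr1, hr2, A, hA, hS, hM⟩ := h (max ρ 0) (max_lt hρ one_pos)
    refine ⟨r, (le_max_left _ _).trans_lt hr1, hr2, ?_⟩
    exact series_bound hL hc ((le_max_right _ _).trans hr1.le) hr2 hA hS hM0 hM _
      fun n hn => (Finset.mem_filter.1 hn).2
  have h2 : ∑ n ∈ s.filter (fun n => ¬ N ≤ n), ‖c n‖ ≤ ∑ n ∈ Finset.range N, ‖c n‖ := by
    refine Finset.sum_le_sum_of_subset_of_nonneg (fun n hn => ?_) fun n _ _ => norm_nonneg _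
    rw [Finset.mem_filter, not_le] at hn
    exact Finset.mem_range.2 hn.2
  rw [← Finset.sum_filter_add_sum_filter_not s (fun n => N ≤ n)]
  linarith

/-- A function with Hadamard gaps bounded in the disc has an absolutely convergent series. -/
theorem sum_bdd_of_bdd {q : ℝ} {c : ℕ → ℂ} (hq : 1 < q) (hL : Lac q c) (hc : Conv c)
    (hb : BddOnSet c (ball 0 1)) : ∃ K : ℝ, ∀ s : Finset ℕ, ∑ n ∈ s, ‖c n‖ ≤ K := by
  obtain ⟨N, C, hS⟩ := sidonOn_sphere q hq
  obtain ⟨M, hM⟩ := hb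
  have hM0 : 0 ≤ M := (norm_nonneg _).trans (hM 0 (mem_ball_self one_pos))
  refine ⟨_, sum_le_of_dilates (N := N) (C := max C 0) hL hc hM0 fun ρ hρ => ?_⟩
  refine ⟨(max ρ 0 + 1) / 2, by linarith [le_max_left ρ 0, max_lt hρ one_pos],
    by linarith [max_lt hρ one_pos], sphere 0 1, fun z hz => by simpa using (mem_sphere_zero_iff_norm.1 hz).le,
    hS.mono_const (le_max_left _ _), fun z hz => hM _ ?_⟩
  rw [mem_ball_zero_iff, norm_mul, mem_sphere_zero_iff_norm.1 hz, mul_one, Complex.norm_real,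
    Real.norm_of_nonneg (by linarith [le_max_right ρ 0])]
  linarith [max_lt hρ one_pos]

theorem bdd_of_sum_bdd {c : ℕ → ℂ} {K : ℝ} (hc : Conv c) (h : ∀ s : Finset ℕ, ∑ n ∈ s, ‖c n‖ ≤ K) :
    BddOnSet c (ball 0 1) :=
  ⟨K, fun _ hz => ps_norm_le_of_sum hc h (mem_ball_zero_iff.1 hz)⟩

end Forcing
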