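import Pool.Agent.Lib.MP_c80ac4_an.Defs

/-! # Two crossing paths in a rectangle meet -/

namespace Forcing

open Complex Metric Set MeasureTheory Filter Topology

/-- a continuous logarithm on the plane -/
theorem cross_log (G : C(ℝ × ℝ, ℂ)) (hG : ∀ p, G p ≠ 0) :
    ∃ g : C(ℝ × ℝ, ℂ), ∀ p, Complex.exp (g p) = G p := by
  have : SimplyConnectedSpace (ℝ × ℝ) := inferInstance
  let f : C(ℝ × ℝ, {z : ℂ // z ≠ 0}) := ⟨fun p => ⟨G p, hG p⟩, by fun_prop⟩
  obtain ⟨F, ⟨-, hF⟩, -⟩ := Complex.isCoveringMap_exp.existsUnique_continuousMap_lifts f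
    ((0 : ℝ), (0 : ℝ)) (Complex.log (G (0, 0)))
    (Subtype.ext (Complex.exp_log (hG _)))
  exact ⟨F, fun p => congrArg Subtype.val (congrFun hF p)⟩

/-- increment of a continuous logarithm along a curve in a half plane -/
theorem cross_side {h : ℝ → ℂ} (hh : Continuous h) {γ : ℝ → ℂ} (hγ : Continuous γ)
    (he : ∀ x, Complex.exp (h x) = γ x) {c : ℂ} (hc : c ≠ 0)
    (hs : ∀ x, c * γ x ∈ Complex.slitPlane) (x y : ℝ) :
    h y - h x = Complex.log (c * γ y) - Complex.log (c * γ x) := by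
  have h1 : Continuous fun t => Complex.log (c * γ t) :=
    (continuous_const.mul hγ).clog hs
  have h2 := Complex.isCoveringMap_exp.eq_of_comp_eq (A := ℝ) (g₁ := h)
    (g₂ := fun t => Complex.log (c * γ t) + (h x - Complex.log (c * γ x))) hh
    (h1.add continuous_const) ?_ x (by ring)
  · have h3 : h y = Complex.log (c * γ y) + (h x - Complex.log (c * γ x)) := congrFun h2 y
    rw [h3]
    ring
  · funext t
    apply Subtype.ext
    show Complex.exp (h t) = Complex.exp (Complex.log (c * γ t) + (h x - Complex.log (c * γ x)))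
    have hne : ∀ t, c * γ t ≠ 0 := fun t => Complex.slitPlane_ne_zero (hs t)
    rw [Complex.exp_add, Complex.exp_sub, Complex.exp_log (hne t), Complex.exp_log (hne x), he, he]
    have h4 : γ x ≠ 0 := fun h0 => hne x (by rw [h0, mul_zero])
    field_simp

/-- logarithm after a quarter turn -/
theorem cross_turn {w : ℂ} (hw : w ≠ 0) (hre : 0 ≤ w.re) (him : 0 ≤ w.im) :
    Complex.log (-I * w) = Complex.log w - (Real.pi / 2 : ℝ) * I := by
  rw [Complex.log_mul (neg_ne_zero.2 I_ne_zero) hw]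
  · rw [Complex.log_neg_I]
    push_cast
    ring
  · rw [Complex.arg_neg_I]
    have h1 := Complex.arg_nonneg_iff.2 him
    have h2 := (Complex.abs_arg_le_pi_div_two_iff.2 hre)
    have h3 := (abs_le.1 h2).2
    have hpi := Real.pi_pos
    constructor
    · linarith
    · linarith

theorem cross_slit {z : ℂ} (hz : z ≠ 0) (h : 0 ≤ z.re) : z ∈ Complex.slitPlane := by
  rw [Complex.mem_slitPlane_iff]
  rcases h.lt_or_eq with h1 | h1
  · exact Or.inl h1
  · right
    intro h2
    exact hz (Complex.ext h1.symm h2)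

/-- **Module CROSS.** -/
theorem paths_cross {a b c d : ℝ} {σ τ : unitInterval → ℂ} (hσ : Continuous σ) (hτ : Continuous τ)
    (hσ' : ∀ t, a ≤ (σ t).re ∧ (σ t).re ≤ b ∧ c ≤ (σ t).im ∧ (σ t).im ≤ d)
    (hτ' : ∀ t, a ≤ (τ t).re ∧ (τ t).re ≤ b ∧ c ≤ (τ t).im ∧ (τ t).im ≤ d)
    (h1 : (σ 0).re = a) (h2 : (σ 1).re = b) (h3 : (τ 0).im = c) (h4 : (τ 1).im = d) :
    ∃ s t, σ s = τ t := by
  by_contra hne
  push Not at hne
  let pr : ℝ → unitInterval := Set.projIcc 0 1 zero_le_one
  have hpr : Continuous pr := continuous_projIcc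
  have hpr0 : pr 0 = 0 := Set.projIcc_left zero_le_one
  have hpr1 : pr 1 = 1 := Set.projIcc_right zero_le_one
  let G : C(ℝ × ℝ, ℂ) := ⟨fun p => σ (pr p.1) - τ (pr p.2),
    (hσ.comp (hpr.comp continuous_fst)).sub (hτ.comp (hpr.comp continuous_snd))⟩
  have hGv : ∀ x y : ℝ, G (x, y) = σ (pr x) - τ (pr y) := fun x y => rfl
  have hG : ∀ p, G p ≠ 0 := fun p => sub_ne_zero.2 (hne _ _)
  obtain ⟨g, hg⟩ := cross_log G hG
  -- sign conditions on the sides
  have s1 : ∀ x : ℝ, 0 ≤ (G (x, 0)).im := by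
    intro x
    rw [hGv, hpr0, Complex.sub_im, h3]
    linarith [(hσ' (pr x)).2.2.1]
  have s2 : ∀ y : ℝ, 0 ≤ (G (1, y)).re := by
    intro y
    rw [hGv, hpr1, Complex.sub_re, h2]
    linarith [(hτ' (pr y)).2.1]
  have s3 : ∀ x : ℝ, (G (x, 1)).im ≤ 0 := by
    intro x
    rw [hGv, hpr1, Complex.sub_im, h4]
    linarith [(hσ' (pr x)).2.2.2]
  have s4 : ∀ y : ℝ, (G (0, y)).re ≤ 0 := by
    intro y
    rw [hGv, hpr0, Complex.sub_re, h1]
    linarith [(hτ' (pr y)).1]
  have e1 := cross_side (h := fun x => g (x, 0)) (γ := fun x => G (x, 0)) (by fun_prop)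
    (by fun_prop) (fun x => hg _) (c := -I) (neg_ne_zero.2 I_ne_zero)
    (fun x => cross_slit (mul_ne_zero (neg_ne_zero.2 I_ne_zero) (hG _)) (by
      simp only [neg_mul, neg_re, mul_re, I_re, zero_mul, I_im, one_mul, zero_sub, neg_neg]
      exact s1 x)) 0 1
  have e2 := cross_side (h := fun y => g (1, y)) (γ := fun y => G (1, y)) (by fun_prop)
    (by fun_prop) (fun y => hg _) (c := 1) one_ne_zero
    (fun y => cross_slit (mul_ne_zero one_ne_zero (hG _)) (by rw [one_mul]; exact s2 y)) 0 1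
  have e3 := cross_side (h := fun x => g (x, 1)) (γ := fun x => G (x, 1)) (by fun_prop)
    (by fun_prop) (fun x => hg _) (c := I) I_ne_zero
    (fun x => cross_slit (mul_ne_zero I_ne_zero (hG _)) (by
      simp only [mul_re, I_re, zero_mul, I_im, one_mul, zero_sub]
      linarith [s3 x])) 1 0
  have e4 := cross_side (h := fun y => g (0, y)) (γ := fun y => G (0, y)) (by fun_prop)
    (by fun_prop) (fun y => hg _) (c := -1) (by norm_num)
    (fun y => cross_slit (mul_ne_zero (by norm_num) (hG _)) (by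
      simp only [neg_mul, one_mul, neg_re]
      linarith [s4 y])) 1 0
  -- corners
  have k10 := cross_turn (w := G (1, 0)) (hG _) (s2 0) (s1 1)
  have k11 := cross_turn (w := I * G (1, 1)) (mul_ne_zero I_ne_zero (hG _))
    (by simp only [mul_re, I_re, zero_mul, I_im, one_mul, zero_sub]; linarith [s3 1])
    (by simp only [mul_im, I_re, zero_mul, I_im, one_mul, zero_add]; exact s2 1)
  have k01 := cross_turn (w := -G (0, 1)) (neg_ne_zero.2 (hG _))
    (by rw [neg_re]; linarith [s4 1]) (by rw [neg_im]; linarith [s3 0])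
  have k00 := cross_turn (w := -I * G (0, 0)) (mul_ne_zero (neg_ne_zero.2 I_ne_zero) (hG _))
    (by simp only [neg_mul, neg_re, mul_re, I_re, zero_mul, I_im, one_mul, zero_sub, neg_neg]
        exact s1 0)
    (by simp only [neg_mul, neg_im, mul_im, I_re, zero_mul, I_im, one_mul, zero_add]
        linarith [s4 0])
  have r11 : -I * (I * G (1, 1)) = 1 * G (1, 1) := by
    rw [← mul_assoc, neg_mul, I_mul_I, neg_neg]
  have r01 : -I * -G (0, 1) = I * G (0, 1) := by ring
  have r00 : -I * (-I * G (0, 0)) = -1 * G (0, 0) := by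
    rw [← mul_assoc, neg_mul_neg, I_mul_I]
  rw [r11] at k11
  rw [r01] at k01
  rw [r00] at k00
  have m01 : (-1 : ℂ) * G (0, 1) = -G (0, 1) := by ring
  rw [m01] at e4
  have m10 : (1 : ℂ) * G (1, 0) = G (1, 0) := by ring
  rw [m10] at e2
  have hsum : (0 : ℂ) = -(4 * ((Real.pi / 2 : ℝ) * I)) := by
    linear_combination e1 + e2 + e3 + e4 + k10 + k11 + k01 + k00
  have him := congrArg Complex.im hsum
  simp at him

end Forcing
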