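import Pool.Agent.Lib.MP_c80ac4_an.Defs

/-! # A curve in the disc without end point crosses a fixed sector again and again -/

namespace Forcing

open Complex Metric Set MeasureTheory Filter Topology

/-- A continuous function on the unit interval that goes from below `α` to above `β` has a
subinterval on which it goes from `α` to `β` and stays between these values. -/
theorem exists_clean_crossing {f : ℝ → ℝ} (hf : Continuous f) {α β : ℝ} (hαβ : α < β)
    (h0 : f 0 ≤ α) (h1 : β ≤ f 1) :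
    ∃ a b : ℝ, 0 ≤ a ∧ a ≤ b ∧ b ≤ 1 ∧ f a = α ∧ f b = β ∧
      ∀ x ∈ Icc a b, α ≤ f x ∧ f x ≤ β := by
  -- the first time the value `β` is reached
  set B : Set ℝ := {x | x ∈ Icc (0 : ℝ) 1 ∧ f x = β} with hB
  have hBc : IsCompact B := by
    have : B = Icc (0 : ℝ) 1 ∩ f ⁻¹' {β} := by ext x; simp [hB]
    rw [this]
    exact isCompact_Icc.inter_right (isClosed_singleton.preimage hf)
  have hBn : B.Nonempty := by
    obtain ⟨x, hx, hx'⟩ := intermediate_value_Icc (zero_le_one' ℝ) hf.continuousOn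
      (show β ∈ Icc (f 0) (f 1) from ⟨h0.trans hαβ.le, h1⟩)
    exact ⟨x, hx, hx'⟩
  obtain ⟨b, hbB, hbmin⟩ := hBc.exists_isLeast hBn
  have hlt : ∀ x, 0 ≤ x → x < b → f x < β := by
    intro x hx hxb
    by_contra hcon
    push Not at hcon
    obtain ⟨y, hy, hy'⟩ := intermediate_value_Icc hx hf.continuousOn
      (show β ∈ Icc (f 0) (f x) from ⟨h0.trans hαβ.le, hcon⟩)
    have : b ≤ y := hbmin ⟨⟨hy.1, (hy.2.trans hxb.le).trans hbB.1.2⟩, hy'⟩
    linarith [hy.2]
  -- the last time before `b` at which the value `α` is taken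
  set A : Set ℝ := {x | x ∈ Icc (0 : ℝ) b ∧ f x = α} with hA
  have hAc : IsCompact A := by
    have : A = Icc (0 : ℝ) b ∩ f ⁻¹' {α} := by ext x; simp [hA]
    rw [this]
    exact isCompact_Icc.inter_right (isClosed_singleton.preimage hf)
  have hAn : A.Nonempty := by
    obtain ⟨x, hx, hx'⟩ := intermediate_value_Icc hbB.1.1 hf.continuousOn
      (show α ∈ Icc (f 0) (f b) from ⟨h0, by rw [hbB.2]; exact hαβ.le⟩)
    exact ⟨x, hx, hx'⟩
  obtain ⟨a, haA, hamax⟩ := hAc.exists_isGreatest hAn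
  have hgt : ∀ x, a < x → x ≤ b → α < f x := by
    intro x hx hxb
    by_contra hcon
    push Not at hcon
    obtain ⟨y, hy, hy'⟩ := intermediate_value_Icc hxb hf.continuousOn
      (show α ∈ Icc (f x) (f b) from ⟨hcon, by rw [hbB.2]; exact hαβ.le⟩)
    have : y ≤ a := hamax ⟨⟨haA.1.1.trans (hx.le.trans hy.1), hy.2⟩, hy'⟩
    linarith [hy.1]
  refine ⟨a, b, haA.1.1, haA.1.2, hbB.1.2, haA.2, hbB.2, ?_⟩
  intro x hx
  constructor
  · rcases eq_or_lt_of_le hx.1 with h | h
    · rw [← h, haA.2]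
    · exact (hgt x h hx.2).le
  · rcases eq_or_lt_of_le hx.2 with h | h
    · rw [h, hbB.2]
    · exact (hlt x (haA.1.1.trans hx.1) h).le

/-- A continuous real function without finite limit at infinity either crosses a fixed interval
again and again, or crosses translates of it by multiples of `2 π`. -/
theorem exists_interval_crossings {θ : ℝ → ℝ} (hno : ¬ ∃ c : ℝ, Tendsto θ atTop (𝓝 c)) :
    ∃ α β : ℝ, α < β ∧ ∀ X : ℝ, ∃ (k : ℤ) (x₁ x₂ : ℝ), X ≤ x₁ ∧ X ≤ x₂ ∧
      θ x₁ ≤ α + k * (2 * Real.pi) ∧ β + k * (2 * Real.pi) ≤ θ x₂ := by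
  have hpi : 0 < 2 * Real.pi := by positivity
  by_cases hbdA : atTop.IsBoundedUnder (· ≤ ·) θ
  · by_cases hbdB : atTop.IsBoundedUnder (· ≥ ·) θ
    · by_contra hcon
      push Not at hcon
      apply hno
      refine tendsto_of_no_upcrossings (s := univ) dense_univ ?_ hbdA hbdB
      rintro a - b - hab ⟨h1, h2⟩
      obtain ⟨X, hX⟩ := hcon a b hab
      rw [frequently_atTop] at h1 h2
      obtain ⟨x₁, hx₁, h1⟩ := h1 X
      obtain ⟨x₂, hx₂, h2⟩ := h2 X
      have := hX 0 x₁ x₂ hx₁ hx₂ (by simpa using h1.le)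
      simp only [Int.cast_zero, zero_mul, add_zero] at this
      linarith
    · refine ⟨0, 1, one_pos, fun X => ?_⟩
      obtain ⟨k, hk⟩ := exists_int_lt ((θ X - 1) / (2 * Real.pi))
      have hk' : 1 + k * (2 * Real.pi) ≤ θ X := by
        rw [lt_div_iff₀ hpi] at hk
        linarith
      have : ∃ x, X ≤ x ∧ θ x ≤ 0 + k * (2 * Real.pi) := by
        by_contra hc
        push Not at hc
        apply hbdB
        refine ⟨0 + k * (2 * Real.pi), ?_⟩
        rw [eventually_map]
        filter_upwards [eventually_ge_atTop X] with x hx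
        exact (hc x hx).le
      obtain ⟨x, hx, hx'⟩ := this
      exact ⟨k, x, X, hx, le_rfl, hx', hk'⟩
  · refine ⟨0, 1, one_pos, fun X => ?_⟩
    obtain ⟨k, hk⟩ := exists_int_gt (θ X / (2 * Real.pi))
    have hk' : θ X ≤ 0 + k * (2 * Real.pi) := by
      rw [div_lt_iff₀ hpi] at hk
      linarith
    have : ∃ x, X ≤ x ∧ 1 + k * (2 * Real.pi) ≤ θ x := by
      by_contra hc
      push Not at hc
      apply hbdA
      refine ⟨1 + k * (2 * Real.pi), ?_⟩
      rw [eventually_map]
      filter_upwards [eventually_ge_atTop X] with x hx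
      exact (hc x hx).le
    obtain ⟨x, hx, hx'⟩ := this
    exact ⟨k, X, x, le_rfl, hx, hk', hx'⟩

/-- **Module CROSSINGS.** -/
theorem exists_crossings {γ : ℝ → ℂ} (hγ : ContinuousOn γ (Ico 0 1))
    (hin : ∀ t ∈ Ico (0 : ℝ) 1, ‖γ t‖ < 1)
    (hlim : Tendsto (fun t => ‖γ t‖) (𝓝[<] 1) (𝓝 1))
    (hno : ¬ ∃ ζ : ℂ, Tendsto γ (𝓝[<] 1) (𝓝 ζ)) :
    ∃ α β : ℝ, α < β ∧ ∀ η : ℝ, 0 < η → ∃ σ : unitInterval → ℂ, Continuous σ ∧
      (∀ t, -η < (σ t).re ∧ (σ t).re < 0 ∧ α ≤ (σ t).im ∧ (σ t).im ≤ β ∧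
        Complex.exp (σ t) ∈ γ '' Ico 0 1) ∧
      (σ 0).im = α ∧ (σ 1).im = β := by
  -- a change of parameter
  set τ : ℝ → ℝ := fun x => 1 - Real.exp (-x) with hτ
  have hτlim : Tendsto τ atTop (𝓝[<] 1) := by
    rw [tendsto_nhdsWithin_iff]
    refine ⟨?_, Eventually.of_forall fun x => ?_⟩
    · have := (Real.tendsto_exp_neg_atTop_nhds_zero).const_sub (1 : ℝ)
      simpa [hτ] using this
    · simp only [hτ, mem_Iio]
      linarith [Real.exp_pos (-x)]
  have hτc : Continuous τ := by fun_prop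
  -- the curve stays away from zero from some place on
  obtain ⟨x₀, hx₀0, hx₀⟩ : ∃ x₀ : ℝ, 0 ≤ x₀ ∧ ∀ x, x₀ ≤ x → γ (τ x) ≠ 0 := by
    have h1 : ∀ᶠ x in atTop, ‖γ (τ x)‖ > 1 / 2 :=
      (hlim.comp hτlim).eventually (lt_mem_nhds (by norm_num))
    rw [eventually_atTop] at h1
    obtain ⟨y, hy⟩ := h1
    refine ⟨max y 0, le_max_right _ _, fun x hx h0 => ?_⟩
    have := hy x ((le_max_left _ _).trans hx)
    rw [h0, norm_zero] at this
    norm_num at this
  set g : ℝ → ℂ := fun x => γ (τ (max x x₀)) with hg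
  have hτmem : ∀ x, τ (max x x₀) ∈ Ico (0 : ℝ) 1 := by
    intro x
    have h0 : 0 ≤ max x x₀ := hx₀0.trans (le_max_right _ _)
    constructor
    · simp only [hτ, sub_nonneg]
      exact Real.exp_le_one_iff.2 (by linarith)
    · simp only [hτ]
      linarith [Real.exp_pos (-max x x₀)]
  have hgc : Continuous g := by
    refine hγ.comp_continuous (f := fun x => τ (max x x₀)) ?_ hτmem
    exact hτc.comp (continuous_id.max continuous_const)
  have hg0 : ∀ x, g x ≠ 0 := fun x => hx₀ _ (le_max_right _ _)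
  -- the logarithm
  obtain ⟨G, hGc, hG⟩ := Complex.exists_continuousOn_eqOn_exp_comp (X := ℝ) (U := univ)
    ((Homeomorph.Set.univ ℝ).toHomotopyEquiv.simplyConnectedSpace)
    isOpen_univ hgc.continuousOn (by rintro ⟨x, -, hx⟩; exact hg0 x hx)
  rw [continuousOn_univ] at hGc
  have hGe : ∀ x, Complex.exp (G x) = g x := fun x => hG (mem_univ x)
  have hGre : ∀ x, (G x).re = Real.log ‖g x‖ := by
    intro x
    rw [← hGe x, Complex.norm_exp, Real.log_exp]
  have hglim : Tendsto (fun x => ‖g x‖) atTop (𝓝 1) := by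
    have h1 := hlim.comp hτlim
    refine h1.congr' ?_
    filter_upwards [eventually_ge_atTop x₀] with x hx
    simp [hg, max_eq_left hx]
  have hGre0 : Tendsto (fun x => (G x).re) atTop (𝓝 0) := by
    have h1 := (Real.continuousAt_log one_ne_zero).tendsto.comp hglim
    rw [Real.log_one] at h1
    refine h1.congr fun x => ?_
    simp [hGre]
  have hGneg : ∀ x, (G x).re < 0 := by
    intro x
    rw [hGre]
    exact Real.log_neg (norm_pos_iff.2 (hg0 x)) (hin _ (hτmem x))
  -- the imaginary part has no limit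
  have hnoim : ¬ ∃ c : ℝ, Tendsto (fun x => (G x).im) atTop (𝓝 c) := by
    rintro ⟨c, hc⟩
    apply hno
    refine ⟨Complex.exp (c * I), ?_⟩
    have h1 : Tendsto G atTop (𝓝 (c * I)) := by
      have h2 : Tendsto (fun x => (((G x).re : ℝ) : ℂ) + ((G x).im : ℝ) * I) atTop
          (𝓝 (((0 : ℝ) : ℂ) + (c : ℂ) * I)) :=
        ((continuous_ofReal.tendsto _).comp hGre0).add
          (((continuous_ofReal.tendsto _).comp hc).mul_const I)
      simpa using h2
    have h2 : Tendsto g atTop (𝓝 (Complex.exp (c * I))) := by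
      refine ((Complex.continuous_exp.tendsto _).comp h1).congr fun x => ?_
      simp [hGe]
    -- back to the parameter `t`
    have h3 : Tendsto (fun t : ℝ => -Real.log (1 - t)) (𝓝[<] 1) atTop := by
      rw [tendsto_neg_atTop_iff]
      refine Real.tendsto_log_nhdsGT_zero.comp ?_
      rw [tendsto_nhdsWithin_iff]
      refine ⟨?_, ?_⟩
      · have : Tendsto (fun t : ℝ => 1 - t) (𝓝 1) (𝓝 (1 - 1)) :=
          (continuous_const.sub continuous_id).tendsto 1
        rw [sub_self] at this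
        exact this.mono_left nhdsWithin_le_nhds
      · filter_upwards [self_mem_nhdsWithin] with t ht
        simp only [mem_Ioi, sub_pos]
        exact ht
    refine (h2.comp h3).congr' ?_
    have h4 := h3.eventually (eventually_ge_atTop x₀)
    filter_upwards [h4, self_mem_nhdsWithin] with t ht ht1
    have ht1' : 0 < 1 - t := sub_pos.2 ht1
    simp only [Function.comp_apply, hg, max_eq_left ht, hτ, neg_neg, Real.exp_log ht1']
    congr 1
    ring
  obtain ⟨α, β, hαβ, hcr⟩ := exists_interval_crossings hnoim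
  refine ⟨α, β, hαβ, fun η hη => ?_⟩
  obtain ⟨X, hX⟩ := eventually_atTop.1
    (hGre0.eventually (lt_mem_nhds (show -η < 0 by linarith)))
  obtain ⟨k, x₁, x₂, hx₁, hx₂, h1, h2⟩ := hcr X
  -- the path in the plane
  set P : ℝ → ℂ := fun s => G (x₁ + s * (x₂ - x₁)) - (k * (2 * Real.pi) : ℝ) * I with hP
  have hPc : Continuous P := by
    simp only [hP]
    exact (hGc.comp (by fun_prop)).sub continuous_const
  have hPre : ∀ s, (P s).re = (G (x₁ + s * (x₂ - x₁))).re := by
    intro s
    simp [hP]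
  have hPim : ∀ s, (P s).im = (G (x₁ + s * (x₂ - x₁))).im - k * (2 * Real.pi) := by
    intro s
    simp [hP]
  have hPexp : ∀ s, Complex.exp (P s) = g (x₁ + s * (x₂ - x₁)) := by
    intro s
    simp only [hP]
    rw [Complex.exp_sub, hGe]
    have : Complex.exp ((k * (2 * Real.pi) : ℝ) * I) = 1 := by
      have := Complex.exp_int_mul_two_pi_mul_I k
      rw [← this]
      congr 1
      push_cast
      ring
    rw [this, div_one]
  obtain ⟨a, b, ha0, hab, hb1, hfa, hfb, hf⟩ := exists_clean_crossing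
    (f := fun s => (P s).im) (Complex.continuous_im.comp hPc) hαβ
    (by rw [hPim]; simp only [zero_mul, add_zero]; linarith)
    (by rw [hPim]; simp only [one_mul, add_sub_cancel]; linarith)
  refine ⟨fun t => P (a + (t : ℝ) * (b - a)), hPc.comp (by fun_prop), ?_, ?_, ?_⟩
  · intro t
    have ht0 : (0 : ℝ) ≤ t := t.2.1
    have ht1 : (t : ℝ) ≤ 1 := t.2.2
    set s : ℝ := a + (t : ℝ) * (b - a) with hs
    have hsa : a ≤ s := by
      rw [hs]
      nlinarith
    have hsb : s ≤ b := by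
      rw [hs]
      nlinarith
    have hs0 : 0 ≤ s := ha0.trans hsa
    have hs1 : s ≤ 1 := hsb.trans hb1
    have hXs : X ≤ x₁ + s * (x₂ - x₁) := by nlinarith
    have h3 := hX _ hXs
    have h4 := hf s ⟨hsa, hsb⟩
    refine ⟨?_, ?_, h4.1, h4.2, ?_⟩
    · rw [hPre]
      exact h3
    · rw [hPre]
      exact hGneg _
    · rw [hPexp]
      exact ⟨_, hτmem _, rfl⟩
  · simpa using hfa
  · simpa using hfb

end Forcing
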