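import Pool.Agent.Lib.MP_c80ac4_an.Defs

/-! # Growth of a gap series whose minimum modulus stays bounded -/

namespace Forcing

open Complex Metric Set MeasureTheory Filter Topology

theorem grow_alg {x y t₀ : ℝ} (hx : 0 < x) (hy : 0 ≤ y) (ht : 1 < t₀)
    (h : t₀ * x ≤ y ∨ t₀ * y ≤ x) :
    2 * y - 2 / 3 / x ^ 2 * y ^ 3 ≤ 2 * x - 2 / 3 / x ^ 2 * x ^ 3 -
      (1 - 1 / t₀) ^ 2 / (1 + (1 - 1 / t₀) ^ 2) * (2 / 3 / x ^ 2) * (x ^ 3 + y ^ 3) := by
  have ht0 : 0 < t₀ := by linarith
  have hinv : 1 / t₀ < 1 := by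
    rw [div_lt_one ht0]
    exact ht
  set η : ℝ := 1 - 1 / t₀ with hη
  have hη0 : 0 < η := by linarith
  set s : ℝ := 2 / 3 / x ^ 2 with hs
  have hs0 : 0 < s := by positivity
  have hsx : s * x ^ 2 = 2 / 3 := by
    rw [hs]
    field_simp
  have key1 : η ^ 2 * (x * y) ≤ (y - x) ^ 2 := by
    rcases h with h | h
    · have h1 : x ≤ y * (1 / t₀) := by
        rw [mul_one_div, le_div_iff₀ ht0]
        linarith
      have h2 : η * y ≤ y - x := by
        rw [hη]
        linarith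
      have h3 : x ≤ y := by nlinarith
      have h4 : (η * y) ^ 2 ≤ (y - x) ^ 2 := pow_le_pow_left₀ (by positivity) h2 2
      have h5 : η ^ 2 * (x * y) ≤ η ^ 2 * (y * y) :=
        mul_le_mul_of_nonneg_left (mul_le_mul_of_nonneg_right h3 hy) (by positivity)
      calc η ^ 2 * (x * y) ≤ η ^ 2 * (y * y) := h5
        _ = (η * y) ^ 2 := by ring
        _ ≤ (y - x) ^ 2 := h4
    · have h1 : y ≤ x * (1 / t₀) := by
        rw [mul_one_div, le_div_iff₀ ht0]
        linarith
      have h2 : η * x ≤ x - y := by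
        rw [hη]
        linarith
      have h3 : y ≤ x := by nlinarith
      have h4 : (η * x) ^ 2 ≤ (x - y) ^ 2 := pow_le_pow_left₀ (by positivity) h2 2
      have h5 : η ^ 2 * (x * y) ≤ η ^ 2 * (x * x) :=
        mul_le_mul_of_nonneg_left (mul_le_mul_of_nonneg_left h3 hx.le) (by positivity)
      calc η ^ 2 * (x * y) ≤ η ^ 2 * (x * x) := h5
        _ = (η * x) ^ 2 := by ring
        _ ≤ (x - y) ^ 2 := h4
        _ = (y - x) ^ 2 := by ring
  have key2 : η ^ 2 / (1 + η ^ 2) * (x ^ 2 - x * y + y ^ 2) ≤ (y - x) ^ 2 := by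
    rw [div_mul_eq_mul_div, div_le_iff₀ (by positivity)]
    nlinarith
  have key3 : η ^ 2 / (1 + η ^ 2) * (x ^ 3 + y ^ 3) ≤ (y - x) ^ 2 * (y + 2 * x) := by
    calc η ^ 2 / (1 + η ^ 2) * (x ^ 3 + y ^ 3)
        = (η ^ 2 / (1 + η ^ 2) * (x ^ 2 - x * y + y ^ 2)) * (x + y) := by ring
      _ ≤ (y - x) ^ 2 * (x + y) := mul_le_mul_of_nonneg_right key2 (by positivity)
      _ ≤ (y - x) ^ 2 * (y + 2 * x) :=
        mul_le_mul_of_nonneg_left (by linarith) (sq_nonneg _)
  have key4 := mul_le_mul_of_nonneg_left key3 hs0.le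
  have e1 : s * ((y - x) ^ 2 * (y + 2 * x)) =
      (2 * x - s * x ^ 3) - (2 * y - s * y ^ 3) := by
    linear_combination (-3 * y + 3 * x) * hsx
  rw [e1] at key4
  linarith

theorem grow_exp_le {a : ℝ} (ha : a ≤ 0) : Real.exp a ≤ 1 := by
  have h := Real.exp_le_exp.2 ha
  rwa [Real.exp_zero] at h

theorem grow_exp_lt {a : ℝ} (ha : a < 0) : Real.exp a < 1 := by
  have h := Real.exp_lt_exp.2 ha
  rwa [Real.exp_zero] at h

theorem grow_geom {a : ℝ} (ha : 0 < a) : (1 - Real.exp (-a))⁻¹ ≤ 1 + 1 / a := by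
  have h1 := Real.add_one_le_exp a
  have h2 : Real.exp (-a) ≤ (a + 1)⁻¹ := by
    rw [Real.exp_neg]
    exact inv_anti₀ (by linarith) h1
  have h3 : a / (a + 1) ≤ 1 - Real.exp (-a) := by
    have : a / (a + 1) = 1 - (a + 1)⁻¹ := by
      field_simp
      ring
    linarith
  have h4 := inv_anti₀ (by positivity) h3
  refine h4.trans (le_of_eq ?_)
  rw [inv_div]
  field_simp

theorem grow_lim {c' : ℝ} (hc : 0 < c') :
    Tendsto (fun x : ℝ => Real.exp (-(c' * x)) * (1 + x ^ 2 / c')) atTop (𝓝 0) := by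
  have h1 : Tendsto (fun u : ℝ => u ^ 0 * Real.exp (-u)) atTop (𝓝 0) :=
    Real.tendsto_pow_mul_exp_neg_atTop_nhds_zero 0
  have h2 : Tendsto (fun u : ℝ => u ^ 2 * Real.exp (-u)) atTop (𝓝 0) :=
    Real.tendsto_pow_mul_exp_neg_atTop_nhds_zero 2
  have h3 : Tendsto (fun u : ℝ => u ^ 0 * Real.exp (-u) + 1 / c' ^ 3 * (u ^ 2 * Real.exp (-u)))
      atTop (𝓝 (0 + 1 / c' ^ 3 * 0)) := h1.add (h2.const_mul _)
  rw [mul_zero, add_zero] at h3
  have h4 : Tendsto (fun x : ℝ => c' * x) atTop atTop := tendsto_id.const_mul_atTop hc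
  refine (h3.comp h4).congr fun x => ?_
  simp only [Function.comp]
  field_simp

theorem grow_thr {c' ρ : ℝ} (hc : 0 < c') (hρ : 0 < ρ) :
    ∃ n₀ : ℕ, 1 ≤ n₀ ∧ ∀ n : ℕ, n₀ ≤ n →
      2 / 3 / ((n : ℝ) ^ (1 / 3 : ℝ)) ^ 2 ≤ ρ ∧
      Real.exp (-(c' * (n : ℝ) ^ (1 / 3 : ℝ))) * (1 + ((n : ℝ) ^ (1 / 3 : ℝ)) ^ 2 / c') ≤ 1 / 2 := by
  have hx : Tendsto (fun n : ℕ => (n : ℝ) ^ (1 / 3 : ℝ)) atTop atTop :=
    (tendsto_rpow_atTop (by norm_num)).comp tendsto_natCast_atTop_atTop
  have h1 : ∀ᶠ x : ℝ in atTop, Real.exp (-(c' * x)) * (1 + x ^ 2 / c') < 1 / 2 :=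
    (grow_lim hc).eventually_lt_const (by norm_num)
  have h2 : Tendsto (fun x : ℝ => 2 / 3 / x ^ 2) atTop (𝓝 0) :=
    tendsto_const_nhds.div_atTop (tendsto_pow_atTop (by norm_num))
  have h3 : ∀ᶠ x : ℝ in atTop, 2 / 3 / x ^ 2 < ρ := h2.eventually_lt_const hρ
  obtain ⟨n₁, hn₁⟩ := Filter.eventually_atTop.1 (hx.eventually (h3.and h1))
  exact ⟨max n₁ 1, le_max_right _ _, fun n hn =>
    ⟨(hn₁ n (le_trans (le_max_left _ _) hn)).1.le, (hn₁ n (le_trans (le_max_left _ _) hn)).2.le⟩⟩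

theorem grow_cube (n : ℕ) : ((n : ℝ) ^ (1 / 3 : ℝ)) ^ 3 = n := by
  rw [← Real.rpow_natCast, ← Real.rpow_mul (Nat.cast_nonneg n)]
  norm_num

/-- existence of a maximal term -/
theorem grow_max {V : ℕ → ℝ} (h0 : Tendsto V atTop (𝓝 0)) {m₀ : ℕ} (hm : 0 < V m₀) :
    ∃ n, ∀ m, V m ≤ V n := by
  obtain ⟨N, hN⟩ := Filter.eventually_atTop.1 (h0.eventually_lt_const hm)
  obtain ⟨n, hn, hmax⟩ := Finset.exists_max_image (Finset.range (N + m₀ + 1)) V
    ⟨m₀, Finset.mem_range.2 (by omega)⟩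
  have h1 := hmax m₀ (Finset.mem_range.2 (by omega))
  refine ⟨n, fun m => ?_⟩
  rcases Nat.lt_or_ge m (N + m₀ + 1) with h | h
  · exact hmax m (Finset.mem_range.2 h)
  · exact (hN m (by omega)).le.trans h1

/-- **Module GROW (1).** If every circle of radius close to one contains a point where `|f| ≤ M`
then the coefficients grow at most like `exp (2 n ^ (1/3))`. -/
theorem growth_of_min_modulus {q M r₀ : ℝ} {c : ℕ → ℂ} (hq : 1 < q) (hL : Lac q c) (hc : Conv c)
    (hr₀ : r₀ < 1) (h : ∀ r : ℝ, r₀ ≤ r → r < 1 → ∃ z : ℂ, ‖z‖ = r ∧ ‖ps c z‖ ≤ M) :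
    ∃ K : ℝ, ∀ n : ℕ, ‖c n‖ ≤ K * Real.exp (2 * (n : ℝ) ^ (1 / 3 : ℝ)) := by
  -- the ratio of the cube roots
  set t₀ : ℝ := q ^ (1 / 3 : ℝ) with ht₀
  have ht1 : 1 < t₀ := Real.one_lt_rpow hq (by norm_num)
  have ht0 : 0 < t₀ := by linarith
  have hη : 0 < 1 - 1 / t₀ := by
    have : 1 / t₀ < 1 := by
      rw [div_lt_one ht0]
      exact ht1
    linarith
  set c₁ : ℝ := (1 - 1 / t₀) ^ 2 / (1 + (1 - 1 / t₀) ^ 2) with hc₁
  have hc₁0 : 0 < c₁ := by positivity
  -- radius
  obtain ⟨ρ, hρ0, hρ⟩ : ∃ ρ : ℝ, 0 < ρ ∧ ∀ a : ℝ, 0 ≤ a → a ≤ 2 * ρ → r₀ ≤ Real.exp (-a) := by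
    rcases le_or_gt r₀ 0 with h0 | h0
    · exact ⟨1, one_pos, fun a _ _ => h0.trans (Real.exp_pos _).le⟩
    · refine ⟨-Real.log r₀ / 2, by have := Real.log_neg h0 hr₀; linarith, fun a _ ha => ?_⟩
      rw [← Real.log_le_iff_le_exp h0]
      linarith
  obtain ⟨n₀, hn₀1, hn₀⟩ := grow_thr (c' := 2 / 3 * c₁) (ρ := ρ) (by positivity) hρ0
  have hM : 0 ≤ M := by
    obtain ⟨z, -, hz⟩ := h (max r₀ 0) (le_max_left _ _) (max_lt hr₀ one_pos)
    exact (norm_nonneg _).trans hz
  have hxpos : ∀ n : ℕ, 1 ≤ n → 0 < (n : ℝ) ^ (1 / 3 : ℝ) := fun n hn =>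
    Real.rpow_pos_of_pos (by exact_mod_cast hn) _
  have hxnn : ∀ n : ℕ, 0 ≤ (n : ℝ) ^ (1 / 3 : ℝ) := fun n => Real.rpow_nonneg (Nat.cast_nonneg n) _
  set K : ℝ := 2 * M + ∑ n ∈ Finset.range n₀, ‖c n‖ with hK
  have hS0 : 0 ≤ ∑ n ∈ Finset.range n₀, ‖c n‖ := Finset.sum_nonneg fun n _ => norm_nonneg _
  -- main claim
  have main : ∀ τ : ℝ, 0 < τ → τ ≤ ρ → ∀ m : ℕ,
      ‖c m‖ * Real.exp (-(τ * m) - 2 * (m : ℝ) ^ (1 / 3 : ℝ)) ≤ K := by
    intro τ hτ hτρ
    by_cases hall : ∀ m, c m = 0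
    · intro m
      rw [hall m, norm_zero, zero_mul]
      positivity
    · obtain ⟨m₀, hm₀⟩ := not_forall.1 hall
      set V : ℕ → ℝ := fun m => ‖c m‖ * Real.exp (-(τ * m) - 2 * (m : ℝ) ^ (1 / 3 : ℝ)) with hV
      have hVlim : Tendsto V atTop (𝓝 0) := by
        have h1 : Tendsto (fun m : ℕ => c m * ((Real.exp (-τ) : ℝ) : ℂ) ^ m) atTop (𝓝 0) := by
          refine (hc ((Real.exp (-τ) : ℝ) : ℂ) ?_).tendsto_atTop_zero
          rw [Complex.norm_real, Real.norm_eq_abs, abs_of_pos (Real.exp_pos _)]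
          exact grow_exp_lt (by linarith)
        have h2 := h1.norm
        rw [norm_zero] at h2
        refine squeeze_zero (fun m => by positivity) (fun m => ?_) h2
        rw [norm_mul, norm_pow, Complex.norm_real, Real.norm_eq_abs, abs_of_pos (Real.exp_pos _),
          ← Real.exp_nat_mul]
        refine mul_le_mul_of_nonneg_left (Real.exp_le_exp.2 ?_) (norm_nonneg _)
        have := hxnn m
        linarith
      have hVm₀ : 0 < V m₀ := mul_pos (norm_pos_iff.2 hm₀) (Real.exp_pos _)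
      obtain ⟨n, hn⟩ := grow_max hVlim hVm₀
      intro m
      refine (hn m).trans ?_
      have hcn : c n ≠ 0 := by
        intro h0
        have h1 := hn m₀
        simp only [hV] at h1 hVm₀
        rw [h0, norm_zero, zero_mul] at h1
        linarith
      rcases Nat.lt_or_ge n n₀ with hlt | hge
      · -- small index
        have h1 : ‖c n‖ ≤ ∑ n ∈ Finset.range n₀, ‖c n‖ :=
          Finset.single_le_sum (f := fun n => ‖c n‖) (fun i _ => norm_nonneg _)
            (Finset.mem_range.2 hlt)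
        have h2 : Real.exp (-(τ * n) - 2 * (n : ℝ) ^ (1 / 3 : ℝ)) ≤ 1 := by
          apply grow_exp_le
          have h3 := hxnn n
          have h4 : 0 ≤ τ * n := by positivity
          linarith
        have h3 : V n ≤ ‖c n‖ * 1 := mul_le_mul_of_nonneg_left h2 (norm_nonneg _)
        rw [mul_one] at h3
        linarith
      · -- large index
        obtain ⟨hs, hsum⟩ := hn₀ n hge
        have hn1 : 1 ≤ n := hn₀1.trans hge
        set x : ℝ := (n : ℝ) ^ (1 / 3 : ℝ) with hx
        have hx0 : 0 < x := hxpos n hn1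
        have hx3 : x ^ 3 = n := grow_cube n
        set s : ℝ := 2 / 3 / x ^ 2 with hsdef
        have hs0 : 0 < s := by positivity
        have hsx : s * x ^ 2 = 2 / 3 := by
          rw [hsdef]
          field_simp
        obtain ⟨z, hz1, hz2⟩ := h (Real.exp (-(τ + s))) (hρ _ (by positivity) (by linarith))
          (grow_exp_lt (by linarith))
        have hzn : ∀ m : ℕ, ‖z ^ m‖ = Real.exp (-(τ * m) - s * m) := by
          intro m
          rw [norm_pow, hz1, ← Real.exp_nat_mul]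
          congr 1
          ring
        -- comparison of terms
        have hterm : ∀ m : ℕ, m ≠ n → ‖c m * z ^ m‖ ≤ ‖c n * z ^ n‖ *
            (Real.exp (-(2 / 3 * c₁ * x)) * Real.exp (-(2 / 3 * c₁ / x ^ 2)) ^ m) := by
          intro m hmn
          by_cases hcm : c m = 0
          · rw [hcm, zero_mul, norm_zero]
            positivity
          · set y : ℝ := (m : ℝ) ^ (1 / 3 : ℝ) with hy
            have hy0 : 0 ≤ y := hxnn m
            have hy3 : y ^ 3 = m := grow_cube m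
            have hdich : t₀ * x ≤ y ∨ t₀ * y ≤ x := by
              rcases lt_or_gt_of_ne hmn with h1 | h1
              · right
                have h2 := hL.2 m n h1 hcm hcn
                rw [ht₀, hy, hx, ← Real.mul_rpow (by linarith) (Nat.cast_nonneg m)]
                exact Real.rpow_le_rpow (by positivity) h2 (by norm_num)
              · left
                have h2 := hL.2 n m h1 hcn hcm
                rw [ht₀, hy, hx, ← Real.mul_rpow (by linarith) (Nat.cast_nonneg n)]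
                exact Real.rpow_le_rpow (by positivity) h2 (by norm_num)
            have halg := grow_alg hx0 hy0 ht1 hdich
            rw [← hc₁, ← hsdef, hx3, hy3] at halg
            have hVm := hn m
            simp only [hV] at hVm
            rw [← hy, ← hx] at hVm
            rw [norm_mul, norm_mul, hzn, hzn, ← Real.exp_nat_mul]
            calc ‖c m‖ * Real.exp (-(τ * m) - s * m)
                = (‖c m‖ * Real.exp (-(τ * m) - 2 * y)) * Real.exp (2 * y - s * m) := by
                  rw [mul_assoc, ← Real.exp_add]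
                  congr 2
                  ring
              _ ≤ (‖c n‖ * Real.exp (-(τ * n) - 2 * x)) *
                    Real.exp (2 * x - s * n - c₁ * s * (n + m)) :=
                  mul_le_mul hVm (Real.exp_le_exp.2 halg) (Real.exp_pos _).le (by positivity)
              _ = ‖c n‖ * Real.exp (-(τ * n) - s * n) * (Real.exp (-(2 / 3 * c₁ * x)) *
                    Real.exp (m * -(2 / 3 * c₁ / x ^ 2))) := by
                  have e1 : s * (n : ℝ) = 2 / 3 * x := by
                    rw [← hx3]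
                    linear_combination x * hsx
                  have e2 : 2 / 3 * c₁ / x ^ 2 = c₁ * s := by
                    rw [hsdef]
                    ring
                  rw [mul_assoc ‖c n‖, mul_assoc ‖c n‖, ← Real.exp_add, ← Real.exp_add,
                    ← Real.exp_add, e2]
                  congr 2
                  linear_combination (-c₁) * e1
        -- sum of the other terms
        have hzlt : ‖z‖ < 1 := by
          rw [hz1]
          exact grow_exp_lt (by linarith)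
        have hsumm := hc z hzlt
        have hb0 : 0 ≤ Real.exp (-(2 / 3 * c₁ / x ^ 2)) := (Real.exp_pos _).le
        have hb1 : Real.exp (-(2 / 3 * c₁ / x ^ 2)) < 1 := by
          apply grow_exp_lt
          have : 0 < 2 / 3 * c₁ / x ^ 2 := by positivity
          linarith
        have hgs := (summable_geometric_of_lt_one hb0 hb1).mul_left
          (‖c n * z ^ n‖ * Real.exp (-(2 / 3 * c₁ * x)))
        have hrest : ‖∑' m, (if m = n then 0 else c m * z ^ m)‖ ≤ ‖c n * z ^ n‖ * (1 / 2) := by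
          have hle : ∀ m, ‖(if m = n then 0 else c m * z ^ m)‖ ≤
              (‖c n * z ^ n‖ * Real.exp (-(2 / 3 * c₁ * x))) *
                Real.exp (-(2 / 3 * c₁ / x ^ 2)) ^ m := by
            intro m
            split_ifs with hmn
            · rw [norm_zero]
              positivity
            · rw [mul_assoc]
              exact hterm m hmn
          have h1 := tsum_of_norm_bounded hgs.hasSum hle
          refine h1.trans ?_
          rw [tsum_mul_left, tsum_geometric_of_lt_one hb0 hb1, mul_assoc]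
          refine mul_le_mul_of_nonneg_left ?_ (norm_nonneg _)
          refine le_trans ?_ hsum
          refine mul_le_mul_of_nonneg_left ?_ (Real.exp_pos _).le
          have h2 := grow_geom (a := 2 / 3 * c₁ / x ^ 2) (by positivity)
          rw [one_div_div] at h2
          exact h2
        have hsplit : ps c z = c n * z ^ n + ∑' m, (if m = n then 0 else c m * z ^ m) :=
          hsumm.tsum_eq_add_tsum_ite n
        have h3 : ‖c n * z ^ n‖ ≤ 2 * M := by
          have h4 : c n * z ^ n = ps c z - ∑' m, (if m = n then 0 else c m * z ^ m) := by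
            rw [hsplit]
            ring
          have h5 : ‖c n * z ^ n‖ ≤ ‖ps c z‖ + ‖∑' m, (if m = n then 0 else c m * z ^ m)‖ := by
            conv_lhs => rw [h4]
            exact norm_sub_le _ _
          linarith
        have h6 : V n ≤ ‖c n * z ^ n‖ := by
          rw [norm_mul, hzn]
          refine mul_le_mul_of_nonneg_left (Real.exp_le_exp.2 ?_) (norm_nonneg _)
          have e1 : s * (n : ℝ) = 2 / 3 * x := by
            rw [← hx3]
            linear_combination x * hsx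
          rw [e1, ← hx]
          linarith
        linarith
  refine ⟨K, fun m => ?_⟩
  have hK0 : ∀ τ : ℝ, 0 < τ → τ ≤ ρ →
      ‖c m‖ ≤ K * Real.exp (τ * m + 2 * (m : ℝ) ^ (1 / 3 : ℝ)) := by
    intro τ h1 h2
    have h3 := main τ h1 h2 m
    have h4 := mul_le_mul_of_nonneg_right h3
      (Real.exp_pos (τ * m + 2 * (m : ℝ) ^ (1 / 3 : ℝ))).le
    rw [mul_assoc, ← Real.exp_add] at h4
    have e1 : -(τ * (m : ℝ)) - 2 * (m : ℝ) ^ (1 / 3 : ℝ) + (τ * m + 2 * (m : ℝ) ^ (1 / 3 : ℝ)) = 0 := by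
      ring
    rw [e1, Real.exp_zero, mul_one] at h4
    exact h4
  have hlim : Tendsto (fun τ : ℝ => K * Real.exp (τ * m + 2 * (m : ℝ) ^ (1 / 3 : ℝ))) (𝓝[>] 0)
      (𝓝 (K * Real.exp (0 * m + 2 * (m : ℝ) ^ (1 / 3 : ℝ)))) := by
    apply tendsto_nhdsWithin_of_tendsto_nhds
    apply Continuous.tendsto
    fun_prop
  rw [zero_mul, zero_add] at hlim
  refine ge_of_tendsto hlim ?_
  have hev : ∀ᶠ τ : ℝ in 𝓝[>] 0, τ ∈ Ioc 0 ρ := Ioc_mem_nhdsGT hρ0
  filter_upwards [hev] with τ hτ
  exact hK0 τ hτ.1 hτ.2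

/-- **Module GROW (2).** -/
theorem ps_growth {c : ℕ → ℂ} {K : ℝ} (h : ∀ n : ℕ, ‖c n‖ ≤ K * Real.exp (2 * (n : ℝ) ^ (1 / 3 : ℝ))) :
    ∃ K' : ℝ, ∀ w : ℂ, -1 ≤ w.re → w.re < 0 →
      ‖ps c (Complex.exp w)‖ ≤ K' * Real.exp (K' * (-w.re) ^ (-(1 / 2) : ℝ)) := by
  have hK0 : 0 ≤ K := by
    have h1 := h 0
    rw [Nat.cast_zero, Real.zero_rpow (by norm_num), mul_zero, Real.exp_zero, mul_one] at h1
    exact (norm_nonneg _).trans h1
  refine ⟨max (6 * K) 3, fun w hw1 hw2 => ?_⟩
  set x : ℝ := -w.re with hx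
  have hx0 : 0 < x := by linarith
  have hx1 : x ≤ 1 := by linarith
  set u : ℝ := x ^ (-(1 / 2) : ℝ) with hu
  have hu0 : 0 < u := Real.rpow_pos_of_pos hx0 _
  have hu2 : u ^ 2 = 1 / x := by
    rw [hu, ← Real.rpow_natCast, ← Real.rpow_mul hx0.le]
    norm_num
    rw [Real.rpow_neg_one]
  have hxu : x * u ^ 2 = 1 := by
    rw [hu2]
    field_simp
  have hterm : ∀ n : ℕ, ‖c n * Complex.exp w ^ n‖ ≤
      (K * Real.exp (2 * u)) * Real.exp (-(x / 2)) ^ n := by
    intro n
    rw [norm_mul, norm_pow, Complex.norm_exp, ← Real.exp_nat_mul, ← Real.exp_nat_mul]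
    have hy0 : 0 ≤ (n : ℝ) ^ (1 / 3 : ℝ) := Real.rpow_nonneg (Nat.cast_nonneg n) _
    have hy3 := grow_cube n
    set y : ℝ := (n : ℝ) ^ (1 / 3 : ℝ) with hy
    have key : 2 * y ≤ x / 2 * y ^ 3 + 2 * u := by
      have h1 : 0 ≤ x * ((y - 6 / 5 * u) ^ 2 * (y + 12 / 5 * u)) := by positivity
      have h2 : x * ((y - 6 / 5 * u) ^ 2 * (y + 12 / 5 * u)) =
          x * y ^ 3 - 108 / 25 * y + 432 / 125 * u := by
        linear_combination (-108 / 25 * y + 432 / 125 * u) * hxu
      rw [h2] at h1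
      linarith
    calc ‖c n‖ * Real.exp (n * w.re) ≤ (K * Real.exp (2 * y)) * Real.exp (n * w.re) :=
          mul_le_mul_of_nonneg_right (h n) (Real.exp_pos _).le
      _ = K * Real.exp (2 * y + n * w.re) := by rw [mul_assoc, ← Real.exp_add]
      _ ≤ K * Real.exp (2 * u + n * -(x / 2)) := by
          refine mul_le_mul_of_nonneg_left (Real.exp_le_exp.2 ?_) hK0
          have e : w.re = -x := by rw [hx]; ring
          rw [e]
          rw [hy3] at key
          linarith
      _ = (K * Real.exp (2 * u)) * Real.exp (n * -(x / 2)) := by rw [mul_assoc, ← Real.exp_add]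
  have hb0 : 0 ≤ Real.exp (-(x / 2)) := (Real.exp_pos _).le
  have hb1 : Real.exp (-(x / 2)) < 1 := grow_exp_lt (by linarith)
  have hgs := (summable_geometric_of_lt_one hb0 hb1).mul_left (K * Real.exp (2 * u))
  have h1 := tsum_of_norm_bounded hgs.hasSum hterm
  rw [tsum_mul_left, tsum_geometric_of_lt_one hb0 hb1] at h1
  have h2 := grow_geom (a := x / 2) (by positivity)
  rw [one_div_div] at h2
  have h3 : 1 + 2 / x ≤ 3 * u ^ 2 := by
    rw [hu2]
    have : 1 ≤ 1 / x := by
      rw [le_div_iff₀ hx0]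
      linarith
    have e : 2 / x = 2 * (1 / x) := by ring
    rw [e]
    linarith
  have h4 : u ^ 2 ≤ 2 * Real.exp u := by
    have := Real.quadratic_le_exp_of_nonneg hu0.le
    nlinarith
  calc ‖ps c (Complex.exp w)‖ ≤ K * Real.exp (2 * u) * (1 - Real.exp (-(x / 2)))⁻¹ := h1
    _ ≤ K * Real.exp (2 * u) * (6 * Real.exp u) :=
        mul_le_mul_of_nonneg_left (by linarith) (by positivity)
    _ = 6 * K * Real.exp (3 * u) := by
        have : Real.exp (3 * u) = Real.exp (2 * u) * Real.exp u := by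
          rw [← Real.exp_add]
          congr 1
          ring
        rw [this]
        ring
    _ ≤ max (6 * K) 3 * Real.exp (max (6 * K) 3 * u) := by
        refine mul_le_mul (le_max_left _ _) (Real.exp_le_exp.2 ?_) (Real.exp_pos _).le
          (le_trans (by positivity) (le_max_left _ _))
        exact mul_le_mul_of_nonneg_right (le_max_right _ _) hu0.le

end Forcing
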