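import Pool.Agent.Lib.MP_c80ac4_an.Cross

/-! # Boundedness between crosscuts (maximum principle) -/

namespace Forcing

open Complex Metric Set MeasureTheory Filter Topology

/-- the comparison function -/
noncomputable def mpG (α β : ℝ) (w : ℂ) : ℂ :=
  ((α : ℂ) * I - w) ^ (-(3 / 4) : ℂ) + ((β : ℂ) * I - w) ^ (-(3 / 4) : ℂ)

theorem mp_cpow_re {z : ℂ} (hz : 0 < z.re) :
    Real.cos (3 * Real.pi / 8) * ‖z‖ ^ (-(3 / 4) : ℝ) ≤ (z ^ (-(3 / 4) : ℂ)).re ∧
      (z ^ (-(3 / 4) : ℂ)).re ≤ ‖z‖ ^ (-(3 / 4) : ℝ) := by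
  have hz0 : z ≠ 0 := by
    intro h
    rw [h] at hz
    simp at hz
  have hn : 0 < ‖z‖ := norm_pos_iff.2 hz0
  have e1 : (z ^ (-(3 / 4) : ℂ)).re = ‖z‖ ^ (-(3 / 4) : ℝ) * Real.cos (3 / 4 * arg z) := by
    rw [cpow_def_of_ne_zero hz0, exp_re]
    have h1 : (Complex.log z * (-(3 / 4) : ℂ)).re = Real.log ‖z‖ * (-(3 / 4)) := by
      have : (-(3 / 4) : ℂ) = ((-(3 / 4) : ℝ) : ℂ) := by push_cast; ring
      rw [this, re_mul_ofReal, log_re]
    have h2 : (Complex.log z * (-(3 / 4) : ℂ)).im = -(3 / 4 * arg z) := by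
      have : (-(3 / 4) : ℂ) = ((-(3 / 4) : ℝ) : ℂ) := by push_cast; ring
      rw [this, im_mul_ofReal, log_im]
      ring
    rw [h1, h2, Real.cos_neg, ← Real.rpow_def_of_pos hn]
  have harg : |arg z| < Real.pi / 2 := abs_arg_lt_pi_div_two_iff.2 (Or.inl hz)
  have hp : 0 < ‖z‖ ^ (-(3 / 4) : ℝ) := Real.rpow_pos_of_pos hn _
  have hcos : Real.cos (3 * Real.pi / 8) ≤ Real.cos (3 / 4 * arg z) := by
    rw [← Real.cos_abs (3 / 4 * arg z)]
    apply Real.cos_le_cos_of_nonneg_of_le_pi (abs_nonneg _)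
    · have := Real.pi_pos
      linarith
    · rw [abs_mul, abs_of_pos (by norm_num : (0 : ℝ) < 3 / 4)]
      linarith
  rw [e1]
  constructor
  · rw [mul_comm]
    exact mul_le_mul_of_nonneg_left hcos hp.le
  · have := mul_le_mul_of_nonneg_left (Real.cos_le_one (3 / 4 * arg z)) hp.le
    rwa [mul_one] at this

theorem mp_cos_pos : 0 < Real.cos (3 * Real.pi / 8) := by
  apply Real.cos_pos_of_mem_Ioo
  have := Real.pi_pos
  constructor <;> linarith

theorem mp_sub_re (α : ℝ) (w : ℂ) : ((α : ℂ) * I - w).re = -w.re := by simp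

theorem mp_sub_im (α : ℝ) (w : ℂ) : ((α : ℂ) * I - w).im = α - w.im := by simp

theorem mp_G_diff (α β : ℝ) : DifferentiableOn ℂ (mpG α β) {w : ℂ | w.re < 0} := by
  unfold mpG
  refine DifferentiableOn.add ?_ ?_
  · refine DifferentiableOn.cpow_const (by fun_prop) fun w hw => Or.inl ?_
    rw [mp_sub_re]
    have : w.re < 0 := hw
    linarith
  · refine DifferentiableOn.cpow_const (by fun_prop) fun w hw => Or.inl ?_
    rw [mp_sub_re]
    have : w.re < 0 := hw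
    linarith

theorem mp_G_nonneg {α β : ℝ} {w : ℂ} (hw : w.re < 0) : 0 ≤ (mpG α β w).re := by
  unfold mpG
  rw [add_re]
  have h1 := (mp_cpow_re (z := (α : ℂ) * I - w) (by rw [mp_sub_re]; linarith)).1
  have h2 := (mp_cpow_re (z := (β : ℂ) * I - w) (by rw [mp_sub_re]; linarith)).1
  have h3 := mp_cos_pos
  have h4 : 0 ≤ ‖(α : ℂ) * I - w‖ ^ (-(3 / 4) : ℝ) := Real.rpow_nonneg (norm_nonneg _) _
  have h5 : 0 ≤ ‖(β : ℂ) * I - w‖ ^ (-(3 / 4) : ℝ) := Real.rpow_nonneg (norm_nonneg _) _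
  have h6 := mul_nonneg h3.le h4
  have h7 := mul_nonneg h3.le h5
  linarith

theorem mp_norm_side {α : ℝ} {w : ℂ} (hw : w.re < 0) (h : w.im = α) :
    ‖(α : ℂ) * I - w‖ = -w.re := by
  have h1 : (α : ℂ) * I - w = ((-w.re : ℝ) : ℂ) := by
    apply Complex.ext
    · rw [mp_sub_re, ofReal_re]
    · rw [mp_sub_im, ofReal_im, h, sub_self]
  rw [h1, norm_real, Real.norm_eq_abs, abs_of_pos (by linarith)]

theorem mp_G_side {α β : ℝ} {w : ℂ} (hw : w.re < 0) (h : w.im = α ∨ w.im = β) :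
    Real.cos (3 * Real.pi / 8) * (-w.re) ^ (-(3 / 4) : ℝ) ≤ (mpG α β w).re := by
  unfold mpG
  rw [add_re]
  have h1 := (mp_cpow_re (z := (α : ℂ) * I - w) (by rw [mp_sub_re]; linarith)).1
  have h2 := (mp_cpow_re (z := (β : ℂ) * I - w) (by rw [mp_sub_re]; linarith)).1
  have h3 := mp_cos_pos
  have h4 : 0 ≤ ‖(α : ℂ) * I - w‖ ^ (-(3 / 4) : ℝ) := Real.rpow_nonneg (norm_nonneg _) _
  have h5 : 0 ≤ ‖(β : ℂ) * I - w‖ ^ (-(3 / 4) : ℝ) := Real.rpow_nonneg (norm_nonneg _) _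
  have h6 := mul_nonneg h3.le h4
  have h7 := mul_nonneg h3.le h5
  rcases h with h | h
  · rw [mp_norm_side hw h] at h1
    linarith
  · rw [mp_norm_side hw h] at h2
    linarith

theorem mp_G_le {α β a b : ℝ} {w : ℂ} (hw : w.re < 0) (ha : 0 < a) (hb : 0 < b)
    (h1 : a ≤ w.im - α) (h2 : b ≤ β - w.im) :
    (mpG α β w).re ≤ a ^ (-(3 / 4) : ℝ) + b ^ (-(3 / 4) : ℝ) := by
  unfold mpG
  rw [add_re]
  have g1 := (mp_cpow_re (z := (α : ℂ) * I - w) (by rw [mp_sub_re]; linarith)).2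
  have g2 := (mp_cpow_re (z := (β : ℂ) * I - w) (by rw [mp_sub_re]; linarith)).2
  have g3 : a ≤ ‖(α : ℂ) * I - w‖ := by
    have := abs_im_le_norm ((α : ℂ) * I - w)
    rw [mp_sub_im] at this
    have h3 := neg_abs_le (α - w.im)
    linarith
  have g4 : b ≤ ‖(β : ℂ) * I - w‖ := by
    have := abs_im_le_norm ((β : ℂ) * I - w)
    rw [mp_sub_im] at this
    have h3 := le_abs_self (β - w.im)
    linarith
  have g5 := Real.rpow_le_rpow_of_nonpos ha g3 (by norm_num : (-(3 / 4) : ℝ) ≤ 0)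
  have g6 := Real.rpow_le_rpow_of_nonpos hb g4 (by norm_num : (-(3 / 4) : ℝ) ≤ 0)
  linarith

theorem mp_segment {z₁ z₂ z : ℂ} (h : z ∈ segment ℝ z₁ z₂) (him : z₁.im = z₂.im)
    (hre : z₁.re ≤ z₂.re) : z₁.re ≤ z.re ∧ z.re ≤ z₂.re ∧ z.im = z₁.im := by
  obtain ⟨a, b, ha, hb, hab, rfl⟩ := h
  simp only [add_re, real_smul, re_ofReal_mul, add_im, im_ofReal_mul, ← him]
  have hb' : b = 1 - a := by linarith
  subst hb'
  refine ⟨?_, ?_, ?_⟩ <;> nlinarith

/-- the topological part: the component does not reach the right side -/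
theorem mp_topo {α β ρ : ℝ} {w₀ : ℂ} {σ : unitInterval → ℂ} (hσ : Continuous σ)
    (hρ : 0 < ρ) (hσ1 : ∀ t, w₀.re < (σ t).re ∧ (σ t).re ≤ -ρ ∧ α ≤ (σ t).im ∧ (σ t).im ≤ β)
    (h0 : (σ 0).im = α) (h1 : (σ 1).im = β) (hw1 : -1 < w₀.re) (hw2 : α < w₀.im)
    (hw3 : w₀.im < β) {U : Set ℂ} (hUo : IsOpen U) (hUc : IsConnected U) (hw₀ : w₀ ∈ U)
    (hU : ∀ z ∈ U, -1 < z.re ∧ z.re < -(ρ / 2) ∧ α < z.im ∧ z.im < β ∧ z ∉ range σ)
    {z : ℂ} (hz : z ∈ closure U) : z.re ≠ -(ρ / 2) := by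
  intro hzr
  obtain ⟨u, hu, hzu⟩ := Metric.mem_closure_iff.1 hz (ρ / 2) (by linarith)
  have hure : -ρ < u.re := by
    have h2 := abs_re_le_norm (z - u)
    rw [dist_eq_norm] at hzu
    rw [sub_re] at h2
    have h3 := le_abs_self (z.re - u.re)
    linarith
  obtain ⟨u1, u2, u3, u4, u5⟩ := hU u hu
  set Z : Set ℂ := {x | -1 ≤ x.re ∧ x.re ≤ -(ρ / 2) ∧ α ≤ x.im ∧ x.im ≤ β ∧ x ∉ range σ} with hZ
  have hw₀r : w₀.re < -ρ := lt_of_lt_of_le (hσ1 0).1 (hσ1 0).2.1
  have j1 : JoinedIn Z (⟨-1, w₀.im⟩ : ℂ) w₀ := by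
    apply JoinedIn.of_segment_subset
    intro x hx
    obtain ⟨x1, x2, x3⟩ := mp_segment hx rfl hw1.le
    simp only at x1 x3
    refine ⟨x1, by linarith, by linarith, by linarith, ?_⟩
    rintro ⟨t, rfl⟩
    have := (hσ1 t).1
    linarith
  have j2 : JoinedIn Z w₀ u := by
    have hp := hUo.isConnected_iff_isPathConnected.1 hUc
    refine (hp.joinedIn w₀ hw₀ u hu).mono fun x hx => ?_
    obtain ⟨x1, x2, x3, x4, x5⟩ := hU x hx
    exact ⟨x1.le, x2.le, x3.le, x4.le, x5⟩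
  have j3 : JoinedIn Z u (⟨-(ρ / 2), u.im⟩ : ℂ) := by
    apply JoinedIn.of_segment_subset
    intro x hx
    obtain ⟨x1, x2, x3⟩ := mp_segment hx rfl u2.le
    simp only at x2
    refine ⟨by linarith, x2, by linarith, by linarith, ?_⟩
    rintro ⟨t, rfl⟩
    have := (hσ1 t).2.1
    linarith
  have j := (j1.trans j2).trans j3
  obtain ⟨s, t, hst⟩ := paths_cross (a := -1) (b := -(ρ / 2)) (c := α) (d := β)
    (σ := fun s => j.somePath s) (τ := σ) j.somePath.continuous hσ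
    (fun s => by
      obtain ⟨x1, x2, x3, x4, x5⟩ := j.somePath_mem s
      exact ⟨x1, x2, x3, x4⟩)
    (fun t => by
      obtain ⟨y1, y2, y3, y4⟩ := hσ1 t
      exact ⟨by linarith, by linarith, y3, y4⟩)
    (by simp) (by simp) h0 h1
  exact (j.somePath_mem s).2.2.2.2 ⟨t, hst.symm⟩

/-- **Module MAXP.** `F` is analytic in the left half plane, of growth `exp (K |Re w| ^ (-1/2))`, and
bounded by `M` on paths that cross the strip `α ≤ Im w ≤ β` arbitrarily close to the imaginary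
axis. Then `F` is bounded in every smaller strip. -/
theorem strip_bound {F : ℂ → ℂ} {M K α β : ℝ}
    (hF : DifferentiableOn ℂ F {w : ℂ | w.re < 0})
    (hg : ∀ w : ℂ, -1 ≤ w.re → w.re < 0 →
      ‖F w‖ ≤ K * Real.exp (K * (-w.re) ^ (-(1 / 2) : ℝ)))
    (hcross : ∀ η : ℝ, 0 < η → ∃ σ : unitInterval → ℂ, Continuous σ ∧
      (∀ t, -η < (σ t).re ∧ (σ t).re < 0 ∧ α ≤ (σ t).im ∧ (σ t).im ≤ β ∧ ‖F (σ t)‖ ≤ M) ∧
      (σ 0).im = α ∧ (σ 1).im = β)
    {α' β' : ℝ} (h1 : α < α') (h2 : α' ≤ β') (h3 : β' < β) :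
    ∃ B : ℝ, ∀ w : ℂ, -1 < w.re → w.re < 0 → α' ≤ w.im → w.im ≤ β' → ‖F w‖ ≤ B := by
  have hκ := mp_cos_pos
  set κ : ℝ := Real.cos (3 * Real.pi / 8) with hκdef
  have hK0 : 0 ≤ K := by
    have h4 := hg (-1) (by simp) (by simp)
    have h5 : 0 ≤ K * Real.exp (K * (-(-1 : ℂ).re) ^ (-(1 / 2) : ℝ)) := (norm_nonneg _).trans h4
    exact nonneg_of_mul_nonneg_left h5 (Real.exp_pos _)
  set A : ℝ := K / κ with hA
  have hA0 : 0 ≤ A := by positivity
  have hAκ : A * κ = K := div_mul_cancel₀ _ hκ.ne'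
  set H : ℂ → ℂ := fun w => F w * Complex.exp (-(A * mpG α β w)) with hH
  have hHn : ∀ w, ‖H w‖ = ‖F w‖ * Real.exp (-(A * (mpG α β w).re)) := by
    intro w
    simp only [hH]
    rw [norm_mul, norm_exp, neg_re, re_ofReal_mul]
  have hHd : DifferentiableOn ℂ H {w : ℂ | w.re < 0} := by
    refine hF.mul ?_
    refine DifferentiableOn.cexp ?_
    exact ((mp_G_diff α β).const_mul _).neg
  have hHle : ∀ w : ℂ, w.re < 0 → ‖H w‖ ≤ ‖F w‖ := by
    intro w hw
    rw [hHn]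
    have h4 : Real.exp (-(A * (mpG α β w).re)) ≤ 1 := by
      have h5 : -(A * (mpG α β w).re) ≤ 0 := by
        have := mul_nonneg hA0 (mp_G_nonneg (α := α) (β := β) hw)
        linarith
      have h6 := Real.exp_le_exp.2 h5
      rwa [Real.exp_zero] at h6
    calc ‖F w‖ * Real.exp (-(A * (mpG α β w).re)) ≤ ‖F w‖ * 1 :=
          mul_le_mul_of_nonneg_left h4 (norm_nonneg _)
      _ = ‖F w‖ := mul_one _
  -- bound on the horizontal sides
  have hside : ∀ w : ℂ, -1 ≤ w.re → w.re < 0 → (w.im = α ∨ w.im = β) → ‖H w‖ ≤ K := by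
    intro w hw1 hw2 hw3
    rw [hHn]
    have hx0 : 0 < -w.re := by linarith
    have hx1 : -w.re ≤ 1 := by linarith
    have g1 := mp_G_side (α := α) (β := β) hw2 hw3
    have g2 : (-w.re) ^ (-(1 / 2) : ℝ) ≤ (-w.re) ^ (-(3 / 4) : ℝ) :=
      Real.rpow_le_rpow_of_exponent_ge hx0 hx1 (by norm_num)
    have g3 : K * (-w.re) ^ (-(1 / 2) : ℝ) ≤ A * (mpG α β w).re := by
      calc K * (-w.re) ^ (-(1 / 2) : ℝ) ≤ K * (-w.re) ^ (-(3 / 4) : ℝ) :=
            mul_le_mul_of_nonneg_left g2 hK0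
        _ = A * (κ * (-w.re) ^ (-(3 / 4) : ℝ)) := by rw [← hAκ]; ring
        _ ≤ A * (mpG α β w).re := mul_le_mul_of_nonneg_left g1 hA0
    calc ‖F w‖ * Real.exp (-(A * (mpG α β w).re))
        ≤ (K * Real.exp (K * (-w.re) ^ (-(1 / 2) : ℝ))) * Real.exp (-(A * (mpG α β w).re)) :=
          mul_le_mul_of_nonneg_right (hg w hw1 hw2) (Real.exp_pos _).le
      _ = K * Real.exp (K * (-w.re) ^ (-(1 / 2) : ℝ) - A * (mpG α β w).re) := by
          rw [mul_assoc, ← Real.exp_add, sub_eq_add_neg]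
      _ ≤ K * 1 := by
          refine mul_le_mul_of_nonneg_left ?_ hK0
          have h6 := Real.exp_le_exp.2 (by linarith :
            K * (-w.re) ^ (-(1 / 2) : ℝ) - A * (mpG α β w).re ≤ 0)
          rwa [Real.exp_zero] at h6
      _ = K := mul_one _
  have hleft : ∀ w : ℂ, w.re = -1 → ‖H w‖ ≤ K * Real.exp K := by
    intro w hw
    refine (hHle w (by linarith)).trans ?_
    have h4 := hg w (by linarith) (by linarith)
    rw [hw, neg_neg, Real.one_rpow, mul_one] at h4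
    exact h4
  set B₀ : ℝ := max (max K (K * Real.exp K)) M with hB₀
  have hB₀0 : 0 ≤ B₀ := le_trans hK0 ((le_max_left _ _).trans (le_max_left _ _))
  refine ⟨B₀ * Real.exp (A * ((α' - α) ^ (-(3 / 4) : ℝ) + (β - β') ^ (-(3 / 4) : ℝ))), ?_⟩
  intro w₀ hw1 hw2 hw3 hw4
  obtain ⟨σ, hσ, hσ1, hσ0, hσ2⟩ := hcross (-w₀.re) (by linarith)
  -- the path stays away from the imaginary axis
  obtain ⟨t₀, -, ht₀⟩ := (isCompact_univ : IsCompact (univ : Set unitInterval)).exists_isMaxOn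
    univ_nonempty (f := fun t => (σ t).re) (by fun_prop)
  have ht₀' : ∀ t, (σ t).re ≤ (σ t₀).re := fun t => ht₀ (mem_univ t)
  set ρ : ℝ := -(σ t₀).re with hρ
  have hρ0 : 0 < ρ := by
    have := (hσ1 t₀).2.1
    linarith
  have hσ1' : ∀ t, w₀.re < (σ t).re ∧ (σ t).re ≤ -ρ ∧ α ≤ (σ t).im ∧ (σ t).im ≤ β := by
    intro t
    obtain ⟨y1, y2, y3, y4, y5⟩ := hσ1 t
    have y6 := ht₀' t
    exact ⟨by linarith, by linarith, y3, y4⟩
  have hw₀ρ : w₀.re < -ρ := lt_of_lt_of_le (hσ1' t₀).1 (hσ1' t₀).2.1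
  -- the open set and the component
  have hS : IsClosed (range σ) := (isCompact_range hσ).isClosed
  set O : Set ℂ := {z | -1 < z.re ∧ z.re < -(ρ / 2) ∧ α < z.im ∧ z.im < β} ∩ (range σ)ᶜ with hO
  have hOo : IsOpen O := by
    refine IsOpen.inter ?_ hS.isOpen_compl
    have a1 : IsOpen {z : ℂ | -1 < z.re} := isOpen_lt continuous_const continuous_re
    have a2 : IsOpen {z : ℂ | z.re < -(ρ / 2)} := isOpen_lt continuous_re continuous_const
    have a3 : IsOpen {z : ℂ | α < z.im} := isOpen_lt continuous_const continuous_im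
    have a4 : IsOpen {z : ℂ | z.im < β} := isOpen_lt continuous_im continuous_const
    exact a1.inter (a2.inter (a3.inter a4))
  have hw₀O : w₀ ∈ O := by
    refine ⟨⟨hw1, by linarith, by linarith, by linarith⟩, ?_⟩
    rintro ⟨t, ht⟩
    have := (hσ1' t).1
    rw [ht] at this
    exact lt_irrefl _ this
  set U : Set ℂ := connectedComponentIn O w₀ with hU
  have hUo : IsOpen U := hOo.connectedComponentIn
  have hUc : IsConnected U := isConnected_connectedComponentIn_iff.2 hw₀O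
  have hUO : U ⊆ O := connectedComponentIn_subset O w₀
  have hw₀U : w₀ ∈ U := mem_connectedComponentIn hw₀O
  have hclos : ∀ z ∈ closure U, -1 ≤ z.re ∧ z.re ≤ -(ρ / 2) ∧ α ≤ z.im ∧ z.im ≤ β := by
    intro z hz
    have hcl : IsClosed {z : ℂ | -1 ≤ z.re ∧ z.re ≤ -(ρ / 2) ∧ α ≤ z.im ∧ z.im ≤ β} := by
      have a1 : IsClosed {z : ℂ | -1 ≤ z.re} := isClosed_le continuous_const continuous_re
      have a2 : IsClosed {z : ℂ | z.re ≤ -(ρ / 2)} := isClosed_le continuous_re continuous_const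
      have a3 : IsClosed {z : ℂ | α ≤ z.im} := isClosed_le continuous_const continuous_im
      have a4 : IsClosed {z : ℂ | z.im ≤ β} := isClosed_le continuous_im continuous_const
      exact a1.inter (a2.inter (a3.inter a4))
    refine closure_minimal ?_ hcl hz
    intro x hx
    obtain ⟨⟨x1, x2, x3, x4⟩, -⟩ := hUO hx
    exact ⟨x1.le, x2.le, x3.le, x4.le⟩
  have hfront : ∀ z ∈ frontier U, ‖H z‖ ≤ B₀ := by
    intro z hz
    have hzc : z ∈ closure U := frontier_subset_closure hz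
    have hzU : z ∉ U := by
      rw [hUo.frontier_eq] at hz
      exact hz.2
    obtain ⟨z1, z2, z3, z4⟩ := hclos z hzc
    have hzO : z ∉ O := by
      intro hzO
      obtain ⟨ε, hε, hball⟩ := Metric.isOpen_iff.1 hOo z hzO
      obtain ⟨u, hu, hzu⟩ := Metric.mem_closure_iff.1 hzc ε hε
      have hpre : IsPreconnected (U ∪ ball z ε) := by
        refine IsPreconnected.union u hu ?_ hUc.isPreconnected
          (convex_ball z ε).isPreconnected
        rw [mem_ball, dist_comm]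
        exact hzu
      have hsub := hpre.subset_connectedComponentIn (x := w₀) (F := O) (Or.inl hw₀U)
        (union_subset hUO hball)
      exact hzU (hsub (Or.inr (mem_ball_self hε)))
    by_cases hzS : z ∈ range σ
    · obtain ⟨t, rfl⟩ := hzS
      refine (hHle _ (hσ1 t).2.1).trans ((hσ1 t).2.2.2.2.trans (le_max_right _ _))
    · have hzne := mp_topo hσ hρ0 hσ1' hσ0 hσ2 hw1 (by linarith) (by linarith) hUo hUc hw₀U
        (fun x hx => by
          obtain ⟨⟨x1, x2, x3, x4⟩, x5⟩ := hUO hx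
          exact ⟨x1, x2, x3, x4, x5⟩) hzc
      have hz2' : z.re < -(ρ / 2) := lt_of_le_of_ne z2 hzne
      have hKB : K ≤ B₀ := (le_max_left _ _).trans (le_max_left _ _)
      have hKB' : K * Real.exp K ≤ B₀ := (le_max_right _ _).trans (le_max_left _ _)
      rcases eq_or_lt_of_le z1 with e1 | l1
      · exact (hleft z e1.symm).trans hKB'
      rcases eq_or_lt_of_le z3 with e3 | l3
      · exact (hside z z1 (by linarith) (Or.inl e3.symm)).trans hKB
      rcases eq_or_lt_of_le z4 with e4 | l4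
      · exact (hside z z1 (by linarith) (Or.inr e4)).trans hKB
      exact absurd ⟨⟨l1, hz2', l3, l4⟩, hzS⟩ hzO
  have hbdd : Bornology.IsBounded U := by
    refine (Metric.isBounded_closedBall (x := (0 : ℂ)) (r := 1 + (|α| + |β|))).subset ?_
    intro z hz
    obtain ⟨⟨x1, x2, x3, x4⟩, -⟩ := hUO hz
    rw [mem_closedBall, dist_zero_right]
    refine (norm_le_abs_re_add_abs_im z).trans ?_
    have hre : |z.re| ≤ 1 := abs_le.2 ⟨x1.le, by linarith⟩
    have him : |z.im| ≤ |α| + |β| := by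
      apply abs_le.2
      have b1 := neg_abs_le α
      have b2 := le_abs_self β
      have b3 := abs_nonneg α
      have b4 := abs_nonneg β
      constructor <;> linarith
    linarith
  have hdc : DiffContOnCl ℂ H U := by
    apply DifferentiableOn.diffContOnCl
    refine hHd.mono fun z hz => ?_
    have := (hclos z hz).2.1
    show z.re < 0
    linarith
  have hfin := Complex.norm_le_of_forall_mem_frontier_norm_le hbdd hdc hfront
    (subset_closure hw₀U)
  rw [hHn] at hfin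
  have g1 := mp_G_le (α := α) (β := β) (a := α' - α) (b := β - β') hw2 (by linarith)
    (by linarith) (by linarith) (by linarith)
  have g2 := mul_le_mul_of_nonneg_left g1 hA0
  calc ‖F w₀‖ = (‖F w₀‖ * Real.exp (-(A * (mpG α β w₀).re))) *
        Real.exp (A * (mpG α β w₀).re) := by
        rw [mul_assoc, ← Real.exp_add, neg_add_cancel, Real.exp_zero, mul_one]
    _ ≤ B₀ * Real.exp (A * ((α' - α) ^ (-(3 / 4) : ℝ) + (β - β') ^ (-(3 / 4) : ℝ))) :=
        mul_le_mul hfin (Real.exp_le_exp.2 g2) (Real.exp_pos _).le hB₀0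

end Forcing
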