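import Pool.Agent.Lib.MP_c80ac4_an.Criterion
import Pool.Agent.Lib.MP_c80ac4_an.Grow
import Pool.Agent.Lib.MP_c80ac4_an.MaxP
import Pool.Agent.Lib.MP_c80ac4_an.Crossings

/-! # Curves: forcing iff there is no end point -/

namespace Forcing

open Complex Metric Set MeasureTheory Filter Topology

theorem not_sidonOn_singleton (ζ : ℂ) (hζ : ‖ζ‖ = 1) : ¬ SidonOn {ζ} := by
  intro h
  obtain ⟨N, C, hC⟩ := h 2 one_lt_two
  have hζ0 : ζ ≠ 0 := by
    intro h0
    rw [h0, norm_zero] at hζ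
    exact zero_ne_one hζ
  have hne : N + 1 ≠ 2 * (N + 1) := by omega
  have key := hC {N + 1, 2 * (N + 1)}
    (fun n => if n = N + 1 then (ζ ^ (N + 1))⁻¹ else -(ζ ^ (2 * (N + 1)))⁻¹) 0
    ⟨fun m hm => ?_, fun m hm n hn hmn => ?_⟩ le_rfl fun z hz => ?_
  · rw [Finset.sum_pair hne, mul_zero, if_pos rfl, if_neg (Ne.symm hne), norm_neg, norm_inv,
      norm_inv, norm_pow, norm_pow, hζ] at key
    norm_num at key
  · simp only [Finset.coe_insert, Finset.coe_singleton, mem_insert_iff, mem_singleton_iff] at hm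
    omega
  · simp only [Finset.coe_insert, Finset.coe_singleton, mem_insert_iff, mem_singleton_iff] at hm hn
    have h1 : m = N + 1 := by omega
    have h2 : n = 2 * (N + 1) := by omega
    subst h1 h2
    push_cast
    exact le_rfl
  · rw [mem_singleton_iff] at hz
    subst hz
    rw [Finset.sum_pair hne, if_pos rfl, if_neg (Ne.symm hne), neg_mul,
      inv_mul_cancel₀ (pow_ne_zero _ hζ0), inv_mul_cancel₀ (pow_ne_zero _ hζ0)]
    simp

/-- **Curves.** A curve in the disc tending to the unit circle is forcing if and only if it does not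
tend to a point. -/
theorem curve_forcing_iff {γ : ℝ → ℂ} (hγ : ContinuousOn γ (Ico 0 1))
    (hin : ∀ t ∈ Ico (0 : ℝ) 1, ‖γ t‖ < 1)
    (hlim : Tendsto (fun t => ‖γ t‖) (𝓝[<] 1) (𝓝 1)) :
    IsForcing (γ '' Ico 0 1) ↔ ¬ ∃ ζ : ℂ, Tendsto γ (𝓝[<] 1) (𝓝 ζ) := by
  have hS : γ '' Ico 0 1 ⊆ ball 0 1 := by
    rintro _ ⟨t, ht, rfl⟩
    exact mem_ball_zero_iff.2 (hin t ht)
  constructor
  · rintro hF ⟨ζ, hζ⟩
    have hζ1 : ‖ζ‖ = 1 := tendsto_nhds_unique hζ.norm hlim
    refine not_sidonOn_singleton ζ hζ1 ((sidonOn_of_forcing hS hF).mono ?_)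
    rintro z ⟨hz1, hz2⟩
    rw [mem_sphere_zero_iff_norm] at hz2
    rw [mem_singleton_iff]
    by_contra hne
    have hd : 0 < dist z ζ / 2 := by
      have := dist_pos.2 hne
      linarith
    have h1 : ∀ᶠ t in 𝓝[<] (1 : ℝ), dist (γ t) ζ < dist z ζ / 2 := hζ.eventually (ball_mem_nhds ζ hd)
    obtain ⟨a, ha, h2⟩ := mem_nhdsLT_iff_exists_Ioo_subset.1 h1
    rw [mem_Iio] at ha
    have hsub : γ '' Ico 0 1 ⊆ γ '' Icc 0 (max a 0) ∪ closedBall ζ (dist z ζ / 2) := by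
      rintro _ ⟨t, ht, rfl⟩
      by_cases hta : t ≤ max a 0
      · exact Or.inl ⟨t, ⟨ht.1, hta⟩, rfl⟩
      · rw [not_le] at hta
        exact Or.inr (mem_closedBall.2 (le_of_lt (h2 ⟨(le_max_left _ _).trans_lt hta, ht.2⟩)))
    have hmax : max a 0 < 1 := max_lt ha one_pos
    have hcl : IsClosed (γ '' Icc 0 (max a 0) ∪ closedBall ζ (dist z ζ / 2)) := by
      refine IsClosed.union (IsCompact.isClosed ?_) isClosed_closedBall
      exact isCompact_Icc.image_of_continuousOn (hγ.mono fun t ht => ⟨ht.1, ht.2.trans_lt hmax⟩)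
    rcases closure_minimal hsub hcl hz1 with h3 | h3
    · obtain ⟨t, ht, rfl⟩ := h3
      have := hin t ⟨ht.1, ht.2.trans_lt hmax⟩
      linarith
    · rw [mem_closedBall] at h3
      linarith [dist_pos.2 hne]
  · intro hno c hq hc hb
    obtain ⟨q, hq, hL⟩ := hq
    obtain ⟨M, hM⟩ := hb
    have h0 : (0 : ℝ) ∈ Ico (0 : ℝ) 1 := ⟨le_rfl, one_pos⟩
    -- growth
    have hcircle : ∀ r : ℝ, ‖γ 0‖ ≤ r → r < 1 → ∃ z : ℂ, ‖z‖ = r ∧ ‖ps c z‖ ≤ M := by
      intro r hr hr1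
      have h1 : ∀ᶠ t in 𝓝[<] (1 : ℝ), r < ‖γ t‖ := hlim.eventually (lt_mem_nhds hr1)
      have h2 : ∀ᶠ t in 𝓝[<] (1 : ℝ), t ∈ Ioo (0 : ℝ) 1 := Ioo_mem_nhdsLT one_pos
      obtain ⟨b, hb1, hb2⟩ := (h1.and h2).exists
      have hsub : Icc 0 b ⊆ Ico (0 : ℝ) 1 := fun t ht => ⟨ht.1, ht.2.trans_lt hb2.2⟩
      obtain ⟨t, ht, htr⟩ := intermediate_value_Icc hb2.1.le (hγ.mono hsub).norm ⟨hr, hb1.le⟩
      exact ⟨γ t, htr, hM _ ⟨t, hsub ht, rfl⟩⟩
    obtain ⟨K, hK⟩ := growth_of_min_modulus hq hL hc (hin 0 h0) hcircle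
    obtain ⟨K', hK'⟩ := ps_growth hK
    have hdiff : DifferentiableOn ℂ (fun w => ps c (Complex.exp w)) {w : ℂ | w.re < 0} := by
      refine (ps_differentiableOn hc).comp Complex.differentiable_exp.differentiableOn fun w hw => ?_
      rw [mem_ball_zero_iff, Complex.norm_exp]
      exact Real.exp_lt_one_iff.2 hw
    obtain ⟨α, β, hαβ, hcr⟩ := exists_crossings hγ hin hlim hno
    obtain ⟨B, hB⟩ := strip_bound (M := M) (K := K') (α := α) (β := β) hdiff hK' (fun η hη => by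
      obtain ⟨σ, hσ, h1, h2, h3⟩ := hcr η hη
      refine ⟨σ, hσ, fun t => ⟨(h1 t).1, (h1 t).2.1, (h1 t).2.2.1, (h1 t).2.2.2.1, ?_⟩, h2, h3⟩
      exact hM _ (h1 t).2.2.2.2) (α' := α + (β - α) / 3) (β' := β - (β - α) / 3)
      (by linarith) (by linarith) (by linarith)
    obtain ⟨N, C, hC⟩ := sidonIneq_arc q ((β - α) / 3) hq (by linarith)
    have hC' := hC (α + (β - α) / 3) (β - (β - α) / 3) (by linarith)
    refine bdd_of_sum_bdd hc (sum_le_of_dilates (N := N) (C := C) (M := max B 0) hL hc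
      (le_max_right _ _) fun ρ hρ => ?_)
    obtain ⟨x, hx1, hx2⟩ : ∃ x : ℝ, max (-1) (Real.log (max ρ (1 / 2))) < x ∧ x < 0 := by
      refine exists_between (max_lt (by norm_num) ?_)
      exact Real.log_neg (lt_max_of_lt_right (by norm_num)) (max_lt hρ (by norm_num))
    have hx3 : -1 < x := (le_max_left _ _).trans_lt hx1
    have hx4 : ρ < Real.exp x := by
      have h1 : Real.log (max ρ (1 / 2)) < x := (le_max_right _ _).trans_lt hx1
      have h2 := (Real.log_lt_iff_lt_exp (lt_max_of_lt_right (by norm_num))).1 h1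
      exact (le_max_left _ _).trans_lt h2
    refine ⟨Real.exp x, hx4, Real.exp_lt_one_iff.2 hx2, _, fun z hz => ?_, hC', fun z hz => ?_⟩
    · obtain ⟨t, -, rfl⟩ := hz
      rw [Complex.norm_exp_ofReal_mul_I]
    · obtain ⟨t, ht, rfl⟩ := hz
      have h1 := hB (x + t * Complex.I) (by simpa using hx3) (by simpa using hx2)
        (by simpa using ht.1) (by simpa using ht.2)
      have h2 : Complex.exp (x + t * Complex.I) = (Real.exp x : ℂ) * Complex.exp (t * Complex.I) := by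
        rw [Complex.exp_add, Complex.ofReal_exp]
      rw [h2] at h1
      exact h1.trans (le_max_left _ _)

end Forcing
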