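import Pool.Agent.Lib.MP_c80ac4_an.RieszB

/-!
# Sidon type inequality relative to a measure with power decay of the Fourier coefficients
-/

namespace Forcing.RZ

open MeasureTheory Finset Filter Topology

set_option linter.unusedSectionVars false

/-- the residue class of the scale of `n` -/
noncomputable def cls (q : ℝ) (L : ℕ) (n : ℕ) : ℕ := ⌊Real.log n / Real.log q⌋₊ % L

lemma cls_gap {q Q : ℝ} (hq : 1 < q) {L : ℕ} (hL : Q ≤ q ^ L) {m n : ℕ} (hm : 1 ≤ m)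
    (hmn : q * m ≤ n) (hc : cls q (L + 1) m = cls q (L + 1) n) : Q * m ≤ n := by
  have hlq : 0 < Real.log q := Real.log_pos hq
  have hm0 : (0 : ℝ) < m := by exact_mod_cast hm
  have hn0 : (0 : ℝ) < n := lt_of_lt_of_le (by positivity) hmn
  set u := Real.log m / Real.log q with hu
  set v := Real.log n / Real.log q with hv
  have hu0 : 0 ≤ u := div_nonneg (Real.log_nonneg (by exact_mod_cast hm)) hlq.le
  have huv : u + 1 ≤ v := by
    rw [hu, hv, div_add_one hlq.ne']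
    gcongr
    rw [← Real.log_mul hm0.ne' (by linarith), mul_comm]
    exact Real.log_le_log (by positivity) hmn
  have h1 : ⌊u⌋₊ + 1 ≤ ⌊v⌋₊ := by
    have := Nat.floor_le_floor huv
    rwa [Nat.floor_add_one hu0] at this
  have h2 : ⌊u⌋₊ + (L + 1) ≤ ⌊v⌋₊ := by
    have h3 : ⌊u⌋₊ % (L + 1) = ⌊v⌋₊ % (L + 1) := hc
    have h4 : (L + 1) ∣ ⌊v⌋₊ - ⌊u⌋₊ := (Nat.modEq_iff_dvd' (by omega)).mp h3
    have h5 := Nat.le_of_dvd (by omega) h4
    omega
  have h3 : u + L ≤ v := by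
    have h4 := Nat.lt_floor_add_one u
    have h5 := Nat.floor_le (hu0.trans (by linarith : u ≤ v))
    have h6 : ((⌊u⌋₊ + (L + 1) : ℕ) : ℝ) ≤ (⌊v⌋₊ : ℝ) := by exact_mod_cast h2
    push_cast at h6
    linarith
  have h4 : Real.log m + L * Real.log q ≤ Real.log n := by
    have h5 : (u + L) * Real.log q ≤ v * Real.log q := by gcongr
    rw [add_mul, hu, hv, div_mul_cancel₀ _ hlq.ne', div_mul_cancel₀ _ hlq.ne'] at h5
    exact h5
  have h5 : (m : ℝ) * q ^ L ≤ n := by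
    rw [← Real.log_le_log_iff (by positivity) hn0, Real.log_mul hm0.ne' (by positivity),
      Real.log_pow]
    exact h4
  calc Q * m ≤ q ^ L * m := by gcongr
    _ = m * q ^ L := mul_comm _ _
    _ ≤ n := h5

lemma sep {q : ℝ} (hq : 1 < q) {m n : ℕ} (h1 : m < n → q * m ≤ n) (h2 : n < m → q * n ≤ m)
    (hne : n ≠ m) : (1 - 1 / q) * n ≤ |(m : ℝ) - n| := by
  have hq0 : 0 < q := by linarith
  have hn : (0 : ℝ) ≤ n := Nat.cast_nonneg n
  rcases lt_or_gt_of_ne hne with h | h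
  · have h3 := h2 h
    have h4 : (n : ℝ) < m := by exact_mod_cast h
    rw [abs_of_pos (by linarith)]
    have h5 : 1 - 1 / q ≤ q - 1 := by
      rw [← sub_nonneg]
      have : q - 1 - (1 - 1 / q) = (q - 1) ^ 2 / q := by
        field_simp
        try ring
      rw [this]
      positivity
    calc (1 - 1 / q) * n ≤ (q - 1) * n := by gcongr
      _ ≤ m - n := by linarith
  · have h3 := h1 h
    have h4 : (m : ℝ) < n := by exact_mod_cast h
    rw [abs_of_neg (by linarith)]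
    have h5 : (m : ℝ) ≤ n / q := by
      rw [le_div_iff₀ hq0]
      linarith
    have h6 : (1 - 1 / q) * n = n - n / q := by ring
    rw [h6]
    linarith

section
variable {μ : Measure ℂ} [IsProbabilityMeasure μ]

lemma int_rp_norm (hμ : ∀ᵐ z ∂μ, ‖z‖ = 1) {ε : ℕ → ℂ} (hε : ∀ n, ‖ε n‖ ≤ 1) (A : Finset ℕ) :
    ∫ z, ‖rp ε A z‖ ∂μ = ‖rI μ ε A 0‖ := by
  have h1 : rI μ ε A 0 = ((∫ z, ‖rp ε A z‖ ∂μ : ℝ) : ℂ) := by
    unfold rI
    rw [← integral_complex_ofReal]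
    refine integral_congr_ae ?_
    filter_upwards [hμ] with z hz
    obtain ⟨t, ht0, ht⟩ := rp_nonneg hε A hz
    simp [ht, abs_of_nonneg ht0]
  rw [h1, Complex.norm_real, Real.norm_of_nonneg (integral_nonneg fun z => norm_nonneg _)]

lemma expand (hμ : ∀ᵐ z ∂μ, ‖z‖ = 1) {ε : ℕ → ℂ} (hε : ∀ n, ‖ε n‖ ≤ 1) (A : Finset ℕ)
    {b : ℕ → ℂ} (hb : Summable fun n => ‖b n‖) :
    HasSum (fun n => b n * rI μ ε A n) (∫ z, (∑' n, b n * z ^ n) * rp ε A z ∂μ) := by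
  have h1 : ∀ n : ℕ, Integrable (fun z => b n * (z ^ (n : ℤ) * rp ε A z)) μ :=
    fun n => (int_rp hμ hε A n).const_mul _
  have h2 : Summable fun n => ∫ z, ‖b n * (z ^ (n : ℤ) * rp ε A z)‖ ∂μ := by
    refine Summable.of_nonneg_of_le (fun n => integral_nonneg fun z => norm_nonneg _)
      (fun n => ?_) (hb.mul_right (2 ^ A.card))
    calc ∫ z, ‖b n * (z ^ (n : ℤ) * rp ε A z)‖ ∂μ ≤ ∫ _z, ‖b n‖ * 2 ^ A.card ∂μ := by
          refine integral_mono_ae (h1 n).norm (integrable_const _) ?_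
          filter_upwards [hμ] with z hz
          rw [norm_mul, norm_mul, norm_zpow, hz, one_zpow, one_mul]
          exact mul_le_mul_of_nonneg_left (norm_rp_le hε A hz) (norm_nonneg _)
      _ = ‖b n‖ * 2 ^ A.card := by simp
  have h3 := hasSum_integral_of_summable_integral_norm h1 h2
  have e1 : (fun n : ℕ => b n * rI μ ε A n) =
      fun n : ℕ => ∫ z, b n * (z ^ (n : ℤ) * rp ε A z) ∂μ := by
    ext n
    rw [integral_const_mul]
    rfl
  have e2 : ∫ z, (∑' n, b n * z ^ n) * rp ε A z ∂μ =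
      ∫ z, ∑' n : ℕ, b n * (z ^ (n : ℤ) * rp ε A z) ∂μ := by
    refine integral_congr_ae ?_
    filter_upwards [hμ] with z hz
    rw [← tsum_mul_right]
    refine tsum_congr fun n => ?_
    rw [zpow_natCast]
    ring
  rw [e1, e2]
  exact h3

lemma class_bound {Q α C c κ : ℝ} {N : ℕ} (h : Par Q α C c κ N) {q : ℝ} (hq : 1 < q)
    (hcq : 2 * c = 1 - 1 / q) (hμ : ∀ᵐ z ∂μ, ‖z‖ = 1) (hd : Dec μ C α)
    {b : ℕ → ℂ} (hg : Lac q b) (hN : ∀ n, b n ≠ 0 → N ≤ n) (hb : Summable fun n => ‖b n‖)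
    {B : ℝ} (hB : ∀ᵐ z ∂μ, ‖∑' n, b n * z ^ n‖ ≤ B) (A : Finset ℕ)
    (hAb : ∀ n ∈ A, b n ≠ 0) (hA : ∀ m ∈ A, ∀ n ∈ A, m < n → Q * m ≤ n) :
    1 / 2 * ∑ n ∈ A, ‖b n‖ ≤ B * (1 + 2 * κ) + 5 * κ * ∑' n, ‖b n‖ := by
  have hκ := h.κ0
  have hB0 : 0 ≤ B := by
    obtain ⟨z, hz⟩ := hB.exists
    exact (norm_nonneg _).trans hz
  set ε : ℕ → ℂ := fun n => (starRingEnd ℂ) (b n) / ‖b n‖ with hεd
  have hε : ∀ n, ‖ε n‖ ≤ 1 := by
    intro n
    rw [hεd]
    simp only [norm_div, RCLike.norm_conj, Complex.norm_real, norm_norm]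
    exact div_self_le_one _
  have hbε : ∀ n, b n ≠ 0 → b n * (ε n / 2) = ((‖b n‖ / 2 : ℝ) : ℂ) := by
    intro n hn
    have h0 : (‖b n‖ : ℂ) ≠ 0 := by exact_mod_cast (norm_ne_zero_iff.mpr hn)
    have h1 : b n * (starRingEnd ℂ) (b n) = (‖b n‖ : ℂ) ^ 2 := by
      rw [Complex.mul_conj, Complex.normSq_eq_norm_sq]; push_cast; rfl
    rw [hεd]
    push_cast
    have h2 : b n * ((starRingEnd ℂ) (b n) / (‖b n‖ : ℂ) / 2) =
      (b n * (starRingEnd ℂ) (b n)) / (‖b n‖ : ℂ) / 2 := by ring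
    show b n * ((starRingEnd ℂ) (b n) / (‖b n‖ : ℂ) / 2) = _
    rw [h2, h1]
    field_simp
  have hNA : ∀ m ∈ A, N ≤ m := fun m hm => hN m (hAb m hm)
  have h1 := expand hμ hε A hb
  -- the main part
  have h2 : HasSum (fun n => b n * (if n ∈ A then ε n / 2 else 0))
      (∑ n ∈ A, ((‖b n‖ / 2 : ℝ) : ℂ)) := by
    have h3 : HasSum (fun n => b n * (if n ∈ A then ε n / 2 else 0))
        (∑ n ∈ A, b n * (if n ∈ A then ε n / 2 else 0)) :=
      hasSum_sum_of_ne_finset_zero (fun n hn => by simp [hn])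
    have h4 : ∑ n ∈ A, b n * (if n ∈ A then ε n / 2 else 0) =
        ∑ n ∈ A, ((‖b n‖ / 2 : ℝ) : ℂ) := by
      refine Finset.sum_congr rfl fun n hn => ?_
      rw [if_pos hn, hbε n (hAb n hn)]
    rwa [h4] at h3
  have h3 : ∀ n, ‖b n * rI μ ε A n - b n * (if n ∈ A then ε n / 2 else 0)‖ ≤
      5 * κ * ‖b n‖ := by
    intro n
    by_cases hn : b n = 0
    · simp [hn]
    · rw [← mul_sub, norm_mul, mul_comm]
      refine mul_le_mul_of_nonneg_right ?_ (norm_nonneg _)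
      have h4 := rI_main hμ hd h hε (hN n hn) A hA hNA (fun k hk hne => by
        rw [hcq]
        exact sep hq (fun hlt => hg.2 n k hlt hn (hAb k hk))
          (fun hlt => hg.2 k n hlt (hAb k hk) hn) hne)
      refine h4.trans ?_
      have h5 : (0 : ℝ) ≤ 2 / 2 ^ A.card := by positivity
      nlinarith
  have h4 := h1.sub h2
  have h5 : ‖(∫ z, (∑' n, b n * z ^ n) * rp ε A z ∂μ) - ∑ n ∈ A, ((‖b n‖ / 2 : ℝ) : ℂ)‖ ≤
      5 * κ * ∑' n, ‖b n‖ := by
    rw [← h4.tsum_eq, ← tsum_mul_left]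
    exact tsum_of_norm_bounded (hb.mul_left _).hasSum h3
  have h6 : ‖∫ z, (∑' n, b n * z ^ n) * rp ε A z ∂μ‖ ≤ B * (1 + 2 * κ) := by
    calc ‖∫ z, (∑' n, b n * z ^ n) * rp ε A z ∂μ‖ ≤ ∫ z, B * ‖rp ε A z‖ ∂μ := by
          refine norm_integral_le_of_norm_le ?_ ?_
          · have h7 := (int_rp hμ hε A 0).norm.const_mul B
            simpa using h7
          · filter_upwards [hB] with z hz
            rw [norm_mul]
            exact mul_le_mul_of_nonneg_right hz (norm_nonneg _)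
      _ = B * ‖rI μ ε A 0‖ := by rw [integral_const_mul, int_rp_norm hμ hε]
      _ ≤ B * (1 + 2 * κ) := by
          gcongr
          have h8 := rI_zero hμ hd h hε A hA hNA
          have h9 : ‖rI μ ε A 0‖ ≤ 1 + ‖rI μ ε A 0 - 1‖ := by
            calc ‖rI μ ε A 0‖ = ‖1 + (rI μ ε A 0 - 1)‖ := by congr 1; ring
              _ ≤ ‖(1 : ℂ)‖ + ‖rI μ ε A 0 - 1‖ := norm_add_le _ _
              _ = _ := by rw [norm_one]
          have h10 : (0 : ℝ) ≤ 2 / 2 ^ A.card := by positivity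
          nlinarith
  have h7 : 1 / 2 * ∑ n ∈ A, ‖b n‖ = ‖∑ n ∈ A, ((‖b n‖ / 2 : ℝ) : ℂ)‖ := by
    rw [← Complex.ofReal_sum, Complex.norm_real, Real.norm_of_nonneg
      (Finset.sum_nonneg fun n _ => by positivity), Finset.mul_sum]
    refine Finset.sum_congr rfl fun n _ => by ring
  rw [h7]
  calc ‖∑ n ∈ A, ((‖b n‖ / 2 : ℝ) : ℂ)‖ =
      ‖(∫ z, (∑' n, b n * z ^ n) * rp ε A z ∂μ) - ((∫ z, (∑' n, b n * z ^ n) * rp ε A z ∂μ) -
        ∑ n ∈ A, ((‖b n‖ / 2 : ℝ) : ℂ))‖ := by congr 1; ring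
    _ ≤ _ := (norm_sub_le _ _).trans (add_le_add h6 h5)

end

theorem key {q : ℝ} (hq : 1 < q) {α C : ℝ} (hα : 0 < α) (hC : 0 ≤ C) :
    ∃ (N : ℕ) (K : ℝ), 0 ≤ K ∧ ∀ (μ : Measure ℂ) [IsProbabilityMeasure μ],
      (∀ᵐ z ∂μ, ‖z‖ = 1) → Dec μ C α → ∀ b : ℕ → ℂ, Lac q b → (∀ n, b n ≠ 0 → N ≤ n) →
      (Summable fun n => ‖b n‖) → ∀ B : ℝ, (∀ᵐ z ∂μ, ‖∑' n, b n * z ^ n‖ ≤ B) →
      ∑' n, ‖b n‖ ≤ K * B := by
  have hq0 : 0 < q := by linarith
  set c : ℝ := (1 - 1 / q) / 2 with hc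
  have hcq : 2 * c = 1 - 1 / q := by rw [hc]; ring
  have hc0 : 0 < c := by
    have : 1 / q < 1 := by rw [div_lt_one hq0]; exact hq
    rw [hc]; linarith
  have hc1 : 2 * c ≤ 1 := by
    rw [hcq]
    have : 0 < 1 / q := by positivity
    linarith
  set Q : ℝ := (1 + 1 / c) + 4 ^ (1 / α) with hQ
  have h4 : (0 : ℝ) < 4 ^ (1 / α) := by positivity
  have hQ1 : 1 < Q := by
    have : 0 < 1 / c := by positivity
    rw [hQ]; linarith
  have hQα : 4 ≤ Q ^ α := by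
    calc (4 : ℝ) = (4 ^ (1 / α)) ^ α := by
          rw [← Real.rpow_mul (by norm_num), one_div, inv_mul_cancel₀ hα.ne', Real.rpow_one]
      _ ≤ Q ^ α := by
          have : 0 < 1 / c := by positivity
          apply Real.rpow_le_rpow h4.le _ hα.le
          rw [hQ]; linarith
  have hQc : 1 / (Q - 1) ≤ c := by
    rw [div_le_iff₀ (by linarith)]
    have h5 : 1 / c ≤ Q - 1 := by rw [hQ]; linarith
    calc (1 : ℝ) = c * (1 / c) := by field_simp
      _ ≤ c * (Q - 1) := by gcongr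
  obtain ⟨L, hL⟩ := pow_unbounded_of_one_lt Q hq
  set κ : ℝ := 1 / (20 * (L + 1)) with hκd
  have hκ0 : 0 < κ := by positivity
  have hκ1 : κ ≤ 1 / 2 := by
    rw [hκd]
    rw [div_le_div_iff₀ (by positivity) (by norm_num)]
    have : (0 : ℝ) ≤ L := Nat.cast_nonneg L
    linarith
  obtain ⟨N, hN1, hN⟩ : ∃ N : ℕ, 1 ≤ N ∧ C * (c * N) ^ (-α) ≤ κ := by
    have h5 : Tendsto (fun n : ℕ => C * (c * (n : ℝ)) ^ (-α)) atTop (𝓝 (C * 0)) := by
      refine Tendsto.const_mul _ ?_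
      exact (tendsto_rpow_neg_atTop hα).comp
        (tendsto_natCast_atTop_atTop.const_mul_atTop hc0)
    rw [mul_zero] at h5
    have h6 := h5.eventually (gt_mem_nhds hκ0)
    obtain ⟨N, hN⟩ := (h6.and (eventually_ge_atTop 1)).exists
    exact ⟨N, hN.2, hN.1.le⟩
  have hpar : Par Q α C c κ N := ⟨hQ1, hQα, hα, hC, hc0, hc1, hQc, hN1, hN⟩
  refine ⟨N, 8 * (L + 1), by positivity, ?_⟩
  intro μ _ hμ hd b hg hNb hb B hB
  have hB0 : 0 ≤ B := by
    obtain ⟨z, hz⟩ := hB.exists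
    exact (norm_nonneg _).trans hz
  set S := ∑' n, ‖b n‖ with hS
  have hS0 : 0 ≤ S := tsum_nonneg fun n => norm_nonneg _
  have hM : ∀ M : ℕ, 1 / 2 * ∑ n ∈ range M, ‖b n‖ ≤ (L + 1) * (B * (1 + 2 * κ) + 5 * κ * S) := by
    intro M
    set T := (range M).filter (fun n => b n ≠ 0) with hT
    have h1 : ∑ n ∈ range M, ‖b n‖ = ∑ n ∈ T, ‖b n‖ := by
      rw [hT, Finset.sum_filter]
      refine Finset.sum_congr rfl fun n _ => ?_
      by_cases h : b n = 0 <;> simp [h]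
    have h2 : ∑ n ∈ T, ‖b n‖ = ∑ r ∈ range (L + 1), ∑ n ∈ T.filter (fun n => cls q (L + 1) n = r),
        ‖b n‖ := by
      rw [Finset.sum_fiberwise_of_maps_to]
      intro n _
      rw [Finset.mem_range]
      exact Nat.mod_lt _ (Nat.succ_pos L)
    have h3 : ∀ r ∈ range (L + 1), 1 / 2 * ∑ n ∈ T.filter (fun n => cls q (L + 1) n = r), ‖b n‖ ≤
        B * (1 + 2 * κ) + 5 * κ * S := by
      intro r _
      refine class_bound hpar hq hcq hμ hd hg hNb hb hB _ ?_ ?_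
      · intro n hn
        exact (Finset.mem_filter.mp (Finset.mem_filter.mp hn).1).2
      · intro m hm n hn hmn
        have hm1 := Finset.mem_filter.mp hm
        have hn1 := Finset.mem_filter.mp hn
        have hbm := (Finset.mem_filter.mp hm1.1).2
        have hbn := (Finset.mem_filter.mp hn1.1).2
        exact cls_gap hq hL.le (hN1.trans (hNb m hbm)) (hg.2 m n hmn hbm hbn)
          (hm1.2.trans hn1.2.symm)
    rw [h1, h2, Finset.mul_sum]
    refine (Finset.sum_le_sum h3).trans ?_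
    rw [Finset.sum_const, Finset.card_range, nsmul_eq_mul]
    push_cast
    exact le_rfl
  have hlim : 1 / 2 * S ≤ (L + 1) * (B * (1 + 2 * κ) + 5 * κ * S) := by
    have h1 : Tendsto (fun M => 1 / 2 * ∑ n ∈ range M, ‖b n‖) atTop (𝓝 (1 / 2 * S)) :=
      (hb.hasSum.tendsto_sum_nat).const_mul _
    exact le_of_tendsto' h1 hM
  have h5 : (L + 1) * (5 * κ * S) = S / 4 := by
    rw [hκd]
    field_simp
    ring
  have h6 : (L + 1 : ℝ) * (B * (1 + 2 * κ)) ≤ (L + 1) * (B * 2) := by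
    gcongr
    linarith
  nlinarith

end Forcing.RZ
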