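import Mathlib

/-! # Definitions for MP_c80ac4_an (forcing sets for power series with Hadamard gaps) -/

namespace Forcing

open Complex Metric Set MeasureTheory Filter Topology

/-- `c` is the coefficient sequence of a power series without constant term whose nonzero
coefficients sit at places with Hadamard gaps of ratio `q`. -/
def Lac (q : ℝ) (c : ℕ → ℂ) : Prop :=
  c 0 = 0 ∧ ∀ m n : ℕ, m < n → c m ≠ 0 → c n ≠ 0 → q * m ≤ n

/-- The sum of the power series with coefficients `c`. -/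
noncomputable def ps (c : ℕ → ℂ) (z : ℂ) : ℂ := ∑' n, c n * z ^ n

/-- The power series converges in the open unit disc. -/
def Conv (c : ℕ → ℂ) : Prop := ∀ z : ℂ, ‖z‖ < 1 → Summable fun n => c n * z ^ n

/-- The sum of the power series is bounded on `S`. -/
def BddOnSet (c : ℕ → ℂ) (S : Set ℂ) : Prop := ∃ M : ℝ, ∀ z ∈ S, ‖ps c z‖ ≤ M

/-- A subset of the unit disc is forcing if every function analytic in the disc with Hadamard gaps
that is bounded on the set is bounded in the disc. -/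
def IsForcing (S : Set ℂ) : Prop :=
  ∀ c : ℕ → ℂ, (∃ q : ℝ, 1 < q ∧ Lac q c) → Conv c → BddOnSet c S → BddOnSet c (ball 0 1)

/-- A set of positive integers `≥ N` with gaps of ratio `q`. -/
def LacSet (q : ℝ) (N : ℕ) (L : Set ℕ) : Prop :=
  (∀ m ∈ L, 0 < m ∧ N ≤ m) ∧ ∀ m ∈ L, ∀ n ∈ L, m < n → q * m ≤ n

/-- The Sidon inequality with constant `C` on the set `E` for all polynomials with
`q`-lacunary frequencies `≥ N`. -/
def SidonIneq (q : ℝ) (N : ℕ) (C : ℝ) (E : Set ℂ) : Prop :=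
  ∀ (s : Finset ℕ) (c : ℕ → ℂ) (M : ℝ), LacSet q N (s : Set ℕ) → 0 ≤ M →
    (∀ z ∈ E, ‖∑ n ∈ s, c n * z ^ n‖ ≤ M) → ∑ n ∈ s, ‖c n‖ ≤ C * M

/-- For every ratio `q > 1` the set `E` satisfies a Sidon inequality for all `q`-lacunary
frequencies beyond some `N`. -/
def SidonOn (E : Set ℂ) : Prop := ∀ q : ℝ, 1 < q → ∃ (N : ℕ) (C : ℝ), SidonIneq q N C E

theorem SidonIneq.mono {q : ℝ} {N : ℕ} {C : ℝ} {E F : Set ℂ} (h : SidonIneq q N C E)
    (hEF : E ⊆ F) : SidonIneq q N C F :=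
  fun s c M hs hM hb => h s c M hs hM fun z hz => hb z (hEF hz)

theorem SidonOn.mono {E F : Set ℂ} (h : SidonOn E) (hEF : E ⊆ F) : SidonOn F := fun q hq => by
  obtain ⟨N, C, h1⟩ := h q hq
  exact ⟨N, C, h1.mono hEF⟩

/-- A Sidon inequality passes to larger constants. -/
theorem SidonIneq.mono_const {q : ℝ} {N : ℕ} {C C' : ℝ} {E : Set ℂ} (h : SidonIneq q N C E)
    (hC : C ≤ C') : SidonIneq q N C' E :=
  fun s c M hs hM hb => (h s c M hs hM hb).trans (mul_le_mul_of_nonneg_right hC hM)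

theorem LacSet.mono {q : ℝ} {N N' : ℕ} {L L' : Set ℕ} (h : LacSet q N L) (hN : N' ≤ N)
    (hL : L' ⊆ L) : LacSet q N' L' :=
  ⟨fun m hm => ⟨(h.1 m (hL hm)).1, hN.trans (h.1 m (hL hm)).2⟩,
    fun m hm n hn => h.2 m (hL hm) n (hL hn)⟩

theorem SidonIneq.mono_N {q : ℝ} {N N' : ℕ} {C : ℝ} {E : Set ℂ} (h : SidonIneq q N C E)
    (hN : N ≤ N') : SidonIneq q N' C E :=
  fun s c M hs hM hb => h s c M (hs.mono hN le_rfl) hM hb

end Forcing
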