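import Pool.Agent.Lib.MP_c80ac4_an.Core

/-! # Gluing polynomials into an unbounded gap series -/

namespace Forcing

open Complex Metric Set MeasureTheory Filter Topology

/-- The polynomial with coefficients `a` on the finite set `s`. -/
noncomputable def pol (s : Finset ℕ) (a : ℕ → ℂ) (z : ℂ) : ℂ := ∑ n ∈ s, a n * z ^ n

/-- **Gluing.** Blocks `s j` of frequencies inside `[K j, K (j+1))`. -/
theorem not_forcing_of_blocks {S : Set ℂ} (hS : S ⊆ ball 0 1) {q : ℝ} (hq : 1 < q)
    (K : ℕ → ℕ) (hK : StrictMono K) (s : ℕ → Finset ℕ) (a : ℕ → ℕ → ℂ)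
    (hs1 : ∀ j, ∀ n ∈ s j, K j ≤ n ∧ n < K (j + 1)) (hs2 : ∀ j, ∀ n ∈ s j, q * n ≤ K (j + 1))
    (hs3 : ∀ j, LacSet q 0 (s j : Set ℕ)) (ha1 : ∀ j, ∀ n ∈ s j, ‖a j n‖ ≤ 1)
    (ha2 : ∀ j, 1 / 2 ≤ ∑ n ∈ s j, ‖a j n‖) {B : ℝ}
    (hB : ∀ z ∈ S, ∀ J : ℕ, ∑ j ∈ Finset.range J, ‖pol (s j) (a j) z‖ ≤ B) : ¬ IsForcing S := by
  classical
  intro hF
  have hmono : ∀ {i j : ℕ}, i ≤ j → K i ≤ K j := fun h => hK.monotone h
  have hKj : ∀ j, j ≤ K j := fun j => hK.le_apply
  -- uniqueness of the block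
  have huniq : ∀ i j n, n ∈ s i → n ∈ s j → i = j := by
    intro i j n hi hj
    by_contra hne
    rcases lt_or_gt_of_ne hne with h | h
    · have := (hs1 i n hi).2.trans_le (hmono h)
      exact absurd (hs1 j n hj).1 (not_le.2 this)
    · have := (hs1 j n hj).2.trans_le (hmono h)
      exact absurd (hs1 i n hi).1 (not_le.2 this)
  set c : ℕ → ℂ := fun n => ∑ j ∈ Finset.range (n + 1), if n ∈ s j then a j n else 0 with hcdef
  have hc_mem : ∀ j n, n ∈ s j → c n = a j n := by
    intro j n hn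
    rw [hcdef]
    simp only
    rw [Finset.sum_eq_single j]
    · rw [if_pos hn]
    · intro i _ hij
      rw [if_neg]
      exact fun hi => hij (huniq i j n hi hn)
    · intro hj
      exfalso
      apply hj
      rw [Finset.mem_range]
      have := (hKj j).trans (hs1 j n hn).1
      omega
  have hc_not : ∀ n, (∀ j, n ∉ s j) → c n = 0 := by
    intro n hn
    rw [hcdef]
    exact Finset.sum_eq_zero fun j _ => if_neg (hn j)
  have hc_ex : ∀ n, c n ≠ 0 → ∃ j, n ∈ s j := by
    intro n hn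
    by_contra h
    push Not at h
    exact hn (hc_not n h)
  have hc1 : ∀ n, ‖c n‖ ≤ 1 := by
    intro n
    by_cases h : ∃ j, n ∈ s j
    · obtain ⟨j, hj⟩ := h
      rw [hc_mem j n hj]
      exact ha1 j n hj
    · push Not at h
      rw [hc_not n h, norm_zero]
      exact zero_le_one
  have hconv : Conv c := conv_of_bdd hc1
  have hlac : Lac q c := by
    refine ⟨?_, fun m n hmn hm hn => ?_⟩
    · apply hc_not
      intro j hj
      exact absurd ((hs3 j).1 0 hj).1 (lt_irrefl 0)
    · obtain ⟨i, hi⟩ := hc_ex m hm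
      obtain ⟨j, hj⟩ := hc_ex n hn
      rcases lt_trichotomy i j with h | h | h
      · have h1 := hs2 i m hi
        have h2 : K (i + 1) ≤ n := (hmono h).trans (hs1 j n hj).1
        have h3 : (K (i + 1) : ℝ) ≤ n := by exact_mod_cast h2
        linarith
      · subst h
        exact (hs3 i).2 m hi n hj hmn
      · exfalso
        have h1 := (hs1 j n hj).2.trans_le (hmono h)
        have h2 := (hs1 i m hi).1
        omega
  -- partial sums
  have hpart : ∀ J : ℕ, ∀ z : ℂ, ∑ n ∈ Finset.range (K J), c n * z ^ n =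
      ∑ j ∈ Finset.range J, pol (s j) (a j) z := by
    intro J z
    have h1 : ∀ j ∈ Finset.range J, pol (s j) (a j) z =
        ∑ n ∈ Finset.range (K J), (if n ∈ s j then a j n else 0) * z ^ n := by
      intro j hj
      rw [Finset.mem_range] at hj
      rw [pol]
      have h2 : s j ⊆ Finset.range (K J) := fun n hn =>
        Finset.mem_range.2 ((hs1 j n hn).2.trans_le (hmono hj))
      rw [← Finset.sum_subset h2]
      · exact Finset.sum_congr rfl fun n hn => by rw [if_pos hn]
      · intro n _ hn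
        rw [if_neg hn, zero_mul]
    rw [Finset.sum_congr rfl h1, Finset.sum_comm]
    refine Finset.sum_congr rfl fun n hn => ?_
    rw [Finset.mem_range] at hn
    rw [← Finset.sum_mul]
    congr 1
    by_cases h : ∃ j, n ∈ s j
    · obtain ⟨j, hj⟩ := h
      have hjJ : j < J := by
        by_contra hcon
        rw [not_lt] at hcon
        have := (hmono hcon).trans (hs1 j n hj).1
        omega
      rw [hc_mem j n hj, Finset.sum_eq_single j]
      · rw [if_pos hj]
      · intro i _ hij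
        rw [if_neg]
        exact fun hi => hij (huniq i j n hi hj)
      · intro h0
        exact absurd (Finset.mem_range.2 hjJ) h0
    · push Not at h
      rw [hc_not n h]
      exact (Finset.sum_eq_zero fun j _ => if_neg (h j)).symm
  have hbddS : BddOnSet c S := by
    refine ⟨B, fun z hz => ?_⟩
    have hz1 : ‖z‖ < 1 := mem_ball_zero_iff.1 (hS hz)
    have h1 : Tendsto (fun J => ∑ n ∈ Finset.range (K J), c n * z ^ n) atTop (𝓝 (ps c z)) :=
      (hconv z hz1).hasSum.tendsto_sum_nat.comp hK.tendsto_atTop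
    refine le_of_tendsto h1.norm (Eventually.of_forall fun J => ?_)
    rw [hpart]
    exact (norm_sum_le _ _).trans (hB z hz J)
  have hbdd := hF c ⟨q, hq, hlac⟩ hconv hbddS
  obtain ⟨T, hT⟩ := sum_bdd_of_bdd hq hlac hconv hbdd
  obtain ⟨R, hR⟩ := exists_nat_gt (2 * T)
  have h1 := hT ((Finset.range R).biUnion s)
  rw [Finset.sum_biUnion] at h1
  · have h2 : ∀ j ∈ Finset.range R, (1 / 2 : ℝ) ≤ ∑ n ∈ s j, ‖c n‖ := by
      intro j _
      refine (ha2 j).trans (le_of_eq (Finset.sum_congr rfl fun n hn => ?_))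
      rw [hc_mem j n hn]
    have h3 := Finset.card_nsmul_le_sum _ _ _ h2
    rw [Finset.card_range, nsmul_eq_mul] at h3
    linarith
  · intro i _ j _ hij
    exact Finset.disjoint_left.2 fun n hi hj => hij (huniq i j n hi hj)

/-- Polynomials with sparse high frequencies and coefficient sum about one that are small on the
part of `S` near the unit circle destroy forcing. -/
theorem not_forcing_of_small {S : Set ℂ} (hS : S ⊆ ball 0 1) {q : ℝ} (hq : 1 < q)
    (h : ∀ (N : ℕ) (η : ℝ), 0 < η → ∃ (s : Finset ℕ) (a : ℕ → ℂ), LacSet q N (s : Set ℕ) ∧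
      ∑ n ∈ s, ‖a n‖ ≤ 1 ∧ 1 / 2 ≤ ∑ n ∈ s, ‖a n‖ ∧
      ∃ ρ : ℝ, ρ < 1 ∧ ∀ z ∈ S, ρ < ‖z‖ → ‖pol s a z‖ ≤ η) : ¬ IsForcing S := by
  classical
  choose! s a hlac hsum1 hsum2 ρ hρ hsmall using h
  -- state: (K, r) = (next starting place, radius reached)
  -- for a state and a step index choose N
  have hN : ∀ (k : ℕ) (r : ℝ) (j : ℕ), ∃ N : ℕ, k ≤ N ∧ (r < 1 → max r 0 ^ N ≤ (1 / 2 : ℝ) ^ j) := by
    intro k r j
    by_cases hr : r < 1
    · have hr' : max r 0 < 1 := max_lt hr one_pos
      have h1 := (tendsto_pow_atTop_nhds_zero_of_lt_one (le_max_right r 0) hr').eventually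
        (ge_mem_nhds (show (0 : ℝ) < (1 / 2) ^ j by positivity))
      obtain ⟨N, hN⟩ := (h1.and (eventually_ge_atTop k)).exists
      exact ⟨N, hN.2, fun _ => hN.1⟩
    · exact ⟨k, le_rfl, fun h => absurd h hr⟩
  choose Nf hNf1 hNf2 using hN
  let η : ℕ → ℝ := fun j => (1 / 2 : ℝ) ^ j
  have hη : ∀ j, 0 < η j := fun j => by positivity
  let blk : ℕ → ℕ × ℝ → Finset ℕ := fun j p => s (Nf p.1 p.2 j) (η j)
  let nxt : ℕ → ℕ × ℝ → ℕ × ℝ := fun j p =>
    (⌈q * ((blk j p).sup id : ℕ)⌉₊ + (blk j p).sup id + p.1 + 1,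
      max p.2 (ρ (Nf p.1 p.2 j) (η j)))
  let st : ℕ → ℕ × ℝ := fun j => Nat.rec (1, 0) (fun i p => nxt i p) j
  have hst : ∀ j, st (j + 1) = nxt j (st j) := fun j => rfl
  have hr1 : ∀ j, (st j).2 < 1 := by
    intro j
    induction j with
    | zero => exact one_pos
    | succ j ih =>
      rw [hst]
      exact max_lt ih (hρ _ _ (hη j))
  have hr0 : ∀ j, 0 ≤ (st j).2 := by
    intro j
    induction j with
    | zero => exact le_rfl
    | succ j ih =>
      rw [hst]
      exact ih.trans (le_max_left _ _)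
  have hrmono : Monotone fun j => (st j).2 := monotone_nat_of_le_succ fun j => by
    rw [hst]; exact le_max_left _ _
  have hKmono : StrictMono fun j => (st j).1 := strictMono_nat_of_lt_succ fun j => by
    rw [hst]
    show (st j).1 < _ + (st j).1 + 1
    omega
  refine not_forcing_of_blocks hS hq (fun j => (st j).1) hKmono (fun j => blk j (st j))
    (fun j => a (Nf (st j).1 (st j).2 j) (η j)) (fun j n hn => ?_) (fun j n hn => ?_) (fun j => ?_)
    (fun j n hn => ?_) (fun j => hsum2 _ _ (hη j)) (B := 3) fun z hz J => ?_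
  · have hsup : n ≤ (blk j (st j)).sup id := Finset.le_sup (f := id) hn
    refine ⟨(hNf1 _ _ _).trans ((hlac _ _ (hη j)).1 n hn).2, ?_⟩
    show n < (st (j + 1)).1
    rw [hst]
    show n < _ + (blk j (st j)).sup id + _ + 1
    omega
  · have hsup : n ≤ (blk j (st j)).sup id := Finset.le_sup (f := id) hn
    show q * n ≤ ((st (j + 1)).1 : ℝ)
    rw [hst]
    show q * n ≤ ((⌈q * ((blk j (st j)).sup id : ℕ)⌉₊ + (blk j (st j)).sup id + (st j).1 + 1 : ℕ) : ℝ)
    push_cast
    have h1 : q * ((blk j (st j)).sup id : ℕ) ≤ (⌈q * ((blk j (st j)).sup id : ℕ)⌉₊ : ℝ) :=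
      Nat.le_ceil _
    have h2 : q * (n : ℝ) ≤ q * ((blk j (st j)).sup id : ℕ) := by
      apply mul_le_mul_of_nonneg_left _ (by linarith)
      exact_mod_cast hsup
    have h3 : (0 : ℝ) ≤ ((blk j (st j)).sup id : ℕ) := Nat.cast_nonneg _
    have h4 : (0 : ℝ) ≤ ((st j).1 : ℝ) := Nat.cast_nonneg _
    linarith
  · exact (hlac _ _ (hη j)).mono (Nat.zero_le _) le_rfl
  · refine (Finset.single_le_sum (f := fun n => ‖a (Nf (st j).1 (st j).2 j) (η j) n‖)
      (fun n _ => norm_nonneg _) hn).trans (hsum1 _ _ (hη j))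
  · -- the bound of the sum over the blocks at z
    have hz1 : ‖z‖ < 1 := mem_ball_zero_iff.1 (hS hz)
    set P : ℕ → ℝ := fun j => ‖pol (blk j (st j)) (a (Nf (st j).1 (st j).2 j) (η j)) z‖ with hP
    have hP1 : ∀ j, P j ≤ 1 := by
      intro j
      refine (norm_sum_le _ _).trans ((Finset.sum_le_sum fun n _ => ?_).trans (hsum1 _ _ (hη j)))
      rw [norm_mul, norm_pow]
      have : ‖z‖ ^ n ≤ 1 := pow_le_one₀ (norm_nonneg _) hz1.le
      nlinarith [norm_nonneg (a (Nf (st j).1 (st j).2 j) (η j) n)]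
    have hP2 : ∀ j, ‖z‖ ≤ (st j).2 → P j ≤ (1 / 2 : ℝ) ^ j := by
      intro j hj
      have h1 : ‖z‖ ^ (Nf (st j).1 (st j).2 j) ≤ (1 / 2 : ℝ) ^ j := by
        refine le_trans ?_ (hNf2 (st j).1 (st j).2 j (hr1 j))
        exact pow_le_pow_left₀ (norm_nonneg _) (hj.trans (le_max_left _ _)) _
      calc P j ≤ ∑ n ∈ blk j (st j), ‖a (Nf (st j).1 (st j).2 j) (η j) n‖ * (1 / 2 : ℝ) ^ j := by
            refine (norm_sum_le _ _).trans (Finset.sum_le_sum fun n hn => ?_)
            rw [norm_mul, norm_pow]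
            have h2 : Nf (st j).1 (st j).2 j ≤ n := ((hlac _ _ (hη j)).1 n hn).2
            have h3 : ‖z‖ ^ n ≤ ‖z‖ ^ (Nf (st j).1 (st j).2 j) :=
              pow_le_pow_of_le_one (norm_nonneg _) hz1.le h2
            gcongr
            exact h3.trans h1
        _ = (∑ n ∈ blk j (st j), ‖a (Nf (st j).1 (st j).2 j) (η j) n‖) * (1 / 2 : ℝ) ^ j := by
            rw [Finset.sum_mul]
        _ ≤ 1 * (1 / 2 : ℝ) ^ j := by
            gcongr
            exact hsum1 _ _ (hη j)
        _ = _ := one_mul _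
    have hP3 : ∀ j, (st (j + 1)).2 < ‖z‖ → P j ≤ (1 / 2 : ℝ) ^ j := by
      intro j hj
      refine hsmall _ _ (hη j) z hz (lt_of_le_of_lt ?_ hj)
      rw [hst]
      exact le_max_right _ _
    -- at most one exceptional index
    have hgeom : ∀ F : Finset ℕ, ∑ j ∈ F, (1 / 2 : ℝ) ^ j ≤ 2 := by
      intro F
      have := (summable_geometric_two).sum_le_tsum F fun n _ => by positivity
      rwa [tsum_geometric_two] at this
    by_cases hex : ∃ j, (st j).2 < ‖z‖ ∧ ‖z‖ ≤ (st (j + 1)).2
    · obtain ⟨j0, hj0, hj0'⟩ := hex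
      have hothers : ∀ j, j ≠ j0 → P j ≤ (1 / 2 : ℝ) ^ j := by
        intro j hne
        rcases lt_or_gt_of_ne hne with h | h
        · exact hP3 j ((hrmono (show j + 1 ≤ j0 from h)).trans_lt hj0)
        · exact hP2 j (hj0'.trans (hrmono (show j0 + 1 ≤ j from h)))
      calc ∑ j ∈ Finset.range J, P j ≤
            ∑ j ∈ Finset.range J, ((if j = j0 then 1 else 0) + (1 / 2 : ℝ) ^ j) := by
            refine Finset.sum_le_sum fun j _ => ?_
            split_ifs with hj
            · have : (0 : ℝ) ≤ (1 / 2) ^ j := by positivity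
              linarith [hP1 j]
            · linarith [hothers j hj]
        _ = (∑ j ∈ Finset.range J, if j = j0 then (1 : ℝ) else 0) +
              ∑ j ∈ Finset.range J, (1 / 2 : ℝ) ^ j := Finset.sum_add_distrib
        _ ≤ 1 + 2 := by
            refine add_le_add ?_ (hgeom _)
            rw [Finset.sum_ite_eq']
            split_ifs <;> norm_num
        _ = 3 := by norm_num
    · push Not at hex
      have hall : ∀ j, P j ≤ (1 / 2 : ℝ) ^ j := by
        by_cases h0 : ‖z‖ ≤ (st 0).2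
        · exact fun j => hP2 j (h0.trans (hrmono (Nat.zero_le j)))
        · rw [not_le] at h0
          have hlt : ∀ j, (st j).2 < ‖z‖ := by
            intro j
            induction j with
            | zero => exact h0
            | succ j ih => exact hex j ih
          exact fun j => hP3 j (hlt (j + 1))
      exact (Finset.sum_le_sum fun j _ => hall j).trans ((hgeom _).trans (by norm_num))

end Forcing
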