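import Pool.Agent.Lib.MP_c80ac4_an.Arc
import Pool.Agent.Lib.MP_c80ac4_an.HS.Repl
import Mathlib.Topology.Instances.CantorSet

/-! # Power images of sets with the lacunary Sidon property -/

namespace Forcing.HS

open Complex Filter Topology Set Metric

/-- The power images of a set with the Sidon property converge to the whole circle. -/
theorem dense_powers {E : Set ℂ} (hE : E ⊆ sphere 0 1) (h : SidonOn E) {ε : ℝ} (hε : 0 < ε) :
    ∃ N : ℕ, ∀ m ≥ N, ∀ w : ℂ, ‖w‖ = 1 → ∃ z ∈ E, ‖z ^ m - w‖ < ε := by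
  obtain ⟨t, hts, htf, hcov⟩ := (isCompact_sphere (0 : ℂ) 1).finite_cover_balls (half_pos hε)
  have h1 : ∀ w₀ ∈ t, ∀ᶠ m : ℕ in atTop, ∃ z ∈ E, ‖z ^ m - w₀‖ < ε / 2 := by
    intro w₀ hw₀
    by_contra hcon
    have hw1 : ‖w₀‖ = 1 := by simpa using hts hw₀
    refine not_sidonOn_of_hset hE hw1 (half_pos hε) (fun N => ?_) h
    rw [Filter.eventually_atTop] at hcon
    push Not at hcon
    exact hcon N
  obtain ⟨N, hN⟩ := Filter.eventually_atTop.1 ((Filter.eventually_all_finite htf).2 h1)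
  refine ⟨N, fun m hm w hw => ?_⟩
  have hw2 : w ∈ ⋃ x ∈ t, ball x (ε / 2) := hcov (by simpa using hw)
  simp only [Set.mem_iUnion, mem_ball, exists_prop] at hw2
  obtain ⟨w₀, hw₀, hd⟩ := hw2
  obtain ⟨z, hz, hz1⟩ := hN m hm w₀ hw₀
  refine ⟨z, hz, ?_⟩
  have e : z ^ m - w = (z ^ m - w₀) + (w₀ - w) := by ring
  rw [dist_eq_norm, norm_sub_rev] at hd
  rw [e]
  calc ‖z ^ m - w₀ + (w₀ - w)‖ ≤ ‖z ^ m - w₀‖ + ‖w₀ - w‖ := norm_add_le _ _
    _ < ε := by linarith

/-- Closed sets invariant under `z ↦ z ^ p`. -/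
theorem sidonOn_invariant_iff {E : Set ℂ} (hcl : IsClosed E) (hE : E ⊆ sphere 0 1) {p : ℕ}
    (hp : 2 ≤ p) (hinv : ∀ z ∈ E, z ^ p ∈ E) : SidonOn E ↔ E = sphere 0 1 := by
  constructor
  · intro h
    apply Subset.antisymm hE
    intro w hw
    have hw1 : ‖w‖ = 1 := by simpa using hw
    have hpow : ∀ k : ℕ, ∀ z ∈ E, z ^ (p ^ k) ∈ E := by
      intro k
      induction k with
      | zero => intro z hz; simpa using hz
      | succ k ih =>
        intro z hz
        rw [pow_succ, pow_mul]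
        exact hinv _ (ih z hz)
    rw [← hcl.closure_eq, Metric.mem_closure_iff]
    intro ε hε
    obtain ⟨N, hN⟩ := dense_powers hE h hε
    obtain ⟨z, hz, hz1⟩ := hN (p ^ N) (Nat.lt_pow_self (by omega)).le w hw1
    refine ⟨z ^ (p ^ N), hpow N z hz, ?_⟩
    rw [dist_eq_norm, norm_sub_rev]
    exact hz1
  · rintro rfl
    exact sidonOn_sphere

/-- The ternary Cantor set on the circle. -/
noncomputable def cantorCircle : Set ℂ := (fun x : ℝ => Complex.exp (2 * Real.pi * x * I)) ''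
  cantorSet

lemma cantorCircle_subset : cantorCircle ⊆ sphere 0 1 := by
  rintro z ⟨x, -, rfl⟩
  rw [mem_sphere_zero_iff_norm]
  have : (2 * (Real.pi : ℂ) * x * I) = ((2 * Real.pi * x : ℝ) : ℂ) * I := by push_cast; ring
  simp only [this]
  exact Complex.norm_exp_ofReal_mul_I _

lemma isClosed_cantorCircle : IsClosed cantorCircle :=
  (isCompact_cantorSet.image (by fun_prop)).isClosed

lemma cantorCircle_cube : ∀ z ∈ cantorCircle, z ^ 3 ∈ cantorCircle := by
  rintro z ⟨x, hx, rfl⟩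
  rw [cantorSet_eq_union_halves] at hx
  rcases hx with ⟨y, hy, rfl⟩ | ⟨y, hy, rfl⟩
  · refine ⟨y, hy, ?_⟩
    simp only
    rw [← Complex.exp_nat_mul]
    congr 1
    push_cast
    ring
  · refine ⟨y, hy, ?_⟩
    simp only
    rw [← Complex.exp_nat_mul]
    have e : ((3 : ℕ) : ℂ) * (2 * Real.pi * (((2 + y) / 3 : ℝ) : ℂ) * I) =
        2 * Real.pi * y * I + ((2 : ℤ) : ℂ) * (2 * Real.pi * I) := by
      push_cast
      ring
    rw [e]
    exact (Complex.exp_periodic.int_mul 2 _).symm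

lemma half_notMem_cantorSet : (1 / 2 : ℝ) ∉ cantorSet := by
  intro h
  rw [cantorSet_eq_union_halves] at h
  rcases h with ⟨y, hy, he⟩ | ⟨y, hy, he⟩
  · have := (cantorSet_subset_unitInterval hy).2
    simp only at he
    linarith
  · have := (cantorSet_subset_unitInterval hy).1
    simp only at he
    linarith

lemma cantorCircle_ne : cantorCircle ≠ sphere 0 1 := by
  intro h
  have h1 : (-1 : ℂ) ∈ cantorCircle := by rw [h]; simp
  obtain ⟨x, hx, he⟩ := h1
  have hx01 := cantorSet_subset_unitInterval hx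
  have h2 : Complex.exp (2 * Real.pi * x * I) = Complex.exp (Real.pi * I) := by
    rw [Complex.exp_pi_mul_I]; exact he
  rw [Complex.exp_eq_exp_iff_exists_int] at h2
  obtain ⟨n, hn⟩ := h2
  have h3 : (2 * Real.pi * x : ℝ) = Real.pi + n * (2 * Real.pi) := by
    have h4 : ((2 * Real.pi * x : ℝ) : ℂ) * I = ((Real.pi + n * (2 * Real.pi) : ℝ) : ℂ) * I := by
      push_cast
      rw [hn]
      ring
    exact_mod_cast mul_right_cancel₀ I_ne_zero h4
  have hpi := Real.pi_pos
  have h5 : x = 1 / 2 + n := by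
    have : 2 * Real.pi * x = 2 * Real.pi * (1 / 2 + n) := by rw [h3]; ring
    exact mul_left_cancel₀ (by positivity) this
  have h6 : (n : ℝ) < 1 := by linarith [hx01.2]
  have h7 : (-1 : ℝ) < n := by linarith [hx01.1]
  have h8 : n < 1 := by exact_mod_cast h6
  have h9 : -1 < n := by exact_mod_cast h7
  have h10 : n = 0 := by omega
  rw [h10] at h5
  apply half_notMem_cantorSet
  rw [show (1 / 2 : ℝ) = x by rw [h5]; simp]
  exact hx

theorem not_sidonOn_cantorCircle : ¬ SidonOn cantorCircle := fun h =>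
  cantorCircle_ne ((sidonOn_invariant_iff isClosed_cantorCircle cantorCircle_subset
    (by norm_num) cantorCircle_cube).1 h)

end Forcing.HS
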