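import Pool.Agent.Lib.MP_c80ac4_an.Core

/-! # Sets on countably many circles over Dirichlet sets are never forcing -/

namespace Forcing

open Complex Metric Set MeasureTheory Filter Topology

/-- `F` is a Dirichlet set: `z ^ d` is uniformly close to one on `F` for arbitrarily large `d`. -/
def IsDirichlet (F : Set ℂ) : Prop :=
  ∀ (N : ℕ) (ε : ℝ), 0 < ε → ∃ d : ℕ, N ≤ d ∧ ∀ z ∈ F, ‖z ^ d - 1‖ ≤ ε

/-- a finite piece of a series with gaps of ratio two -/
def LevInv (K : ℕ) (b : ℕ → ℂ) : Prop :=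
  (∀ n, K ≤ n → b n = 0) ∧ b 0 = 0 ∧ ∀ m n, m < n → b m ≠ 0 → b n ≠ 0 → 2 * m ≤ n

/-- extension of a piece by frequencies beyond `2 K` -/
def LevExt (K : ℕ) (b : ℕ → ℂ) (K' : ℕ) (b' : ℕ → ℂ) : Prop :=
  K ≤ K' ∧ (∀ n, n < K → b' n = b n) ∧ ∀ n, K ≤ n → b' n ≠ 0 → 2 * K ≤ n

theorem LevExt.trans {K K1 K2 : ℕ} {b b1 b2 : ℕ → ℂ} (h1 : LevExt K b K1 b1)
    (h2 : LevExt K1 b1 K2 b2) : LevExt K b K2 b2 := by
  refine ⟨h1.1.trans h2.1, fun n hn => ?_, fun n hn hne => ?_⟩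
  · rw [h2.2.1 n (hn.trans_le h1.1), h1.2.1 n hn]
  · rcases lt_or_ge n K1 with h | h
    · rw [h2.2.1 n h] at hne
      exact h1.2.2 n hn hne
    · have := h2.2.2 n h hne
      have := h1.1
      omega

theorem LevExt.refl (K : ℕ) (b : ℕ → ℂ) (h : LevInv K b) : LevExt K b K b :=
  ⟨le_rfl, fun _ _ => rfl, fun n hn hne => absurd (h.1 n hn) hne⟩

theorem lev_one {K : ℕ} {b : ℕ → ℂ} (h : LevInv K b) (m : ℕ) (c : ℂ) (hm : 2 * K ≤ m)
    (hm0 : 0 < m) : LevInv (m + 1) (Function.update b m c) ∧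
      LevExt K b (m + 1) (Function.update b m c) := by
  refine ⟨⟨fun n hn => ?_, ?_, fun i j hij hi hj => ?_⟩, ?_, fun n hn => ?_, fun n hn hne => ?_⟩
  · rw [Function.update_of_ne (by omega)]
    exact h.1 n (by omega)
  · rw [Function.update_of_ne (by omega)]
    exact h.2.1
  · by_cases hjm : j = m
    · subst hjm
      rw [Function.update_of_ne (by omega)] at hi
      have : i < K := by
        by_contra hK
        exact hi (h.1 i (by omega))
      omega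
    · rw [Function.update_of_ne hjm] at hj
      have hjK : j < K := by
        by_contra hK
        exact hj (h.1 j (by omega))
      rw [Function.update_of_ne (by omega)] at hi
      exact h.2.2 i j hij hi hj
  · omega
  · rw [Function.update_of_ne (by omega)]
  · by_cases hnm : n = m
    · omega
    · rw [Function.update_of_ne hnm] at hne
      exact absurd (h.1 n hn) hne

theorem lev_sum_one {E : Type*} [AddCommMonoid E] {K : ℕ} {b : ℕ → ℂ} (h : LevInv K b) (m : ℕ)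
    (c : ℂ) (hm : K ≤ m) (g : ℕ → ℂ → E) (hg : ∀ n, g n 0 = 0) :
    ∑ n ∈ Finset.Ico K (m + 1), g n (Function.update b m c n) = g m c := by
  rw [Finset.sum_eq_single m]
  · rw [Function.update_self]
  · intro n hn hne
    rw [Finset.mem_Ico] at hn
    rw [Function.update_of_ne hne, h.1 n hn.1, hg]
  · intro h1
    exact absurd (Finset.mem_Ico.2 ⟨hm, Nat.lt_succ_self m⟩) h1

theorem lev_sum_old {E : Type*} [AddCommMonoid E] {K K1 K2 : ℕ} {b1 b2 : ℕ → ℂ}
    (h2 : LevExt K1 b1 K2 b2) (g : ℕ → ℂ → E) :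
    ∑ n ∈ Finset.Ico K K1, g n (b2 n) = ∑ n ∈ Finset.Ico K K1, g n (b1 n) := by
  refine Finset.sum_congr rfl fun n hn => ?_
  rw [Finset.mem_Ico] at hn
  rw [h2.2.1 n hn.2]

theorem lev_corr {ρ' ρ : ℝ} (h0 : 0 < ρ') (h1 : ρ' < ρ) {F : Set ℂ} (hF1 : F ⊆ sphere 0 1)
    (hF : IsDirichlet F) (a : ℕ → ℂ) (s : Finset ℕ) :
    ∀ η : ℝ, 0 < η → ∀ (K : ℕ) (b : ℕ → ℂ), LevInv K b → ∃ (K' : ℕ) (b' : ℕ → ℂ),
      LevInv K' b' ∧ LevExt K b K' b' ∧ ∑ n ∈ Finset.Ico K K', ‖b' n‖ * ρ' ^ n ≤ η ∧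
      ∀ u ∈ F, ‖∑ n ∈ s, a n * ((ρ : ℂ) * u) ^ n +
        ∑ n ∈ Finset.Ico K K', b' n * ((ρ : ℂ) * u) ^ n‖ ≤ η := by
  classical
  have hρ : 0 < ρ := h0.trans h1
  induction s using Finset.induction_on with
  | empty =>
    intro η hη K b hb
    exact ⟨K, b, hb, LevExt.refl K b hb, by simpa using hη.le, fun u _ => by simpa using hη.le⟩
  | insert n s hn ih =>
    intro η hη K b hb
    obtain ⟨K1, b1, hI1, hE1, hs1, hu1⟩ := ih (η / 2) (by linarith) K b hb
    -- the place of the correction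
    have hq : 0 ≤ ρ' / ρ := (div_pos h0 hρ).le
    have hq1 : ρ' / ρ < 1 := (div_lt_one hρ).2 h1
    set A : ℝ := ‖a n‖ * ρ ^ n + 1 with hA
    have hApos : 0 < A := by positivity
    obtain ⟨L, hL⟩ := exists_pow_lt_of_lt_one (show (0 : ℝ) < η / (2 * A) by positivity) hq1
    obtain ⟨d, hd, hdF⟩ := hF (2 * K1 + L + 1) (η / (2 * A)) (by positivity)
    set c : ℂ := -(a n * ((ρ : ℂ) ^ d)⁻¹) with hc
    have hρC : (ρ : ℂ) ≠ 0 := by exact_mod_cast hρ.ne'
    have hone := lev_one hI1 (n + d) c (by omega) (by omega)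
    have hcn : ‖c‖ = ‖a n‖ * (ρ ^ d)⁻¹ := by
      rw [hc, norm_neg, norm_mul, norm_inv, norm_pow, Complex.norm_real,
        Real.norm_of_nonneg hρ.le]
    refine ⟨n + d + 1, Function.update b1 (n + d) c, hone.1, hE1.trans hone.2, ?_, ?_⟩
    · rw [← Finset.sum_Ico_consecutive _ hE1.1 hone.2.1,
        lev_sum_old hone.2 (fun n x => ‖x‖ * ρ' ^ n),
        lev_sum_one hI1 (n + d) c (by omega) (fun n x => ‖x‖ * ρ' ^ n) (fun n => by simp)]
      have h3 : ‖c‖ * ρ' ^ (n + d) ≤ η / 2 := by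
        have e : ‖c‖ * ρ' ^ (n + d) = ‖a n‖ * ρ ^ n * (ρ' / ρ) ^ (n + d) := by
          rw [hcn, div_pow, pow_add ρ n d]
          field_simp
        rw [e]
        have h4 : (ρ' / ρ) ^ (n + d) ≤ η / (2 * A) :=
          (pow_le_pow_of_le_one hq hq1.le (by omega)).trans hL.le
        have h5 : ‖a n‖ * ρ ^ n ≤ A := by rw [hA]; linarith
        calc ‖a n‖ * ρ ^ n * (ρ' / ρ) ^ (n + d) ≤ A * (η / (2 * A)) :=
              mul_le_mul h5 h4 (by positivity) hApos.le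
          _ = η / 2 := by field_simp
      linarith
    · intro u hu
      have hu0 : ‖u‖ = 1 := by simpa using hF1 hu
      rw [← Finset.sum_Ico_consecutive _ hE1.1 hone.2.1,
        lev_sum_old hone.2 (fun n x => x * ((ρ : ℂ) * u) ^ n),
        lev_sum_one hI1 (n + d) c (by omega) (fun n x => x * ((ρ : ℂ) * u) ^ n)
          (fun n => by simp), Finset.sum_insert hn]
      have e : a n * ((ρ : ℂ) * u) ^ n + c * ((ρ : ℂ) * u) ^ (n + d) =
          a n * ((ρ : ℂ) ^ n * u ^ n) * (1 - u ^ d) := by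
        rw [hc, mul_pow, mul_pow, pow_add, pow_add]
        have : (ρ : ℂ) ^ d ≠ 0 := pow_ne_zero _ hρC
        field_simp
        ring
      have h3 : ‖a n * ((ρ : ℂ) * u) ^ n + c * ((ρ : ℂ) * u) ^ (n + d)‖ ≤ η / 2 := by
        rw [e, norm_mul, norm_mul, norm_mul, norm_pow, norm_pow, hu0, one_pow, mul_one,
          Complex.norm_real, Real.norm_of_nonneg hρ.le, norm_sub_rev]
        have h5 : ‖a n‖ * ρ ^ n ≤ A := by rw [hA]; linarith
        calc ‖a n‖ * ρ ^ n * ‖u ^ d - 1‖ ≤ A * (η / (2 * A)) :=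
              mul_le_mul h5 (hdF u hu) (norm_nonneg _) hApos.le
          _ = η / 2 := by field_simp
      have e2 : a n * ((ρ : ℂ) * u) ^ n + ∑ x ∈ s, a x * ((ρ : ℂ) * u) ^ x +
          (∑ x ∈ Finset.Ico K K1, b1 x * ((ρ : ℂ) * u) ^ x + c * ((ρ : ℂ) * u) ^ (n + d)) =
          (∑ x ∈ s, a x * ((ρ : ℂ) * u) ^ x + ∑ x ∈ Finset.Ico K K1, b1 x * ((ρ : ℂ) * u) ^ x) +
            (a n * ((ρ : ℂ) * u) ^ n + c * ((ρ : ℂ) * u) ^ (n + d)) := by ring
      rw [e2]
      refine (norm_add_le _ _).trans ?_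
      have := hu1 u hu
      linarith

/-- one block -/
def LevStep (ρ' ρ ε : ℝ) (F : Set ℂ) (K : ℕ) (b : ℕ → ℂ) (K' : ℕ) (b' : ℕ → ℂ) : Prop :=
  LevInv K' b' ∧ LevExt K b K' b' ∧ K < K' ∧
    ∑ n ∈ Finset.Ico K K', ‖b' n‖ * ρ' ^ n ≤ ε ∧ (∃ n ∈ Finset.Ico K K', b' n = 1) ∧
    ∀ u ∈ F, ‖∑ n ∈ Finset.range K', b' n * ((ρ : ℂ) * u) ^ n‖ ≤ ε

theorem lev_step {ρ' ρ : ℝ} (h0 : 0 < ρ') (h1 : ρ' < ρ) (h2 : ρ < 1) {F : Set ℂ}
    (hF1 : F ⊆ sphere 0 1) (hF : IsDirichlet F) {ε : ℝ} (hε : 0 < ε) (K : ℕ) (b : ℕ → ℂ)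
    (hb : LevInv K b) : ∃ (K' : ℕ) (b' : ℕ → ℂ), LevStep ρ' ρ ε F K b K' b' := by
  obtain ⟨L, hL⟩ := exists_pow_lt_of_lt_one (show (0 : ℝ) < ε / 2 by positivity) (h1.trans h2)
  set m := 2 * K + L + 1 with hm
  have hone := lev_one hb m 1 (by omega) (by omega)
  obtain ⟨K', b', hI, hE, hs, hu⟩ := lev_corr h0 h1 hF1 hF (Function.update b m 1)
    (Finset.range (m + 1)) (ε / 2) (by linarith) (m + 1) (Function.update b m 1) hone.1
  have hmK : m + 1 ≤ K' := hE.1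
  refine ⟨K', b', hI, hone.2.trans hE, by omega, ?_, ⟨m, ?_, ?_⟩, ?_⟩
  · rw [← Finset.sum_Ico_consecutive _ hone.2.1 hE.1,
      lev_sum_old hE (fun n x => ‖x‖ * ρ' ^ n),
      lev_sum_one hb m 1 (by omega) (fun n x => ‖x‖ * ρ' ^ n) (fun n => by simp)]
    have : ρ' ^ m ≤ ε / 2 :=
      (pow_le_pow_of_le_one h0.le (h1.trans h2).le (by omega)).trans hL.le
    rw [norm_one, one_mul]
    linarith
  · rw [Finset.mem_Ico]
    omega
  · rw [hE.2.1 m (by omega), Function.update_self]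
  · intro u hu'
    have h3 := hu u hu'
    rw [Finset.range_eq_Ico, ← Finset.sum_Ico_consecutive _ (Nat.zero_le (m + 1)) hE.1,
      lev_sum_old hE (fun n x => x * ((ρ : ℂ) * u) ^ n), ← Finset.range_eq_Ico]
    linarith

theorem lev_series {r r' : ℕ → ℝ} (h0 : ∀ g, 0 < r' g) (h1 : ∀ g, r' g < r g)
    (h2 : ∀ g, r g < 1) (F : ℕ → Set ℂ) (hF1 : ∀ j, F j ⊆ sphere 0 1)
    (hF2 : ∀ j, IsDirichlet (F j)) :
    ∃ (K : ℕ → ℕ) (c : ℕ → ℂ), StrictMono K ∧ Lac 2 c ∧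
      (∀ g, ∑ n ∈ Finset.Ico (K g) (K (g + 1)), ‖c n‖ * r' g ^ n ≤ (1 / 2) ^ g) ∧
      (∀ g, ∃ n ∈ Finset.Ico (K g) (K (g + 1)), c n = 1) ∧
      ∀ g, ∀ u ∈ F g, ‖∑ n ∈ Finset.range (K (g + 1)), c n * ((r g : ℂ) * u) ^ n‖ ≤
        (1 / 2) ^ g := by
  have hstep : ∀ (g : ℕ) (x : {x : ℕ × (ℕ → ℂ) // LevInv x.1 x.2}),
      ∃ y : {x : ℕ × (ℕ → ℂ) // LevInv x.1 x.2},
        LevStep (r' g) (r g) ((1 / 2) ^ g) (F g) x.1.1 x.1.2 y.1.1 y.1.2 := by
    intro g x
    obtain ⟨K', b', h⟩ := lev_step (h0 g) (h1 g) (h2 g) (hF1 g) (hF2 g)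
      (show (0 : ℝ) < (1 / 2) ^ g by positivity) x.1.1 x.1.2 x.2
    exact ⟨⟨(K', b'), h.1⟩, h⟩
  choose nx hnx using hstep
  let st : ℕ → {x : ℕ × (ℕ → ℂ) // LevInv x.1 x.2} := fun g =>
    Nat.rec ⟨(1, fun _ => 0), ⟨fun _ _ => rfl, rfl, fun _ _ _ h _ => absurd rfl h⟩⟩
      (fun g x => nx g x) g
  have hst : ∀ g, LevStep (r' g) (r g) ((1 / 2) ^ g) (F g) (st g).1.1 (st g).1.2
      (st (g + 1)).1.1 (st (g + 1)).1.2 := fun g => hnx g (st g)
  have hinv : ∀ g, LevInv (st g).1.1 (st g).1.2 := fun g => (st g).2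
  have hK0 : (st 0).1.1 = 1 := rfl
  generalize hKd : (fun g => (st g).1.1) = K
  generalize hbd : (fun g => (st g).1.2) = b
  have hK' : ∀ g, (st g).1.1 = K g := fun g => congrFun hKd g
  have hb' : ∀ g, (st g).1.2 = b g := fun g => congrFun hbd g
  simp only [hK', hb'] at hst hinv hK0
  clear hnx
  have hmono : StrictMono K := strictMono_nat_of_lt_succ fun g => (hst g).2.2.1
  have hKg : ∀ g, g < K g := by
    intro g
    induction g with
    | zero => omega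
    | succ g ih =>
      have := (hst g).2.2.1
      omega
  have hbs : ∀ g g', g ≤ g' → ∀ n, n < K g → b g' n = b g n := by
    intro g g' hgg
    induction g', hgg using Nat.le_induction with
    | base => intro n _; rfl
    | succ g' hgg ih =>
      intro n hn
      rw [(hst g').2.1.2.1 n (hn.trans_le (hmono.monotone hgg)), ih n hn]
  have hc : ∀ g n, n < K g → b n n = b g n := by
    intro g n hn
    rcases le_total g n with h | h
    · exact hbs g n h n hn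
    · exact (hbs n g h n (hKg n)).symm
  refine ⟨K, fun n => b n n, hmono, ⟨?_, ?_⟩, ?_, ?_, ?_⟩
  · exact (hinv 0).2.1
  · intro m n hmn hm hn
    have hm' : b n m ≠ 0 := by
      have := hc n m (hmn.trans (hKg n))
      simpa only [← this] using hm
    exact_mod_cast (hinv n).2.2 m n hmn hm' hn
  · intro g
    refine le_of_eq_of_le (Finset.sum_congr rfl fun n hn => ?_) (hst g).2.2.2.1
    rw [Finset.mem_Ico] at hn
    simp only [hc (g + 1) n hn.2]
  · intro g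
    obtain ⟨n, hn, hn1⟩ := (hst g).2.2.2.2.1
    refine ⟨n, hn, ?_⟩
    rw [Finset.mem_Ico] at hn
    show b n n = 1
    rw [hc (g + 1) n hn.2, hn1]
  · intro g u hu
    refine le_of_eq_of_le ?_ ((hst g).2.2.2.2.2 u hu)
    congr 1
    refine Finset.sum_congr rfl fun n hn => ?_
    rw [Finset.mem_range] at hn
    simp only [hc (g + 1) n hn]

/-- **Module LEVELS.** -/
theorem not_forcing_of_levels {S : Set ℂ} (r : ℕ → ℝ) (hr : StrictMono r) (hr0 : ∀ j, 0 < r j)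
    (hr1 : ∀ j, r j < 1) (hr2 : Tendsto r atTop (𝓝 1)) (F : ℕ → Set ℂ)
    (hF1 : ∀ j, F j ⊆ sphere 0 1) (hF2 : ∀ j, IsDirichlet (F j))
    (hS : ∀ z ∈ S, z = 0 ∨ ∃ j, ∃ u ∈ F j, z = (r j : ℂ) * u) : ¬ IsForcing S := by
  intro hforce
  set r' : ℕ → ℝ := fun g => if g = 0 then r 0 / 2 else (r (g - 1) + r g) / 2 with hr'
  have h0 : ∀ g, 0 < r' g := by
    intro g
    simp only [hr']
    split_ifs
    · have := hr0 0; linarith
    · have := hr0 g; have := hr0 (g - 1); linarith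
  have h1 : ∀ g, r' g < r g := by
    intro g
    simp only [hr']
    split_ifs with h
    · subst h; have := hr0 0; linarith
    · have : r (g - 1) < r g := hr (by omega)
      linarith
  have h2 : ∀ j g, j < g → r j ≤ r' g := by
    intro j g hjg
    simp only [hr']
    rw [if_neg (by omega)]
    have h3 : r j ≤ r (g - 1) := hr.monotone (by omega)
    have h4 : r (g - 1) < r g := hr (by omega)
    linarith
  obtain ⟨K, c, hK, hL, hsum, hone, hbd⟩ := lev_series h0 h1 hr1 F hF1 hF2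
  have htail : ∀ (j : ℕ) (x : ℝ), 0 ≤ x → x ≤ r j → ∀ i : ℕ,
      ∑ n ∈ Finset.Ico (K (j + 1)) (K (j + 1 + i)), ‖c n‖ * x ^ n ≤
        (1 / 2) ^ j - (1 / 2) ^ (j + i) := by
    intro j x hx0 hx i
    induction i with
    | zero => simp
    | succ i ih =>
      rw [← Finset.sum_Ico_consecutive _ (hK.monotone (Nat.le_add_right (j + 1) i))
        (hK.monotone (by omega : j + 1 + i ≤ j + 1 + (i + 1)))]
      have h3 : ∑ n ∈ Finset.Ico (K (j + 1 + i)) (K (j + 1 + (i + 1))), ‖c n‖ * x ^ n ≤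
          (1 / 2) ^ (j + 1 + i) := by
        refine le_trans (Finset.sum_le_sum fun n _ => ?_) (hsum (j + 1 + i))
        apply mul_le_mul_of_nonneg_left _ (norm_nonneg _)
        exact pow_le_pow_left₀ hx0 (hx.trans (h2 j _ (by omega))) n
      have h4 : ((1 : ℝ) / 2) ^ (j + 1 + i) = (1 / 2) ^ (j + i) - (1 / 2) ^ (j + (i + 1)) := by
        have e1 : j + 1 + i = (j + i) + 1 := by omega
        have e2 : j + (i + 1) = (j + i) + 1 := by omega
        rw [e1, e2, pow_succ]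
        ring
      linarith
  have htail1 : ∀ (j : ℕ) (x : ℝ), 0 ≤ x → x ≤ r j → ∀ g : ℕ, j + 1 ≤ g →
      ∑ n ∈ Finset.Ico (K (j + 1)) (K g), ‖c n‖ * x ^ n ≤ 1 := by
    intro j x hx0 hx g hg
    obtain ⟨i, rfl⟩ := Nat.exists_eq_add_of_le hg
    refine (htail j x hx0 hx i).trans ?_
    have h3 : ((1 : ℝ) / 2) ^ j ≤ 1 := pow_le_one₀ (by norm_num) (by norm_num)
    have h4 : (0 : ℝ) ≤ (1 / 2) ^ (j + i) := by positivity
    linarith
  have hKid : ∀ g, g ≤ K g := hK.id_le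
  have hConv : Conv c := by
    intro z hz
    obtain ⟨j, hj⟩ : ∃ j, ‖z‖ < r j := ((hr2.eventually (lt_mem_nhds hz))).exists
    apply Summable.of_norm
    refine summable_of_sum_range_le (c := ∑ n ∈ Finset.range (K (j + 1)), ‖c n‖ * ‖z‖ ^ n + 1)
      (fun n => norm_nonneg _) fun N => ?_
    have h3 : ∑ n ∈ Finset.range N, ‖c n * z ^ n‖ ≤
        ∑ n ∈ Finset.range (K (max N (j + 1))), ‖c n‖ * ‖z‖ ^ n := by
      have e : ∀ n, ‖c n * z ^ n‖ = ‖c n‖ * ‖z‖ ^ n := fun n => by rw [norm_mul, norm_pow]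
      simp only [e]
      refine Finset.sum_le_sum_of_subset_of_nonneg ?_ fun n _ _ => by positivity
      intro n hn
      rw [Finset.mem_range] at hn ⊢
      exact hn.trans_le ((le_max_left N (j + 1)).trans (hKid _))
    refine h3.trans ?_
    rw [Finset.range_eq_Ico, ← Finset.sum_Ico_consecutive _ (Nat.zero_le (K (j + 1)))
      (hK.monotone (le_max_right N (j + 1))), ← Finset.range_eq_Ico]
    have := htail1 j ‖z‖ (norm_nonneg _) hj.le (max N (j + 1)) (le_max_right _ _)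
    linarith
  have hps : ∀ z : ℂ, ‖z‖ < 1 → Tendsto (fun g => ∑ n ∈ Finset.range (K g), c n * z ^ n) atTop
      (𝓝 (ps c z)) := fun z hz =>
    (hConv z hz).hasSum.tendsto_sum_nat.comp hK.tendsto_atTop
  have hB : BddOnSet c S := by
    refine ⟨2, fun z hz => ?_⟩
    rcases hS z hz with rfl | ⟨j, u, hu, rfl⟩
    · have : ps c 0 = 0 := by
        unfold ps
        rw [tsum_eq_single 0]
        · simp [hL.1]
        · intro n hn
          rw [zero_pow hn, mul_zero]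
      rw [this, norm_zero]
      norm_num
    · have hu0 : ‖u‖ = 1 := by simpa using hF1 j hu
      have hz0 : ‖(r j : ℂ) * u‖ = r j := by
        rw [norm_mul, hu0, mul_one, Complex.norm_real, Real.norm_of_nonneg (hr0 j).le]
      refine le_of_tendsto (hps _ (by rw [hz0]; exact hr1 j)).norm ?_
      filter_upwards [eventually_ge_atTop (j + 1)] with g hg
      rw [Finset.range_eq_Ico, ← Finset.sum_Ico_consecutive _ (Nat.zero_le (K (j + 1)))
        (hK.monotone hg), ← Finset.range_eq_Ico]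
      refine (norm_add_le _ _).trans ?_
      have h3 := hbd j u hu
      have h4 : ((1 : ℝ) / 2) ^ j ≤ 1 := pow_le_one₀ (by norm_num) (by norm_num)
      have h5 : ‖∑ n ∈ Finset.Ico (K (j + 1)) (K g), c n * ((r j : ℂ) * u) ^ n‖ ≤ 1 := by
        refine (norm_sum_le _ _).trans (le_of_eq_of_le (Finset.sum_congr rfl fun n _ => ?_)
          (htail1 j (r j) (hr0 j).le le_rfl g hg))
        rw [norm_mul, norm_pow, hz0]
      linarith
  obtain ⟨B, hBs⟩ := sum_bdd_of_bdd one_lt_two hL hConv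
    (hforce c ⟨2, one_lt_two, hL⟩ hConv hB)
  have hge : ∀ g : ℕ, (g : ℝ) ≤ ∑ n ∈ Finset.range (K g), ‖c n‖ := by
    intro g
    induction g with
    | zero => simpa using Finset.sum_nonneg fun n _ => norm_nonneg (c n)
    | succ g ih =>
      rw [Finset.range_eq_Ico, ← Finset.sum_Ico_consecutive _ (Nat.zero_le (K g))
        (hK.monotone (Nat.le_succ g)), ← Finset.range_eq_Ico]
      obtain ⟨n, hn, hn1⟩ := hone g
      have h3 : (1 : ℝ) ≤ ∑ n ∈ Finset.Ico (K g) (K (g + 1)), ‖c n‖ := by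
        have h4 := Finset.single_le_sum (f := fun n => ‖c n‖) (fun n _ => norm_nonneg _) hn
        simp only [hn1, norm_one] at h4
        exact h4
      push_cast
      linarith
  obtain ⟨g, hg⟩ := exists_nat_gt B
  have := hBs (Finset.range (K g))
  have := hge g
  linarith

/-- A finite subset of the circle is a Dirichlet set. -/
theorem isDirichlet_of_finite {F : Set ℂ} (hF : F.Finite) (hF1 : F ⊆ sphere 0 1) :
    IsDirichlet F := by
  intro N ε hε
  have : Fintype F := hF.fintype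
  have hnorm : ∀ z : F, ‖(z : ℂ)‖ = 1 := fun z => by simpa using hF1 z.2
  set x : ℕ → F → ℂ := fun k z => (z : ℂ) ^ k with hx
  have hmem : ∀ k, x k ∈ closedBall (0 : F → ℂ) 1 := by
    intro k
    rw [mem_closedBall_zero_iff, pi_norm_le_iff_of_nonneg zero_le_one]
    intro z
    simp only [hx]
    rw [norm_pow, hnorm, one_pow]
  obtain ⟨a, -, φ, hφ, hlim⟩ := (isCompact_closedBall (0 : F → ℂ) 1).tendsto_subseq hmem
  have hcau := hlim.cauchySeq
  obtain ⟨k, hk⟩ := Metric.cauchySeq_iff'.1 hcau ε hε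
  have h1 := hk (k + N) (by omega)
  have h2 : φ k + N ≤ φ (k + N) := by
    induction N with
    | zero => simp
    | succ N ih =>
      have h3 := ih (hk (k + N) (by omega))
      have h4 : φ (k + N) < φ (k + (N + 1)) := hφ (by omega)
      omega
  refine ⟨φ (k + N) - φ k, by omega, fun z hz => ?_⟩
  have h3 : dist (x (φ (k + N)) ⟨z, hz⟩) (x (φ k) ⟨z, hz⟩) ≤ ε :=
    (dist_le_pi_dist _ _ _).trans h1.le
  simp only [hx] at h3
  have hz1 : ‖z‖ = 1 := hnorm ⟨z, hz⟩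
  have e : z ^ φ (k + N) - z ^ φ k = z ^ φ k * (z ^ (φ (k + N) - φ k) - 1) := by
    rw [mul_sub, mul_one, ← pow_add]
    congr 2
    omega
  rw [dist_eq_norm, e, norm_mul, norm_pow, hz1, one_pow, one_mul] at h3
  exact h3

/-- Enumeration of a set of reals accumulating only at one. -/
theorem lev_enum {R : Set ℝ} (hR1 : ∀ x ∈ R, 0 < x ∧ x < 1)
    (hfin : ∀ ρ : ℝ, ρ < 1 → (R ∩ Iic ρ).Finite) (hinf : ∀ ρ : ℝ, ρ < 1 → ∃ x ∈ R, ρ < x) :
    ∃ r : ℕ → ℝ, StrictMono r ∧ (∀ j, r j ∈ R) ∧ Tendsto r atTop (𝓝 1) ∧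
      ∀ x ∈ R, ∃ j, r j = x := by
  have hnext : ∀ y : {y : ℝ // y < 1}, ∃ x : {y : ℝ // y < 1}, (x : ℝ) ∈ R ∧ (y : ℝ) < x ∧
      ∀ x' ∈ R, (y : ℝ) < x' → (x : ℝ) ≤ x' := by
    rintro ⟨y, hy⟩
    obtain ⟨x0, hx0, hyx0⟩ := hinf y hy
    have hf : (R ∩ Ioc y x0).Finite := (hfin x0 (hR1 x0 hx0).2).subset
      fun t ht => ⟨ht.1, ht.2.2⟩
    obtain ⟨x, ⟨hx, hx1⟩, hmin⟩ := Set.exists_min_image (R ∩ Ioc y x0) id hf
      ⟨x0, hx0, hyx0, le_rfl⟩
    refine ⟨⟨x, (hR1 x hx).2⟩, hx, hx1.1, fun x' hx' hyx' => ?_⟩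
    rcases le_total x' x0 with h | h
    · exact hmin x' ⟨hx', hyx', h⟩
    · exact hx1.2.trans h
  choose nx hnx1 hnx2 hnx3 using hnext
  let st : ℕ → {y : ℝ // y < 1} := fun n => Nat.rec (nx ⟨0, one_pos⟩) (fun _ y => nx y) n
  have hst0 : st 0 = nx ⟨0, one_pos⟩ := rfl
  have hst : ∀ n, st (n + 1) = nx (st n) := fun n => rfl
  have hmem : ∀ n, (st n).1 ∈ R := by
    intro n
    cases n with
    | zero => exact hnx1 _
    | succ n => exact hnx1 _
  have hmono : StrictMono fun n => (st n).1 := strictMono_nat_of_lt_succ fun n => hnx2 _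
  have hlim : Tendsto (fun n => (st n).1) atTop (𝓝 1) := by
    rw [tendsto_order]
    refine ⟨fun ρ hρ => ?_, fun ρ hρ => Eventually.of_forall fun n => (st n).2.trans hρ⟩
    have hex : ∃ n, ρ < (st n).1 := by
      by_contra hcon
      push Not at hcon
      have h1 : (range fun n => (st n).1) ⊆ R ∩ Iic ρ := by
        rintro _ ⟨n, rfl⟩
        exact ⟨hmem n, hcon n⟩
      exact (Set.infinite_range_of_injective (f := fun n => (st n).1) hmono.injective)
        ((hfin ρ hρ).subset h1)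
    obtain ⟨n, hn⟩ := hex
    filter_upwards [eventually_ge_atTop n] with m hm
    exact hn.trans_le (hmono.monotone hm)
  refine ⟨fun n => (st n).1, hmono, hmem, hlim, fun x hx => ?_⟩
  have hex : ∃ n, x ≤ (st n).1 := by
    obtain ⟨n, hn⟩ := (hlim.eventually (lt_mem_nhds (hR1 x hx).2)).exists
    exact ⟨n, hn.le⟩
  classical
  have hfind := Nat.find_spec hex
  refine ⟨Nat.find hex, le_antisymm ?_ hfind⟩
  rcases h : Nat.find hex with _ | n
  · show (st 0).1 ≤ x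
    rw [hst0]
    exact hnx3 _ x hx (hR1 x hx).1
  · show (st (n + 1)).1 ≤ x
    rw [hst]
    have h2 : ¬ x ≤ (st n).1 := Nat.find_min hex (by omega)
    exact hnx3 _ x hx (lt_of_not_ge h2)

/-- A set without accumulation point in the open disc is never forcing. -/
theorem not_forcing_of_discrete {S : Set ℂ} (hS : S ⊆ ball 0 1)
    (hdisc : ∀ ρ : ℝ, ρ < 1 → (S ∩ closedBall 0 ρ).Finite) : ¬ IsForcing S := by
  set R : Set ℝ := (norm '' (S \ {0})) ∪ range (fun n : ℕ => 1 - 1 / ((n : ℝ) + 2)) with hR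
  have hR1 : ∀ x ∈ R, 0 < x ∧ x < 1 := by
    rintro x (⟨z, ⟨hz, hz0⟩, rfl⟩ | ⟨n, rfl⟩)
    · exact ⟨norm_pos_iff.2 hz0, by simpa using hS hz⟩
    · have h2 : (0 : ℝ) < (n : ℝ) + 2 := by positivity
      have h3 : 1 / ((n : ℝ) + 2) < 1 := by
        rw [div_lt_one h2]
        have : (0 : ℝ) ≤ n := Nat.cast_nonneg n
        linarith
      have h4 : 0 < 1 / ((n : ℝ) + 2) := by positivity
      exact ⟨by simp only; linarith, by simp only; linarith⟩
  have hfin : ∀ ρ : ℝ, ρ < 1 → (R ∩ Iic ρ).Finite := by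
    intro ρ hρ
    rw [hR, Set.union_inter_distrib_right]
    refine Set.Finite.union ?_ ?_
    · refine ((hdisc ρ hρ).image norm).subset ?_
      rintro _ ⟨⟨z, ⟨hz, -⟩, rfl⟩, hzρ⟩
      exact ⟨z, ⟨hz, by simpa using hzρ⟩, rfl⟩
    · obtain ⟨M, hM⟩ := exists_nat_gt (1 / (1 - ρ))
      refine ((Set.finite_Iio M).image fun n : ℕ => 1 - 1 / ((n : ℝ) + 2)).subset ?_
      rintro _ ⟨⟨n, rfl⟩, hn⟩
      refine ⟨n, ?_, rfl⟩
      rw [mem_Iio]
      by_contra hMn
      push Not at hMn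
      have h1 : 1 - 1 / ((n : ℝ) + 2) ≤ ρ := hn
      have h2 : 1 / (1 - ρ) < (n : ℝ) + 2 := by
        have : (M : ℝ) ≤ n := by exact_mod_cast hMn
        linarith
      have h3 : 0 < 1 - ρ := by linarith
      rw [div_lt_iff₀ h3] at h2
      have h5 : (0 : ℝ) < (n : ℝ) + 2 := by positivity
      have h4 : 1 / ((n : ℝ) + 2) < 1 - ρ := by
        rw [div_lt_iff₀ h5]
        linarith
      linarith
  have hinf : ∀ ρ : ℝ, ρ < 1 → ∃ x ∈ R, ρ < x := by
    intro ρ hρ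
    obtain ⟨n, hn⟩ := exists_nat_gt (1 / (1 - ρ))
    refine ⟨1 - 1 / ((n : ℝ) + 2), Or.inr ⟨n, rfl⟩, ?_⟩
    have h3 : 0 < 1 - ρ := by linarith
    rw [div_lt_iff₀ h3] at hn
    have h5 : (0 : ℝ) < (n : ℝ) + 2 := by positivity
    have h4 : 1 / ((n : ℝ) + 2) < 1 - ρ := by
      rw [div_lt_iff₀ h5]
      nlinarith
    linarith
  obtain ⟨r, hr, hrR, hlim, hall⟩ := lev_enum hR1 hfin hinf
  refine not_forcing_of_levels r hr (fun j => (hR1 _ (hrR j)).1) (fun j => (hR1 _ (hrR j)).2)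
    hlim (fun j => {u | ‖u‖ = 1 ∧ (r j : ℂ) * u ∈ S}) (fun j u hu => by simpa using hu.1)
    (fun j => isDirichlet_of_finite ?_ (fun u hu => by simpa using hu.1)) (fun z hz => ?_)
  · have hrj := hR1 _ (hrR j)
    have hinj : Function.Injective fun u : ℂ => (r j : ℂ) * u :=
      mul_right_injective₀ (by exact_mod_cast hrj.1.ne')
    refine ((hdisc (r j) hrj.2).preimage hinj.injOn).subset ?_
    rintro u ⟨hu1, hu2⟩
    refine ⟨hu2, ?_⟩
    rw [mem_closedBall_zero_iff, norm_mul, hu1, mul_one, Complex.norm_real,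
      Real.norm_of_nonneg hrj.1.le]
  · by_cases hz0 : z = 0
    · exact Or.inl hz0
    · right
      obtain ⟨j, hj⟩ := hall ‖z‖ (Or.inl ⟨z, ⟨hz, hz0⟩, rfl⟩)
      have hn : ‖z‖ ≠ 0 := norm_ne_zero_iff.2 hz0
      have hnC : ((‖z‖ : ℝ) : ℂ) ≠ 0 := by exact_mod_cast hn
      have e : z = (r j : ℂ) * ((‖z‖ : ℂ)⁻¹ * z) := by
        rw [hj, ← mul_assoc, mul_inv_cancel₀ hnC, one_mul]
      refine ⟨j, (‖z‖ : ℂ)⁻¹ * z, ⟨?_, ?_⟩, e⟩
      · rw [norm_mul, norm_inv, Complex.norm_real, norm_norm, inv_mul_cancel₀ hn]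
      · rw [← e]
        exact hz

end Forcing
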