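import Pool.Agent.Lib.MP_c80ac4_an.Defs

/-! # Closed sets of almost full measure that are not Sidon -/

namespace Forcing

open Complex Metric Set MeasureTheory Filter Topology

theorem meas_orth (k : ℤ) :
    ∫ t in (0 : ℝ)..(2 * Real.pi), Complex.exp ((k * I) * t) =
      if k = 0 then ((2 * Real.pi : ℝ) : ℂ) else 0 := by
  split_ifs with hk
  · subst hk
    simp
  · have hc : ((k : ℂ) * I) ≠ 0 := mul_ne_zero (by exact_mod_cast hk) I_ne_zero
    rw [integral_exp_mul_complex hc]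
    have h1 : Complex.exp ((k : ℂ) * I * ((2 * Real.pi : ℝ) : ℂ)) = 1 := by
      have : (k : ℂ) * I * ((2 * Real.pi : ℝ) : ℂ) = k * (2 * Real.pi * I) := by
        push_cast
        ring
      rw [this]
      exact Complex.exp_int_mul_two_pi_mul_I k
    rw [h1]
    simp

theorem meas_parseval (s : Finset ℕ) :
    ∫ t in (0 : ℝ)..(2 * Real.pi), ‖∑ n ∈ s, (Complex.exp (t * I)) ^ n‖ ^ 2 =
      2 * Real.pi * s.card := by
  have key : ∀ t : ℝ, ((‖∑ n ∈ s, (Complex.exp (t * I)) ^ n‖ ^ 2 : ℝ) : ℂ) =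
      ∑ m ∈ s, ∑ n ∈ s, Complex.exp (((((m : ℤ) - (n : ℤ) : ℤ) : ℂ) * I) * t) := by
    intro t
    rw [← Complex.normSq_eq_norm_sq, ← Complex.mul_conj, map_sum, Finset.sum_mul_sum]
    refine Finset.sum_congr rfl fun m _ => Finset.sum_congr rfl fun n _ => ?_
    rw [map_pow, ← Complex.exp_conj, ← Complex.exp_nat_mul, ← Complex.exp_nat_mul,
      ← Complex.exp_add]
    congr 1
    simp only [map_mul, Complex.conj_ofReal, Complex.conj_I]
    push_cast
    ring
  have h1 : ((∫ t in (0 : ℝ)..(2 * Real.pi), ‖∑ n ∈ s, (Complex.exp (t * I)) ^ n‖ ^ 2 : ℝ) : ℂ) =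
      ((2 * Real.pi * s.card : ℝ) : ℂ) := by
    rw [← intervalIntegral.integral_ofReal]
    simp_rw [key]
    rw [intervalIntegral.integral_finsetSum]
    · have : ∀ m ∈ s, ∫ t in (0 : ℝ)..(2 * Real.pi), ∑ n ∈ s,
          Complex.exp (((((m : ℤ) - (n : ℤ) : ℤ) : ℂ) * I) * t) = ((2 * Real.pi : ℝ) : ℂ) := by
        intro m hm
        rw [intervalIntegral.integral_finsetSum]
        · simp_rw [meas_orth]
          have : ∀ n ∈ s, (if ((m : ℤ) - (n : ℤ)) = 0 then ((2 * Real.pi : ℝ) : ℂ) else 0) =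
              if m = n then ((2 * Real.pi : ℝ) : ℂ) else 0 := by
            intro n _
            congr 1
            simp only [eq_iff_iff]
            omega
          rw [Finset.sum_congr rfl this, Finset.sum_ite_eq, if_pos hm]
        · intro n _
          exact Continuous.intervalIntegrable (by fun_prop) _ _
      rw [Finset.sum_congr rfl this, Finset.sum_const, nsmul_eq_mul]
      push_cast
      ring
    · intro m _
      exact Continuous.intervalIntegrable (by fun_prop) _ _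
  exact_mod_cast h1

/-- Chebyshev for the polynomial. -/
theorem meas_cheb (s : Finset ℕ) (L : ℕ) (hL : s.card = L) (hL0 : 0 < L) (a : ℝ) (ha : 0 < a) :
    volume {t : ℝ | t ∈ Set.Icc 0 (2 * Real.pi) ∧
      a < ‖(1 / (L : ℂ)) * ∑ n ∈ s, (Complex.exp (t * I)) ^ n‖} ≤
      ENNReal.ofReal (2 * Real.pi / (a ^ 2 * L)) := by
  set μ := (volume : Measure ℝ).restrict (Set.Icc 0 (2 * Real.pi)) with hμ
  let g : ℝ → ℝ := fun t => ‖∑ n ∈ s, (Complex.exp (t * I)) ^ n‖ ^ 2
  have hgc : Continuous g := by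
    simp only [g]
    fun_prop
  have hgi : Integrable g μ := (hgc.continuousOn.integrableOn_compact isCompact_Icc)
  have hpi : (0 : ℝ) ≤ 2 * Real.pi := by positivity
  have hint : ∫ t, g t ∂μ = 2 * Real.pi * L := by
    rw [hμ, MeasureTheory.integral_Icc_eq_integral_Ioc,
      ← intervalIntegral.integral_of_le hpi, ← hL]
    exact meas_parseval s
  have hLr : (0 : ℝ) < L := by exact_mod_cast hL0
  have hch := mul_meas_ge_le_integral_of_nonneg (μ := μ) (f := g)
    (Eventually.of_forall fun t => by positivity) hgi ((a * L) ^ 2)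
  rw [hint] at hch
  have hreal : μ.real {t | (a * L) ^ 2 ≤ g t} ≤ 2 * Real.pi / (a ^ 2 * L) := by
    rw [le_div_iff₀ (by positivity)]
    have h2 : (a * L) ^ 2 * μ.real {t | (a * L) ^ 2 ≤ g t} ≤ 2 * Real.pi * L := hch
    have h3 : L * (μ.real {t | (a * L) ^ 2 ≤ g t} * (a ^ 2 * L)) ≤ L * (2 * Real.pi) := by
      nlinarith
    exact le_of_mul_le_mul_left h3 hLr
  have hsub : {t : ℝ | t ∈ Set.Icc 0 (2 * Real.pi) ∧
      a < ‖(1 / (L : ℂ)) * ∑ n ∈ s, (Complex.exp (t * I)) ^ n‖} ⊆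
      {t | (a * L) ^ 2 ≤ g t} ∩ Set.Icc 0 (2 * Real.pi) := by
    rintro t ⟨ht, hat⟩
    refine ⟨?_, ht⟩
    have h4 : a * L ≤ ‖∑ n ∈ s, (Complex.exp (t * I)) ^ n‖ := by
      rw [norm_mul, norm_div, norm_one, Complex.norm_natCast, one_div, inv_mul_eq_div,
        lt_div_iff₀ hLr] at hat
      exact hat.le
    have h5 : (a * L) ^ 2 ≤ ‖∑ n ∈ s, (Complex.exp (t * I)) ^ n‖ ^ 2 := by
      gcongr
    exact h5
  have hmeas : MeasurableSet {t | (a * L) ^ 2 ≤ g t} :=
    measurableSet_le measurable_const hgc.measurable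
  calc volume {t : ℝ | t ∈ Set.Icc 0 (2 * Real.pi) ∧
      a < ‖(1 / (L : ℂ)) * ∑ n ∈ s, (Complex.exp (t * I)) ^ n‖}
      ≤ volume ({t | (a * L) ^ 2 ≤ g t} ∩ Set.Icc 0 (2 * Real.pi)) := measure_mono hsub
    _ = μ {t | (a * L) ^ 2 ≤ g t} := by rw [hμ, Measure.restrict_apply hmeas]
    _ = ENNReal.ofReal (μ.real {t | (a * L) ^ 2 ≤ g t}) := by
        rw [Measure.real, ENNReal.ofReal_toReal (measure_ne_top _ _)]
    _ ≤ ENNReal.ofReal (2 * Real.pi / (a ^ 2 * L)) := ENNReal.ofReal_le_ofReal hreal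

/-- The frequencies of the test polynomials. -/
def measFreq (j L : ℕ) : Finset ℕ := (Finset.range L).image fun k => 2 ^ (k + j)

theorem measFreq_card (j L : ℕ) : (measFreq j L).card = L := by
  unfold measFreq
  rw [Finset.card_image_of_injective, Finset.card_range]
  intro a b hab
  have := Nat.pow_right_injective le_rfl hab
  omega

/-- **Module MEAS.** For every `ε > 0` there is a closed subset `E` of the unit circle whose
complement has length less than `ε` and which does not satisfy the Sidon inequalities. -/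
theorem exists_large_nonsidon (ε : ℝ) (hε : 0 < ε) :
    ∃ E : Set ℂ, IsClosed E ∧ E ⊆ sphere 0 1 ∧
      volume {t : ℝ | t ∈ Set.Icc 0 (2 * Real.pi) ∧ Complex.exp (t * Complex.I) ∉ E}
        < ENNReal.ofReal ε ∧ ¬ SidonOn E := by
  obtain ⟨K, hK⟩ := exists_nat_gt (4 * Real.pi / ε)
  have hK0r : (0 : ℝ) < K := lt_trans (by positivity) hK
  have hK0 : 0 < K := by exact_mod_cast hK0r
  let Lj : ℕ → ℕ := fun j => K * 8 ^ j
  have hLj : ∀ j, 0 < Lj j := fun j => by positivity
  let Pj : ℕ → ℂ → ℂ := fun j z => (1 / (Lj j : ℂ)) * ∑ n ∈ measFreq j (Lj j), z ^ n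
  let E : Set ℂ := sphere 0 1 ∩ ⋂ j : ℕ, {z | ‖Pj j z‖ ≤ (1 / 2 : ℝ) ^ j}
  have hPc : ∀ j, Continuous (Pj j) := fun j => by
    simp only [Pj]
    fun_prop
  refine ⟨E, ?_, Set.inter_subset_left, ?_, ?_⟩
  · exact isClosed_sphere.inter (isClosed_iInter fun j =>
      isClosed_le (hPc j).norm continuous_const)
  · have hsub : {t : ℝ | t ∈ Set.Icc 0 (2 * Real.pi) ∧ Complex.exp (t * Complex.I) ∉ E} ⊆
        ⋃ j : ℕ, {t : ℝ | t ∈ Set.Icc 0 (2 * Real.pi) ∧ (1 / 2 : ℝ) ^ j <
          ‖(1 / (Lj j : ℂ)) * ∑ n ∈ measFreq j (Lj j), (Complex.exp (t * I)) ^ n‖} := by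
      rintro t ⟨ht, hE⟩
      by_contra hcon
      apply hE
      refine ⟨by simp [Complex.norm_exp_ofReal_mul_I], ?_⟩
      refine Set.mem_iInter.2 fun j => ?_
      by_contra hj
      apply hcon
      refine Set.mem_iUnion.2 ⟨j, ht, ?_⟩
      exact not_le.1 hj
    have hterm : ∀ j : ℕ, volume {t : ℝ | t ∈ Set.Icc 0 (2 * Real.pi) ∧ (1 / 2 : ℝ) ^ j <
          ‖(1 / (Lj j : ℂ)) * ∑ n ∈ measFreq j (Lj j), (Complex.exp (t * I)) ^ n‖} ≤
        ENNReal.ofReal ((2 * Real.pi / K) * (1 / 2) ^ j) := by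
      intro j
      refine (meas_cheb _ (Lj j) (measFreq_card _ _) (hLj j) _ (by positivity)).trans ?_
      apply ENNReal.ofReal_le_ofReal
      apply le_of_eq
      have h8 : (8 : ℝ) ^ j = 2 ^ j * (2 ^ j * 2 ^ j) := by
        rw [← mul_pow, ← mul_pow]
        norm_num
      simp only [Lj]
      push_cast
      rw [h8]
      have h2 : (2 : ℝ) ^ j ≠ 0 := by positivity
      have h12 : (1 / 2 : ℝ) ^ j = 1 / 2 ^ j := by rw [div_pow, one_pow]
      rw [h12]
      field_simp
    have hsum : Summable fun j : ℕ => (2 * Real.pi / K) * (1 / 2 : ℝ) ^ j :=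
      (summable_geometric_of_lt_one (by norm_num) (by norm_num)).mul_left _
    calc volume {t : ℝ | t ∈ Set.Icc 0 (2 * Real.pi) ∧ Complex.exp (t * Complex.I) ∉ E}
        ≤ volume (⋃ j : ℕ, {t : ℝ | t ∈ Set.Icc 0 (2 * Real.pi) ∧ (1 / 2 : ℝ) ^ j <
          ‖(1 / (Lj j : ℂ)) * ∑ n ∈ measFreq j (Lj j), (Complex.exp (t * I)) ^ n‖}) :=
          measure_mono hsub
      _ ≤ ∑' j : ℕ, volume {t : ℝ | t ∈ Set.Icc 0 (2 * Real.pi) ∧ (1 / 2 : ℝ) ^ j <
          ‖(1 / (Lj j : ℂ)) * ∑ n ∈ measFreq j (Lj j), (Complex.exp (t * I)) ^ n‖} :=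
          measure_iUnion_le _
      _ ≤ ∑' j : ℕ, ENNReal.ofReal ((2 * Real.pi / K) * (1 / 2) ^ j) :=
          ENNReal.tsum_le_tsum hterm
      _ = ENNReal.ofReal (∑' j : ℕ, (2 * Real.pi / K) * (1 / 2 : ℝ) ^ j) :=
          (ENNReal.ofReal_tsum_of_nonneg (fun j => by positivity) hsum).symm
      _ = ENNReal.ofReal (4 * Real.pi / K) := by
          rw [tsum_mul_left, tsum_geometric_two]
          congr 1
          ring
      _ < ENNReal.ofReal ε := by
          apply (ENNReal.ofReal_lt_ofReal_iff hε).2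
          rw [div_lt_iff₀ hK0r]
          rw [div_lt_iff₀ hε] at hK
          linarith
  · intro hS
    obtain ⟨N, C, hNC⟩ := hS 2 (by norm_num)
    have hbound : ∀ j : ℕ, N ≤ 2 ^ j → (1 : ℝ) ≤ C * (1 / 2) ^ j := by
      intro j hj
      have hlac : LacSet 2 N (measFreq j (Lj j) : Set ℕ) := by
        constructor
        · intro m hm
          have hm' : m ∈ measFreq j (Lj j) := hm
          simp only [measFreq, Finset.mem_image, Finset.mem_range] at hm'
          obtain ⟨k, _, rfl⟩ := hm'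
          refine ⟨by positivity, hj.trans ?_⟩
          exact Nat.pow_le_pow_right (by norm_num) (by omega)
        · intro m hm n hn hmn
          have hm' : m ∈ measFreq j (Lj j) := hm
          have hn' : n ∈ measFreq j (Lj j) := hn
          simp only [measFreq, Finset.mem_image, Finset.mem_range] at hm' hn'
          obtain ⟨k, _, rfl⟩ := hm'
          obtain ⟨k', _, rfl⟩ := hn'
          have hlt : k + j < k' + j := (Nat.pow_lt_pow_iff_right (by norm_num)).1 hmn
          have h1 : (2 : ℕ) * 2 ^ (k + j) ≤ 2 ^ (k' + j) := by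
            rw [← pow_succ']
            exact Nat.pow_le_pow_right (by norm_num) hlt
          exact_mod_cast h1
      have h1 := hNC (measFreq j (Lj j)) (fun _ => 1 / (Lj j : ℂ)) ((1 / 2) ^ j) hlac
        (by positivity) (fun z hz => by
          have hz2 := Set.mem_iInter.1 hz.2 j
          have hz3 : ‖(1 / (Lj j : ℂ)) * ∑ n ∈ measFreq j (Lj j), z ^ n‖ ≤ (1 / 2 : ℝ) ^ j := hz2
          rwa [Finset.mul_sum] at hz3)
      have h2 : ∑ n ∈ measFreq j (Lj j), ‖(1 / (Lj j : ℂ))‖ = 1 := by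
        rw [Finset.sum_const, measFreq_card, nsmul_eq_mul, norm_div, norm_one,
          Complex.norm_natCast]
        have : (Lj j : ℝ) ≠ 0 := by exact_mod_cast (hLj j).ne'
        field_simp
      rw [h2] at h1
      exact h1
    have hlim : Tendsto (fun j : ℕ => C * (1 / 2 : ℝ) ^ j) atTop (𝓝 0) := by
      have := (tendsto_pow_atTop_nhds_zero_of_lt_one (r := (1 / 2 : ℝ)) (by norm_num)
        (by norm_num)).const_mul C
      simpa using this
    have hev : ∀ᶠ j : ℕ in atTop, C * (1 / 2 : ℝ) ^ j < 1 := hlim.eventually (gt_mem_nhds one_pos)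
    obtain ⟨j, hj, hjN⟩ := (hev.and (eventually_ge_atTop N)).exists
    have := hbound j (hjN.trans (Nat.lt_two_pow_self).le)
    linarith

end Forcing
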