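import Pool.Agent.Lib.MP_c80ac4_an.Criterion
import Pool.Agent.Lib.MP_c80ac4_an.CN.Connect

/-! # A path to the boundary and a hyperbolic net -/

namespace GapForcing

open Set Metric Filter Topology Forcing

/-- The coefficients of a gap series which is bounded on a connected set reaching the unit circle
are bounded. -/
theorem connected_coef_bounded {q : ℝ} (hq : 1 < q) {n : ℕ → ℕ} (hn : HadamardGaps q n)
    {a : ℕ → ℂ} (hc : ConvergesInDisc a n) {S : Set ℂ} (hS : S ⊆ ball 0 1) {r : ℝ} (hr0 : 0 ≤ r)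
    (hr : r < 1) (hconn : IsPreconnected (S ∪ closedBall 0 r)) (hb : BoundedOn (gapSeries a n) S)
    (hne : ∃ z0 ∈ closure S, ‖z0‖ = 1) : ∃ A : ℝ, 0 ≤ A ∧ ∀ j, ‖a j‖ ≤ A := by
  have hfc := continuousOn_gapSeries hc
  set r1 : ℝ := max r (1 / 2) with hr1
  have hr1lt : r1 < 1 := max_lt hr (by norm_num)
  have hr1pos : 0 < r1 := lt_max_of_lt_right (by norm_num)
  have hsub : closedBall (0:ℂ) r1 ⊆ ball 0 1 := closedBall_subset_ball hr1lt
  -- bound on the closed ball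
  obtain ⟨M1, hM1⟩ := hb
  obtain ⟨M2, hM2⟩ := (isCompact_closedBall (0:ℂ) r1).exists_bound_of_continuousOn (hfc.mono hsub)
  set M : ℝ := max M1 M2 + 1 with hM
  set V : Set ℂ := {z ∈ ball (0:ℂ) 1 | ‖gapSeries a n z‖ < M} with hV
  have hVo : IsOpen V := by
    have := hfc.norm.isOpen_inter_preimage isOpen_ball (isOpen_Iio (a := M))
    exact this
  have hTV : S ∪ closedBall 0 r1 ⊆ V := by
    rintro z (hz | hz)
    · exact ⟨hS hz, lt_of_le_of_lt ((hM1 z hz).trans (le_max_left _ _)) (lt_add_one _)⟩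
    · exact ⟨hsub hz, lt_of_le_of_lt ((hM2 z hz).trans (le_max_right _ _)) (lt_add_one _)⟩
  have hTconn : IsPreconnected (S ∪ closedBall (0:ℂ) r1) := by
    have e : S ∪ closedBall (0:ℂ) r1 = (S ∪ closedBall 0 r) ∪ closedBall 0 r1 := by
      rw [Set.union_assoc, Set.union_eq_self_of_subset_left
        (closedBall_subset_closedBall (le_max_left _ _))]
    rw [e]
    exact hconn.union 0 (Or.inr (by simpa using hr0)) (by simpa using hr1pos.le)
      (convex_closedBall 0 r1).isPreconnected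
  have h0T : (0:ℂ) ∈ S ∪ closedBall (0:ℂ) r1 := Or.inr (by simpa using hr1pos.le)
  have hjoin : ∀ z ∈ S, JoinedIn V 0 z := by
    intro z hz
    have hcomp : S ∪ closedBall (0:ℂ) r1 ⊆ connectedComponentIn V 0 :=
      hTconn.subset_connectedComponentIn h0T hTV
    have hVc : IsConnected (connectedComponentIn V 0) :=
      ⟨⟨0, hcomp h0T⟩, isPreconnected_connectedComponentIn⟩
    have hpc := (hVo.connectedComponentIn.isConnected_iff_isPathConnected).1 hVc
    exact (hpc.joinedIn 0 (hcomp h0T) z (hcomp (Or.inl hz))).mono (connectedComponentIn_subset _ _)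
  set y0 : ℝ := -Real.log r1 with hy0
  have hy0pos : 0 < y0 := by
    have := Real.log_neg hr1pos hr1lt
    linarith
  -- the lifted paths
  have hlift : ∀ z ∈ S, r1 < ‖z‖ → ∃ γ : ℝ → ℂ, Continuous γ ∧ (γ 0).re = y0 ∧
      Complex.exp (-γ 1) = z ∧ (∀ s, 0 < (γ s).re) ∧ ∀ s, ‖hpSeries a n (γ s)‖ ≤ M := by
    intro z hz hzr
    obtain ⟨p, hp⟩ := hjoin z hz
    obtain ⟨γ, hγ, h0, h1, hγV⟩ := exists_lift hr1pos hzr p hp
    refine ⟨γ, hγ, h0, h1, ?_, ?_⟩
    · intro s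
      have h2 : ‖Complex.exp (-γ s)‖ < 1 := by simpa using (hγV s).1
      rw [Complex.norm_exp, Complex.neg_re, Real.exp_lt_one_iff] at h2
      linarith
    · intro s
      rw [← gapSeries_exp]
      exact (hγV s).2.le
  -- points of S near the circle
  have hnear : ∀ y : ℝ, 0 < y → ∃ z ∈ S, r1 < ‖z‖ ∧ -Real.log ‖z‖ ≤ y := by
    intro y hy
    obtain ⟨z0, hz0, hz01⟩ := hne
    have h1 : max r1 (Real.exp (-y)) < ‖z0‖ := by
      rw [hz01]
      exact max_lt hr1lt (by rw [Real.exp_lt_one_iff]; linarith)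
    have ho : IsOpen {z : ℂ | max r1 (Real.exp (-y)) < ‖z‖} :=
      isOpen_lt continuous_const continuous_norm
    obtain ⟨z, hz1, hz2⟩ := mem_closure_iff.1 hz0 _ ho h1
    have hz1' : max r1 (Real.exp (-y)) < ‖z‖ := hz1
    refine ⟨z, hz2, (le_max_left _ _).trans_lt hz1', ?_⟩
    have h2 : Real.exp (-y) ≤ ‖z‖ := ((le_max_right _ _).trans_lt hz1').le
    have h3 := Real.log_le_log (Real.exp_pos _) h2
    rw [Real.log_exp] at h3
    linarith
  -- the coefficients are bounded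
  apply coef_bounded hq hn hc hy0pos (M := M)
  intro y hy hy2
  obtain ⟨z, hzS, hzr, hzy⟩ := hnear y hy
  obtain ⟨γ, hγ, h0, h1, hpos, hγM⟩ := hlift z hzS hzr
  have hend : (γ 1).re ≤ y := by
    have : ‖z‖ = Real.exp (-(γ 1).re) := by rw [← h1, Complex.norm_exp, Complex.neg_re]
    rw [this, Real.log_exp] at hzy
    linarith
  have hre : ContinuousOn (fun s => (γ s).re) (Icc 0 1) :=
    (Complex.continuous_re.comp hγ).continuousOn
  obtain ⟨s1, hs1, hs1e⟩ := intermediate_value_Icc' zero_le_one hre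
    (⟨hend, by rw [h0]; linarith⟩ : y ∈ Icc ((γ 1).re) ((γ 0).re))
  simp only at hs1e
  refine ⟨γ s1, hs1e, ?_⟩
  intro ρ hρ0 hρ2
  have hd : ContinuousOn (fun s => ‖γ s - γ s1‖) (Icc 0 s1) :=
    (hγ.sub continuous_const).norm.continuousOn
  have hbig : ρ ≤ ‖γ 0 - γ s1‖ := by
    have h2 : (γ 0 - γ s1).re ≤ ‖γ 0 - γ s1‖ := Complex.re_le_norm _
    rw [Complex.sub_re, h0, hs1e] at h2
    linarith
  obtain ⟨s, hs, hse⟩ := intermediate_value_Icc' hs1.1 hd
    (⟨by simpa using hρ0, hbig⟩ : ρ ∈ Icc (‖γ s1 - γ s1‖) (‖γ 0 - γ s1‖))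
  refine ⟨γ s - γ s1, hse, ?_⟩
  rw [add_sub_cancel]
  exact hγM s

/-- a coefficient sequence with infinite support, as exponents and coefficients; every nonzero
coefficient occurs. -/
lemma exists_sequence_cover {q : ℝ} {c : ℕ → ℂ} (hL : Lac q c)
    (hinf : {m : ℕ | c m ≠ 0}.Infinite) (hc : Conv c) :
    ∃ (n : ℕ → ℕ) (a : ℕ → ℂ), HadamardGaps q n ∧ ConvergesInDisc a n ∧
      (∀ z, gapSeries a n z = ps c z) ∧ ∀ m, c m ≠ 0 → ∃ k, a k = c m := by
  classical
  have hinf' : (Set.ofPred fun m : ℕ => c m ≠ 0).Infinite := hinf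
  let n : ℕ → ℕ := Nat.nth fun m => c m ≠ 0
  have hmono : StrictMono n := Nat.nth_strictMono hinf'
  have hmem : ∀ k, c (n k) ≠ 0 := fun k => Nat.nth_mem_of_infinite hinf' k
  have hpos : ∀ k, 0 < n k := by
    intro k
    rcases Nat.eq_zero_or_pos (n k) with h | h
    · exact absurd (by rw [h]; exact hL.1) (hmem k)
    · exact h
  have hrange : ∀ m, c m ≠ 0 → m ∈ Set.range n := by
    intro m hm'
    change m ∈ Set.range (Nat.nth fun m => c m ≠ 0)
    rw [Nat.range_nth_of_infinite hinf']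
    exact hm'
  refine ⟨n, fun k => c (n k), ⟨hpos, hmono, ?_⟩, ?_, ?_, ?_⟩
  · intro k
    have h1 : (0:ℝ) < n k := by exact_mod_cast hpos k
    rw [le_div_iff₀ h1]
    exact hL.2 _ _ (hmono (Nat.lt_succ_self k)) (hmem k) (hmem (k + 1))
  · intro z hz
    exact (hc z hz).comp_injective hmono.injective
  · intro z
    unfold gapSeries ps
    apply Function.Injective.tsum_eq (f := fun m => c m * z ^ m) hmono.injective
    intro m hm
    refine hrange m ?_
    intro h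
    apply hm
    simp [h]
  · intro m hm
    obtain ⟨k, hk⟩ := hrange m hm
    exact ⟨k, congrArg c hk⟩

end GapForcing

namespace Forcing

open Complex Metric Set MeasureTheory Filter Topology

/-- **Bounded coefficients.** A Hadamard series bounded on a connected set with a limit point on the
unit circle has bounded coefficients (extract the step `the coefficients are bounded` of
`GapForcing.connected_radial`). -/
theorem coeff_bdd_of_path {S₀ : Set ℂ} (h0 : S₀ ⊆ ball 0 1) (hconn : IsPreconnected S₀)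
    (hlim : ∃ ζ ∈ closure S₀, ‖ζ‖ = 1) {q : ℝ} (hq : 1 < q) {c : ℕ → ℂ} (hL : Lac q c)
    (hc : Conv c) (hb : BddOnSet c S₀) : ∃ A : ℝ, ∀ n, ‖c n‖ ≤ A := by
  by_cases hfin : {m : ℕ | c m ≠ 0}.Finite
  · refine ⟨∑ m ∈ hfin.toFinset, ‖c m‖, fun n => ?_⟩
    by_cases hn : c n = 0
    · rw [hn, norm_zero]
      exact Finset.sum_nonneg fun m _ => norm_nonneg _
    · exact Finset.single_le_sum (f := fun m => ‖c m‖) (fun m _ => norm_nonneg _)
        (hfin.mem_toFinset.2 hn)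
  · obtain ⟨n, a, hn, hca, hps, hcov⟩ := GapForcing.exists_sequence_cover hL hfin hc
    have hb' : GapForcing.BoundedOn (GapForcing.gapSeries a n) S₀ := by
      obtain ⟨M, hM⟩ := hb
      exact ⟨M, fun z hz => by rw [hps]; exact hM z hz⟩
    obtain ⟨ζ, hζ, hζ1⟩ := hlim
    obtain ⟨z, hz⟩ : S₀.Nonempty := closure_nonempty_iff.1 ⟨ζ, hζ⟩
    have hconn' : IsPreconnected (S₀ ∪ closedBall 0 ‖z‖) :=
      hconn.union z hz (by simp) (convex_closedBall 0 _).isPreconnected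
    obtain ⟨A, hA0, hA⟩ := GapForcing.connected_coef_bounded hq hn hca h0 (norm_nonneg z)
      (by simpa using h0 hz) hconn' hb' ⟨ζ, hζ, hζ1⟩
    refine ⟨A, fun m => ?_⟩
    by_cases hm : c m = 0
    · rw [hm, norm_zero]; exact hA0
    · obtain ⟨k, hk⟩ := hcov m hm
      rw [← hk]
      exact hA k

/-- telescoping over a finite lacunary set. -/
theorem lac_sum_aux {q δ : ℝ} (hq : 1 < q) (hδ : 0 < δ) (s : Finset ℕ) :
    (∀ m ∈ s, ∀ n ∈ s, m < n → q * m ≤ n) → ∀ t : ℝ, 0 ≤ t → (∀ n ∈ s, q * n ≤ t) →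
    ∑ n ∈ s, (1 / (1 + n * δ) - 1 / (1 + q * (n * δ))) ≤ 1 - 1 / (1 + t * δ) := by
  induction s using Finset.induction_on_max with
  | empty =>
    intro _ t ht _
    rw [Finset.sum_empty]
    have h1 : 1 / (1 + t * δ) ≤ 1 := by
      rw [div_le_one (by positivity)]
      have : 0 ≤ t * δ := by positivity
      linarith
    linarith
  | insert a s hmax ih =>
    intro hs t ht hst
    have ha : a ∉ s := fun h => lt_irrefl _ (hmax a h)
    rw [Finset.sum_insert ha]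
    have h1 := ih (fun m hm n hn => hs m (Finset.mem_insert_of_mem hm) n
      (Finset.mem_insert_of_mem hn)) a (Nat.cast_nonneg a)
      (fun n hn => hs n (Finset.mem_insert_of_mem hn) a (Finset.mem_insert_self a s) (hmax n hn))
    have h2 : q * a ≤ t := hst a (Finset.mem_insert_self a s)
    have h3 : 1 / (1 + t * δ) ≤ 1 / (1 + q * (a * δ)) := by
      apply one_div_le_one_div_of_le
      · positivity
      · nlinarith
    linarith

/-- the basic sum over a finite lacunary set. -/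
theorem lac_sum_exp {q δ : ℝ} (hq : 1 < q) (hδ : 0 < δ) (s : Finset ℕ)
    (hs : ∀ m ∈ s, ∀ n ∈ s, m < n → q * m ≤ n) (hpos : ∀ n ∈ s, 0 < n) :
    ∑ n ∈ s, n * δ * Real.exp (-(n * δ)) ≤ 2 * q / (q - 1) := by
  have hq1 : 0 < q - 1 := by linarith
  have hq0 : 0 < q := by linarith
  have h1 := lac_sum_aux hq hδ s hs (q * (s.sup id : ℕ)) (by positivity) (fun n hn => by
    apply mul_le_mul_of_nonneg_left _ hq0.le
    exact_mod_cast Finset.le_sup (f := id) hn)
  have h2 : 0 ≤ 1 / (1 + q * (s.sup id : ℕ) * δ) := by positivity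
  calc ∑ n ∈ s, n * δ * Real.exp (-(n * δ))
      ≤ ∑ n ∈ s, 2 * q / (q - 1) * (1 / (1 + n * δ) - 1 / (1 + q * (n * δ))) := by
        refine Finset.sum_le_sum fun n hn => ?_
        have hn0 : (0 : ℝ) < n := by exact_mod_cast hpos n hn
        have hx : 0 < n * δ := by positivity
        refine (GapForcing.exp_aux hq hx).trans (le_of_eq ?_)
        field_simp
        ring
    _ = 2 * q / (q - 1) * ∑ n ∈ s, (1 / (1 + n * δ) - 1 / (1 + q * (n * δ))) := by
        rw [Finset.mul_sum]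
    _ ≤ 2 * q / (q - 1) * 1 := by
        apply mul_le_mul_of_nonneg_left _ (by positivity)
        linarith
    _ = 2 * q / (q - 1) := mul_one _

theorem norm_pow_sub_pow_le {z v : ℂ} {ρ : ℝ} (hz : ‖z‖ ≤ ρ) (hv : ‖v‖ ≤ ρ) (n : ℕ) :
    ‖z ^ n - v ^ n‖ ≤ n * ρ ^ (n - 1) * ‖z - v‖ := by
  have hρ : 0 ≤ ρ := (norm_nonneg z).trans hz
  rw [← Commute.mul_geom_sum₂ (Commute.all z v), norm_mul]
  rw [mul_comm]
  apply mul_le_mul_of_nonneg_right _ (norm_nonneg _)
  refine (norm_sum_le _ _).trans ?_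
  have : ∀ i ∈ Finset.range n, ‖z ^ i * v ^ (n - 1 - i)‖ ≤ ρ ^ (n - 1) := by
    intro i hi
    rw [Finset.mem_range] at hi
    rw [norm_mul, norm_pow, norm_pow]
    calc ‖z‖ ^ i * ‖v‖ ^ (n - 1 - i) ≤ ρ ^ i * ρ ^ (n - 1 - i) := by gcongr
      _ = ρ ^ (n - 1) := by rw [← pow_add]; congr 1; omega
  refine (Finset.sum_le_sum this).trans ?_
  rw [Finset.sum_const, Finset.card_range, nsmul_eq_mul]

/-- **Bloch estimate** in the disc. -/
theorem ps_sub_le {q : ℝ} (hq : 1 < q) (A R : ℝ) (hR : 1 ≤ R) : ∃ B : ℝ, ∃ ρ₀ : ℝ, ρ₀ < 1 ∧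
    ∀ c : ℕ → ℂ, Lac q c → (∀ n, ‖c n‖ ≤ A) → ∀ z v : ℂ, ‖z‖ < 1 → ρ₀ < ‖v‖ → ‖v‖ < 1 →
      ‖z - v‖ ≤ R * (1 - ‖v‖) → 1 - ‖v‖ ≤ R * (1 - ‖z‖) → ‖ps c z - ps c v‖ ≤ B := by
  refine ⟨A * R ^ 2 * Real.exp 1 * (2 * q / (q - 1)), 0, zero_lt_one, ?_⟩
  intro c hL hA z v hz _ hv h1 h2
  have hR0 : 0 < R := by linarith
  have hA0 : 0 ≤ A := (norm_nonneg _).trans (hA 0)
  have hq1 : 0 < q - 1 := by linarith
  set δ : ℝ := (1 - ‖v‖) / R with hδ
  have hδ0 : 0 < δ := div_pos (by linarith) hR0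
  have hδR : R * δ = 1 - ‖v‖ := by rw [hδ]; field_simp
  have hz' : ‖z‖ ≤ 1 - δ := by
    have : δ ≤ 1 - ‖z‖ := by
      rw [hδ, div_le_iff₀ hR0]; linarith
    linarith
  have hv' : ‖v‖ ≤ 1 - δ := by nlinarith
  have hδ1 : δ ≤ 1 := by linarith [norm_nonneg z]
  have hconv : ∀ w : ℂ, ‖w‖ < 1 → Summable fun n => c n * w ^ n := by
    intro w hw
    refine Summable.of_norm_bounded ((summable_geometric_of_lt_one (norm_nonneg w) hw).mul_left A)
      fun n => ?_
    rw [norm_mul, norm_pow]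
    exact mul_le_mul_of_nonneg_right (hA n) (by positivity)
  have hterm : ∀ n : ℕ, 0 < n → ‖c n * z ^ n - c n * v ^ n‖ ≤
      A * R ^ 2 * Real.exp 1 * (n * δ * Real.exp (-(n * δ))) := by
    intro n hn
    rw [← mul_sub, norm_mul]
    have e1 := norm_pow_sub_pow_le hz' hv' n
    have e2 : (1 - δ) ^ (n - 1) ≤ Real.exp 1 * Real.exp (-(n * δ)) := by
      have e3 : 1 - δ ≤ Real.exp (-δ) := by
        have := Real.add_one_le_exp (-δ)
        linarith
      calc (1 - δ) ^ (n - 1) ≤ Real.exp (-δ) ^ (n - 1) :=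
            pow_le_pow_left₀ (by linarith) e3 _
        _ = Real.exp (((n - 1 : ℕ) : ℝ) * (-δ)) := by rw [← Real.exp_nat_mul]
        _ ≤ Real.exp (1 + -(n * δ)) := by
            apply Real.exp_le_exp.2
            have : ((n - 1 : ℕ) : ℝ) = n - 1 := by
              rw [Nat.cast_sub (by omega)]; simp
            rw [this]
            nlinarith
        _ = Real.exp 1 * Real.exp (-(n * δ)) := Real.exp_add _ _
    have e4 : ‖z - v‖ ≤ R ^ 2 * δ := by
      calc ‖z - v‖ ≤ R * (1 - ‖v‖) := h1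
        _ = R ^ 2 * δ := by rw [← hδR]; ring
    calc ‖c n‖ * ‖z ^ n - v ^ n‖ ≤ A * (n * (Real.exp 1 * Real.exp (-(n * δ))) * (R ^ 2 * δ)) := by
          refine mul_le_mul (hA n) (e1.trans ?_) (norm_nonneg _) hA0
          refine mul_le_mul ?_ e4 (norm_nonneg _) (by positivity)
          exact mul_le_mul_of_nonneg_left e2 (Nat.cast_nonneg n)
      _ = _ := by ring
  have hsum : HasSum (fun n => c n * z ^ n - c n * v ^ n) (ps c z - ps c v) :=
    (hconv z hz).hasSum.sub (hconv v hv).hasSum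
  refine le_of_tendsto hsum.norm (Eventually.of_forall fun s => ?_)
  classical
  refine (norm_sum_le _ _).trans ?_
  have hfil : ∑ n ∈ s, ‖c n * z ^ n - c n * v ^ n‖ =
      ∑ n ∈ s.filter (fun n => c n ≠ 0), ‖c n * z ^ n - c n * v ^ n‖ := by
    rw [Finset.sum_filter]
    refine Finset.sum_congr rfl fun n _ => ?_
    split_ifs with h
    · rfl
    · have : c n = 0 := by simpa using h
      simp [this]
  rw [hfil]
  have hpos : ∀ n ∈ s.filter (fun n => c n ≠ 0), 0 < n := by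
    intro n hn
    rw [Finset.mem_filter] at hn
    exact Nat.pos_of_ne_zero fun h => hn.2 (h ▸ hL.1)
  refine (Finset.sum_le_sum fun n hn => hterm n (hpos n hn)).trans ?_
  rw [← Finset.mul_sum]
  refine mul_le_mul_of_nonneg_left ?_ (by positivity)
  refine lac_sum_exp hq hδ0 _ (fun m hm n hn hmn => ?_) hpos
  rw [Finset.mem_filter] at hm hn
  exact hL.2 m n hmn hm.2 hn.2

/-- **Path and net.** If `S` contains a connected set with a limit point on the unit circle and for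
every `q` there are `N`, `C` and points `w` with modulus tending to one such that for some set `E` of
directions satisfying the Sidon inequality with constants `(q, N, C)` all points `w ζ`, `ζ ∈ E`, are
at bounded hyperbolic distance from `S`, then `S` is forcing. -/
theorem forcing_of_net {S S₀ : Set ℂ} (hS : S ⊆ ball 0 1) (h0 : S₀ ⊆ S)
    (hconn : IsPreconnected S₀) (hlim : ∃ ζ ∈ closure S₀, ‖ζ‖ = 1) (R : ℝ)
    (h : ∀ q : ℝ, 1 < q → ∃ (N : ℕ) (C : ℝ), ∀ ρ : ℝ, ρ < 1 → ∃ w : ℂ, ρ < ‖w‖ ∧ ‖w‖ < 1 ∧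
      ∃ E : Set ℂ, E ⊆ sphere 0 1 ∧ SidonIneq q N C E ∧ ∀ ζ ∈ E, ∃ z ∈ S,
        ‖z - w * ζ‖ ≤ R * (1 - ‖w‖) ∧ 1 - ‖w‖ ≤ R * (1 - ‖z‖)) : IsForcing S := by
  intro c hq hc hb
  obtain ⟨q, hq, hL⟩ := hq
  obtain ⟨N, C, hC⟩ := h q hq
  obtain ⟨M, hM⟩ := hb
  obtain ⟨A, hA⟩ := coeff_bdd_of_path (h0.trans hS) hconn hlim hq hL hc
    ⟨M, fun z hz => hM z (h0 hz)⟩
  obtain ⟨B, ρ₀, hρ₀, hB⟩ := ps_sub_le hq A (max R 1) (le_max_right _ _)
  refine bdd_of_sum_bdd hc (sum_le_of_dilates (N := N) (C := C) (M := max M 0 + max B 0) hL hc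
    (add_nonneg (le_max_right _ _) (le_max_right _ _)) fun ρ hρ => ?_)
  obtain ⟨w, hw1, hw2, E, hE, hSid, hz⟩ := hC (max (max ρ ρ₀) 0) (max_lt (max_lt hρ hρ₀) one_pos)
  have hw0 : 0 < ‖w‖ := (le_max_right _ _).trans_lt hw1
  have hwρ : ρ < ‖w‖ := ((le_max_left ρ ρ₀).trans (le_max_left _ _)).trans_lt hw1
  have hwρ₀ : ρ₀ < ‖w‖ := ((le_max_right ρ ρ₀).trans (le_max_left _ _)).trans_lt hw1
  have hwne : (‖w‖ : ℂ) ≠ 0 := by exact_mod_cast hw0.ne'
  have hu : ‖w / (‖w‖ : ℂ)‖ = 1 := by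
    rw [norm_div, Complex.norm_real, Real.norm_of_nonneg hw0.le, div_self hw0.ne']
  refine ⟨‖w‖, hwρ, hw2, (fun z => w / (‖w‖ : ℂ) * z) '' E, ?_, hSid.rotate hu, ?_⟩
  · rintro _ ⟨z, hz, rfl⟩
    simp only [norm_mul, hu, mem_sphere_zero_iff_norm.1 (hE hz), mul_one, le_refl]
  · rintro _ ⟨ζ, hζ, rfl⟩
    have h1 : (‖w‖ : ℂ) * (w / (‖w‖ : ℂ) * ζ) = w * ζ := by
      field_simp
    simp only [h1]
    obtain ⟨z, hzS, hz1, hz2⟩ := hz ζ hζ
    have hζ1 : ‖ζ‖ = 1 := mem_sphere_zero_iff_norm.1 (hE hζ)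
    have hwζ : ‖w * ζ‖ = ‖w‖ := by rw [norm_mul, hζ1, mul_one]
    have hz0 : ‖z‖ < 1 := mem_ball_zero_iff.1 (hS hzS)
    have key := hB c hL hA z (w * ζ) hz0 (by rw [hwζ]; exact hwρ₀) (by rw [hwζ]; exact hw2)
      (by
        rw [hwζ]
        exact hz1.trans (mul_le_mul_of_nonneg_right (le_max_left _ _) (by linarith)))
      (by
        rw [hwζ]
        exact hz2.trans (mul_le_mul_of_nonneg_right (le_max_left _ _) (by linarith)))
    have h3 : ps c (w * ζ) = ps c z - (ps c z - ps c (w * ζ)) := by ring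
    rw [h3]
    refine (norm_sub_le _ _).trans ?_
    have h4 := hM z hzS
    linarith [le_max_left M 0, le_max_left B 0]

end Forcing
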