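import Pool.Agent.Lib.MP_c80ac4_an.Criterion
import Pool.Agent.Lib.MP_c80ac4_an.Ctbl

/-! # Pointwise boundedness and increasing unions

(1) Polynomials with lacunary spectra beyond `j` and coefficient sums in `[1/2, 1]` that tend to
`0` pointwise on a closed set: thin them out so that the spectra are far apart, normalise, and take
a convex combination that is uniformly small (`exists_convex_lt`). (2) If no `F i` satisfies a Sidon
inequality there are such polynomials, small on `F i`. (3) If the coefficients of `f` are not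
summable the normalised blocks of `f (w_j z)` are such polynomials. -/

set_option autoImplicit false

namespace Forcing

open Complex Metric Set MeasureTheory Filter Topology

/-- The polynomial with frequencies `s` and coefficients `c`. -/
private noncomputable def polW (s : Finset ℕ) (c : ℕ → ℂ) (z : ℂ) : ℂ := ∑ n ∈ s, c n * z ^ n

private theorem polW_le {s : Finset ℕ} {c : ℕ → ℂ} (h : ∑ n ∈ s, ‖c n‖ = 1) {z : ℂ}
    (hz : z ∈ sphere (0 : ℂ) 1) : ‖polW s c z‖ ≤ 1 := by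
  unfold polW
  rw [← h]
  refine (norm_sum_le _ _).trans (Finset.sum_le_sum fun n _ => ?_)
  rw [norm_mul, norm_pow]
  have h1 : ‖z‖ = 1 := by simpa using hz
  rw [h1, one_pow, mul_one]

private theorem exists_small {q : ℝ} {K : Set ℂ} (hK : ∀ N C, ¬ SidonIneq q N C K) (N j : ℕ) :
    ∃ (s : Finset ℕ) (c : ℕ → ℂ), LacSet q N (s : Set ℕ) ∧ ∑ n ∈ s, ‖c n‖ = 1 ∧
      ∀ z ∈ K, ‖polW s c z‖ ≤ 1 / ((j : ℝ) + 1) := by
  have h := hK N ((j : ℝ) + 1)
  unfold SidonIneq at h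
  push Not at h
  obtain ⟨s, c, M, hs, hM, hb, hlt⟩ := h
  have hj : (0 : ℝ) < (j : ℝ) + 1 := by positivity
  set T : ℝ := ∑ n ∈ s, ‖c n‖ with hT
  have hT0 : 0 < T := lt_of_le_of_lt (mul_nonneg hj.le hM) hlt
  refine ⟨s, fun n => ((T : ℂ)⁻¹) * c n, hs, ?_, ?_⟩
  · simp_rw [norm_mul]
    rw [← Finset.mul_sum, ← hT, norm_inv, Complex.norm_real, Real.norm_of_nonneg hT0.le]
    field_simp
  · intro z hz
    have e : polW s (fun n => ((T : ℂ)⁻¹) * c n) z = ((T : ℂ)⁻¹) * ∑ n ∈ s, c n * z ^ n := by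
      unfold polW
      rw [Finset.mul_sum]
      exact Finset.sum_congr rfl fun n _ => by ring
    rw [e, norm_mul, norm_inv, Complex.norm_real, Real.norm_of_nonneg hT0.le]
    have h1 := hb z hz
    rw [inv_mul_le_iff₀ hT0]
    calc _ ≤ M := h1
      _ ≤ T * (1 / ((j : ℝ) + 1)) := by
        rw [mul_one_div, le_div_iff₀ hj]
        linarith

/-- Combinations of polynomials with far apart spectra. -/
private theorem exists_comb {q : ℝ} {N : ℕ} {s : ℕ → Finset ℕ} {c : ℕ → ℕ → ℂ}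
    (h1 : ∀ j, LacSet q N (s j : Set ℕ)) (h2 : ∀ j, ∑ n ∈ s j, ‖c j n‖ = 1)
    (h4 : ∀ i j, i < j → ∀ m ∈ s i, ∀ n ∈ s j, m < n ∧ q * m ≤ n) (v : ℕ → ℂ) (J : ℕ) :
    ∃ (t : Finset ℕ) (a : ℕ → ℂ), LacSet q N (t : Set ℕ) ∧
      ∑ n ∈ t, ‖a n‖ = ∑ k ∈ Finset.range J, ‖v k‖ ∧
      ∀ z, polW t a z = ∑ k ∈ Finset.range J, v k * polW (s k) (c k) z := by
  classical
  have hdisj : ∀ i j, i ≠ j → Disjoint (s i) (s j) := by
    intro i j hij
    rw [Finset.disjoint_left]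
    intro n hi hj
    rcases lt_or_gt_of_ne hij with h | h
    · exact lt_irrefl _ (h4 i j h n hi n hj).1
    · exact lt_irrefl _ (h4 j i h n hj n hi).1
  have hpd : ((Finset.range J : Finset ℕ) : Set ℕ).PairwiseDisjoint s :=
    fun i _ j _ hij => hdisj i j hij
  let a : ℕ → ℂ := fun n => ∑ k ∈ Finset.range J, if n ∈ s k then v k * c k n else 0
  have ha : ∀ k ∈ Finset.range J, ∀ n ∈ s k, a n = v k * c k n := by
    intro k hk n hn
    simp only [a]
    rw [Finset.sum_eq_single k]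
    · rw [if_pos hn]
    · intro i _ hik
      rw [if_neg]
      intro hi
      exact Finset.disjoint_left.1 (hdisj i k hik) hi hn
    · exact fun h => absurd hk h
  refine ⟨(Finset.range J).biUnion s, a, ⟨?_, ?_⟩, ?_, ?_⟩
  · intro m hm
    obtain ⟨k, _, hk⟩ := Finset.mem_biUnion.1 (Finset.mem_coe.1 hm)
    exact (h1 k).1 m hk
  · intro m hm n hn hmn
    obtain ⟨i, _, hi⟩ := Finset.mem_biUnion.1 (Finset.mem_coe.1 hm)
    obtain ⟨j, _, hj⟩ := Finset.mem_biUnion.1 (Finset.mem_coe.1 hn)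
    rcases lt_trichotomy i j with h | h | h
    · exact (h4 i j h m hi n hj).2
    · subst h
      exact (h1 i).2 m hi n hj hmn
    · have := (h4 j i h n hj m hi).1
      omega
  · rw [Finset.sum_biUnion hpd]
    apply Finset.sum_congr rfl
    intro k hk
    have e : ∀ n ∈ s k, ‖a n‖ = ‖v k‖ * ‖c k n‖ := by
      intro n hn
      rw [ha k hk n hn, norm_mul]
    rw [Finset.sum_congr rfl e, ← Finset.mul_sum, h2, mul_one]
  · intro z
    unfold polW
    rw [Finset.sum_biUnion hpd]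
    apply Finset.sum_congr rfl
    intro k hk
    rw [Finset.mul_sum]
    apply Finset.sum_congr rfl
    intro n hn
    rw [ha k hk n hn]
    ring

/-- the case of normalised polynomials with far apart spectra -/
private theorem not_sidon_aux {E : Set ℂ} (hE : IsClosed E) (hE1 : E ⊆ sphere 0 1) {q : ℝ} {N : ℕ}
    {s : ℕ → Finset ℕ} {c : ℕ → ℕ → ℂ} (h1 : ∀ j, LacSet q N (s j : Set ℕ))
    (h2 : ∀ j, ∑ n ∈ s j, ‖c j n‖ = 1)
    (h4 : ∀ i j, i < j → ∀ m ∈ s i, ∀ n ∈ s j, m < n ∧ q * m ≤ n)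
    (h0 : ∀ z ∈ E, Tendsto (fun j => polW (s j) (c j) z) atTop (𝓝 0)) (C : ℝ) :
    ¬ SidonIneq q N C E := by
  classical
  intro hS
  have hEc : IsCompact E := (isCompact_sphere (0 : ℂ) 1).of_isClosed_subset hE hE1
  let Q : ℕ → ℂ → ℂ := fun j z => polW (s j) (c j) z
  have hQ1 : ∀ j, ∀ z ∈ E, ‖Q j z‖ ≤ 1 := fun j z hz => polW_le (h2 j) (hE1 hz)
  have hQc : ∀ j, Continuous (Q j) := by
    intro j
    simp only [Q, polW]
    fun_prop
  have _ : CompactSpace ↥E := isCompact_iff_compactSpace.1 hEc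
  let F : ℕ → C(↥E × ↥(sphere (0 : ℂ) 1), ℝ) := fun j =>
    ⟨fun p => ((p.2 : ℂ) * Q j p.1).re, by
      have := hQc j
      fun_prop⟩
  have hF1 : ∀ j p, |F j p| ≤ 1 := by
    intro j p
    have e1 : ‖(p.2 : ℂ)‖ = 1 := mem_sphere_zero_iff_norm.1 p.2.2
    calc |F j p| ≤ ‖(p.2 : ℂ) * Q j p.1‖ := Complex.abs_re_le_norm _
      _ = ‖Q j p.1‖ := by rw [norm_mul, e1, one_mul]
      _ ≤ 1 := hQ1 j _ p.1.2
  have hF0 : ∀ p, Tendsto (fun j => F j p) atTop (𝓝 0) := by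
    intro p
    have e1 : Tendsto (fun j => (p.2 : ℂ) * Q j p.1) atTop (𝓝 ((p.2 : ℂ) * 0)) :=
      (h0 _ p.1.2).const_mul _
    rw [mul_zero] at e1
    have e2 := (Complex.continuous_re.tendsto 0).comp e1
    rw [Complex.zero_re] at e2
    exact e2
  set η : ℝ := 1 / (|C| + 1) with hη
  have hη0 : 0 < η := by positivity
  obtain ⟨w, hw0, hw1, hw2⟩ := exists_convex_lt F hF1 hF0 hη0
  obtain ⟨M, hM⟩ : ∃ M, w.support ⊆ Finset.range M :=
    ⟨w.support.sup id + 1, fun j hj => by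
      rw [Finset.mem_range]
      have : j ≤ w.support.sup id := Finset.le_sup (f := id) hj
      omega⟩
  have hw1' : ∑ j ∈ Finset.range M, w j = 1 := by
    rw [← hw1, Finsupp.sum_of_support_subset w hM _ (fun _ _ => rfl)]
  obtain ⟨t, a, ht1, ht2, ht3⟩ := exists_comb h1 h2 h4 (fun k => (w k : ℂ)) M
  have hsum : ∑ n ∈ t, ‖a n‖ = 1 := by
    rw [ht2, ← hw1']
    apply Finset.sum_congr rfl
    intro j _
    rw [Complex.norm_real, Real.norm_of_nonneg (hw0 j)]
  have hle : ∀ z ∈ E, ‖polW t a z‖ ≤ η := by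
    intro z hz
    by_contra hlt
    push Not at hlt
    set y := polW t a z with hy
    have hy0 : 0 < ‖y‖ := hη0.trans hlt
    let u : ℂ := (starRingEnd ℂ y) / ‖y‖
    have hu : u ∈ sphere (0 : ℂ) 1 := by
      rw [mem_sphere_zero_iff_norm]
      simp only [u]
      rw [norm_div, RCLike.norm_conj, Complex.norm_real, norm_norm, div_self hy0.ne']
    have huy : (u * y).re = ‖y‖ := by
      simp only [u]
      rw [div_mul_eq_mul_div, mul_comm, Complex.mul_conj, Complex.normSq_eq_norm_sq]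
      rw [← Complex.ofReal_div, Complex.ofReal_re]
      field_simp
    have h6 := hw2 (⟨z, hz⟩, ⟨u, hu⟩)
    rw [Finsupp.sum_of_support_subset w hM _ (fun _ _ => by rw [zero_mul])] at h6
    have h7 : ∑ j ∈ Finset.range M, w j * F j (⟨z, hz⟩, ⟨u, hu⟩) = (u * y).re := by
      rw [hy, ht3, Finset.mul_sum, Complex.re_sum]
      apply Finset.sum_congr rfl
      intro j _
      have e : u * ((w j : ℂ) * polW (s j) (c j) z) = (w j : ℂ) * (u * Q j z) := by
        simp only [Q]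
        ring
      rw [e, Complex.re_ofReal_mul]
      rfl
    rw [h7, huy] at h6
    linarith
  have hfin := hS t a η ht1 hη0.le hle
  rw [hsum] at hfin
  have h8 : C * η ≤ |C| * η := mul_le_mul_of_nonneg_right (le_abs_self C) hη0.le
  have h9 : |C| * η < 1 := by
    rw [hη, mul_one_div, div_lt_one (by positivity)]
    linarith
  linarith

/-- **Blocks that tend to zero pointwise** destroy the Sidon inequality. -/
theorem not_sidonIneq_of_pointwise {E : Set ℂ} (hE : IsClosed E) (hE1 : E ⊆ sphere 0 1) {q : ℝ}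
    (hq : 1 < q) (s : ℕ → Finset ℕ) (c : ℕ → ℕ → ℂ) (h1 : ∀ j, LacSet q j (s j : Set ℕ))
    (h2 : ∀ j, ∑ n ∈ s j, ‖c j n‖ ≤ 1) (h3 : ∀ j, 1 / 2 ≤ ∑ n ∈ s j, ‖c j n‖)
    (h4 : ∀ z ∈ E, Tendsto (fun j => ∑ n ∈ s j, c j n * z ^ n) atTop (𝓝 0)) (N : ℕ) (C : ℝ) :
    ¬ SidonIneq q N C E := by
  classical
  -- thinning out
  let nx : ℕ → ℕ := fun j => j + (s j).sup id + ⌈q * ((s j).sup id : ℕ)⌉₊ + 1
  let φ : ℕ → ℕ := fun j => Nat.rec N (fun _ M => nx M) j
  have hφs : ∀ j, φ (j + 1) = nx (φ j) := fun j => rfl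
  have hφ : StrictMono φ := by
    apply strictMono_nat_of_lt_succ
    intro j
    rw [hφs]
    simp only [nx]
    omega
  have hφN : ∀ j, N ≤ φ j := fun j => hφ.monotone (Nat.zero_le j)
  -- normalisation
  let T : ℕ → ℝ := fun j => ∑ n ∈ s (φ j), ‖c (φ j) n‖
  have hT0 : ∀ j, 0 < T j := fun j => lt_of_lt_of_le (by norm_num) (h3 (φ j))
  have g1 : ∀ j, LacSet q N (s (φ j) : Set ℕ) := fun j => (h1 (φ j)).mono (hφN j) le_rfl
  have g2 : ∀ j, ∑ n ∈ s (φ j), ‖((T j : ℂ)⁻¹) * c (φ j) n‖ = 1 := by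
    intro j
    simp_rw [norm_mul]
    rw [← Finset.mul_sum, norm_inv, Complex.norm_real, Real.norm_of_nonneg (hT0 j).le]
    exact inv_mul_cancel₀ (hT0 j).ne'
  have g4 : ∀ i j, i < j → ∀ m ∈ s (φ i), ∀ n ∈ s (φ j), m < n ∧ q * m ≤ n := by
    intro i j hij m hm n hn
    have e1 : m ≤ (s (φ i)).sup id := Finset.le_sup (f := id) hm
    have e2 : φ (i + 1) ≤ n := (hφ.monotone hij).trans ((h1 (φ j)).1 n hn).2
    rw [hφs] at e2
    simp only [nx] at e2
    refine ⟨by omega, ?_⟩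
    have e3 : q * (m : ℝ) ≤ q * ((s (φ i)).sup id : ℕ) :=
      mul_le_mul_of_nonneg_left (by exact_mod_cast e1) (by linarith)
    have e4 : q * (((s (φ i)).sup id : ℕ) : ℝ) ≤ (⌈q * ((s (φ i)).sup id : ℕ)⌉₊ : ℝ) :=
      Nat.le_ceil _
    have e5 : ((⌈q * ((s (φ i)).sup id : ℕ)⌉₊ : ℕ) : ℝ) ≤ n := by
      exact_mod_cast (by omega : ⌈q * ((s (φ i)).sup id : ℕ)⌉₊ ≤ n)
    linarith
  refine not_sidon_aux hE hE1 (s := fun j => s (φ j))
    (c := fun j n => ((T j : ℂ)⁻¹) * c (φ j) n) g1 g2 g4 ?_ C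
  intro z hz
  have e1 := ((h4 z hz).comp hφ.tendsto_atTop).norm
  rw [norm_zero] at e1
  have e2 := e1.const_mul 2
  rw [mul_zero] at e2
  refine squeeze_zero_norm (fun j => ?_) e2
  have e : polW (s (φ j)) (fun n => ((T j : ℂ)⁻¹) * c (φ j) n) z =
      ((T j : ℂ)⁻¹) * ∑ n ∈ s (φ j), c (φ j) n * z ^ n := by
    unfold polW
    rw [Finset.mul_sum]
    exact Finset.sum_congr rfl fun n _ => by ring
  rw [e, norm_mul, norm_inv, Complex.norm_real, Real.norm_of_nonneg (hT0 j).le]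
  apply mul_le_mul_of_nonneg_right _ (norm_nonneg _)
  rw [inv_le_comm₀ (hT0 j) two_pos]
  have := h3 (φ j)
  rw [← one_div]
  exact this

/-- **Increasing unions.** -/
theorem sidonIneq_of_iUnion {E : Set ℂ} (hE : IsClosed E) (hE1 : E ⊆ sphere 0 1) {q : ℝ}
    (hq : 1 < q) (F : ℕ → Set ℂ) (hF : Monotone F) (hEF : E ⊆ ⋃ i, F i)
    (h : ∃ (N : ℕ) (C : ℝ), SidonIneq q N C E) : ∃ (i N : ℕ) (C : ℝ), SidonIneq q N C (F i) := by
  by_contra hno
  push Not at hno
  obtain ⟨N, C, hS⟩ := h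
  choose s c g1 g2 g3 using fun j : ℕ => exists_small (hno j) j j
  refine not_sidonIneq_of_pointwise hE hE1 hq s c g1 (fun j => (g2 j).le)
    (fun j => by rw [g2 j]; norm_num) ?_ N C hS
  intro z hz
  obtain ⟨i, hi⟩ := Set.mem_iUnion.1 (hEF hz)
  have e1 : Tendsto (fun j : ℕ => 1 / ((j : ℝ) + 1)) atTop (𝓝 0) :=
    tendsto_one_div_add_atTop_nhds_zero_nat
  refine squeeze_zero_norm' ?_ e1
  filter_upwards [eventually_ge_atTop i] with j hj
  exact g3 j z (hF hj hi)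

/-- **Pointwise boundedness on dilates.** -/
theorem bdd_of_pointwise {E : Set ℂ} (hE : IsClosed E) (hE1 : E ⊆ sphere 0 1) {q : ℝ}
    (hq : 1 < q) (h : ∃ (N : ℕ) (C : ℝ), SidonIneq q N C E) (w : ℕ → ℂ) (hw : ∀ j, ‖w j‖ < 1)
    (hw1 : Tendsto (fun j => ‖w j‖) atTop (𝓝 1)) {c : ℕ → ℂ} (hL : Lac q c) (hc : Conv c)
    (hb : ∀ z ∈ E, ∃ M : ℝ, ∀ j, ‖ps c (w j * z)‖ ≤ M) : BddOnSet c (ball 0 1) := by
  classical
  by_cases hK : ∃ K : ℝ, ∀ s : Finset ℕ, ∑ n ∈ s, ‖c n‖ ≤ K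
  · obtain ⟨K, hK⟩ := hK
    exact bdd_of_sum_bdd hc hK
  exfalso
  push Not at hK
  obtain ⟨N, C, hS⟩ := h
  -- the absolute sums
  have hsum : ∀ j, Summable fun n => ‖c n‖ * ‖w j‖ ^ n := fun j =>
    hc.summable_norm (norm_nonneg _) (hw j)
  let T : ℕ → ℝ := fun j => ∑' n, ‖c n‖ * ‖w j‖ ^ n
  have hTlarge : ∀ K : ℝ, ∃ j, K < T j := by
    intro K
    obtain ⟨s, hs⟩ := hK K
    have h1 : Tendsto (fun j => ∑ n ∈ s, ‖c n‖ * ‖w j‖ ^ n) atTop (𝓝 (∑ n ∈ s, ‖c n‖ * 1 ^ n)) :=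
      tendsto_finsetSum _ fun n _ => (hw1.pow n).const_mul _
    simp only [one_pow, mul_one] at h1
    obtain ⟨j, hj⟩ := (h1.eventually (lt_mem_nhds hs)).exists
    exact ⟨j, hj.trans_le ((hsum j).sum_le_tsum s fun n _ => by positivity)⟩
  let B : ℕ → ℝ := fun J => ∑ n ∈ Finset.range J, ‖c n‖
  have hB0 : ∀ J, 0 ≤ B J := fun J => Finset.sum_nonneg fun n _ => norm_nonneg _
  choose j hj using fun J : ℕ => hTlarge (((J : ℝ) + 2) * (B J + 1))
  -- truncation
  have htail : ∀ J : ℕ, ∃ M : ℕ, J ≤ M ∧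
      T (j J) - ∑ n ∈ Finset.range M, ‖c n‖ * ‖w (j J)‖ ^ n ≤ 1 := by
    intro J
    have h1 := (hsum (j J)).hasSum.tendsto_sum_nat
    have h2 := h1.eventually (lt_mem_nhds (show T (j J) - 1 < T (j J) by linarith))
    obtain ⟨M, hM1, hM2⟩ := (h2.and (eventually_ge_atTop J)).exists
    exact ⟨M, hM2, by linarith⟩
  choose M hM1 hM2 using htail
  have hTpos : ∀ J, 0 < T (j J) := by
    intro J
    refine lt_of_le_of_lt ?_ (hj J)
    have := hB0 J
    positivity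
  let s : ℕ → Finset ℕ := fun J => (Finset.range (M J)).filter (fun n => J ≤ n ∧ c n ≠ 0)
  let a : ℕ → ℕ → ℂ := fun J n => ((T (j J) : ℂ)⁻¹) * (c n * w (j J) ^ n)
  have ha : ∀ J n, ‖a J n‖ = (T (j J))⁻¹ * (‖c n‖ * ‖w (j J)‖ ^ n) := by
    intro J n
    simp only [a]
    rw [norm_mul, norm_inv, Complex.norm_real, Real.norm_of_nonneg (hTpos J).le, norm_mul, norm_pow]
  have hlac : ∀ J, LacSet q J (s J : Set ℕ) := by
    intro J
    refine ⟨fun m hm => ?_, fun m hm n hn hmn => ?_⟩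
    · obtain ⟨_, h2, h3⟩ := Finset.mem_filter.1 (Finset.mem_coe.1 hm)
      refine ⟨Nat.pos_of_ne_zero fun h0 => ?_, h2⟩
      rw [h0] at h3
      exact h3 hL.1
    · obtain ⟨_, _, h3⟩ := Finset.mem_filter.1 (Finset.mem_coe.1 hm)
      obtain ⟨_, _, h4⟩ := Finset.mem_filter.1 (Finset.mem_coe.1 hn)
      exact hL.2 m n hmn h3 h4
  -- sums over the block
  have hblock : ∀ (J : ℕ) (g : ℕ → ℂ), (∀ n, c n = 0 → g n = 0) →
      ∑ n ∈ s J, g n = ∑ n ∈ Finset.range (M J), g n - ∑ n ∈ Finset.range J, g n := by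
    intro J g hg
    have e1 : ∑ n ∈ s J, g n = ∑ n ∈ (Finset.range (M J)).filter (fun n => J ≤ n), g n := by
      refine Finset.sum_subset (fun n hn => ?_) fun n hn hn' => ?_
      · obtain ⟨h1, h2, _⟩ := Finset.mem_filter.1 hn
        exact Finset.mem_filter.2 ⟨h1, h2⟩
      · obtain ⟨h1, h2⟩ := Finset.mem_filter.1 hn
        apply hg
        by_contra h3
        exact hn' (Finset.mem_filter.2 ⟨h1, h2, h3⟩)
    have e2 : (Finset.range (M J)).filter (fun n => ¬ J ≤ n) = Finset.range J := by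
      ext n
      simp only [Finset.mem_filter, Finset.mem_range]
      have := hM1 J
      omega
    rw [e1, eq_sub_iff_add_eq, ← e2]
    exact Finset.sum_filter_add_sum_filter_not _ _ _
  have hblockR : ∀ (J : ℕ) (g : ℕ → ℝ), (∀ n, c n = 0 → g n = 0) →
      ∑ n ∈ s J, g n = ∑ n ∈ Finset.range (M J), g n - ∑ n ∈ Finset.range J, g n := by
    intro J g hg
    have := hblock J (fun n => (g n : ℂ)) (fun n hn => by rw [hg n hn]; simp)
    exact_mod_cast this
  have hlow : ∀ J, ∑ n ∈ Finset.range J, ‖c n‖ * ‖w (j J)‖ ^ n ≤ B J := by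
    intro J
    refine Finset.sum_le_sum fun n _ => ?_
    have : ‖w (j J)‖ ^ n ≤ 1 := pow_le_one₀ (norm_nonneg _) (hw _).le
    nlinarith [norm_nonneg (c n)]
  have hasum : ∀ J, ∑ n ∈ s J, ‖a J n‖ = (T (j J))⁻¹ *
      (∑ n ∈ Finset.range (M J), ‖c n‖ * ‖w (j J)‖ ^ n -
        ∑ n ∈ Finset.range J, ‖c n‖ * ‖w (j J)‖ ^ n) := by
    intro J
    rw [← hblockR J (fun n => ‖c n‖ * ‖w (j J)‖ ^ n) (fun n hn => by rw [hn]; simp),
      Finset.mul_sum]
    exact Finset.sum_congr rfl fun n _ => ha J n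
  refine not_sidonIneq_of_pointwise hE hE1 hq s a hlac (fun J => ?_) (fun J => ?_) ?_ N C hS
  · rw [hasum, inv_mul_le_iff₀ (hTpos J), mul_one]
    have h1 : ∑ n ∈ Finset.range (M J), ‖c n‖ * ‖w (j J)‖ ^ n ≤ T (j J) :=
      (hsum (j J)).sum_le_tsum _ fun n _ => by positivity
    have h2 : 0 ≤ ∑ n ∈ Finset.range J, ‖c n‖ * ‖w (j J)‖ ^ n :=
      Finset.sum_nonneg fun n _ => by positivity
    linarith
  · rw [hasum, le_inv_mul_iff₀ (hTpos J)]
    have h1 := hM2 J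
    have h2 := hlow J
    have h3 := hj J
    have h4 := hB0 J
    have h5 : (0 : ℝ) ≤ J := Nat.cast_nonneg J
    nlinarith
  · intro z hz
    obtain ⟨R, hR⟩ := hb z hz
    have hR0 : 0 ≤ R := (norm_nonneg _).trans (hR 0)
    have hz1 : ‖z‖ = 1 := mem_sphere_zero_iff_norm.1 (hE1 hz)
    have e0 : Tendsto (fun J : ℕ => (R + 1) * (1 / ((J : ℝ) + 1))) atTop (𝓝 ((R + 1) * 0)) :=
      tendsto_one_div_add_atTop_nhds_zero_nat.const_mul _
    rw [mul_zero] at e0
    refine squeeze_zero_norm (fun J => ?_) e0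
    have e1 : ∑ n ∈ s J, a J n * z ^ n = ((T (j J) : ℂ)⁻¹) *
        (∑ n ∈ Finset.range (M J), c n * (w (j J) * z) ^ n -
          ∑ n ∈ Finset.range J, c n * (w (j J) * z) ^ n) := by
      rw [← hblock J (fun n => c n * (w (j J) * z) ^ n) (fun n hn => by rw [hn]; simp),
        Finset.mul_sum]
      refine Finset.sum_congr rfl fun n _ => ?_
      simp only [a]
      rw [mul_pow]
      ring
    have hcv : Summable fun n => c n * (w (j J) * z) ^ n := by
      apply hc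
      rw [norm_mul, hz1, mul_one]
      exact hw _
    have hnorm : ∀ n, ‖c n * (w (j J) * z) ^ n‖ = ‖c n‖ * ‖w (j J)‖ ^ n := by
      intro n
      rw [norm_mul, norm_pow, norm_mul, hz1, mul_one]
    have e2 : ‖ps c (w (j J) * z) - ∑ n ∈ Finset.range (M J), c n * (w (j J) * z) ^ n‖ ≤ 1 := by
      have h1 : ps c (w (j J) * z) - ∑ n ∈ Finset.range (M J), c n * (w (j J) * z) ^ n =
          ∑' n, c (n + M J) * (w (j J) * z) ^ (n + M J) := by
        unfold ps
        rw [← hcv.sum_add_tsum_nat_add (M J)]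
        ring
      rw [h1]
      have h2 : Summable fun n => ‖c (n + M J) * (w (j J) * z) ^ (n + M J)‖ :=
        (summable_nat_add_iff (M J)).2 hcv.norm
      refine (norm_tsum_le_tsum_norm h2).trans ?_
      have h3 : ∑' n, ‖c (n + M J) * (w (j J) * z) ^ (n + M J)‖ =
          T (j J) - ∑ n ∈ Finset.range (M J), ‖c n‖ * ‖w (j J)‖ ^ n := by
        have h4 := (hsum (j J)).sum_add_tsum_nat_add (M J)
        have h5 : ∀ n, ‖c (n + M J) * (w (j J) * z) ^ (n + M J)‖ =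
            ‖c (n + M J)‖ * ‖w (j J)‖ ^ (n + M J) := fun n => hnorm _
        rw [tsum_congr h5]
        simp only [T]
        linarith
      rw [h3]
      exact hM2 J
    have e3 : ‖∑ n ∈ Finset.range J, c n * (w (j J) * z) ^ n‖ ≤ B J := by
      refine (norm_sum_le _ _).trans (le_trans (le_of_eq ?_) (hlow J))
      exact Finset.sum_congr rfl fun n _ => hnorm n
    rw [e1, norm_mul, norm_inv, Complex.norm_real, Real.norm_of_nonneg (hTpos J).le,
      inv_mul_le_iff₀ (hTpos J)]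
    have e4 : ‖∑ n ∈ Finset.range (M J), c n * (w (j J) * z) ^ n -
          ∑ n ∈ Finset.range J, c n * (w (j J) * z) ^ n‖ ≤ R + 1 + B J := by
      have h1 := norm_sub_le (∑ n ∈ Finset.range (M J), c n * (w (j J) * z) ^ n)
        (∑ n ∈ Finset.range J, c n * (w (j J) * z) ^ n)
      have h2 : ‖∑ n ∈ Finset.range (M J), c n * (w (j J) * z) ^ n‖ ≤ R + 1 := by
        have h3 := norm_sub_norm_le (∑ n ∈ Finset.range (M J), c n * (w (j J) * z) ^ n)
          (ps c (w (j J) * z))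
        rw [norm_sub_rev] at h3
        have h4 := hR (j J)
        linarith
      linarith
    refine e4.trans ?_
    have h3 := (hj J).le
    have h4 := hB0 J
    have h5 : (0 : ℝ) ≤ J := Nat.cast_nonneg J
    have h6 : (0 : ℝ) < (J : ℝ) + 1 := by positivity
    rw [← mul_assoc, mul_one_div, le_div_iff₀ h6]
    have h7 : (R + 1 + B J) * ((J : ℝ) + 1) ≤ (R + 1) * ((B J + 1) * ((J : ℝ) + 2)) := by
      have h8 : R + 1 + B J ≤ (R + 1) * (B J + 1) := by nlinarith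
      have h9 : (R + 1 + B J) * ((J : ℝ) + 1) ≤ (R + 1) * (B J + 1) * ((J : ℝ) + 1) :=
        mul_le_mul_of_nonneg_right h8 h6.le
      have h10 : (R + 1) * (B J + 1) * ((J : ℝ) + 1) ≤ (R + 1) * (B J + 1) * ((J : ℝ) + 2) :=
        mul_le_mul_of_nonneg_left (by linarith) (by positivity)
      nlinarith
    have h11 : (R + 1) * ((B J + 1) * ((J : ℝ) + 2)) ≤ (R + 1) * T (j J) :=
      mul_le_mul_of_nonneg_left (by linarith) (by linarith)
    linarith

end Forcing
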