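import Pool.Agent.Lib.MP_c80ac4_an.RieszC

/-! # Riesz products: a measure with polynomial Fourier decay gives a Sidon inequality -/

namespace Forcing

open Complex Metric Set MeasureTheory Filter Topology

/-- **Module RZ.** Sidon inequality from polynomial Fourier decay, uniform in the measure. -/
theorem sidonIneq_of_decay (q C0 δ : ℝ) (hq : 1 < q) (hδ : 0 < δ) :
    ∃ (N : ℕ) (C : ℝ), ∀ (μ : Measure ℂ) [IsProbabilityMeasure μ] (E : Set ℂ),
      (∀ᵐ z ∂μ, ‖z‖ = 1) → (∀ᵐ z ∂μ, z ∈ E) →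
      (∀ n : ℕ, 1 ≤ n → ‖∫ z, z ^ n ∂μ‖ ≤ C0 * (n : ℝ) ^ (-δ)) → SidonIneq q N C E := by
  obtain ⟨N, K, hK, h⟩ := RZ.key hq hδ (le_max_right C0 0)
  refine ⟨N, K, fun μ _ E h1 hE hd => ?_⟩
  intro s c M hs hM hb
  have hd' : RZ.Dec μ (max C0 0) δ := fun n hn =>
    (hd n hn).trans (mul_le_mul_of_nonneg_right (le_max_left _ _) (by positivity))
  set b : ℕ → ℂ := fun n => if n ∈ s then c n else 0 with hbd
  have hbs : ∀ n, b n ≠ 0 → n ∈ s := by
    intro n hn
    by_contra hns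
    exact hn (by simp [hbd, hns])
  have hb0 : ∀ n, n ∉ s → b n = 0 := fun n hn => by simp [hbd, hn]
  have hb1 : ∀ n ∈ s, b n = c n := fun n hn => by simp [hbd, hn]
  have hlac : Lac q b := by
    refine ⟨?_, ?_⟩
    · by_contra h0
      exact lt_irrefl 0 (hs.1 0 (hbs 0 h0)).1
    · intro m n hmn hm hn
      exact hs.2 m (hbs m hm) n (hbs n hn) hmn
  have hsum : Summable fun n => ‖b n‖ := by
    refine summable_of_ne_finset_zero (s := s) fun n hn => ?_
    rw [hb0 n hn, norm_zero]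
  have e1 : ∑' n, ‖b n‖ = ∑ n ∈ s, ‖c n‖ := by
    rw [tsum_eq_sum (s := s) fun n hn => by rw [hb0 n hn, norm_zero]]
    exact Finset.sum_congr rfl fun n hn => by rw [hb1 n hn]
  have e2 : ∀ z : ℂ, ∑' n, b n * z ^ n = ∑ n ∈ s, c n * z ^ n := by
    intro z
    rw [tsum_eq_sum (s := s) fun n hn => by rw [hb0 n hn, zero_mul]]
    exact Finset.sum_congr rfl fun n hn => by rw [hb1 n hn]
  rw [← e1]
  refine h μ h1 hd' b hlac (fun n hn => (hs.1 n (hbs n hn)).2) hsum M ?_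
  filter_upwards [hE] with z hz
  rw [e2]
  exact hb z hz

end Forcing
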