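import Pool.Agent.Lib.MP_c80ac4_an.Defs

/-!
# Riesz products relative to a measure with power decay of the Fourier coefficients
-/

namespace Forcing.RZ

open MeasureTheory Finset

/-- Riesz product with frequencies in `A`. -/
noncomputable def rp (ε : ℕ → ℂ) (A : Finset ℕ) (z : ℂ) : ℂ :=
  ∏ n ∈ A, (1 + (ε n * z ^ (-(n : ℤ)) + (starRingEnd ℂ) (ε n) * z ^ (n : ℤ)) / 2)

/-- its Fourier coefficients -/
noncomputable def rI (μ : Measure ℂ) (ε : ℕ → ℂ) (A : Finset ℕ) (m : ℤ) : ℂ :=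
  ∫ z, z ^ m * rp ε A z ∂μ

lemma meas_zpow (m : ℤ) : Measurable (fun z : ℂ => z ^ m) := by
  rcases m with k | k
  · simp only [Int.ofNat_eq_natCast, zpow_natCast]
    fun_prop
  · simp only [zpow_negSucc]
    fun_prop

lemma meas_rp (ε : ℕ → ℂ) (A : Finset ℕ) : Measurable (rp ε A) := by
  unfold rp
  refine Finset.measurable_prod _ fun n _ => ?_
  refine measurable_const.add (Measurable.div_const ?_ 2)
  exact ((meas_zpow _).const_mul _).add ((meas_zpow _).const_mul _)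

lemma norm_rp_le {ε : ℕ → ℂ} (hε : ∀ n, ‖ε n‖ ≤ 1) (A : Finset ℕ) {z : ℂ} (hz : ‖z‖ = 1) :
    ‖rp ε A z‖ ≤ 2 ^ A.card := by
  unfold rp
  rw [norm_prod, ← Finset.prod_const]
  refine Finset.prod_le_prod (fun n _ => norm_nonneg _) fun n _ => ?_
  have h1 : ‖ε n * z ^ (-(n : ℤ)) + (starRingEnd ℂ) (ε n) * z ^ (n : ℤ)‖ ≤ 2 := by
    refine (norm_add_le _ _).trans ?_
    rw [norm_mul, norm_mul, norm_zpow, norm_zpow, hz, one_zpow, one_zpow, RCLike.norm_conj]
    have := hε n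
    linarith
  refine (norm_add_le _ _).trans ?_
  rw [norm_one, norm_div]
  have h2 : ‖(2 : ℂ)‖ = 2 := by simp
  rw [h2]
  linarith

/-- on the circle the Riesz product is real and nonnegative -/
lemma rp_nonneg {ε : ℕ → ℂ} (hε : ∀ n, ‖ε n‖ ≤ 1) (A : Finset ℕ) {z : ℂ} (hz : ‖z‖ = 1) :
    ∃ t : ℝ, 0 ≤ t ∧ rp ε A z = t := by
  have hc : ∀ n : ℕ, ∃ t : ℝ, 0 ≤ t ∧
      (1 + (ε n * z ^ (-(n : ℤ)) + (starRingEnd ℂ) (ε n) * z ^ (n : ℤ)) / 2) = (t : ℂ) := by
    intro n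
    have hconj : (starRingEnd ℂ) (ε n) * z ^ (n : ℤ) =
        (starRingEnd ℂ) (ε n * z ^ (-(n : ℤ))) := by
      rw [map_mul, map_zpow₀]
      congr 1
      have hz1 : (starRingEnd ℂ) z = z⁻¹ := by
        rw [Complex.inv_def, Complex.normSq_eq_norm_sq, hz]; simp
      rw [hz1, zpow_neg, inv_zpow, inv_inv]
    refine ⟨1 + (ε n * z ^ (-(n : ℤ))).re, ?_, ?_⟩
    · have h1 : |(ε n * z ^ (-(n : ℤ))).re| ≤ 1 := by
        refine (Complex.abs_re_le_norm _).trans ?_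
        rw [norm_mul, norm_zpow, hz, one_zpow, mul_one]
        exact hε n
      have := (abs_le.mp h1).1
      linarith
    · rw [hconj, Complex.add_conj]
      push_cast
      ring
  choose t ht0 ht using hc
  refine ⟨∏ n ∈ A, t n, Finset.prod_nonneg fun n _ => ht0 n, ?_⟩
  unfold rp
  rw [Complex.ofReal_prod]
  exact Finset.prod_congr rfl fun n _ => ht n

section
set_option linter.unusedSectionVars false
variable {μ : Measure ℂ} [IsProbabilityMeasure μ]

lemma int_rp (hμ : ∀ᵐ z ∂μ, ‖z‖ = 1) {ε : ℕ → ℂ} (hε : ∀ n, ‖ε n‖ ≤ 1) (A : Finset ℕ) (m : ℤ) :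
    Integrable (fun z => z ^ m * rp ε A z) μ := by
  refine Integrable.of_bound ((meas_zpow m).mul (meas_rp ε A)).aestronglyMeasurable
    (2 ^ A.card) ?_
  filter_upwards [hμ] with z hz
  rw [norm_mul, norm_zpow, hz, one_zpow, one_mul]
  exact norm_rp_le hε A hz

lemma rI_insert (hμ : ∀ᵐ z ∂μ, ‖z‖ = 1) {ε : ℕ → ℂ} (hε : ∀ n, ‖ε n‖ ≤ 1) {A : Finset ℕ} {n : ℕ}
    (hn : n ∉ A) (m : ℤ) :
    rI μ ε (insert n A) m = rI μ ε A m + ε n / 2 * rI μ ε A (m - n) +
      (starRingEnd ℂ) (ε n) / 2 * rI μ ε A (m + n) := by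
  unfold rI
  rw [← integral_const_mul, ← integral_const_mul, ← integral_add (int_rp hμ hε A m)
    ((int_rp hμ hε A _).const_mul _), ← integral_add]
  · refine integral_congr_ae ?_
    filter_upwards [hμ] with z hz
    have hz0 : z ≠ 0 := by
      rintro rfl
      simp at hz
    show z ^ m * rp ε (insert n A) z = _
    unfold rp
    rw [Finset.prod_insert hn, zpow_sub₀ hz0, zpow_add₀ hz0, zpow_neg]
    ring
  · exact (int_rp hμ hε A m).add ((int_rp hμ hε A _).const_mul _)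
  · exact (int_rp hμ hε A _).const_mul _

lemma rI_empty (ε : ℕ → ℂ) (m : ℤ) : rI μ ε ∅ m = ∫ z, z ^ m ∂μ := by
  simp [rI, rp]

/-- decay of the Fourier coefficients -/
def Dec (μ : Measure ℂ) (C α : ℝ) : Prop :=
  ∀ n : ℕ, 1 ≤ n → ‖∫ z, z ^ n ∂μ‖ ≤ C * (n : ℝ) ^ (-α)

lemma Dec.int (hμ : ∀ᵐ z ∂μ, ‖z‖ = 1) {C α : ℝ} (hα : 0 < α) (hC : 0 ≤ C) (h : Dec μ C α) {m : ℤ}
    {D : ℝ} (hD : 0 < D) (hm : D ≤ |(m : ℝ)|) : ‖∫ z, z ^ m ∂μ‖ ≤ C * D ^ (-α) := by
  have key : ∀ n : ℕ, D ≤ n → ‖∫ z, z ^ (n : ℤ) ∂μ‖ ≤ C * D ^ (-α) := by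
    intro n hn
    have hn1 : 1 ≤ n := by
      rcases Nat.eq_zero_or_pos n with h0 | h0
      · rw [h0] at hn; simp at hn; linarith
      · exact h0
    have h1 := h n hn1
    simp only [zpow_natCast]
    refine h1.trans (mul_le_mul_of_nonneg_left ?_ hC)
    exact Real.rpow_le_rpow_of_nonpos hD hn (by linarith)
  rcases le_total 0 m with h0 | h0
  · obtain ⟨n, rfl⟩ := Int.eq_ofNat_of_zero_le h0
    apply key
    simpa using hm
  · obtain ⟨n, hn⟩ := Int.eq_ofNat_of_zero_le (neg_nonneg.mpr h0)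
    have hmn : m = -(n : ℤ) := by omega
    subst hmn
    have h2 : ∫ z, z ^ (-(n : ℤ)) ∂μ = (starRingEnd ℂ) (∫ z, z ^ (n : ℤ) ∂μ) := by
      rw [← integral_conj]
      refine integral_congr_ae ?_
      filter_upwards [hμ] with z hz
      have hz1 : (starRingEnd ℂ) z = z⁻¹ := by
        rw [Complex.inv_def, Complex.normSq_eq_norm_sq, hz]; simp
      rw [map_zpow₀, hz1, zpow_neg, inv_zpow]
    rw [h2, RCLike.norm_conj]
    apply key
    simpa using hm

lemma rI_far (hμ : ∀ᵐ z ∂μ, ‖z‖ = 1) {C α : ℝ} (hα : 0 < α) (hC : 0 ≤ C) (h : Dec μ C α)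
    {ε : ℕ → ℂ} (hε : ∀ n, ‖ε n‖ ≤ 1) {D : ℝ} (hD : 0 < D) (A : Finset ℕ) :
    ∀ m : ℤ, D + ∑ n ∈ A, (n : ℝ) ≤ |(m : ℝ)| → ‖rI μ ε A m‖ ≤ 2 ^ A.card * (C * D ^ (-α)) := by
  induction A using Finset.induction_on with
  | empty =>
    intro m hm
    rw [rI_empty]
    simpa using h.int hμ hα hC hD (by simpa using hm)
  | insert n A hn ih =>
    intro m hm
    rw [Finset.sum_insert hn] at hm
    rw [rI_insert hμ hε hn, Finset.card_insert_of_notMem hn, pow_succ]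
    have hn0 : (0 : ℝ) ≤ n := Nat.cast_nonneg n
    have h1 := ih m (by linarith)
    have h2 := ih (m - n) (by
      push_cast
      have := abs_sub_abs_le_abs_sub (m : ℝ) (n : ℝ)
      rw [abs_of_nonneg hn0] at this
      linarith)
    have h3 := ih (m + n) (by
      push_cast
      have := abs_sub_abs_le_abs_sub (m : ℝ) (-(n : ℝ))
      rw [abs_neg, abs_of_nonneg hn0, sub_neg_eq_add] at this
      linarith)
    have h4 : ‖ε n / 2‖ ≤ 1 / 2 := by
      rw [norm_div]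
      have : ‖(2 : ℂ)‖ = 2 := by simp
      rw [this]
      have := hε n
      linarith
    have h5 : ‖(starRingEnd ℂ) (ε n) / 2‖ ≤ 1 / 2 := by
      rw [norm_div, RCLike.norm_conj]
      have : ‖(2 : ℂ)‖ = 2 := by simp
      rw [this]
      have := hε n
      linarith
    set X := 2 ^ A.card * (C * D ^ (-α)) with hX
    have hX0 : 0 ≤ X := (norm_nonneg _).trans h1
    calc _ ≤ ‖rI μ ε A m‖ + ‖ε n / 2 * rI μ ε A (m - n)‖ +
          ‖(starRingEnd ℂ) (ε n) / 2 * rI μ ε A (m + n)‖ := norm_add₃_le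
      _ ≤ X + 1 / 2 * X + 1 / 2 * X := by
          rw [norm_mul, norm_mul]
          gcongr
      _ = 2 ^ A.card * 2 * (C * D ^ (-α)) := by rw [hX]; ring

end

/-! ### gap lemmas -/

lemma gap_sum_le {Q : ℝ} (hQ : 1 < Q) (A : Finset ℕ)
    (hA : ∀ m ∈ A, ∀ n ∈ A, m < n → Q * m ≤ n) :
    ∀ x : ℝ, 0 ≤ x → (∀ m ∈ A, Q * m ≤ x) → ∑ m ∈ A, (m : ℝ) ≤ x / (Q - 1) := by
  induction A using Finset.induction_on_max with
  | empty =>
    intro x hx _
    simp only [Finset.sum_empty]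
    exact div_nonneg hx (by linarith)
  | insert b B hb ih =>
    intro x hx hB
    have hbB : b ∉ B := fun h => lt_irrefl _ (hb b h)
    rw [Finset.sum_insert hbB]
    have h1 := ih (fun m hm n hn => hA m (Finset.mem_insert_of_mem hm) n
      (Finset.mem_insert_of_mem hn)) b (Nat.cast_nonneg b)
      (fun m hm => hA m (Finset.mem_insert_of_mem hm) b (Finset.mem_insert_self _ _) (hb m hm))
    have h2 := hB b (Finset.mem_insert_self _ _)
    have hQ1 : 0 < Q - 1 := by linarith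
    calc (b : ℝ) + ∑ m ∈ B, (m : ℝ) ≤ b + b / (Q - 1) := by linarith
      _ = Q * b / (Q - 1) := by field_simp; ring
      _ ≤ x / (Q - 1) := by gcongr

lemma gap_pow_le {Q : ℝ} (hQ : 1 < Q) {N : ℕ} (A : Finset ℕ)
    (hA : ∀ m ∈ A, ∀ n ∈ A, m < n → Q * m ≤ n) (hN : ∀ m ∈ A, N ≤ m) :
    ∀ x : ℝ, (N : ℝ) ≤ x → (∀ m ∈ A, Q * m ≤ x) → N * Q ^ A.card ≤ x := by
  induction A using Finset.induction_on_max with
  | empty =>
    intro x hx _
    simpa using hx
  | insert b B hb ih =>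
    intro x hx hB
    have hbB : b ∉ B := fun h => lt_irrefl _ (hb b h)
    rw [Finset.card_insert_of_notMem hbB, pow_succ]
    have h1 := ih (fun m hm n hn => hA m (Finset.mem_insert_of_mem hm) n
      (Finset.mem_insert_of_mem hn)) (fun m hm => hN m (Finset.mem_insert_of_mem hm)) b
      (by exact_mod_cast hN b (Finset.mem_insert_self _ _))
      (fun m hm => hA m (Finset.mem_insert_of_mem hm) b (Finset.mem_insert_self _ _) (hb m hm))
    have h2 := hB b (Finset.mem_insert_self _ _)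
    calc (N : ℝ) * (Q ^ B.card * Q) = Q * (N * Q ^ B.card) := by ring
      _ ≤ Q * b := by gcongr
      _ ≤ x := h2

end Forcing.RZ
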