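import Pool.Agent.Lib.MP_c80ac4_an.RieszA

/-!
# Riesz products: main estimate
-/

namespace Forcing.RZ

open MeasureTheory Finset

set_option linter.unusedSectionVars false

/-- parameters of the estimate -/
structure Par (Q α C c κ : ℝ) (N : ℕ) : Prop where
  Q1 : 1 < Q
  Qα : 4 ≤ Q ^ α
  α0 : 0 < α
  C0 : 0 ≤ C
  c0 : 0 < c
  c1 : 2 * c ≤ 1
  Qc : 1 / (Q - 1) ≤ c
  N0 : 1 ≤ N
  hκ : C * (c * N) ^ (-α) ≤ κ

variable {Q α C c κ : ℝ} {N : ℕ}

lemma Par.κ0 (h : Par Q α C c κ N) : 0 ≤ κ := by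
  refine le_trans ?_ h.hκ
  have := h.c0
  have := h.C0
  positivity

lemma Par.term (h : Par Q α C c κ N) {B : Finset ℕ}
    (hB : ∀ m ∈ B, ∀ n ∈ B, m < n → Q * m ≤ n) (hN : ∀ m ∈ B, N ≤ m) {n : ℕ} (hn : N ≤ n)
    (hBn : ∀ m ∈ B, Q * m ≤ n) : 2 ^ B.card * (C * (c * n) ^ (-α)) ≤ κ / 2 ^ B.card := by
  have h1 := gap_pow_le h.Q1 B hB hN n (by exact_mod_cast hn) hBn
  have hN0 : (0 : ℝ) < N := by exact_mod_cast h.N0
  have hQ0 : 0 < Q := by linarith [h.Q1]
  have hc := h.c0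
  have hC := h.C0
  have hα := h.α0
  set k := B.card with hk
  have h2 : (c * n) ^ (-α) ≤ (c * N) ^ (-α) * (4 ^ k)⁻¹ := by
    calc (c * n) ^ (-α) ≤ (c * N * Q ^ k) ^ (-α) := by
          refine Real.rpow_le_rpow_of_nonpos (by positivity) ?_ (by linarith)
          rw [mul_assoc]
          gcongr
      _ = (c * N) ^ (-α) * ((Q ^ α) ^ k)⁻¹ := by
          rw [Real.mul_rpow (by positivity) (by positivity), Real.rpow_neg (by positivity),
            Real.rpow_neg (by positivity), ← Real.rpow_natCast Q k, ← Real.rpow_mul hQ0.le,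
            mul_comm (k : ℝ) α, Real.rpow_mul hQ0.le, Real.rpow_natCast]
      _ ≤ (c * N) ^ (-α) * (4 ^ k)⁻¹ := by
          have := h.Qα
          gcongr
  calc 2 ^ k * (C * (c * n) ^ (-α)) ≤ 2 ^ k * (C * ((c * N) ^ (-α) * (4 ^ k)⁻¹)) := by gcongr
    _ = C * (c * N) ^ (-α) / 2 ^ k := by
        have : (4 : ℝ) ^ k = 2 ^ k * 2 ^ k := by
          rw [← mul_pow]; norm_num
        rw [this]
        field_simp
    _ ≤ κ / 2 ^ k := by
        have := h.hκ
        gcongr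

lemma gap_step (k : ℕ) (κ : ℝ) : κ * (2 - 2 / 2 ^ k) + κ / 2 ^ k = κ * (2 - 2 / 2 ^ (k + 1)) := by
  rw [pow_succ]
  field_simp
  ring

variable {μ : Measure ℂ} [IsProbabilityMeasure μ]

lemma rI_zero (hμ : ∀ᵐ z ∂μ, ‖z‖ = 1) (hd : Dec μ C α) (h : Par Q α C c κ N)
    {ε : ℕ → ℂ} (hε : ∀ n, ‖ε n‖ ≤ 1) (A : Finset ℕ)
    (hA : ∀ m ∈ A, ∀ n ∈ A, m < n → Q * m ≤ n) (hN : ∀ m ∈ A, N ≤ m) :
    ‖rI μ ε A 0 - 1‖ ≤ κ * (2 - 2 / 2 ^ A.card) := by
  induction A using Finset.induction_on_max with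
  | empty => simp [rI_empty]
  | insert n B hb ih =>
    have hbB : n ∉ B := fun h => lt_irrefl _ (hb n h)
    have hB : ∀ m ∈ B, ∀ n ∈ B, m < n → Q * m ≤ n := fun m hm n hn =>
      hA m (Finset.mem_insert_of_mem hm) n (Finset.mem_insert_of_mem hn)
    have hNB : ∀ m ∈ B, N ≤ m := fun m hm => hN m (Finset.mem_insert_of_mem hm)
    have hBn : ∀ m ∈ B, Q * m ≤ n := fun m hm =>
      hA m (Finset.mem_insert_of_mem hm) n (Finset.mem_insert_self _ _) (hb m hm)
    have hn : N ≤ n := hN n (Finset.mem_insert_self _ _)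
    have hn0 : (0 : ℝ) < n := by exact_mod_cast h.N0.trans hn
    have h1 := ih hB hNB
    have hs : ∑ m ∈ B, (m : ℝ) ≤ c * n := by
      refine (gap_sum_le h.Q1 B hB n hn0.le hBn).trans ?_
      rw [div_eq_mul_one_div, mul_comm]
      have := h.Qc
      gcongr
    have hfar : ∀ m : ℤ, |(m : ℝ)| = n → ‖rI μ ε B m‖ ≤ κ / 2 ^ B.card := by
      intro m hm
      refine (rI_far hμ h.α0 h.C0 hd hε (mul_pos h.c0 hn0) B m ?_).trans
        (h.term hB hNB hn hBn)
      rw [hm]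
      have := h.c1
      nlinarith
    have h2 := hfar (0 - n) (by simp)
    have h3 := hfar (0 + n) (by simp)
    have h4 : ‖ε n / 2‖ ≤ 1 / 2 := by
      rw [norm_div]
      have : ‖(2 : ℂ)‖ = 2 := by simp
      rw [this]
      have := hε n
      linarith
    have h5 : ‖(starRingEnd ℂ) (ε n) / 2‖ ≤ 1 / 2 := by
      rw [norm_div, RCLike.norm_conj]
      have : ‖(2 : ℂ)‖ = 2 := by simp
      rw [this]
      have := hε n
      linarith
    rw [rI_insert hμ hε hbB, Finset.card_insert_of_notMem hbB, ← gap_step]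
    have hX0 := (norm_nonneg _).trans h2
    set X := κ / 2 ^ B.card with hX
    calc _ = ‖(rI μ ε B 0 - 1) + ε n / 2 * rI μ ε B (0 - n) +
          (starRingEnd ℂ) (ε n) / 2 * rI μ ε B (0 + n)‖ := by congr 1; ring
      _ ≤ ‖rI μ ε B 0 - 1‖ + ‖ε n / 2 * rI μ ε B (0 - n)‖ +
          ‖(starRingEnd ℂ) (ε n) / 2 * rI μ ε B (0 + n)‖ := norm_add₃_le
      _ ≤ κ * (2 - 2 / 2 ^ B.card) + 1 / 2 * X + 1 / 2 * X := by
          rw [norm_mul, norm_mul]
          gcongr
      _ = κ * (2 - 2 / 2 ^ B.card) + X := by ring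

lemma rI_main (hμ : ∀ᵐ z ∂μ, ‖z‖ = 1) (hd : Dec μ C α) (h : Par Q α C c κ N)
    {ε : ℕ → ℂ} (hε : ∀ n, ‖ε n‖ ≤ 1) {m : ℕ} (hm : N ≤ m) (A : Finset ℕ)
    (hA : ∀ m ∈ A, ∀ n ∈ A, m < n → Q * m ≤ n) (hN : ∀ m ∈ A, N ≤ m)
    (hmA : ∀ n ∈ A, n ≠ m → 2 * c * n ≤ |(m : ℝ) - n|) :
    ‖rI μ ε A m - (if m ∈ A then ε m / 2 else 0)‖ ≤ κ * (1 + 2 * (2 - 2 / 2 ^ A.card)) := by
  induction A using Finset.induction_on_max with
  | empty =>
    simp only [Finset.notMem_empty, if_false, sub_zero, rI_empty, Finset.card_empty, pow_zero]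
    have hm0 : (0 : ℝ) < m := by exact_mod_cast h.N0.trans hm
    have hN0 : (0 : ℝ) < N := by exact_mod_cast h.N0
    have hc := h.c0
    have h1 := hd.int hμ h.α0 h.C0 (m := (m : ℤ)) (D := c * N) (by positivity) (by
      have h2 : (N : ℝ) ≤ m := by exact_mod_cast hm
      rw [Int.cast_natCast, abs_of_pos hm0]
      have := h.c1
      nlinarith)
    refine h1.trans (h.hκ.trans ?_)
    have := h.κ0
    norm_num
  | insert n B hb ih =>
    have hbB : n ∉ B := fun h => lt_irrefl _ (hb n h)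
    have hB : ∀ m ∈ B, ∀ n ∈ B, m < n → Q * m ≤ n := fun m hm n hn =>
      hA m (Finset.mem_insert_of_mem hm) n (Finset.mem_insert_of_mem hn)
    have hNB : ∀ m ∈ B, N ≤ m := fun m hm => hN m (Finset.mem_insert_of_mem hm)
    have hBn : ∀ m ∈ B, Q * m ≤ n := fun m hm =>
      hA m (Finset.mem_insert_of_mem hm) n (Finset.mem_insert_self _ _) (hb m hm)
    have hn : N ≤ n := hN n (Finset.mem_insert_self _ _)
    have hn0 : (0 : ℝ) < n := by exact_mod_cast h.N0.trans hn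
    have h1 := ih hB hNB (fun k hk => hmA k (Finset.mem_insert_of_mem hk))
    have hs : ∑ m ∈ B, (m : ℝ) ≤ c * n := by
      refine (gap_sum_le h.Q1 B hB n hn0.le hBn).trans ?_
      rw [div_eq_mul_one_div, mul_comm]
      have := h.Qc
      gcongr
    have hfar : ∀ j : ℤ, 2 * c * n ≤ |(j : ℝ)| → ‖rI μ ε B j‖ ≤ κ / 2 ^ B.card := by
      intro j hj
      refine (rI_far hμ h.α0 h.C0 hd hε (mul_pos h.c0 hn0) B j ?_).trans
        (h.term hB hNB hn hBn)
      linarith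
    have h4 : ‖ε n / 2‖ ≤ 1 / 2 := by
      rw [norm_div]
      have : ‖(2 : ℂ)‖ = 2 := by simp
      rw [this]
      have := hε n
      linarith
    have h5 : ‖(starRingEnd ℂ) (ε n) / 2‖ ≤ 1 / 2 := by
      rw [norm_div, RCLike.norm_conj]
      have : ‖(2 : ℂ)‖ = 2 := by simp
      rw [this]
      have := hε n
      linarith
    have hm0 : (0 : ℝ) ≤ m := Nat.cast_nonneg m
    have hc1 := h.c1
    have h3 := hfar (m + n) (by
      push_cast
      rw [abs_of_nonneg (by positivity)]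
      nlinarith)
    have hX0 := (norm_nonneg _).trans h3
    have hκ := h.κ0
    rw [rI_insert hμ hε hbB, Finset.card_insert_of_notMem hbB]
    have hstep := gap_step B.card κ
    set X := κ / 2 ^ B.card with hX
    by_cases hmn : n = m
    · subst hmn
      rw [if_pos (Finset.mem_insert_self _ _)]
      rw [if_neg hbB, sub_zero] at h1
      have h0 := rI_zero hμ hd h hε B hB hNB
      have h6 := hfar n (by
        rw [Int.cast_natCast, abs_of_pos hn0]
        nlinarith)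
      have e0 : ((n : ℤ) - (n : ℤ)) = 0 := sub_self _
      rw [e0]
      calc _ = ‖rI μ ε B n + ε n / 2 * (rI μ ε B 0 - 1) +
            (starRingEnd ℂ) (ε n) / 2 * rI μ ε B (n + n)‖ := by congr 1; ring
        _ ≤ ‖rI μ ε B n‖ + ‖ε n / 2 * (rI μ ε B 0 - 1)‖ +
            ‖(starRingEnd ℂ) (ε n) / 2 * rI μ ε B (n + n)‖ := norm_add₃_le
        _ ≤ X + 1 / 2 * (κ * (2 - 2 / 2 ^ B.card)) + 1 / 2 * X := by
            rw [norm_mul, norm_mul]
            gcongr
        _ ≤ κ * (1 + 2 * (2 - 2 / 2 ^ (B.card + 1))) := by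
            have h7 : κ * (1 + 2 * (2 - 2 / 2 ^ (B.card + 1))) =
              κ + 2 * (κ * (2 - 2 / 2 ^ B.card) + X) := by rw [hstep]; ring
            rw [h7]
            have h8 : 0 ≤ κ * (2 - 2 / 2 ^ B.card) := (norm_nonneg _).trans h0
            linarith
    · have h2 := hfar (m - n) (by
        push_cast
        exact hmA n (Finset.mem_insert_self _ _) hmn)
      have hmem : (m ∈ insert n B) ↔ m ∈ B := by
        rw [Finset.mem_insert]
        constructor
        · rintro (h | h)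
          · exact absurd h.symm hmn
          · exact h
        · exact Or.inr
      simp only [hmem]
      calc _ = ‖(rI μ ε B m - (if m ∈ B then ε m / 2 else 0)) + ε n / 2 * rI μ ε B (m - n) +
            (starRingEnd ℂ) (ε n) / 2 * rI μ ε B (m + n)‖ := by congr 1; ring
        _ ≤ ‖rI μ ε B m - (if m ∈ B then ε m / 2 else 0)‖ + ‖ε n / 2 * rI μ ε B (m - n)‖ +
            ‖(starRingEnd ℂ) (ε n) / 2 * rI μ ε B (m + n)‖ := norm_add₃_le
        _ ≤ κ * (1 + 2 * (2 - 2 / 2 ^ B.card)) + 1 / 2 * X + 1 / 2 * X := by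
            rw [norm_mul, norm_mul]
            gcongr
        _ ≤ κ * (1 + 2 * (2 - 2 / 2 ^ (B.card + 1))) := by
            have h7 : κ * (1 + 2 * (2 - 2 / 2 ^ (B.card + 1))) =
              κ + 2 * (κ * (2 - 2 / 2 ^ B.card) + X) := by rw [hstep]; ring
            rw [h7]
            linarith

end Forcing.RZ
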