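import Pool.Agent.Lib.MP_c80ac4_an.Criterion
import Pool.Agent.Lib.MP_c80ac4_an.CN.Final
import Pool.Agent.Lib.MP_c80ac4_an.CN.T4

/-! # Sets that are thick at all scales: bounded coefficients -/

namespace Forcing

open Complex Metric Set MeasureTheory Filter Topology

/-- `S` is thick at all scales: for all small `y` it contains a connected set that has a point at
distance comparable with `y` from the unit circle and diameter at least `κ y`. -/
def Thick (S : Set ℂ) : Prop :=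
  ∃ κ : ℝ, 0 < κ ∧ ∃ D : ℝ, ∃ y₀ : ℝ, 0 < y₀ ∧ ∀ y : ℝ, 0 < y → y < y₀ → ∃ K ⊆ S,
    IsPreconnected K ∧ ∃ z ∈ K, ∃ v ∈ K, y ≤ 1 - ‖z‖ ∧ 1 - ‖z‖ ≤ D * y ∧ κ * y ≤ ‖z - v‖

/-- a coefficient sequence with infinite support, as exponents and coefficients -/
lemma exists_sequence_full {q : ℝ} {c : ℕ → ℂ} (hL : Lac q c)
    (hinf : {m : ℕ | c m ≠ 0}.Infinite) (hc : Conv c) :
    ∃ (n : ℕ → ℕ) (a : ℕ → ℂ), GapForcing.HadamardGaps q n ∧ GapForcing.ConvergesInDisc a n ∧
      (∀ z, GapForcing.gapSeries a n z = ps c z) ∧ ∀ m, c m ≠ 0 → ∃ k, a k = c m := by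
  classical
  have hinf' : (Set.ofPred fun m : ℕ => c m ≠ 0).Infinite := hinf
  let n : ℕ → ℕ := Nat.nth fun m => c m ≠ 0
  have hmono : StrictMono n := Nat.nth_strictMono hinf'
  have hmem : ∀ k, c (n k) ≠ 0 := fun k => Nat.nth_mem_of_infinite hinf' k
  have hpos : ∀ k, 0 < n k := by
    intro k
    rcases Nat.eq_zero_or_pos (n k) with h | h
    · exact absurd (by rw [h]; exact hL.1) (hmem k)
    · exact h
  have hrange : ∀ m, c m ≠ 0 → m ∈ Set.range n := by
    intro m hm
    change m ∈ Set.range (Nat.nth fun m => c m ≠ 0)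
    rw [Nat.range_nth_of_infinite hinf']
    exact hm
  refine ⟨n, fun k => c (n k), ⟨hpos, hmono, ?_⟩, ?_, ?_, ?_⟩
  · intro k
    have h1 : (0:ℝ) < n k := by exact_mod_cast hpos k
    rw [le_div_iff₀ h1]
    exact hL.2 _ _ (hmono (Nat.lt_succ_self k)) (hmem k) (hmem (k + 1))
  · intro z hz
    exact (hc z hz).comp_injective hmono.injective
  · intro z
    unfold GapForcing.gapSeries ps
    apply Function.Injective.tsum_eq (f := fun m => c m * z ^ m) hmono.injective
    intro m hm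
    apply hrange
    intro h
    apply hm
    simp [h]
  · intro m hm
    obtain ⟨k, hk⟩ := hrange m hm
    exact ⟨k, by simp only; rw [hk]⟩

lemma norm_exp_neg_sub_le {a b : ℂ} (ha : 0 ≤ a.re) (hb : 0 ≤ b.re) :
    ‖Complex.exp (-a) - Complex.exp (-b)‖ ≤ ‖a - b‖ := by
  have key := Convex.norm_image_sub_le_of_norm_hasDerivWithin_le (𝕜 := ℂ)
    (f := fun z : ℂ => Complex.exp (-z)) (f' := fun z => -Complex.exp (-z)) (C := 1)
    (s := {z : ℂ | 0 ≤ z.re})
    (fun z _ => by
      have h1 : HasDerivAt (fun z : ℂ => -z) (-1) z := (hasDerivAt_id z).neg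
      have h2 := h1.cexp
      have h3 : HasDerivAt (fun z : ℂ => Complex.exp (-z)) (-Complex.exp (-z)) z := by
        rw [mul_neg, mul_one] at h2
        exact h2
      exact h3.hasDerivWithinAt)
    (fun z hz => by
      rw [norm_neg, Complex.norm_exp, Complex.neg_re, Real.exp_le_one_iff]
      have : 0 ≤ z.re := hz
      linarith) (convex_halfSpace_re_ge 0) hb ha
  simpa using key

/-- connected sets give paths -/
lemma exists_path_of_connected {a : ℕ → ℂ} {n : ℕ → ℕ}
    (hc : GapForcing.ConvergesInDisc a n) {S : Set ℂ} (hS : S ⊆ ball 0 1) (hT : Thick S)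
    (hb : GapForcing.BoundedOn (GapForcing.gapSeries a n) S) :
    ∃ κ D y0 M : ℝ, 0 < κ ∧ 0 < y0 ∧ ∀ y : ℝ, 0 < y → y < y0 → ∃ γ : ℝ → ℂ, Continuous γ ∧
      (∀ s, 0 < (γ s).re) ∧ (∀ s, ‖GapForcing.hpSeries a n (γ s)‖ ≤ M) ∧ y ≤ (γ 0).re ∧
      (γ 0).re ≤ D * y ∧ κ * y ≤ ‖γ 1 - γ 0‖ := by
  obtain ⟨κ, hκ, D, y₀, hy₀, hK⟩ := hT
  have hfc := GapForcing.continuousOn_gapSeries hc
  have hsub : closedBall (0:ℂ) (1 / 2) ⊆ ball 0 1 := closedBall_subset_ball (by norm_num)
  obtain ⟨M1, hM1⟩ := hb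
  obtain ⟨M2, hM2⟩ := (isCompact_closedBall (0:ℂ) (1 / 2)).exists_bound_of_continuousOn
    (hfc.mono hsub)
  set M : ℝ := max M1 M2 + 1 with hM
  set V : Set ℂ := {z ∈ ball (0:ℂ) 1 | ‖GapForcing.gapSeries a n z‖ < M} with hV
  have hVo : IsOpen V := hfc.norm.isOpen_inter_preimage isOpen_ball (isOpen_Iio (a := M))
  have hSV : S ⊆ V := fun z hz =>
    ⟨hS hz, lt_of_le_of_lt ((hM1 z hz).trans (le_max_left _ _)) (lt_add_one _)⟩
  have hBV : closedBall (0:ℂ) (1 / 2) ⊆ V := fun z hz =>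
    ⟨hsub hz, lt_of_le_of_lt ((hM2 z hz).trans (le_max_right _ _)) (lt_add_one _)⟩
  set D' : ℝ := max D 1 with hD'
  have hD'1 : 1 ≤ D' := le_max_right _ _
  have hD'0 : 0 < D' := by linarith
  refine ⟨κ, 2 * D', min y₀ (min (1 / (8 * D')) (2 / (5 * κ))), M, hκ, ?_, ?_⟩
  · exact lt_min hy₀ (lt_min (by positivity) (by positivity))
  intro y hy hyy
  have hy1 : y < y₀ := hyy.trans_le (min_le_left _ _)
  have hy2 : y < 1 / (8 * D') := hyy.trans_le ((min_le_right _ _).trans (min_le_left _ _))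
  have hy3 : y < 2 / (5 * κ) := hyy.trans_le ((min_le_right _ _).trans (min_le_right _ _))
  have hy2' : D' * y < 1 / 8 := by
    rw [lt_div_iff₀ (by positivity)] at hy2
    linarith
  have hy3' : κ * y < 2 / 5 := by
    rw [lt_div_iff₀ (by positivity)] at hy3
    linarith
  obtain ⟨K, hKS, hKc, z, hz, v, hv, hz1, hz2, hzv⟩ := hK y hy hy1
  have hzD : 1 - ‖z‖ ≤ D' * y := hz2.trans (by gcongr; exact le_max_left _ _)
  have hznorm : 7 / 8 < ‖z‖ := by linarith
  have hzpos : 0 < ‖z‖ := by linarith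
  -- height of z
  have hlog1 : y ≤ -Real.log ‖z‖ := by
    have := Real.log_le_sub_one_of_pos hzpos
    linarith
  have hlog2 : -Real.log ‖z‖ ≤ 2 * D' * y := by
    have h1 := Real.one_sub_inv_le_log_of_pos hzpos
    have h2 : ‖z‖⁻¹ - 1 ≤ 2 * (1 - ‖z‖) := by
      have h3 : ‖z‖⁻¹ ≤ 8 / 7 := by
        rw [inv_le_comm₀ hzpos (by norm_num)]
        norm_num
        linarith
      have h4 : ‖z‖ * ‖z‖⁻¹ = 1 := mul_inv_cancel₀ hzpos.ne'
      have h5 : ‖z‖⁻¹ - 1 = (1 - ‖z‖) * ‖z‖⁻¹ := by rw [sub_mul, h4, one_mul]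
      have h6 : 0 ≤ 1 - ‖z‖ := by linarith
      rw [h5]
      nlinarith
    linarith
  have hin : ∀ w : ℂ, Complex.exp (-w) ∈ V → 0 < w.re ∧
      ‖GapForcing.hpSeries a n w‖ ≤ M := by
    intro w hw
    constructor
    · have h2 : ‖Complex.exp (-w)‖ < 1 := by simpa using hw.1
      rw [Complex.norm_exp, Complex.neg_re, Real.exp_lt_one_iff] at h2
      linarith
    · rw [← GapForcing.gapSeries_exp]
      exact hw.2.le
  have hnormexp : ∀ w : ℂ, ‖Complex.exp (-w)‖ = Real.exp (-w.re) := by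
    intro w; rw [Complex.norm_exp, Complex.neg_re]
  by_cases hmeet : ∃ p ∈ K, ‖p‖ ≤ 1 / 2
  · -- the connected set reaches the inner disc
    obtain ⟨p, hpK, hp⟩ := hmeet
    have hconn : IsPreconnected (K ∪ closedBall (0:ℂ) (1 / 2)) :=
      hKc.union p hpK (by simpa using hp) (convex_closedBall 0 (1 / 2)).isPreconnected
    have hKV : K ∪ closedBall (0:ℂ) (1 / 2) ⊆ V := union_subset (hKS.trans hSV) hBV
    have h0 : (0:ℂ) ∈ K ∪ closedBall (0:ℂ) (1 / 2) := Or.inr (by simp)
    have hcomp : K ∪ closedBall (0:ℂ) (1 / 2) ⊆ connectedComponentIn V 0 :=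
      hconn.subset_connectedComponentIn h0 hKV
    have hVc : IsConnected (connectedComponentIn V 0) :=
      ⟨⟨0, hcomp h0⟩, isPreconnected_connectedComponentIn⟩
    have hpc := (hVo.connectedComponentIn.isConnected_iff_isPathConnected).1 hVc
    obtain ⟨pth, hpth⟩ := (hpc.joinedIn 0 (hcomp h0) z (hcomp (Or.inl hz))).mono
      (connectedComponentIn_subset _ _)
    obtain ⟨γ, hγ, hγ0, hγ1, hγV⟩ := GapForcing.exists_lift (r1 := 1 / 2) (by norm_num)
      (by linarith) pth hpth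
    have hre1 : (γ 1).re = -Real.log ‖z‖ := by
      have h1 := hnormexp (γ 1)
      rw [hγ1] at h1
      rw [h1, Real.log_exp]
      ring
    refine ⟨fun s => γ (1 - s), hγ.comp (by fun_prop), fun s => (hin _ (hγV _)).1,
      fun s => (hin _ (hγV _)).2, ?_, ?_, ?_⟩
    · simp only [sub_zero]
      rw [hre1]; exact hlog1
    · simp only [sub_zero]
      rw [hre1]; exact hlog2
    · simp only [sub_self, sub_zero]
      have h1 : (γ 0 - γ 1).re ≤ ‖γ 0 - γ 1‖ := Complex.re_le_norm _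
      rw [Complex.sub_re, hγ0, hre1] at h1
      have h2 : Real.log (1 / 2) = -Real.log 2 := by
        rw [one_div, Real.log_inv]
      rw [h2] at h1
      have h3 := Real.log_two_gt_d9
      linarith
  · push Not at hmeet
    set V0 : Set ℂ := V ∩ {z | z ≠ 0} with hV0
    have hV0o : IsOpen V0 := hVo.inter isOpen_ne
    have hKV : K ⊆ V0 := by
      intro p hp
      refine ⟨hSV (hKS hp), ?_⟩
      intro h0
      have h1 := hmeet p hp
      rw [h0, norm_zero] at h1
      linarith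
    have hcomp : K ⊆ connectedComponentIn V0 z := hKc.subset_connectedComponentIn hz hKV
    have hVc : IsConnected (connectedComponentIn V0 z) :=
      ⟨⟨z, hcomp hz⟩, isPreconnected_connectedComponentIn⟩
    have hpc := (hV0o.connectedComponentIn.isConnected_iff_isPathConnected).1 hVc
    obtain ⟨pth, hpth⟩ := (hpc.joinedIn z (hcomp hz) v (hcomp hv)).mono
      (connectedComponentIn_subset _ _)
    have hext : ∀ s, pth.extend s ∈ V0 := by
      intro s
      obtain ⟨t, ht⟩ : ∃ t, pth.extend s = pth t := by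
        have : pth.extend s ∈ Set.range pth := by
          rw [← pth.extend_range]
          exact ⟨s, rfl⟩
        obtain ⟨t, ht⟩ := this
        exact ⟨t, ht.symm⟩
      rw [ht]
      exact hpth t
    obtain ⟨g, hg, hge⟩ := GapForcing.exists_log pth.continuous_extend (fun s => (hext s).2)
    have hγe : ∀ s, Complex.exp (-(-g s)) = pth.extend s := by
      intro s; rw [neg_neg]; exact hge s
    have hre0 : (-g 0).re = -Real.log ‖z‖ := by
      have h1 := hnormexp (-g 0)
      rw [hγe, pth.extend_zero] at h1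
      rw [h1, Real.log_exp]
      ring
    have hin' : ∀ s, 0 < (-g s).re ∧ ‖GapForcing.hpSeries a n (-g s)‖ ≤ M := by
      intro s
      apply hin
      rw [hγe]
      exact (hext s).1
    refine ⟨fun s => -g s, hg.neg, fun s => (hin' s).1, fun s => (hin' s).2, ?_, ?_, ?_⟩
    · simp only; rw [hre0]; exact hlog1
    · simp only; rw [hre0]; exact hlog2
    · have h1 := norm_exp_neg_sub_le (hin' 1).1.le (hin' 0).1.le
      rw [hγe, hγe, pth.extend_zero, pth.extend_one] at h1
      rw [norm_sub_rev] at hzv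
      exact hzv.trans h1

/-- **Bounded coefficients.** A Hadamard gap series that is bounded on a set which is thick at all
scales has bounded coefficients. -/
theorem coeff_bdd_of_thick {S : Set ℂ} (hS : S ⊆ ball 0 1) (hT : Thick S) {q : ℝ} (hq : 1 < q)
    {c : ℕ → ℂ} (hL : Lac q c) (hc : Conv c) (hb : BddOnSet c S) : ∃ A : ℝ, ∀ n, ‖c n‖ ≤ A := by
  classical
  by_cases hfin : {m : ℕ | c m ≠ 0}.Finite
  · refine ⟨∑ m ∈ hfin.toFinset, ‖c m‖, fun m => ?_⟩
    by_cases hm : c m = 0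
    · rw [hm, norm_zero]
      exact Finset.sum_nonneg fun _ _ => norm_nonneg _
    · exact Finset.single_le_sum (f := fun m => ‖c m‖) (fun i _ => norm_nonneg _)
        (by simpa using hm)
  · obtain ⟨n, a, hn, hca, hps, hcov⟩ := exists_sequence_full hL hfin hc
    have hb' : GapForcing.BoundedOn (GapForcing.gapSeries a n) S := by
      obtain ⟨M, hM⟩ := hb
      exact ⟨M, fun z hz => by rw [hps]; exact hM z hz⟩
    obtain ⟨κ, D, y0, M, hκ, hy0, H⟩ := exists_path_of_connected hca hS hT hb'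
    obtain ⟨A, hA⟩ := GapForcing.coef_bounded_of_paths hq hn hca hκ hy0 H
    refine ⟨A, fun m => ?_⟩
    by_cases hm : c m = 0
    · rw [hm, norm_zero]
      exact (norm_nonneg _).trans (hA 0)
    · obtain ⟨k, hk⟩ := hcov m hm
      rw [← hk]
      exact hA k

/-- A connected set with a limit point on the unit circle is thick. -/
theorem thick_of_connected {S S₀ : Set ℂ} (hS : S ⊆ ball 0 1) (h0 : S₀ ⊆ S)
    (hconn : IsPreconnected S₀) (hlim : ∃ ζ ∈ closure S₀, ‖ζ‖ = 1) : Thick S := by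
  obtain ⟨ζ, hζ, hζ1⟩ := hlim
  obtain ⟨z1, hz1⟩ : S₀.Nonempty := closure_nonempty_iff.1 ⟨ζ, hζ⟩
  have hz1' : ‖z1‖ < 1 := by simpa using hS (h0 hz1)
  refine ⟨1, one_pos, 1, (1 - ‖z1‖) / 2, by linarith, ?_⟩
  intro y hy hyy
  -- a point close to the circle
  obtain ⟨z2, hz2, hz2S⟩ := mem_closure_iff.1 hζ {z : ℂ | 1 - y < ‖z‖}
    (isOpen_lt continuous_const continuous_norm) (by
      change 1 - y < ‖ζ‖
      rw [hζ1]; linarith)
  have hz2' : 1 - y < ‖z2‖ := hz2
  have hcont : ContinuousOn (fun z : ℂ => ‖z‖) S₀ := continuous_norm.continuousOn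
  obtain ⟨z, hz, hze⟩ := hconn.intermediate_value hz1 hz2S hcont
    (⟨by linarith, hz2'.le⟩ : 1 - y ∈ Icc (‖z1‖) (‖z2‖))
  simp only at hze
  refine ⟨S₀, h0, hconn, z, hz, z1, hz1, by linarith, by linarith, ?_⟩
  have h1 := norm_sub_norm_le z z1
  linarith

end Forcing
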